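import Pool.Statements.S10699
import Pool.Agent.Lib_helper80.Vu.Asm
import Pool.Agent.Lib_helper80.Vu.A12
import Pool.Agent.Lib_helper80.Vu.A34
import Pool.Agent.Lib_helper80.Vu.ADET
import Pool.Agent.Lib_helper80.Vu.DC
import Pool.Agent.Lib_helper80.Vu.FIN
import Pool.Agent.Lib_helper80.Vu.INF
import Pool.Agent.Lib_helper80.Vu.KAVG
import Pool.Agent.Lib_helper80.Vu.LLL
import Pool.Agent.Lib_helper80.Vu.LOC
import Pool.Agent.Lib_helper80.Vu.LemA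
import Pool.Agent.Lib_helper80.Vu.MGF
import Pool.Agent.Lib_helper80.Vu.RATES
import Pool.Agent.Lib_helper80.Vu.REC
import Pool.Agent.Lib_helper80.Vu.STAB
import Pool.Agent.Lib_helper80.Vu.TAIL23
import Pool.Agent.Lib_helper80.Vu.TFIB
import Pool.Agent.Lib_helper80.Vu.TOP
import Pool.Agent.Lib_helper80.Vu.KEY
import Pool.Agent.Lib_helper80.Vu.STEP
import Pool.Agent.Lib_helper80.Vu.CONC
import Pool.Agent.Lib_helper80.Vu.PAR

set_option autoImplicit false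
open Pool Pool.MP_aa8d53_co

namespace Pool.Agent.S10699

/-- For all ζ,ε>0 there is Δ₀ such that for Δ≥Δ₀, every finite graph with max degree ≤Δ and all codegrees of distinct vertices ≤ζΔ can be properly coloured from any lists of size at least ⌊(ζ+ε)Δ⌋. -/
theorem result :
    ∀ ζ ε : ℝ, 0 < ζ → 0 < ε → ∃ Δ₀ : ℕ, ∀ Δ : ℕ, Δ₀ ≤ Δ →
      ∀ (n : ℕ) (G : SimpleGraph (Fin n)) [DecidableRel G.Adj],
        (∀ v, G.degree v ≤ Δ) →
        (∀ u v, u ≠ v →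
          (((G.neighborFinset u ∩ G.neighborFinset v).card : ℕ) : ℝ) ≤ ζ * (Δ : ℝ)) →
        ∀ L : Fin n → Finset ℕ, (∀ v, ⌊(ζ + ε) * (Δ : ℝ)⌋₊ ≤ (L v).card) →
          ∃ f : Fin n → ℕ, (∀ v, f v ∈ L v) ∧ ∀ u v, G.Adj u v → f u ≠ f v := by
  have hdc : Vu80.S_DC := Vu80.dc Vu80.topb
  have hdcf : Vu80.S_DCF := Vu80.dcf Vu80.topb hdc Vu80.tfib
  have hA : Vu80.S_A := Vu80.lemA Vu80.a1 Vu80.a2 Vu80.a3 Vu80.a4 Vu80.adet
  have hkey : Vu80.S_KEY := Vu80.key hA Vu80.thr (Vu80.kavg Vu80.topb) hdc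
  have hrec : Vu80.S_REC := Vu80.recr (Vu80.pactb hdcf) (Vu80.ustep hdcf) (Vu80.cstep hdcf) hkey
  have hconc : Vu80.S_CONC := Vu80.conc Vu80.mgf Vu80.inf Vu80.topb
  exact Vu80.vu_of Vu80.rates hrec (Vu80.tail14 hconc) Vu80.tail2 Vu80.tail3 Vu80.lll Vu80.loc
    Vu80.finc (Vu80.par Vu80.stab)

end Pool.Agent.S10699
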