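import Pool.Statements.S00753
import Mathlib

set_option autoImplicit false
open Pool Pool.MP_104382_al

namespace Pool.Agent.S00753

/-! Ten integer matrices of determinant `23 ^ 2`, closed under adjugate. -/

def ma : Fin 10 → ℤ := ![22, 25, 0, 22, 22, 25, 14, 22, 21, 27]
def mb : Fin 10 → ℤ := ![-7, 7, 23, -23, 7, -7, 13, -13, -2, 2]
def mc : Fin 10 → ℤ := ![-3, 3, -23, 23, 3, -3, -17, 17, -19, 19]
def md : Fin 10 → ℤ := ![25, 22, 22, 0, 25, 22, 22, 14, 27, 21]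
def iv : Fin 10 → Fin 10 := ![1, 0, 3, 2, 5, 4, 7, 6, 9, 8]

lemma det_eq : ∀ i, ma i * md i - mb i * mc i = 529 := by decide
lemma iv_a : ∀ i, ma (iv i) = md i := by decide
lemma iv_b : ∀ i, mb (iv i) = - mb i := by decide
lemma iv_c : ∀ i, mc (iv i) = - mc i := by decide
lemma iv_d : ∀ i, md (iv i) = ma i := by decide
lemma iv_iv : ∀ i, iv (iv i) = i := by decide
lemma iv_inj {i j : Fin 10} (h : iv i = iv j) : i = j := by
  rw [← iv_iv i, h, iv_iv]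

lemma minors : ∀ i j, i ≠ j →
    (¬ (23 : ℤ) ∣ ma i * mb j - mb i * ma j) ∨ (¬ (23 : ℤ) ∣ ma i * md j - mb i * mc j) ∨
    (¬ (23 : ℤ) ∣ mc i * mb j - md i * ma j) ∨ (¬ (23 : ℤ) ∣ mc i * md j - md i * mc j) := by
  decide

instance : Fact (Nat.Prime 23) := ⟨by norm_num⟩

/-- the `23`-adic size of a pair of rationals -/
def sz (z w : ℚ) : ℚ := max (padicNorm 23 z) (padicNorm 23 w)

lemma nonarch_sub (s r : ℤ) (u w N : ℚ) (hu : padicNorm 23 u < N) (hw : padicNorm 23 w < N) :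
    padicNorm 23 (s * u - r * w) < N := by
  have h1 : padicNorm 23 ((s : ℚ) * u - r * w) ≤
      max (padicNorm 23 ((s : ℚ) * u)) (padicNorm 23 ((r : ℚ) * w)) := by
    have := padicNorm.nonarchimedean (p := 23) (q := (s : ℚ) * u) (r := -((r : ℚ) * w))
    rw [padicNorm.neg] at this
    simpa [sub_eq_add_neg] using this
  have h2 : padicNorm 23 ((s : ℚ) * u) ≤ padicNorm 23 u := by
    rw [padicNorm.mul]
    have := padicNorm.of_int (p := 23) s
    have h0 := padicNorm.nonneg (p := 23) u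
    nlinarith
  have h3 : padicNorm 23 ((r : ℚ) * w) ≤ padicNorm 23 w := by
    rw [padicNorm.mul]
    have := padicNorm.of_int (p := 23) r
    have h0 := padicNorm.nonneg (p := 23) w
    nlinarith
  exact lt_of_le_of_lt h1 (max_lt (lt_of_le_of_lt h2 hu) (lt_of_le_of_lt h3 hw))

/-- core lemma: a nonsingular pair of rows cannot both shrink. -/
lemma rows (r1 r2 s1 s2 : ℤ) (hm : ¬ (23 : ℤ) ∣ r1 * s2 - r2 * s1) (z1 z2 : ℚ)
    (h1 : padicNorm 23 (r1 * z1 + r2 * z2) < sz z1 z2)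
    (h2 : padicNorm 23 (s1 * z1 + s2 * z2) < sz z1 z2) : False := by
  have hm1 : padicNorm 23 ((r1 * s2 - r2 * s1 : ℤ) : ℚ) = 1 := by
    rw [padicNorm.int_eq_one_iff]
    exact_mod_cast hm
  have e1 : padicNorm 23 z1 < sz z1 z2 := by
    have := nonarch_sub s2 r2 _ _ _ h1 h2
    have e : (s2 : ℚ) * (r1 * z1 + r2 * z2) - r2 * (s1 * z1 + s2 * z2) =
        ((r1 * s2 - r2 * s1 : ℤ) : ℚ) * z1 := by push_cast; ring
    rw [e, padicNorm.mul, hm1, one_mul] at this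
    exact this
  have e2 : padicNorm 23 z2 < sz z1 z2 := by
    have := nonarch_sub r1 s1 _ _ _ h2 h1
    have e : (r1 : ℚ) * (s1 * z1 + s2 * z2) - s1 * (r1 * z1 + r2 * z2) =
        ((r1 * s2 - r2 * s1 : ℤ) : ℚ) * z2 := by push_cast; ring
    rw [e, padicNorm.mul, hm1, one_mul] at this
    exact this
  exact lt_irrefl _ (max_lt e1 e2)

lemma no_two (i j : Fin 10) (hij : i ≠ j) (z1 z2 : ℚ)
    (h1 : sz (ma i * z1 + mb i * z2) (mc i * z1 + md i * z2) < sz z1 z2)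
    (h2 : sz (ma j * z1 + mb j * z2) (mc j * z1 + md j * z2) < sz z1 z2) : False := by
  have a1 := lt_of_le_of_lt (le_max_left _ _) h1
  have a2 := lt_of_le_of_lt (le_max_right _ _) h1
  have b1 := lt_of_le_of_lt (le_max_left _ _) h2
  have b2 := lt_of_le_of_lt (le_max_right _ _) h2
  rcases minors i j hij with h | h | h | h
  · exact rows _ _ _ _ h z1 z2 a1 b1
  · exact rows _ _ _ _ h z1 z2 a1 b2
  · exact rows _ _ _ _ h z1 z2 a2 b1
  · exact rows _ _ _ _ h z1 z2 a2 b2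

/-- a rational functional not vanishing on `V` (if there is one) -/
noncomputable def ell (V : Submodule ℚ ℝ) : ℝ →ₗ[ℚ] ℚ :=
  open Classical in
  if h : ∃ ℓ : ℝ →ₗ[ℚ] ℚ, ∃ v ∈ V, ℓ v ≠ 0 then h.choose else 0

lemma ell_spec (V : Submodule ℚ ℝ) (v : ℝ) (hv : v ∈ V) (h0 : v ≠ 0) :
    ∃ w ∈ V, ell V w ≠ 0 := by
  have h : ∃ ℓ : ℝ →ₗ[ℚ] ℚ, ∃ v ∈ V, ℓ v ≠ 0 := by
    by_contra hcon
    push Not at hcon
    apply h0
    rw [← Module.forall_dual_apply_eq_zero_iff ℚ v]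
    intro φ
    exact hcon φ v hv
  unfold ell
  rw [dif_pos h]
  exact h.choose_spec

/-- The span of the two coordinates. -/
noncomputable def sp (x y : ℝ) : Submodule ℚ ℝ := Submodule.span ℚ {x, y}

lemma sp_mem_left (x y : ℝ) : x ∈ sp x y := Submodule.subset_span (by simp)
lemma sp_mem_right (x y : ℝ) : y ∈ sp x y := Submodule.subset_span (by simp)

lemma comb_mem (x y : ℝ) (a b : ℤ) : ((a : ℝ) * x + b * y) / 23 ∈ sp x y := by
  have : ((a : ℝ) * x + b * y) / 23 = ((a : ℚ) / 23) • x + ((b : ℚ) / 23) • y := by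
    rw [Rat.smul_def, Rat.smul_def]; push_cast; ring
  rw [this]
  exact Submodule.add_mem _ (Submodule.smul_mem _ _ (sp_mem_left x y))
    (Submodule.smul_mem _ _ (sp_mem_right x y))

/-- first coordinate of the moved point -/
noncomputable def p1 (i : Fin 10) (x y : ℝ) : ℝ := ((ma i : ℝ) * x + mb i * y) / 23
/-- second coordinate of the moved point -/
noncomputable def p2 (i : Fin 10) (x y : ℝ) : ℝ := ((mc i : ℝ) * x + md i * y) / 23

lemma back1 (i : Fin 10) (x y : ℝ) : p1 (iv i) (p1 i x y) (p2 i x y) = x := by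
  unfold p1 p2
  rw [iv_a, iv_b]
  have h : ((ma i : ℝ) * md i - mb i * mc i) = 529 := by exact_mod_cast det_eq i
  have : (((md i : ℤ) : ℝ) * (((ma i : ℝ) * x + mb i * y) / 23) +
      ((- mb i : ℤ) : ℝ) * (((mc i : ℝ) * x + md i * y) / 23)) / 23 =
      ((ma i : ℝ) * md i - mb i * mc i) * x / 529 := by
    push_cast; ring
  rw [this, h]; ring

lemma back2 (i : Fin 10) (x y : ℝ) : p2 (iv i) (p1 i x y) (p2 i x y) = y := by
  unfold p1 p2
  rw [iv_c, iv_d]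
  have h : ((ma i : ℝ) * md i - mb i * mc i) = 529 := by exact_mod_cast det_eq i
  have : (((- mc i : ℤ) : ℝ) * (((ma i : ℝ) * x + mb i * y) / 23) +
      ((ma i : ℤ) : ℝ) * (((mc i : ℝ) * x + md i * y) / 23)) / 23 =
      ((ma i : ℝ) * md i - mb i * mc i) * y / 529 := by
    push_cast; ring
  rw [this, h]; ring

lemma sp_le (i : Fin 10) (x y : ℝ) : sp (p1 i x y) (p2 i x y) ≤ sp x y := by
  unfold sp
  rw [Submodule.span_le]
  intro v hv
  simp only [Set.mem_insert_iff, Set.mem_singleton_iff] at hv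
  rcases hv with rfl | rfl
  · exact comb_mem x y _ _
  · exact comb_mem x y _ _

lemma sp_eq (i : Fin 10) (x y : ℝ) : sp (p1 i x y) (p2 i x y) = sp x y := by
  apply le_antisymm (sp_le i x y)
  have := sp_le (iv i) (p1 i x y) (p2 i x y)
  rwa [back1, back2] at this

/-- the two rational coordinates -/
noncomputable def q1 (x y : ℝ) : ℚ := ell (sp x y) x
noncomputable def q2 (x y : ℝ) : ℚ := ell (sp x y) y

lemma q_ne (x y : ℝ) (hx : x ≠ 0) : q1 x y ≠ 0 ∨ q2 x y ≠ 0 := by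
  by_contra hcon
  push Not at hcon
  obtain ⟨w, hw, hne⟩ := ell_spec (sp x y) x (sp_mem_left x y) hx
  apply hne
  rw [sp, Submodule.mem_span_pair] at hw
  obtain ⟨a, b, rfl⟩ := hw
  rw [map_add, map_smul, map_smul]
  have h1 : ell (sp x y) x = 0 := hcon.1
  have h2 : ell (sp x y) y = 0 := hcon.2
  rw [h1, h2]; simp

lemma ell_comb (V : Submodule ℚ ℝ) (x y : ℝ) (a b : ℤ) :
    ell V (((a : ℝ) * x + b * y) / 23) = (a * ell V x + b * ell V y) / 23 := by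
  have : ((a : ℝ) * x + b * y) / 23 = ((a : ℚ) / 23) • x + ((b : ℚ) / 23) • y := by
    rw [Rat.smul_def, Rat.smul_def]; push_cast; ring
  rw [this, map_add, map_smul, map_smul, smul_eq_mul, smul_eq_mul]
  ring

lemma q1_p (i : Fin 10) (x y : ℝ) :
    q1 (p1 i x y) (p2 i x y) = (ma i * q1 x y + mb i * q2 x y) / 23 := by
  unfold q1 q2
  rw [sp_eq]
  exact ell_comb _ x y _ _

lemma q2_p (i : Fin 10) (x y : ℝ) :
    q2 (p1 i x y) (p2 i x y) = (mc i * q1 x y + md i * q2 x y) / 23 := by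
  unfold q1 q2
  rw [sp_eq]
  exact ell_comb _ x y _ _

/-- move `i` shrinks at `(x,y)` -/
def bad (i : Fin 10) (x y : ℝ) : Prop :=
  sz (ma i * q1 x y + mb i * q2 x y) (mc i * q1 x y + md i * q2 x y) < sz (q1 x y) (q2 x y)

lemma bad_unique (i j : Fin 10) (x y : ℝ) (hi : bad i x y) (hj : bad j x y) : i = j := by
  by_contra h
  exact no_two i j h _ _ hi hj

lemma sz_mul (c z w : ℚ) : sz (c * z) (c * w) = padicNorm 23 c * sz z w := by
  unfold sz
  rw [padicNorm.mul, padicNorm.mul, ← mul_max_of_nonneg _ _ (padicNorm.nonneg c)]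

lemma norm23 : padicNorm 23 (23 : ℚ) = 1 / 23 := by
  have := padicNorm.padicNorm_p (p := 23) (by norm_num)
  rw [one_div]
  exact_mod_cast this

lemma sz_pos (z w : ℚ) (h : z ≠ 0 ∨ w ≠ 0) : 0 < sz z w := by
  rcases h with h | h
  · exact lt_max_of_lt_left (lt_of_le_of_ne (padicNorm.nonneg z)
      (fun e => h (padicNorm.zero_of_padicNorm_eq_zero e.symm)))
  · exact lt_max_of_lt_right (lt_of_le_of_ne (padicNorm.nonneg w)
      (fun e => h (padicNorm.zero_of_padicNorm_eq_zero e.symm)))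

lemma bad_of_good (i : Fin 10) (x y : ℝ) (hx : x ≠ 0) (hg : ¬ bad i x y) :
    bad (iv i) (p1 i x y) (p2 i x y) := by
  unfold bad at hg ⊢
  rw [q1_p, q2_p, iv_a, iv_b, iv_c, iv_d]
  push Not at hg
  have h : ((ma i : ℚ) * md i - mb i * mc i) = 529 := by exact_mod_cast det_eq i
  set z := q1 x y
  set w := q2 x y
  have e1 : ((md i : ℤ) : ℚ) * ((ma i * z + mb i * w) / 23) +
      ((- mb i : ℤ) : ℚ) * ((mc i * z + md i * w) / 23) = 23 * z := by
    have : ((md i : ℤ) : ℚ) * ((ma i * z + mb i * w) / 23) +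
      ((- mb i : ℤ) : ℚ) * ((mc i * z + md i * w) / 23) =
      ((ma i : ℚ) * md i - mb i * mc i) * z / 23 := by push_cast; ring
    rw [this, h]; ring
  have e2 : ((- mc i : ℤ) : ℚ) * ((ma i * z + mb i * w) / 23) +
      ((ma i : ℤ) : ℚ) * ((mc i * z + md i * w) / 23) = 23 * w := by
    have : ((- mc i : ℤ) : ℚ) * ((ma i * z + mb i * w) / 23) +
      ((ma i : ℤ) : ℚ) * ((mc i * z + md i * w) / 23) =
      ((ma i : ℚ) * md i - mb i * mc i) * w / 23 := by push_cast; ring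
    rw [this, h]; ring
  rw [e1, e2, sz_mul, norm23]
  have e3 : sz ((ma i * z + mb i * w) / 23) ((mc i * z + md i * w) / 23) =
      23 * sz (ma i * z + mb i * w) (mc i * z + md i * w) := by
    have := sz_mul (1 / 23) (ma i * z + mb i * w) (mc i * z + md i * w)
    rw [padicNorm.div, norm23, padicNorm.one] at this
    have e4 : ((ma i : ℚ) * z + mb i * w) / 23 = 1 / 23 * (ma i * z + mb i * w) := by ring
    have e5 : ((mc i : ℚ) * z + md i * w) / 23 = 1 / 23 * (mc i * z + md i * w) := by ring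
    rw [e4, e5, this]
    norm_num
  rw [e3]
  have hpos : 0 < sz z w := sz_pos _ _ (q_ne x y hx)
  nlinarith


/-- the point stays in the open square -/
def stays (i : Fin 10) (x y : ℝ) : Prop :=
  (0 < p1 i x y ∧ p1 i x y < 1) ∧ (0 < p2 i x y ∧ p2 i x y < 1)

lemma stays_of (i : Fin 10) (a b c d : ℤ) (x y : ℝ) (ha : ma i = a) (hb : mb i = b)
    (hc : mc i = c) (hd : md i = d)
    (h1 : 0 < (a : ℝ) * x + b * y) (h2 : (a : ℝ) * x + b * y < 23)
    (h3 : 0 < (c : ℝ) * x + d * y) (h4 : (c : ℝ) * x + d * y < 23) : stays i x y := by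
  unfold stays p1 p2
  rw [ha, hb, hc, hd]
  refine ⟨⟨?_, ?_⟩, ?_, ?_⟩ <;> linarith

/-- three-fold cover of the open square -/
lemma cover (x y : ℝ) (hx0 : 0 < x) (hx1 : x < 1) (hy0 : 0 < y) (hy1 : y < 1) :
    ∃ i j k : Fin 10, i ≠ j ∧ i ≠ k ∧ j ≠ k ∧ stays i x y ∧ stays j x y ∧ stays k x y := by
  have S0 := stays_of 0 22 (-7) (-3) 25 x y rfl rfl rfl rfl
  have S1 := stays_of 1 25 7 3 22 x y rfl rfl rfl rfl
  have S2 := stays_of 2 0 23 (-23) 22 x y rfl rfl rfl rfl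
  have S3 := stays_of 3 22 (-23) 23 0 x y rfl rfl rfl rfl
  have S4 := stays_of 4 22 7 3 25 x y rfl rfl rfl rfl
  have S5 := stays_of 5 25 (-7) (-3) 22 x y rfl rfl rfl rfl
  have S6 := stays_of 6 14 13 (-17) 22 x y rfl rfl rfl rfl
  have S7 := stays_of 7 22 (-13) 17 14 x y rfl rfl rfl rfl
  have S8 := stays_of 8 21 (-2) (-19) 27 x y rfl rfl rfl rfl
  push_cast at S0 S1 S2 S3 S4 S5 S6 S7 S8
  by_cases c1 : 0 < 22 * x - 7 * y
  · by_cases c2 : 0 < -23 * x + 22 * y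
    · refine ⟨2, 5, 8, by decide, by decide, by decide, S2 ?_ ?_ ?_ ?_, S5 ?_ ?_ ?_ ?_, S8 ?_ ?_ ?_ ?_⟩ <;>
        linarith
    · by_cases c3 : 0 < -19 * x + 27 * y
      · refine ⟨0, 5, 8, by decide, by decide, by decide, S0 ?_ ?_ ?_ ?_, S5 ?_ ?_ ?_ ?_, S8 ?_ ?_ ?_ ?_⟩ <;>
          linarith
      · by_cases c4 : 0 < -22 * x - 7 * y + 23
        · refine ⟨3, 4, 7, by decide, by decide, by decide, S3 ?_ ?_ ?_ ?_, S4 ?_ ?_ ?_ ?_, S7 ?_ ?_ ?_ ?_⟩ <;>
            linarith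
        · by_cases c5 : 0 < -17 * x - 14 * y + 23
          · refine ⟨0, 3, 7, by decide, by decide, by decide, S0 ?_ ?_ ?_ ?_, S3 ?_ ?_ ?_ ?_, S7 ?_ ?_ ?_ ?_⟩ <;>
              linarith
          · refine ⟨0, 3, 5, by decide, by decide, by decide, S0 ?_ ?_ ?_ ?_, S3 ?_ ?_ ?_ ?_, S5 ?_ ?_ ?_ ?_⟩ <;>
              linarith
  · refine ⟨1, 2, 6, by decide, by decide, by decide, S1 ?_ ?_ ?_ ?_, S2 ?_ ?_ ?_ ?_, S6 ?_ ?_ ?_ ?_⟩ <;>
      linarith

/-- two different growing moves that stay in the square -/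
lemma two_good (x y : ℝ) (hx0 : 0 < x) (hx1 : x < 1) (hy0 : 0 < y) (hy1 : y < 1) :
    ∃ i j : Fin 10, i ≠ j ∧ stays i x y ∧ stays j x y ∧ ¬ bad i x y ∧ ¬ bad j x y := by
  obtain ⟨i, j, k, hij, hik, hjk, hi, hj, hk⟩ := cover x y hx0 hx1 hy0 hy1
  by_cases bi : bad i x y
  · refine ⟨j, k, hjk, hj, hk, fun h => hij (bad_unique _ _ _ _ bi h),
      fun h => hik (bad_unique _ _ _ _ bi h)⟩
  · by_cases bj : bad j x y
    · exact ⟨i, k, hik, hi, hk, bi, fun h => hjk (bad_unique _ _ _ _ bj h)⟩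
    · exact ⟨i, j, hij, hi, hj, bi, bj⟩

/-- the open square -/
def Sq : Set (Fin 2 → ℝ) := {v : Fin 2 → ℝ | ∀ k, 0 < v k ∧ v k < 1}

lemma exists_moves : ∃ f g : (Fin 2 → ℝ) → Fin 10, ∀ v ∈ Sq,
    f v ≠ g v ∧ stays (f v) (v 0) (v 1) ∧ stays (g v) (v 0) (v 1) ∧
      ¬ bad (f v) (v 0) (v 1) ∧ ¬ bad (g v) (v 0) (v 1) := by
  have h : ∀ v : Fin 2 → ℝ, ∃ p : Fin 10 × Fin 10, v ∈ Sq →
      p.1 ≠ p.2 ∧ stays p.1 (v 0) (v 1) ∧ stays p.2 (v 0) (v 1) ∧
      ¬ bad p.1 (v 0) (v 1) ∧ ¬ bad p.2 (v 0) (v 1) := by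
    intro v
    by_cases hv : v ∈ Sq
    · obtain ⟨i, j, h⟩ := two_good (v 0) (v 1) (hv 0).1 (hv 0).2 (hv 1).1 (hv 1).2
      exact ⟨(i, j), fun _ => h⟩
    · exact ⟨(0, 0), fun h => absurd h hv⟩
  choose F hF using h
  exact ⟨fun v => (F v).1, fun v => (F v).2, hF⟩

/-- the moved point -/
noncomputable def mv (i : Fin 10) (v : Fin 2 → ℝ) : Fin 2 → ℝ := ![p1 i (v 0) (v 1), p2 i (v 0) (v 1)]

lemma mv_mem (i : Fin 10) (v : Fin 2 → ℝ) (h : stays i (v 0) (v 1)) : mv i v ∈ Sq := by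
  intro k
  fin_cases k
  · exact h.1
  · exact h.2

lemma mv_back (i : Fin 10) (v : Fin 2 → ℝ) : mv (iv i) (mv i v) = v := by
  ext k
  fin_cases k
  · exact back1 i (v 0) (v 1)
  · exact back2 i (v 0) (v 1)

/-- the matrix of the inverse move -/
noncomputable def mat (i : Fin 10) : Matrix.SpecialLinearGroup (Fin 2) ℝ :=
  ⟨!![(ma i : ℝ) / 23, (mb i : ℝ) / 23; (mc i : ℝ) / 23, (md i : ℝ) / 23], by
    rw [Matrix.det_fin_two_of]
    have h : ((ma i : ℝ) * md i - mb i * mc i) = 529 := by exact_mod_cast det_eq i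
    have : (ma i : ℝ) / 23 * ((md i : ℝ) / 23) - (mb i : ℝ) / 23 * ((mc i : ℝ) / 23) =
      ((ma i : ℝ) * md i - mb i * mc i) / 529 := by ring
    rw [this, h]; norm_num⟩

lemma mat_mulVec (i : Fin 10) (v : Fin 2 → ℝ) :
    Matrix.mulVec ((mat i : Matrix (Fin 2) (Fin 2) ℝ)) v = mv i v := by
  ext k
  fin_cases k
  · simp [mat, mv, Matrix.mulVec, dotProduct, Fin.sum_univ_two, p1]; ring
  · simp [mat, mv, Matrix.mulVec, dotProduct, Fin.sum_univ_two, p2]; ring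

/-- two growing moves landing at the same point have the same label and the same source. -/
lemma landing (i j : Fin 10) (v w : Fin 2 → ℝ) (hv : v ∈ Sq) (hw : w ∈ Sq)
    (hi : ¬ bad i (v 0) (v 1)) (hj : ¬ bad j (w 0) (w 1)) (h : mv i v = mv j w) :
    i = j ∧ v = w := by
  have b1 := bad_of_good i (v 0) (v 1) (ne_of_gt (hv 0).1) hi
  have b2 := bad_of_good j (w 0) (w 1) (ne_of_gt (hw 0).1) hj
  have e1 : p1 i (v 0) (v 1) = p1 j (w 0) (w 1) := congrFun h 0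
  have e2 : p2 i (v 0) (v 1) = p2 j (w 0) (w 1) := congrFun h 1
  rw [e1, e2] at b1
  have hij : i = j := iv_inj (bad_unique _ _ _ _ b1 b2)
  subst hij
  refine ⟨rfl, ?_⟩
  rw [← mv_back i v, h, mv_back]

/-- The open unit square in the plane can be split into finitely many pairwise disjoint pieces forming two groups, and each group can be moved by determinant-one real linear maps so that its images exactly cover the square again. -/
theorem result :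
    ∃ (n m : ℕ) (A : Fin n → Set (Fin 2 → ℝ)) (B : Fin m → Set (Fin 2 → ℝ))
      (g : Fin n → Matrix.SpecialLinearGroup (Fin 2) ℝ)
      (h : Fin m → Matrix.SpecialLinearGroup (Fin 2) ℝ),
      (∀ i, A i ⊆ {v : Fin 2 → ℝ | ∀ k, 0 < v k ∧ v k < 1}) ∧
      (∀ j, B j ⊆ {v : Fin 2 → ℝ | ∀ k, 0 < v k ∧ v k < 1}) ∧
      Pairwise (fun i i' => Disjoint (A i) (A i')) ∧
      Pairwise (fun j j' => Disjoint (B j) (B j')) ∧
      (∀ i j, Disjoint (A i) (B j)) ∧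
      (⋃ i, (fun v => Matrix.mulVec ((g i : Matrix (Fin 2) (Fin 2) ℝ)) v) '' A i)
        = {v : Fin 2 → ℝ | ∀ k, 0 < v k ∧ v k < 1} ∧
      (⋃ j, (fun v => Matrix.mulVec ((h j : Matrix (Fin 2) (Fin 2) ℝ)) v) '' B j)
        = {v : Fin 2 → ℝ | ∀ k, 0 < v k ∧ v k < 1} := by
  obtain ⟨f, g, hfg⟩ := exists_moves
  refine ⟨10, 10, fun i => mv i '' {v | v ∈ Sq ∧ f v = i}, fun i => mv i '' {v | v ∈ Sq ∧ g v = i},
    fun i => mat (iv i), fun i => mat (iv i), ?_, ?_, ?_, ?_, ?_, ?_, ?_⟩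
  · rintro i _ ⟨v, ⟨hv, rfl⟩, rfl⟩
    exact mv_mem _ _ (hfg v hv).2.1
  · rintro i _ ⟨v, ⟨hv, rfl⟩, rfl⟩
    exact mv_mem _ _ (hfg v hv).2.2.1
  · intro i j hij
    rw [Set.disjoint_left]
    rintro _ ⟨v, ⟨hv, rfl⟩, rfl⟩ ⟨w, ⟨hw, rfl⟩, e⟩
    exact hij (landing _ _ v w hv hw (hfg v hv).2.2.2.1 (hfg w hw).2.2.2.1 e.symm).1
  · intro i j hij
    rw [Set.disjoint_left]
    rintro _ ⟨v, ⟨hv, rfl⟩, rfl⟩ ⟨w, ⟨hw, rfl⟩, e⟩
    exact hij (landing _ _ v w hv hw (hfg v hv).2.2.2.2 (hfg w hw).2.2.2.2 e.symm).1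
  · intro i j
    rw [Set.disjoint_left]
    rintro _ ⟨v, ⟨hv, rfl⟩, rfl⟩ ⟨w, ⟨hw, rfl⟩, e⟩
    obtain ⟨h1, h2⟩ := landing _ _ v w hv hw (hfg v hv).2.2.2.1 (hfg w hw).2.2.2.2 e.symm
    rw [← h2] at h1
    exact (hfg v hv).1 h1
  · ext w
    simp only [Set.mem_iUnion, Set.mem_image, Set.mem_ofPred_eq]
    constructor
    · rintro ⟨i, _, ⟨v, ⟨hv, rfl⟩, rfl⟩, rfl⟩
      rw [mat_mulVec, mv_back]
      exact hv
    · intro hw
      exact ⟨f w, mv (f w) w, ⟨w, ⟨hw, rfl⟩, rfl⟩, by rw [mat_mulVec, mv_back]⟩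
  · ext w
    simp only [Set.mem_iUnion, Set.mem_image, Set.mem_ofPred_eq]
    constructor
    · rintro ⟨i, _, ⟨v, ⟨hv, rfl⟩, rfl⟩, rfl⟩
      rw [mat_mulVec, mv_back]
      exact hv
    · intro hw
      exact ⟨g w, mv (g w) w, ⟨w, ⟨hw, rfl⟩, rfl⟩, by rw [mat_mulVec, mv_back]⟩

end Pool.Agent.S00753
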