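import Pool.Statements.S00912
import Pool.Agent.Lib_helper57.QI.Main

set_option autoImplicit false
open Pool Pool.MP_20ff22_al

namespace Pool.Agent.S00912

/-- The negation of the preceding statement: For all groups G and H: if G is automatic (regular word acceptor onto G with regular padded multiplier languages) and G is quasi-isometric to H via word metrics of finite generating sets, then H is automatic. -/
theorem result :
    ¬ (∀ (G H : Type) [Group G] [Group H],
      (∃ (α : Type) (_ : Fintype α) (μ : α → G) (σ : Type) (_ : Fintype σ) (W : DFA α σ),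
        (∀ g : G, ∃ w : List α, w ∈ W.accepts ∧ (w.map μ).prod = g) ∧
        ∀ x : Option α, ∃ (τ : Type) (_ : Fintype τ) (M : DFA (Option α × Option α) τ),
          ∀ p : List (Option α × Option α), p ∈ M.accepts ↔
            ∃ u v : List α, u ∈ W.accepts ∧ v ∈ W.accepts ∧
              p = (u.map some ++ List.replicate (v.length - u.length) none).zip
                    (v.map some ++ List.replicate (u.length - v.length) none) ∧
              (u.map μ).prod * (x.map μ).getD 1 = (v.map μ).prod) →
      (∃ (S : Finset G) (T : Finset H) (f : G → H) (K C : ℕ),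
        Subgroup.closure (S : Set G) = ⊤ ∧ Subgroup.closure (T : Set H) = ⊤ ∧
        (∀ a b : G,
          (SimpleGraph.fromRel (fun h k : H => ∃ t ∈ T, k = h * t)).dist (f a) (f b)
            ≤ K * (SimpleGraph.fromRel (fun g k : G => ∃ s ∈ S, k = g * s)).dist a b + C) ∧
        (∀ a b : G,
          (SimpleGraph.fromRel (fun g k : G => ∃ s ∈ S, k = g * s)).dist a b
            ≤ K * (SimpleGraph.fromRel (fun h k : H => ∃ t ∈ T, k = h * t)).dist (f a) (f b) + C) ∧
        (∀ h : H, ∃ g : G,
          (SimpleGraph.fromRel (fun h' k : H => ∃ t ∈ T, k = h' * t)).dist (f g) h ≤ C)) →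
      (∃ (α : Type) (_ : Fintype α) (μ : α → H) (σ : Type) (_ : Fintype σ) (W : DFA α σ),
        (∀ g : H, ∃ w : List α, w ∈ W.accepts ∧ (w.map μ).prod = g) ∧
        ∀ x : Option α, ∃ (τ : Type) (_ : Fintype τ) (M : DFA (Option α × Option α) τ),
          ∀ p : List (Option α × Option α), p ∈ M.accepts ↔
            ∃ u v : List α, u ∈ W.accepts ∧ v ∈ W.accepts ∧
              p = (u.map some ++ List.replicate (v.length - u.length) none).zip
                    (v.map some ++ List.replicate (u.length - v.length) none) ∧
              (u.map μ).prod * (x.map μ).getD 1 = (v.map μ).prod)) :=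
  H57.QI.not_qi_invariant

end Pool.Agent.S00912
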