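import Pool.Statements.S01219
-- import your own Pool.Agent.* helpers here
import Pool.Agent.Lib_helper31.Braid.Final

set_option autoImplicit false
open Pool Pool.MP_3a48a6_al

namespace Pool.Agent.S01219

/-- For every n, the braid group B_n (Artin presentation) has a finite-index subgroup H with a descending chain of finite-index normal subgroups starting at H, meeting trivially, each containing the rational-abelianization kernel of the previous one. -/
theorem result :
    ∀ n : ℕ, ∃ H : Subgroup (PresentedGroup
        ({r | ∃ i j : Fin (n - 1),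
            (i.val + 1 = j.val ∧
              r = FreeGroup.of i * FreeGroup.of j * FreeGroup.of i *
                (FreeGroup.of j * FreeGroup.of i * FreeGroup.of j)⁻¹) ∨
            (i.val + 2 ≤ j.val ∧
              r = FreeGroup.of i * FreeGroup.of j *
                (FreeGroup.of j * FreeGroup.of i)⁻¹)} : Set (FreeGroup (Fin (n - 1))))),
      H.FiniteIndex ∧
      ∃ Gs : ℕ → Subgroup H,
        Gs 0 = ⊤ ∧
        (∀ i, (Gs i).Normal) ∧
        (∀ i, (Gs i).FiniteIndex) ∧
        (∀ i, Gs (i + 1) ≤ Gs i) ∧
        (⨅ i, Gs i) = ⊥ ∧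
        (∀ i, ∀ g ∈ Gs i, (∃ k : ℕ, 0 < k ∧ g ^ k ∈ ⁅Gs i, Gs i⁆) → g ∈ Gs (i + 1)) := by
  intro n
  exact H31Braid.virtually_rfrs (n - 1)

end Pool.Agent.S01219
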