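import Pool.Statements.S01237
import Pool.Agent.Lib_helper30.Final

set_option autoImplicit false
open Pool Pool.MP_3bcd2d_al

namespace Pool.Agent.S01237

/-- Some computable function decides, for every equation over Thompson's group F (standard 2-generator presentation) in which each variable occurs exactly twice counting inverses, whether some assignment of elements of F to the variables solves it. -/
theorem result :
    ∀ a b : FreeGroup Bool, a = FreeGroup.of false → b = FreeGroup.of true →
    ∀ rels : Set (FreeGroup Bool),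
      rels = {(a * b⁻¹) * (a⁻¹ * b * a) * (a * b⁻¹)⁻¹ * (a⁻¹ * b * a)⁻¹,
              (a * b⁻¹) * (a⁻¹ * a⁻¹ * b * a * a) * (a * b⁻¹)⁻¹ * (a⁻¹ * a⁻¹ * b * a * a)⁻¹} →
    ∃ f : List (Bool × (Bool ⊕ ℕ)) → Bool, Computable f ∧
      ∀ w : List (Bool × (Bool ⊕ ℕ)),
        (∀ n : ℕ, w.countP (fun p : Bool × (Bool ⊕ ℕ) => decide (p.2 = Sum.inr n)) = 0 ∨
            w.countP (fun p : Bool × (Bool ⊕ ℕ) => decide (p.2 = Sum.inr n)) = 2) →
        (f w = true ↔
          ∃ σ : ℕ → PresentedGroup rels,
            (w.map (fun p : Bool × (Bool ⊕ ℕ) =>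
              if p.1 then
                Sum.elim (fun c : Bool => (PresentedGroup.of c : PresentedGroup rels)) σ p.2
              else
                (Sum.elim (fun c : Bool => (PresentedGroup.of c : PresentedGroup rels)) σ p.2)⁻¹)).prod = 1) := by
  rintro a b rfl rfl rels rfl
  obtain ⟨inst, hcomp⟩ := Pool.Agent.Lib_helper30.decidable_quadratic
  refine ⟨fun w => decide (Pool.Agent.Lib_helper30.Quad w ∧ Pool.Agent.Lib_helper30.Solv w),
    hcomp, ?_⟩
  intro w hq
  rw [decide_eq_true_iff, ← Pool.Agent.Lib_helper30.Solv_iff]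
  constructor
  · rintro ⟨_, σ, hσ⟩
    exact ⟨σ, hσ⟩
  · rintro ⟨σ, hσ⟩
    exact ⟨hq, σ, hσ⟩

end Pool.Agent.S01237
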