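import Pool.Statements.S01247
import Pool.Agent.Olsh.Stage0
import Pool.Agent.Olsh.StepC
import Pool.Agent.Olsh.ClosedG

set_option autoImplicit false
open Pool Pool.MP_3cdb71_al

namespace Pool.Agent.S01247

/-- There is a group G with a generating set X such that every map from X into G extends to an endomorphism of G (G is relatively free), G has two elements generating a free semigroup of rank 2, and the commutator subgroup [G,G] is finitely generated. -/
theorem result :
    ∃ (G : Type) (_ : Group G) (X : Set G),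
      Subgroup.closure X = ⊤ ∧
      (∀ f : X → G, ∃ φ : G →* G, ∀ x : X, φ (x : G) = f x) ∧
      (∃ a b : G,
        Function.Injective
          (FreeSemigroup.lift (fun i : Bool => if i then a else b) : FreeSemigroup Bool → G)) ∧
      (commutator G).FG :=
  Pool.Agent.Olsh.final_of_step
    (Pool.Agent.Olsh.STEP Pool.Agent.Olsh.ClosedG.cMALN Pool.Agent.Olsh.ClosedG.cKOV
      Pool.Agent.Olsh.ClosedG.cKROT Pool.Agent.Olsh.ClosedG.cKLC Pool.Agent.Olsh.ClosedG.cVAR
      Pool.Agent.Olsh.ClosedG.cSHR Pool.Agent.Olsh.ClosedG.cEW1 Pool.Agent.Olsh.ClosedG.cDIR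
      Pool.Agent.Olsh.ClosedG.cCONEQ Pool.Agent.Olsh.ClosedG.cTRANSFER
      Pool.Agent.Olsh.ClosedG.cCLASS Pool.Agent.Olsh.ClosedG.cCLLL Pool.Agent.Olsh.ClosedG.cBEAX
      Pool.Agent.Olsh.ClosedG.cANGS Pool.Agent.Olsh.ClosedG.cSPL Pool.Agent.Olsh.ClosedG.cSPS
      Pool.Agent.Olsh.ClosedG.cSPD Pool.Agent.Olsh.ClosedG.cSPF Pool.Agent.Olsh.ClosedG.cESEQ
      Pool.Agent.Olsh.ClosedG.cCONEGM Pool.Agent.Olsh.ClosedG.cKFREE
      Pool.Agent.Olsh.ClosedG.cPSA Pool.Agent.Olsh.ClosedG.cANGX)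

end Pool.Agent.S01247
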