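import Pool.Statements.S01889
import Pool.Agent.Lib_helper36.Abund.Final

set_option autoImplicit false
open Pool Pool.MP_7221b6_al

namespace Pool.Agent.S01889

/-- There is a function f such that for every prime p and finite p-group P of order p^(2n+e), e in {0,1}, with p^e+(p^2-1)(n+(p-1)a) conjugacy classes (abundance a), some element of P has centralizer of order at most p^f(a). -/
theorem result :
    ∃ f : ℕ → ℕ, ∀ p : ℕ, p.Prime →
      ∀ (P : Type) [Group P] [Finite P], IsPGroup p P →
        ∀ n e a : ℕ, e < 2 → Nat.card P = p ^ (2 * n + e) →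
          Nat.card (ConjClasses P) = p ^ e + (p ^ 2 - 1) * (n + (p - 1) * a) →
          ∃ s : P, Nat.card (Subgroup.centralizer ({s} : Set P)) ≤ p ^ (f a) := by
  refine ⟨fun a => 5 * (a + 6), ?_⟩
  intro p hp P _ _ hP n e a he hcard hk
  have : Fact p.Prime := ⟨hp⟩
  exact Pool.Agent.Abund.main P hP n e a he hcard hk

end Pool.Agent.S01889
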