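import Pool.Statements.S02120
import Pool.Agent.Lib_helper96.HopfFinal

set_option autoImplicit false
open Pool Pool.MP_836a1f_al

namespace Pool.Agent.S02120

/-- The negation of the preceding statement: For every group G, if every surjective group endomorphism of G is injective, then every surjective ring endomorphism of the integral group ring ℤ[G] is injective. -/
theorem result :
    ¬ (∀ (G : Type) [Group G],
      (∀ f : G →* G, Function.Surjective f → Function.Injective f) →
      ∀ φ : MonoidAlgebra ℤ G →+* MonoidAlgebra ℤ G,
        Function.Surjective φ → Function.Injective φ) := by
  intro h
  obtain ⟨G, inst, h1, φ, h2, h3⟩ := Pool.Agent.HopfZG.main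
  exact h3 (h G h1 φ h2)

end Pool.Agent.S02120
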