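import Pool.Statements.S02214
import Pool.Agent.Lib_helper46.Twist.Final

set_option autoImplicit false
open Pool Pool.MP_8b7a67_al

namespace Pool.Agent.S02214

/-- The negation of the preceding statement: There is a computable procedure that, given a rank r, automorphisms of the free group of rank r given by generator images, and an equation in constants and twisted variables x_i^φ, decides whether the equation has a solution in that free group. -/
theorem result :
    ¬ (∃ f : ℕ × List ((ℕ ⊕ ℕ) × Bool) × List (ℕ × List (List (ℕ × Bool))) → Bool,
      Computable f ∧
      ∀ (r : ℕ) (w : List ((ℕ ⊕ ℕ) × Bool)) (S : List (ℕ × List (List (ℕ × Bool)))),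
        (∀ p ∈ w, ∀ j : ℕ, p.1 = Sum.inr j → j < S.length) →
        (∀ q ∈ S, q.2.length = r ∧
          Function.Bijective
            (FreeGroup.lift (fun k : Fin r =>
              FreeGroup.lift
                (fun m : ℕ => if h : m < r then FreeGroup.of (⟨m, h⟩ : Fin r) else 1)
                (FreeGroup.mk (q.2.getD k.val [])))
              : FreeGroup (Fin r) → FreeGroup (Fin r))) →
        (f (r, w, S) = true ↔
          ∃ x : ℕ → FreeGroup (Fin r),
            FreeGroup.lift
              (Sum.elim
                (fun m : ℕ => if h : m < r then FreeGroup.of (⟨m, h⟩ : Fin r) else 1)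
                (fun j : ℕ =>
                  FreeGroup.lift (fun k : Fin r =>
                    FreeGroup.lift
                      (fun m : ℕ => if h : m < r then FreeGroup.of (⟨m, h⟩ : Fin r) else 1)
                      (FreeGroup.mk ((S.getD j (0, [])).2.getD k.val [])))
                    (x (S.getD j (0, [])).1)))
              (FreeGroup.mk w) = 1)) := by
  rintro ⟨f, hf, h⟩
  exact Pool.Agent.Lib_helper46.Twist.undecidable f hf h

end Pool.Agent.S02214
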