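import Pool.Statements.S02522
import Pool.Agent.Lib_helper70.FSMain

set_option autoImplicit false
open Pool Pool.MP_a0fd22_al

namespace Pool.Agent.S02522

/-- The negation of the preceding statement: Every regular Noetherian local ring of prime characteristic p that is Frobenius split is split F-regular: for each nonzero c there is e and an additive map ψ with ψ(r^(p^e)x)=rψ(x) and ψ(c)=1. -/
theorem result :
    ¬ (∀ (R : Type) [CommRing R] [IsLocalRing R] [IsNoetherianRing R] (p : ℕ) [CharP R p],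
      p.Prime →
      (∃ s : Finset R, Ideal.span (s : Set R) = IsLocalRing.maximalIdeal R ∧
          ((s.card : ℕ∞) : WithBot ℕ∞) = ringKrullDim R) →
      (∃ φ : R →+ R, (∀ r x : R, φ (r ^ p * x) = r * φ x) ∧ φ 1 = 1) →
      ∀ c : R, c ≠ 0 →
        ∃ e : ℕ, ∃ ψ : R →+ R, (∀ r x : R, ψ (r ^ (p ^ e) * x) = r * ψ x) ∧ ψ c = 1) := by
  classical
  intro H
  open Pool.Agent.Lib_helper70.FS in
  have hN : IsNoetherianRing RR := RR_main.1
  obtain ⟨e, psi, hpsi, h1⟩ := H Pool.Agent.Lib_helper70.FS.RR 2 Nat.prime_two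
    ⟨{Pool.Agent.Lib_helper70.FS.rx, Pool.Agent.Lib_helper70.FS.ry}, by
      rw [Finset.coe_pair]
      exact Pool.Agent.Lib_helper70.FS.RR_main.2.1, by
      rw [Pool.Agent.Lib_helper70.FS.RR_main.2.2,
        Finset.card_pair Pool.Agent.Lib_helper70.FS.rx_ne_ry]
      rfl⟩
    ⟨Pool.Agent.Lib_helper70.FS.phiR, Pool.Agent.Lib_helper70.FS.phiR_sq_mul,
      Pool.Agent.Lib_helper70.FS.phiR_one⟩
    Pool.Agent.Lib_helper70.FS.rx Pool.Agent.Lib_helper70.FS.rx_ne
  exact Pool.Agent.Lib_helper70.FS.no_split e psi hpsi h1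

end Pool.Agent.S02522
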