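import Pool.Statements.S02647

set_option autoImplicit false
set_option linter.unusedSectionVars false
open Pool Pool.MP_aaf344_al

namespace Pool.Agent.S02647

section Comb

variable {ι : Type*} [LinearOrder ι]

/-- elementary sign -/
def eps (a b : ι) : ℤˣ := if a < b then 1 else -1

theorem eps_swap {a b : ι} (h : a ≠ b) : eps a b = - eps b a := by
  unfold eps
  rcases lt_or_gt_of_ne h with h1 | h1
  · simp [h1, not_lt.mpr h1.le]
  · simp [h1, not_lt.mpr h1.le]

/-- inversion sign of a list -/
def sgnL : List ι → ℤˣ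
  | [] => 1
  | a :: l => (l.map (eps a)).prod * sgnL l

/-- cross sign -/
def cross (l m : List ι) : ℤˣ := (l.map (fun a => (m.map (eps a)).prod)).prod

theorem cross_nil_left (m : List ι) : cross [] m = 1 := rfl

theorem cross_cons (a : ι) (l m : List ι) :
    cross (a :: l) m = (m.map (eps a)).prod * cross l m := by
  simp [cross]

theorem cross_nil_right (l : List ι) : cross l [] = 1 := by
  induction l with
  | nil => rfl
  | cons a l ih => rw [cross_cons, ih]; simp

theorem cross_append_left (l m k : List ι) : cross (l ++ m) k = cross l k * cross m k := by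
  simp [cross]

theorem cross_append_right (l m k : List ι) : cross l (m ++ k) = cross l m * cross l k := by
  induction l with
  | nil => simp [cross]
  | cons a l ih =>
    rw [cross_cons, cross_cons, cross_cons, ih, List.map_append, List.prod_append]
    exact mul_mul_mul_comm _ _ _ _

theorem sgnL_append (l m : List ι) : sgnL (l ++ m) = sgnL l * cross l m * sgnL m := by
  induction l with
  | nil => simp [sgnL, cross]
  | cons a l ih =>
    rw [List.cons_append, sgnL, sgnL, cross_cons, ih, List.map_append, List.prod_append]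
    simp only [mul_assoc, mul_left_comm]

theorem map_eps_swap (a : ι) (m : List ι) (h : a ∉ m) :
    (m.map (eps a)).prod = (-1) ^ m.length * (m.map (fun b => eps b a)).prod := by
  induction m with
  | nil => simp
  | cons b m ih =>
    rw [List.mem_cons, not_or] at h
    rw [List.map_cons, List.prod_cons, ih h.2, List.map_cons, List.prod_cons, List.length_cons,
      pow_succ, eps_swap h.1]
    simp only [mul_assoc, neg_mul, one_mul, mul_neg, mul_left_comm]

theorem cross_cons_right (a : ι) (l m : List ι) :
    cross m (a :: l) = (m.map (fun b => eps b a)).prod * cross m l := by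
  have : (a :: l) = [a] ++ l := rfl
  rw [this, cross_append_right]
  congr 1
  simp [cross]

theorem cross_swap (l m : List ι) (h : l.Disjoint m) :
    cross l m = (-1) ^ (l.length * m.length) * cross m l := by
  induction l with
  | nil => simp [cross_nil_left, cross_nil_right]
  | cons a l ih =>
    have h1 : a ∉ m := h (by simp)
    have h2 : l.Disjoint m := fun x hx => h (List.mem_cons_of_mem _ hx)
    rw [cross_cons, cross_cons_right, ih h2, map_eps_swap a m h1, List.length_cons, add_mul,
      one_mul, pow_add]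
    simp only [mul_assoc, mul_left_comm]

theorem sgnL_rot (U B C V : List ι) (h : B.Disjoint C) :
    sgnL (U ++ (C ++ B) ++ V) = (-1) ^ (B.length * C.length) * sgnL (U ++ (B ++ C) ++ V) := by
  simp only [sgnL_append, cross_append_left, cross_append_right]
  rw [cross_swap C B h.symm, mul_comm C.length]
  have := mul_comm (cross U C) (cross U B)
  simp only [mul_assoc, mul_left_comm, mul_comm]

theorem sgnL_swap_odd (U B M C V : List ι) (hBM : B.Disjoint M) (hBC : B.Disjoint C)
    (hMC : M.Disjoint C) (hB : Odd B.length) (hC : Odd C.length) :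
    sgnL (U ++ (C ++ (M ++ B)) ++ V) = - sgnL (U ++ (B ++ (M ++ C)) ++ V) := by
  have e1 : sgnL (U ++ (C ++ (M ++ B)) ++ V) =
      (-1) ^ (M.length * C.length) * sgnL (U ++ (M ++ C) ++ (B ++ V)) := by
    have := sgnL_rot U M C (B ++ V) hMC
    simpa [List.append_assoc] using this
  have e2 : sgnL (U ++ (M ++ C) ++ (B ++ V)) =
      (-1) ^ (B.length * (M ++ C).length) * sgnL (U ++ (B ++ (M ++ C)) ++ V) := by
    have hd : B.Disjoint (M ++ C) := by
      rw [List.disjoint_append_right]; exact ⟨hBM, hBC⟩
    have := sgnL_rot U B (M ++ C) V hd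
    simpa [List.append_assoc] using this
  rw [e1, e2, ← mul_assoc, ← pow_add]
  have hodd : Odd (M.length * C.length + B.length * (M ++ C).length) := by
    rw [List.length_append]
    obtain ⟨b, hb⟩ := hB
    obtain ⟨c, hc⟩ := hC
    rw [hb, hc]
    rcases Nat.even_or_odd M.length with ⟨m, hm⟩ | ⟨m, hm⟩
    · rw [hm]; exact ⟨(m+m)*c + m + b * (m + m + 2*c+1) + m + c, by ring⟩
    · rw [hm]; exact ⟨(2*m+1)*c + m + b * (2*m+1+2*c+1) + m + c + 1, by ring⟩
  rw [hodd.neg_one_pow]
  simp

end Comb


section Words

variable {ι : Type*} {G : Type*} [AddCommGroup G] [DecidableEq G] (d : ι → G)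

/-- list of prefix sums (including both ends) -/
def psums : G → List ι → List G
  | s, [] => [s]
  | s, a :: l => s :: psums (s + d a) l

/-- list of prefix sums excluding the last one -/
def psI : G → List ι → List G
  | _, [] => []
  | s, a :: l => s :: psI (s + d a) l

/-- first hit of `h` at the end -/
def FH (h : G) : G → List ι → Prop
  | s, [] => s = h
  | s, a :: l => s ≠ h ∧ FH h (s + d a) l

/-- first return loop at `h` -/
def IsLoop (h : G) : List ι → Prop
  | [] => False
  | a :: l => FH d h (h + d a) l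

theorem psums_append (s : G) (l m : List ι) :
    psums d s (l ++ m) = psI d s l ++ psums d (s + (l.map d).sum) m := by
  induction l generalizing s with
  | nil => simp [psI]
  | cons a l ih => simp [psI, psums, ih, add_assoc]

theorem psI_append (s : G) (l m : List ι) :
    psI d s (l ++ m) = psI d s l ++ psI d (s + (l.map d).sum) m := by
  induction l generalizing s with
  | nil => simp [psI]
  | cons a l ih => simp [psI, ih, add_assoc]

theorem length_psums (s : G) (l : List ι) : (psums d s l).length = l.length + 1 := by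
  induction l generalizing s with
  | nil => rfl
  | cons a l ih => simp [psums, ih]

theorem FH_sum {h s : G} {l : List ι} (H : FH d h s l) : s + (l.map d).sum = h := by
  induction l generalizing s with
  | nil => simpa [FH] using H
  | cons a l ih =>
    have := ih H.2
    rw [List.map_cons, List.sum_cons, ← add_assoc]; exact this

theorem IsLoop_sum {h : G} {l : List ι} (H : IsLoop d h l) : (l.map d).sum = 0 := by
  cases l with
  | nil => exact H.elim
  | cons a l =>
    have := FH_sum d H
    rw [List.map_cons, List.sum_cons]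
    have h2 : h + (d a + (l.map d).sum) = h + 0 := by rw [← add_assoc, this, add_zero]
    exact add_left_cancel h2

theorem FH_unique {h : G} : ∀ {s : G} {U U' R R' : List ι}, FH d h s U → FH d h s U' →
    U ++ R = U' ++ R' → U = U' ∧ R = R' := by
  intro s U
  induction U generalizing s with
  | nil =>
    intro U' R R' h1 h2 he
    cases U' with
    | nil => exact ⟨rfl, he⟩
    | cons a U' => exact absurd h1 h2.1
  | cons a U ih =>
    intro U' R R' h1 h2 he
    cases U' with
    | nil => exact absurd h2 h1.1
    | cons b U' =>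
      rw [List.cons_append, List.cons_append, List.cons.injEq] at he
      obtain ⟨rfl, he⟩ := he
      obtain ⟨h3, h4⟩ := ih h1.2 h2.2 he
      exact ⟨by rw [h3], h4⟩

theorem IsLoop_unique {h : G} {B B' R R' : List ι} (h1 : IsLoop d h B) (h2 : IsLoop d h B')
    (he : B ++ R = B' ++ R') : B = B' ∧ R = R' := by
  cases B with
  | nil => exact h1.elim
  | cons a B =>
    cases B' with
    | nil => exact h2.elim
    | cons b B' =>
      rw [List.cons_append, List.cons_append, List.cons.injEq] at he
      obtain ⟨rfl, he⟩ := he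
      obtain ⟨h3, h4⟩ := FH_unique d h1 h2 he
      exact ⟨by rw [h3], h4⟩

theorem loops_unique {h : G} : ∀ {Bs Bs' : List (List ι)} {R R' : List ι},
    Bs.length = Bs'.length → (∀ B ∈ Bs, IsLoop d h B) → (∀ B ∈ Bs', IsLoop d h B) →
    Bs.flatten ++ R = Bs'.flatten ++ R' → Bs = Bs' ∧ R = R' := by
  intro Bs
  induction Bs with
  | nil =>
    intro Bs' R R' hl _ _ he
    have : Bs' = [] := List.length_eq_zero_iff.mp hl.symm
    subst this
    exact ⟨rfl, by simpa using he⟩
  | cons B Bs ih =>
    intro Bs' R R' hl h1 h2 he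
    cases Bs' with
    | nil => simp at hl
    | cons B' Bs' =>
      rw [List.flatten_cons, List.flatten_cons, List.append_assoc, List.append_assoc] at he
      obtain ⟨h3, h4⟩ := IsLoop_unique d (h1 B (by simp)) (h2 B' (by simp)) he
      obtain ⟨h5, h6⟩ := ih (by simpa using hl) (fun C hC => h1 C (by simp [hC]))
        (fun C hC => h2 C (by simp [hC])) h4
      exact ⟨by rw [h3, h5], h6⟩

/-- decomposition of a word: first hit of `h`, then `p` first return loops, then anything -/
def IsDec (p : ℕ) (h : G) (w U : List ι) (Bs : List (List ι)) (V : List ι) : Prop :=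
  w = U ++ Bs.flatten ++ V ∧ Bs.length = p ∧ FH d h 0 U ∧ ∀ B ∈ Bs, IsLoop d h B

theorem IsDec_unique {p : ℕ} {h : G} {w U U' V V' : List ι} {Bs Bs' : List (List ι)}
    (h1 : IsDec d p h w U Bs V) (h2 : IsDec d p h w U' Bs' V') : U = U' ∧ Bs = Bs' ∧ V = V' := by
  obtain ⟨e1, l1, f1, b1⟩ := h1
  obtain ⟨e2, l2, f2, b2⟩ := h2
  rw [e1, List.append_assoc, List.append_assoc] at e2
  obtain ⟨h3, h4⟩ := FH_unique d f1 f2 e2
  obtain ⟨h5, h6⟩ := loops_unique d (l1.trans l2.symm) b1 b2 h4
  exact ⟨h3, h5, h6⟩

theorem exists_FH {h : G} : ∀ {s : G} {w : List ι}, 1 ≤ (psums d s w).count h →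
    ∃ U R, w = U ++ R ∧ FH d h s U ∧ (psums d h R).count h = (psums d s w).count h := by
  intro s w
  induction w generalizing s with
  | nil =>
    intro hc
    have : s = h := by
      by_contra hne
      simp [psums, hne] at hc
    subst this
    exact ⟨[], [], rfl, rfl, rfl⟩
  | cons a w ih =>
    intro hc
    by_cases hs : s = h
    · subst hs
      exact ⟨[], a :: w, rfl, rfl, rfl⟩
    · have hc' : (psums d s (a :: w)).count h = (psums d (s + d a) w).count h := by
        rw [psums, List.count_cons_of_ne hs]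
      rw [hc'] at hc ⊢
      obtain ⟨U, R, e1, e2, e3⟩ := ih hc
      exact ⟨a :: U, R, by rw [e1]; rfl, ⟨hs, e2⟩, e3⟩

theorem exists_loops {h : G} : ∀ (n : ℕ) {w : List ι}, n + 1 ≤ (psums d h w).count h →
    ∃ (Bs : List (List ι)) (V : List ι), w = Bs.flatten ++ V ∧ Bs.length = n ∧
      ∀ B ∈ Bs, IsLoop d h B := by
  intro n
  induction n with
  | zero => intro w _; exact ⟨[], w, by simp, rfl, by simp⟩
  | succ n ih =>
    intro w hc
    cases w with
    | nil => simp [psums] at hc
    | cons a w =>
      rw [psums, List.count_cons_self] at hc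
      obtain ⟨U, R, e1, e2, e3⟩ := exists_FH d (show 1 ≤ (psums d (h + d a) w).count h by omega)
      obtain ⟨Bs, V, e4, e5, e6⟩ := ih (w := R) (by omega)
      refine ⟨(a :: U) :: Bs, V, ?_, by simp [e5], ?_⟩
      · rw [e1, e4]; simp
      · intro B hB
        rcases List.mem_cons.mp hB with rfl | hB
        · exact e2
        · exact e6 B hB

theorem exists_dec {p : ℕ} {h : G} {w : List ι} (hc : p + 1 ≤ (psums d 0 w).count h) :
    ∃ U Bs V, IsDec d p h w U Bs V := by
  obtain ⟨U, R, e1, e2, e3⟩ := exists_FH d (show 1 ≤ (psums d 0 w).count h by omega)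
  obtain ⟨Bs, V, e4, e5, e6⟩ := exists_loops d p (show p + 1 ≤ (psums d h R).count h by omega)
  exact ⟨U, Bs, V, by rw [e1, e4, List.append_assoc], e5, e2, e6⟩

theorem psI_flatten {h : G} : ∀ {Bs : List (List ι)}, (∀ B ∈ Bs, IsLoop d h B) →
    psI d h Bs.flatten = (Bs.map (psI d h)).flatten := by
  intro Bs
  induction Bs with
  | nil => intro _; rfl
  | cons B Bs ih =>
    intro hB
    rw [List.flatten_cons, psI_append, IsLoop_sum d (hB B (by simp)), add_zero,
      ih (fun C hC => hB C (by simp [hC]))]
    simp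

theorem flatten_sum {h : G} : ∀ {Bs : List (List ι)}, (∀ B ∈ Bs, IsLoop d h B) →
    (Bs.flatten.map d).sum = 0 := by
  intro Bs
  induction Bs with
  | nil => intro _; rfl
  | cons B Bs ih =>
    intro hB
    rw [List.flatten_cons, List.map_append, List.sum_append, IsLoop_sum d (hB B (by simp)),
      ih (fun C hC => hB C (by simp [hC])), add_zero]

theorem psums_dec {p : ℕ} {h : G} {w U V : List ι} {Bs : List (List ι)}
    (H : IsDec d p h w U Bs V) :
    psums d 0 w = psI d 0 U ++ ((Bs.map (psI d h)).flatten ++ psums d h V) := by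
  obtain ⟨e1, _, f1, b1⟩ := H
  rw [e1, List.append_assoc, psums_append, FH_sum d f1, psums_append, psI_flatten d b1,
    flatten_sum d b1, add_zero]

theorem IsDec_perm {p : ℕ} {h : G} {w U V : List ι} {Bs Bs' : List (List ι)}
    (H : IsDec d p h w U Bs V) (hp : Bs'.Perm Bs) :
    IsDec d p h (U ++ Bs'.flatten ++ V) U Bs' V :=
  ⟨rfl, by rw [hp.length_eq]; exact H.2.1, H.2.2.1, fun B hB => H.2.2.2 B (hp.subset hB)⟩

theorem perm_dec {p : ℕ} {h : G} {w U V : List ι} {Bs Bs' : List (List ι)}
    (H : IsDec d p h w U Bs V) (hp : Bs'.Perm Bs) : (U ++ Bs'.flatten ++ V).Perm w := by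
  rw [H.1]
  exact (List.Perm.append_left U hp.flatten).append_right V

theorem count_dec {p : ℕ} {h : G} {w U V : List ι} {Bs Bs' : List (List ι)}
    (H : IsDec d p h w U Bs V) (hp : Bs'.Perm Bs) (g : G) :
    (psums d 0 (U ++ Bs'.flatten ++ V)).count g = (psums d 0 w).count g := by
  rw [psums_dec d H, psums_dec d (IsDec_perm d H hp)]
  have h1 : ((Bs'.map (psI d h)).flatten).Perm ((Bs.map (psI d h)).flatten) :=
    (hp.map _).flatten
  simp only [List.count_append]
  rw [h1.count_eq]

theorem exists_count [Fintype G] (p : ℕ) (w : List ι) (hw : w.length = Fintype.card G * p) :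
    ∃ g, p + 1 ≤ (psums d 0 w).count g := by
  by_contra hcon
  push Not at hcon
  have h1 : ∑ g : G, ((psums d 0 w : List G) : Multiset G).count g =
      Multiset.card ((psums d 0 w : List G) : Multiset G) :=
    Multiset.sum_count_eq_card (fun a _ => Finset.mem_univ a)
  have h2 : ∑ g : G, ((psums d 0 w : List G) : Multiset G).count g ≤ ∑ _g : G, p := by
    apply Finset.sum_le_sum
    intro g _
    rw [Multiset.coe_count]
    have := hcon g
    omega
  rw [h1, Multiset.coe_card, length_psums, hw] at h2
  simp at h2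

/-! ### the swap of the first two odd entries -/

/-- replace the first odd-length list by `B`, returning it -/
def fs (B : List ι) : List (List ι) → Option (List ι × List (List ι))
  | [] => none
  | X :: r => if Odd X.length then some (X, B :: r) else (fs B r).map (fun q => (q.1, X :: q.2))

/-- swap of the first two odd-length lists -/
def swapOdd : List (List ι) → List (List ι)
  | [] => []
  | X :: r => if Odd X.length then
      (match fs X r with
        | some q => q.1 :: q.2
        | none => X :: r)
      else X :: swapOdd r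

theorem fs_eq (B : List ι) (E : List (List ι)) (C : List ι) (r : List (List ι))
    (hE : ∀ X ∈ E, ¬ Odd X.length) (hC : Odd C.length) :
    fs B (E ++ C :: r) = some (C, E ++ B :: r) := by
  induction E with
  | nil => simp [fs, hC]
  | cons X E ih =>
    rw [List.cons_append, fs, if_neg (hE X (by simp)), ih (fun Y hY => hE Y (by simp [hY]))]
    rfl

theorem swapOdd_eq (E1 E2 r : List (List ι)) (B C : List ι)
    (hE1 : ∀ X ∈ E1, ¬ Odd X.length) (hE2 : ∀ X ∈ E2, ¬ Odd X.length)
    (hB : Odd B.length) (hC : Odd C.length) :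
    swapOdd (E1 ++ B :: (E2 ++ C :: r)) = E1 ++ C :: (E2 ++ B :: r) := by
  induction E1 with
  | nil =>
    simp only [List.nil_append]
    rw [swapOdd, if_pos hB, fs_eq B E2 C r hE2 hC]
  | cons X E ih =>
    rw [List.cons_append, swapOdd, if_neg (hE1 X (by simp)),
      ih (fun Y hY => hE1 Y (by simp [hY]))]
    rfl

theorem exists_first_odd : ∀ (Bs : List (List ι)),
    1 ≤ Bs.countP (fun X => decide (Odd X.length)) →
    ∃ E B r, Bs = E ++ B :: r ∧ (∀ X ∈ E, ¬ Odd X.length) ∧ Odd B.length ∧
      r.countP (fun X => decide (Odd X.length)) + 1 =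
        Bs.countP (fun X => decide (Odd X.length)) := by
  intro Bs
  induction Bs with
  | nil => intro h; simp at h
  | cons X Bs ih =>
    intro h
    by_cases hX : Odd X.length
    · refine ⟨[], X, Bs, rfl, by simp, hX, ?_⟩
      rw [List.countP_cons_of_pos (by simpa using hX)]
    · rw [List.countP_cons_of_neg (by simpa using hX)] at h ⊢
      obtain ⟨E, B, r, e1, e2, e3, e4⟩ := ih h
      refine ⟨X :: E, B, r, by rw [e1]; rfl, ?_, e3, e4⟩
      intro Y hY
      rcases List.mem_cons.mp hY with rfl | hY
      · exact hX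
      · exact e2 Y hY

theorem exists_two_odd (Bs : List (List ι))
    (h : 2 ≤ Bs.countP (fun X => decide (Odd X.length))) :
    ∃ E1 B E2 C r, Bs = E1 ++ B :: (E2 ++ C :: r) ∧ (∀ X ∈ E1, ¬ Odd X.length) ∧
      (∀ X ∈ E2, ¬ Odd X.length) ∧ Odd B.length ∧ Odd C.length := by
  obtain ⟨E1, B, r, e1, e2, e3, e4⟩ := exists_first_odd Bs (by omega)
  obtain ⟨E2, C, r2, f1, f2, f3, _⟩ := exists_first_odd r (by omega)
  exact ⟨E1, B, E2, C, r2, by rw [e1, f1], e2, f2, e3, f3⟩

end Words


section TT

variable {ι : Type*} {G : Type*} [AddCommGroup G] [DecidableEq G] (d : ι → G) (p : ℕ)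

open Classical in
/-- canonical popular element -/
noncomputable def hh (c : G → ℕ) : G := if H : ∃ g, p + 1 ≤ c g then H.choose else 0

theorem hh_spec (c : G → ℕ) (H : ∃ g, p + 1 ≤ c g) : p + 1 ≤ c (hh p c) := by
  unfold hh
  rw [dif_pos H]
  exact H.choose_spec

/-- the popular prefix sum of a word -/
noncomputable def hw (w : List ι) : G := hh p (fun g => (psums d 0 w).count g)

/-- number of odd-length lists -/
def nodd (Bs : List (List ι)) : ℕ := Bs.countP (fun X => decide (Odd X.length))

/-- transformation of a list of loops -/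
def TB (Bs : List (List ι)) : List (List ι) := if 2 ≤ nodd Bs then swapOdd Bs else Bs.rotate 1

theorem TB_perm (Bs : List (List ι)) : (TB Bs).Perm Bs := by
  unfold TB
  split_ifs with h
  · obtain ⟨E1, B, E2, C, r, e1, e2, e3, e4, e5⟩ := exists_two_odd Bs h
    rw [e1, swapOdd_eq E1 E2 r B C e2 e3 e4 e5]
    refine List.Perm.append_left E1 ?_
    have h1 : (C :: (E2 ++ B :: r)).Perm (C :: (B :: (E2 ++ r))) :=
      List.Perm.cons _ List.perm_middle
    have h2 : (B :: (E2 ++ C :: r)).Perm (B :: (C :: (E2 ++ r))) :=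
      List.Perm.cons _ List.perm_middle
    exact h1.trans ((List.Perm.swap _ _ _).trans h2.symm)
  · exact List.rotate_perm Bs 1

theorem nodd_TB (Bs : List (List ι)) : nodd (TB Bs) = nodd Bs := (TB_perm Bs).countP_eq _

theorem TB_TB (Bs : List (List ι)) (h : 2 ≤ nodd Bs) : TB (TB Bs) = Bs := by
  have h' : 2 ≤ nodd (TB Bs) := by rw [nodd_TB]; exact h
  rw [TB, if_pos h']
  rw [TB, if_pos h]
  obtain ⟨E1, B, E2, C, r, e1, e2, e3, e4, e5⟩ := exists_two_odd Bs h
  rw [e1, swapOdd_eq E1 E2 r B C e2 e3 e4 e5, swapOdd_eq E1 E2 r C B e2 e3 e5 e4]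

open Classical in
/-- the transformation of words -/
noncomputable def TT (w : List ι) : List ι :=
  if H : ∃ q : List ι × List (List ι) × List ι, IsDec d p (hw d p w) w q.1 q.2.1 q.2.2 then
    H.choose.1 ++ (TB H.choose.2.1).flatten ++ H.choose.2.2 else w

theorem TT_eq {w U V : List ι} {Bs : List (List ι)} (H : IsDec d p (hw d p w) w U Bs V) :
    TT d p w = U ++ (TB Bs).flatten ++ V := by
  have H' : ∃ q : List ι × List (List ι) × List ι, IsDec d p (hw d p w) w q.1 q.2.1 q.2.2 :=
    ⟨(U, Bs, V), H⟩
  rw [TT, dif_pos H']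
  obtain ⟨e1, e2, e3⟩ := IsDec_unique d H'.choose_spec H
  rw [e1, e2, e3]

theorem hw_eq {w U V : List ι} {Bs Bs' : List (List ι)} (H : IsDec d p (hw d p w) w U Bs V)
    (hp : Bs'.Perm Bs) : hw d p (U ++ Bs'.flatten ++ V) = hw d p w := by
  unfold hw
  congr 1
  funext g
  exact count_dec d H hp g

theorem IsDec_hw {w U V : List ι} {Bs Bs' : List (List ι)} (H : IsDec d p (hw d p w) w U Bs V)
    (hp : Bs'.Perm Bs) : IsDec d p (hw d p (U ++ Bs'.flatten ++ V)) (U ++ Bs'.flatten ++ V) U Bs' V := by
  have := IsDec_perm d H hp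
  rwa [hw_eq d p H hp]

theorem IsDec_TT {w U V : List ι} {Bs : List (List ι)} (H : IsDec d p (hw d p w) w U Bs V) :
    IsDec d p (hw d p (TT d p w)) (TT d p w) U (TB Bs) V := by
  rw [TT_eq d p H]
  exact IsDec_hw d p H (TB_perm Bs)

theorem IsDec_iter {w U V : List ι} {Bs : List (List ι)} (H : IsDec d p (hw d p w) w U Bs V)
    (k : ℕ) : IsDec d p (hw d p ((TT d p)^[k] w)) ((TT d p)^[k] w) U (TB^[k] Bs) V := by
  induction k with
  | zero => exact H
  | succ k ih =>
    rw [Function.iterate_succ_apply', Function.iterate_succ_apply']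
    exact IsDec_TT d p ih

theorem TB_iter_small (Bs : List (List ι)) (h : nodd Bs < 2) (k : ℕ) :
    TB^[k] Bs = Bs.rotate k := by
  induction k with
  | zero => simp
  | succ k ih =>
    rw [Function.iterate_succ_apply', ih]
    have : nodd (Bs.rotate k) = nodd Bs := (List.rotate_perm Bs k).countP_eq _
    rw [TB, if_neg (by rw [this]; omega), List.rotate_rotate]

theorem exists_isDec [Fintype G] (w : List ι) (hl : w.length = Fintype.card G * p) :
    ∃ (U : List ι) (Bs : List (List ι)) (V : List ι), IsDec d p (hw d p w) w U Bs V := by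
  apply exists_dec
  exact hh_spec p _ (exists_count d p w hl)

theorem TT_perm [Fintype G] (w : List ι) (hl : w.length = Fintype.card G * p) :
    (TT d p w).Perm w := by
  obtain ⟨U, Bs, V, H⟩ := exists_isDec d p w hl
  rw [TT_eq d p H]
  exact perm_dec d H (TB_perm Bs)

theorem IsLoop_ne {h : G} {B : List ι} (hB : IsLoop d h B) : B ≠ [] := by
  rintro rfl
  exact hB.elim

theorem TB_ne {w U V : List ι} {Bs : List (List ι)} (H : IsDec d p (hw d p w) w U Bs V)
    (hn : w.Nodup) (hp : 2 ≤ p) : TB Bs ≠ Bs := by
  intro he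
  have hfl : Bs.flatten.Nodup := by
    rw [H.1] at hn
    exact (List.nodup_append.mp (List.nodup_append.mp hn).1).2.1
  rw [List.nodup_flatten] at hfl
  have hpw := hfl.2
  by_cases h : 2 ≤ nodd Bs
  · rw [TB, if_pos h] at he
    obtain ⟨E1, B, E2, C, r, e1, e2, e3, e4, e5⟩ := exists_two_odd Bs h
    rw [e1, swapOdd_eq E1 E2 r B C e2 e3 e4 e5] at he
    have he2 := List.append_cancel_left he
    rw [List.cons.injEq] at he2
    have hCB : C = B := he2.1
    subst hCB
    rw [e1, List.pairwise_append] at hpw
    have h3 := List.rel_of_pairwise_cons hpw.2.1 (a' := C) (by simp)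
    have hne : C ≠ [] := by
      apply IsLoop_ne d
      apply H.2.2.2 C
      rw [e1]; simp
    obtain ⟨a, ha⟩ := List.exists_mem_of_ne_nil C hne
    exact h3 ha ha
  · rw [TB, if_neg h] at he
    have hlen := H.2.1
    match Bs, hlen with
    | [], hlen => simp at hlen; omega
    | [B], hlen => simp at hlen; omega
    | B :: C :: r, hlen =>
      have e : (B :: C :: r).rotate 1 = C :: (r ++ [B]) := by simp
      rw [e, List.cons.injEq] at he
      have hCB : C = B := he.1
      subst hCB
      have h3 := List.rel_of_pairwise_cons hpw (a' := C) (by simp)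
      have hne : C ≠ [] := by
        apply IsLoop_ne d
        apply H.2.2.2 C
        simp
      obtain ⟨a, ha⟩ := List.exists_mem_of_ne_nil C hne
      exact h3 ha ha

theorem TT_ne [Fintype G] (w : List ι) (hl : w.length = Fintype.card G * p)
    (hn : w.Nodup) (hp : 2 ≤ p) : TT d p w ≠ w := by
  intro he
  obtain ⟨U, Bs, V, H⟩ := exists_isDec d p w hl
  have h1 := IsDec_TT d p H
  rw [he] at h1
  obtain ⟨_, h2, _⟩ := IsDec_unique d h1 H
  exact TB_ne d p H hn hp h2

/-- the word has at least two odd loops -/
def Big (w : List ι) : Prop :=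
  ∃ (U : List ι) (Bs : List (List ι)) (V : List ι), IsDec d p (hw d p w) w U Bs V ∧ 2 ≤ nodd Bs

theorem Big_iff {w U V : List ι} {Bs : List (List ι)} (H : IsDec d p (hw d p w) w U Bs V) :
    Big d p w ↔ 2 ≤ nodd Bs := by
  constructor
  · rintro ⟨U', Bs', V', H', h⟩
    obtain ⟨_, h2, _⟩ := IsDec_unique d H' H
    rwa [← h2]
  · intro h
    exact ⟨U, Bs, V, H, h⟩

theorem Big_TT [Fintype G] (w : List ι) (hl : w.length = Fintype.card G * p) :
    Big d p (TT d p w) ↔ Big d p w := by
  obtain ⟨U, Bs, V, H⟩ := exists_isDec d p w hl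
  rw [Big_iff d p H, Big_iff d p (IsDec_TT d p H), nodd_TB]

theorem TT_TT (w : List ι) (hb : Big d p w) : TT d p (TT d p w) = w := by
  obtain ⟨U, Bs, V, H, h⟩ := hb
  rw [TT_eq d p (IsDec_TT d p H), TB_TB Bs h]
  exact H.1.symm

theorem TT_iter [Fintype G] (w : List ι) (hl : w.length = Fintype.card G * p)
    (hb : ¬ Big d p w) : (TT d p)^[p] w = w := by
  obtain ⟨U, Bs, V, H⟩ := exists_isDec d p w hl
  rw [Big_iff d p H, not_le] at hb
  have h1 := IsDec_iter d p H p
  rw [TB_iter_small Bs hb p] at h1
  have h2 : Bs.rotate p = Bs := by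
    conv_lhs => rw [← H.2.1]
    exact List.rotate_length Bs
  rw [h2] at h1
  rw [h1.1]
  exact H.1.symm

end TT


section Alg

variable {ι : Type*} [LinearOrder ι] {G : Type*} [AddCommGroup G] [DecidableEq G] (d : ι → G)
  (p : ℕ) {A : Type*} [Ring A] (x : ι → A)

/-- signed value of a word -/
def fw (w : List ι) : A := ((sgnL w : ℤˣ) : ℤ) • (w.map x).prod

theorem prod_split (U V : List ι) (Bs : List (List ι)) :
    ((U ++ Bs.flatten ++ V).map x).prod =
      (U.map x).prod * (Bs.map (fun B => (B.map x).prod)).prod * (V.map x).prod := by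
  have h : (Bs.flatten.map x).prod = (Bs.map (fun B => (B.map x).prod)).prod := by
    induction Bs with
    | nil => rfl
    | cons B Bs ih =>
      rw [List.flatten_cons, List.map_append, List.prod_append, ih, List.map_cons, List.prod_cons]
  simp only [List.map_append, List.prod_append, h]

theorem prod_perm {h : G} {Bs Bs' : List (List ι)}
    (hc : ∀ B : List ι, (B.map d).sum = 0 → ∀ C : List ι, (C.map d).sum = 0 →
      (B.map x).prod * (C.map x).prod = (C.map x).prod * (B.map x).prod)
    (hB : ∀ B ∈ Bs, IsLoop d h B) (hp : Bs'.Perm Bs) :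
    (Bs'.map (fun B => (B.map x).prod)).prod = (Bs.map (fun B => (B.map x).prod)).prod := by
  apply List.Perm.prod_eq'
  · exact hp.map _
  · rw [List.pairwise_map]
    apply List.Pairwise.imp_of_mem (R := fun _ _ => True)
    · intro B C hB1 hC1 _
      exact hc B (IsLoop_sum d (hB B (hp.subset hB1))) C (IsLoop_sum d (hB C (hp.subset hC1)))
    · exact List.pairwise_of_forall (fun _ _ => trivial)

theorem fw_big (hc : ∀ B : List ι, (B.map d).sum = 0 → ∀ C : List ι, (C.map d).sum = 0 →
      (B.map x).prod * (C.map x).prod = (C.map x).prod * (B.map x).prod)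
    (w : List ι) (hn : w.Nodup) (hb : Big d p w) : fw x (TT d p w) = - fw x w := by
  obtain ⟨U, Bs, V, H, h⟩ := hb
  have hT := TT_eq d p H
  have hprod : ((TT d p w).map x).prod = (w.map x).prod := by
    conv_rhs => rw [H.1]
    rw [hT, prod_split, prod_split, prod_perm d x hc H.2.2.2 (TB_perm Bs)]
  have hs : sgnL (TT d p w) = - sgnL w := by
    obtain ⟨E1, B, E2, C, r, e1, e2, e3, e4, e5⟩ := exists_two_odd Bs h
    rw [hT]
    have hw' := H.1
    rw [hw'] at hn ⊢
    rw [TB, if_pos h, e1, swapOdd_eq E1 E2 r B C e2 e3 e4 e5]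
    have hfl : Bs.flatten.Nodup := (List.nodup_append.mp (List.nodup_append.mp hn).1).2.1
    rw [e1] at hfl
    simp only [List.flatten_append, List.flatten_cons] at hfl
    rw [List.nodup_append'] at hfl
    have hfl2 := hfl.2.1
    rw [List.nodup_append'] at hfl2
    obtain ⟨_, hfl3, hd1⟩ := hfl2
    rw [List.nodup_append'] at hfl3
    obtain ⟨_, _, hd2⟩ := hfl3
    rw [List.disjoint_append_right, List.disjoint_append_right] at hd1
    rw [List.disjoint_append_right] at hd2
    have := sgnL_swap_odd (U ++ E1.flatten) B E2.flatten C (r.flatten ++ V) hd1.1 hd1.2.1 hd2.1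
      e4 e5
    simpa [List.append_assoc] using this
  unfold fw
  rw [hprod, hs]
  simp

theorem even_length_flatten (r : List (List ι)) (h : nodd r = 0) : Even r.flatten.length := by
  induction r with
  | nil => simp
  | cons B r ih =>
    have h1 : ¬ Odd B.length := by
      intro ho
      rw [nodd, List.countP_cons_of_pos (by simpa using ho)] at h
      omega
    have h2 : nodd r = 0 := by
      rw [nodd, List.countP_cons_of_neg (by simpa using h1)] at h
      exact h
    rw [List.flatten_cons, List.length_append]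
    exact (Nat.not_odd_iff_even.mp h1).add (ih h2)

theorem fw_small [Fintype G] (hc : ∀ B : List ι, (B.map d).sum = 0 → ∀ C : List ι,
      (C.map d).sum = 0 → (B.map x).prod * (C.map x).prod = (C.map x).prod * (B.map x).prod)
    (w : List ι) (hl : w.length = Fintype.card G * p) (hn : w.Nodup) (hb : ¬ Big d p w) :
    fw x (TT d p w) = fw x w := by
  obtain ⟨U, Bs, V, H⟩ := exists_isDec d p w hl
  rw [Big_iff d p H] at hb
  have hT := TT_eq d p H
  have hprod : ((TT d p w).map x).prod = (w.map x).prod := by
    conv_rhs => rw [H.1]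
    rw [hT, prod_split, prod_split, prod_perm d x hc H.2.2.2 (TB_perm Bs)]
  have hs : sgnL (TT d p w) = sgnL w := by
    rw [hT]
    have hw' := H.1
    rw [hw'] at hn ⊢
    rw [TB, if_neg hb]
    cases hBs : Bs with
    | nil => simp
    | cons B r =>
      rw [hBs] at hn hb
      have hfl : (B :: r).flatten.Nodup := (List.nodup_append.mp (List.nodup_append.mp hn).1).2.1
      rw [List.flatten_cons, List.nodup_append'] at hfl
      have e : (B :: r).rotate 1 = r ++ [B] := by simp
      rw [e]
      have e2 : (r ++ [B]).flatten = r.flatten ++ B := by simp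
      rw [e2, List.flatten_cons, sgnL_rot U B r.flatten V hfl.2.2]
      have hev : Even (B.length * r.flatten.length) := by
        rcases Nat.even_or_odd B.length with h | h
        · exact h.mul_right _
        · have : nodd r = 0 := by
            rw [nodd, List.countP_cons_of_pos (by simpa using h)] at hb
            unfold nodd
            omega
          exact (even_length_flatten r this).mul_left _
      rw [hev.neg_one_pow, one_mul]
  unfold fw
  rw [hprod, hs]

end Alg

section Sums

theorem sum_cyc {α M : Type*} [AddCommMonoid M] (p : ℕ) [Fact p.Prime]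
    (hM : ∀ m : M, p • m = 0) (s : Finset α) (T : α → α) (hT : ∀ a ∈ s, T a ∈ s)
    (hp : ∀ a ∈ s, T^[p] a = a) (hne : ∀ a ∈ s, T a ≠ a) (f : α → M)
    (hf : ∀ a ∈ s, f (T a) = f a) : ∑ a ∈ s, f a = 0 := by
  classical
  have h1 := Finset.sum_comp (s := s) (fun m : M => m) f
  rw [h1]
  apply Finset.sum_eq_zero
  intro v _
  have hdvd : p ∣ (s.filter (fun a => f a = v)).card := by
    let F : Function.End (s.filter (fun a => f a = v)) := fun a =>
      ⟨T a.1, by
        have := a.2
        rw [Finset.mem_filter] at this ⊢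
        exact ⟨hT _ this.1, by rw [hf _ this.1]; exact this.2⟩⟩
    have hFk : ∀ (k : ℕ) (a : (s.filter (fun a => f a = v))), ((F ^ k) a).1 = T^[k] a.1 := by
      intro k
      induction k with
      | zero => intro a; rfl
      | succ k ih =>
        intro a
        rw [pow_succ']
        rw [Function.iterate_succ_apply', ← ih a]
        rfl
    have hF : F ^ p ^ 1 = 1 := by
      rw [pow_one]
      funext a
      apply Subtype.ext
      rw [hFk]
      have := a.2
      rw [Finset.mem_filter] at this
      exact hp _ this.1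
    have h2 := Equiv.Perm.card_fixedPoints_modEq hF
    have h3 : Fintype.card (Function.fixedPoints F) = 0 := by
      rw [Fintype.card_eq_zero_iff]
      constructor
      rintro ⟨a, ha⟩
      have := a.2
      rw [Finset.mem_filter] at this
      apply hne _ this.1
      exact congrArg Subtype.val ha
    rw [h3, Fintype.card_coe] at h2
    exact (Nat.modEq_zero_iff_dvd).mp h2
  obtain ⟨k, hk⟩ := hdvd
  rw [hk, mul_comm, mul_smul, hM, smul_zero]

end Sums

section Link

theorem sgnL_ofFn {ι : Type*} [LinearOrder ι] : ∀ (n : ℕ) (f : Fin n → ι),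
    sgnL (List.ofFn f) = ∏ i, ∏ j ∈ Finset.Ioi i, eps (f i) (f j) := by
  intro n
  induction n with
  | zero => intro f; simp [sgnL]
  | succ n ih =>
    intro f
    rw [List.ofFn_succ, sgnL, ih, Fin.prod_univ_succ, Fin.prod_Ioi_zero]
    congr 1
    · rw [List.map_ofFn, List.prod_ofFn]
      rfl
    · apply Finset.prod_congr rfl
      intro i _
      rw [Fin.prod_Ioi_succ]

theorem sgnL_perm {n : ℕ} (σ : Equiv.Perm (Fin n)) : sgnL (List.ofFn σ) = Equiv.Perm.sign σ := by
  rw [sgnL_ofFn, Equiv.Perm.sign_eq_prod_prod_Ioi]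
  rfl

end Link

theorem homog {G : Type*} [AddCommGroup G] [Fintype G] [DecidableEq G] {A : Type*} [Ring A]
    (p : ℕ) [Fact p.Prime] (hA : ∀ a : A, p • a = 0)
    (d : Fin (Fintype.card G * p) → G) (x : Fin (Fintype.card G * p) → A)
    (hc : ∀ B : List (Fin (Fintype.card G * p)), (B.map d).sum = 0 →
      ∀ C : List (Fin (Fintype.card G * p)), (C.map d).sum = 0 →
      (B.map x).prod * (C.map x).prod = (C.map x).prod * (B.map x).prod) :
    ∑ σ : Equiv.Perm (Fin (Fintype.card G * p)),
          ((Equiv.Perm.sign σ : ℤˣ) : ℤ) • (List.ofFn (fun i => x (σ i))).prod = 0 := by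
  classical
  have hp2 : 2 ≤ p := (Fact.out : p.Prime).two_le
  have hinj : Function.Injective (fun σ : Equiv.Perm (Fin (Fintype.card G * p)) =>
      List.ofFn (σ : Fin (Fintype.card G * p) → Fin (Fintype.card G * p))) := by
    intro σ τ h
    exact DFunLike.coe_injective (List.ofFn_injective h)
  have h1 : ∀ σ : Equiv.Perm (Fin (Fintype.card G * p)),
      ((Equiv.Perm.sign σ : ℤˣ) : ℤ) • (List.ofFn (fun i => x (σ i))).prod =
        fw x (List.ofFn σ) := by
    intro σ
    rw [fw, sgnL_perm, List.map_ofFn]
    rfl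
  rw [Finset.sum_congr rfl (fun σ _ => h1 σ)]
  let S : Finset (List (Fin (Fintype.card G * p))) :=
    Finset.univ.image (fun σ : Equiv.Perm (Fin (Fintype.card G * p)) => List.ofFn σ)
  have h2 : ∑ σ : Equiv.Perm (Fin (Fintype.card G * p)), fw x (List.ofFn σ) =
      ∑ w ∈ S, fw x w := by
    rw [Finset.sum_image (fun a _ b _ h => hinj h)]
  rw [h2]
  have hS : ∀ w, w ∈ S ↔ w.Nodup ∧ w.length = Fintype.card G * p := by
    intro w
    constructor
    · intro h
      obtain ⟨σ, _, rfl⟩ := Finset.mem_image.mp h
      exact ⟨List.nodup_ofFn.mpr σ.injective, List.length_ofFn⟩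
    · rintro ⟨hn, hl⟩
      let g : Fin (Fintype.card G * p) → Fin (Fintype.card G * p) := fun i => w.get (i.cast hl.symm)
      have hg : Function.Injective g := by
        intro i j h
        have := List.nodup_iff_injective_get.mp hn h
        exact Fin.cast_injective _ this
      refine Finset.mem_image.mpr ⟨Equiv.ofBijective g (Finite.injective_iff_bijective.mp hg),
        Finset.mem_univ _, ?_⟩
      apply List.ext_get
      · simp [hl]
      · intro n h3 h4
        simp [g]
  have hTS : ∀ w ∈ S, TT d p w ∈ S := by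
    intro w h
    rw [hS] at h ⊢
    have hpm := TT_perm d p w h.2
    exact ⟨hpm.nodup_iff.mpr h.1, by rw [hpm.length_eq]; exact h.2⟩
  rw [← Finset.sum_filter_add_sum_filter_not S (fun w => Big d p w)]
  have hbig : ∑ w ∈ S.filter (fun w => Big d p w), fw x w = 0 := by
    apply Finset.sum_involution (fun w _ => TT d p w)
    · intro w h
      rw [Finset.mem_filter, hS] at h
      rw [fw_big d p x hc w h.1.1 h.2]
      simp
    · intro w h _
      rw [Finset.mem_filter, hS] at h
      exact TT_ne d p w h.1.2 h.1.1 hp2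
    · intro w h
      rw [Finset.mem_filter] at h ⊢
      exact ⟨hTS w h.1, (Big_TT d p w ((hS w).mp h.1).2).mpr h.2⟩
    · intro w h
      rw [Finset.mem_filter] at h
      exact TT_TT d p w h.2
  have hsmall : ∑ w ∈ S.filter (fun w => ¬ Big d p w), fw x w = 0 := by
    apply sum_cyc p hA _ (TT d p)
    · intro w h
      rw [Finset.mem_filter] at h ⊢
      exact ⟨hTS w h.1, fun hb => h.2 ((Big_TT d p w ((hS w).mp h.1).2).mp hb)⟩
    · intro w h
      rw [Finset.mem_filter, hS] at h
      exact TT_iter d p w h.1.2 h.2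
    · intro w h
      rw [Finset.mem_filter, hS] at h
      exact TT_ne d p w h.1.2 h.1.1 hp2
    · intro w h
      rw [Finset.mem_filter, hS] at h
      exact fw_small d p x hc w h.1.2 h.1.1 h.2
  rw [hbig, hsmall, add_zero]

/-- Setting: a field of characteristic p>0 and an algebra over it graded by a finite abelian group of order k whose degree-zero part is commutative. Claim: every such algebra satisfies the standard identity of degree kp. -/
theorem result :
    ∀ (F : Type) [Field F] (p : ℕ), 0 < p → CharP F p →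
    ∀ (G : Type) [AddCommGroup G] [Fintype G] [DecidableEq G]
      (A : Type) [Ring A] [Algebra F A] (𝒜 : G → Submodule F A) [GradedAlgebra 𝒜],
      (∀ a ∈ 𝒜 0, ∀ b ∈ 𝒜 0, a * b = b * a) →
      ∀ x : Fin (Fintype.card G * p) → A,
        ∑ σ : Equiv.Perm (Fin (Fintype.card G * p)),
          ((Equiv.Perm.sign σ : ℤˣ) : ℤ) • (List.ofFn (fun i => x (σ i))).prod = 0 := by
  intro F _ p hp0 hchar G _ _ _ A _ _ 𝒜 _ hcomm x
  have hprime : p.Prime := by
    rcases CharP.char_is_prime_or_zero F p with h | h
    · exact h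
    · omega
  have : Fact p.Prime := ⟨hprime⟩
  have hA : ∀ a : A, p • a = 0 := by
    intro a
    rw [← Nat.cast_smul_eq_nsmul F p a, CharP.cast_eq_zero, zero_smul]
  have key : ∀ y : Fin (Fintype.card G * p) → A,
      MultilinearMap.alternatization
        (MultilinearMap.mkPiAlgebraFin F (Fintype.card G * p) A) y =
      ∑ σ : Equiv.Perm (Fin (Fintype.card G * p)),
          ((Equiv.Perm.sign σ : ℤˣ) : ℤ) • (List.ofFn (fun i => y (σ i))).prod := by
    intro y
    rw [MultilinearMap.alternatization_apply]
    apply Finset.sum_congr rfl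
    intro σ _
    rw [MultilinearMap.domDomCongr_apply, MultilinearMap.mkPiAlgebraFin_apply]
    rfl
  rw [← key x]
  have hdec : ∀ a : A, ∑ g : G, ((DirectSum.decompose 𝒜 a g : 𝒜 g) : A) = a := by
    intro a
    classical
    conv_rhs => rw [← DirectSum.sum_support_decompose 𝒜 a]
    symm
    apply Finset.sum_subset (Finset.subset_univ _)
    intro g _ hg
    simpa using hg
  have hx : x = fun i => ∑ g : G, ((DirectSum.decompose 𝒜 (x i) g : 𝒜 g) : A) := by
    funext i
    exact (hdec (x i)).symm
  rw [hx]
  rw [← AlternatingMap.coe_multilinearMap]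
  rw [MultilinearMap.map_sum]
  apply Finset.sum_eq_zero
  intro r _
  rw [AlternatingMap.coe_multilinearMap, key]
  have hmem : ∀ B : List (Fin (Fintype.card G * p)), (B.map r).sum = 0 →
      (B.map (fun i => ((DirectSum.decompose 𝒜 (x i) (r i) : 𝒜 (r i)) : A))).prod ∈ 𝒜 0 := by
    intro B hB
    rw [← hB]
    apply SetLike.list_prod_map_mem_graded
    intro j _
    exact (DirectSum.decompose 𝒜 (x j) (r j)).2
  exact homog p hA r (fun i => ((DirectSum.decompose 𝒜 (x i) (r i) : 𝒜 (r i)) : A))
    (fun B hB C hC => hcomm _ (hmem B hB) _ (hmem C hC))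

end Pool.Agent.S02647
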