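import Pool.Statements.S03901
import Pool.Agent.Lib_helper42.RXFinal

set_option autoImplicit false
open scoped BoundedContinuousFunction
open Pool Pool.MP_159c46_an

namespace Pool.Agent.S03901

/-- For every compact X in the complex plane: if R(X), the uniform closure on X of rational functions with poles off X, has every bounded derivation into its dual equal to zero (weak amenability), then R(X) is all continuous functions on X. -/
theorem result :
    ∀ X : Set ℂ, IsCompact X →
      ∀ A : Subalgebra ℂ (↥X →ᵇ ℂ),
        A = (Algebra.adjoin ℂ {f : ↥X →ᵇ ℂ | ∃ p q : Polynomial ℂ,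
                (∀ z ∈ X, q.eval z ≠ 0) ∧
                  ∀ z : ↥X, f z = p.eval (z : ℂ) / q.eval (z : ℂ)}).topologicalClosure →
        (∀ D : ↥A →L[ℂ] (↥A →L[ℂ] ℂ),
            (∀ a b c : ↥A, D (a * b) c = D a (b * c) + D b (c * a)) → D = 0) →
        A = ⊤ := by
  intro X hX A hA hD
  by_contra hne
  obtain ⟨D, h1, h2⟩ := Pool.Agent.RX.not_all_zero hX A _ rfl hA hne
  exact h2 (hD D h1)

end Pool.Agent.S03901
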