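import Pool.Statements.S04123
import Pool.Agent.TRM.C02
import Pool.Agent.TRM.C44

set_option autoImplicit false
open Matrix
open Pool Pool.MP_287c87_an

namespace Pool.Agent.S04123

/-- For d≥2 and any first-order real constant-coefficient operator ∑A_j∂_j whose complex symbol is injective for all nonzero ξ∈ℂ^d, and any C'>0, some C bounds ∫∣u∣dμ by C·‖A(D)u‖_{L¹} for all smooth compactly supported u and Radon μ with μ(B(x,r))≤C'r^{d-1}. -/
theorem result :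
  ∀ (d N K : ℕ), 2 ≤ d →
  ∀ A : Fin d → Matrix (Fin K) (Fin N) ℝ,
  (∀ ξ : Fin d → ℂ, ξ ≠ 0 → ∀ v : Fin N → ℂ,
      (∑ j, ξ j • (A j).map (algebraMap ℝ ℂ)) *ᵥ v = 0 → v = 0) →
  ∀ C' : ℝ, 0 < C' → ∃ C : ℝ, 0 < C ∧
    ∀ μ : MeasureTheory.Measure (EuclideanSpace ℝ (Fin d)),
      MeasureTheory.IsFiniteMeasureOnCompacts μ →
      (∀ x : EuclideanSpace ℝ (Fin d), ∀ r : ℝ, 0 < r →
          μ (Metric.ball x r) ≤ ENNReal.ofReal (C' * r ^ (d - 1))) →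
    ∀ u : EuclideanSpace ℝ (Fin d) → EuclideanSpace ℝ (Fin N),
      ContDiff ℝ (⊤ : ℕ∞) u → HasCompactSupport u →
      ∫⁻ x, ‖u x‖ₑ ∂μ ≤ ENNReal.ofReal C *
        ∫⁻ x, ‖∑ j : Fin d, Matrix.toEuclideanLin (A j)
            (fderiv ℝ u x (EuclideanSpace.single j 1))‖ₑ :=
  TG.frozen_of (TG.Chain.CF TG.Chain.CO TG.Chain.Main)

end Pool.Agent.S04123
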