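import Pool.Statements.S04204

set_option autoImplicit false
open Pool Pool.MP_2d773b_an

namespace Pool.Agent.S04204

open Set Filter Topology in
/-- One-sided integrated estimate from the supersolution property. -/
theorem step_le {E : Type*} [NormedAddCommGroup E] [InnerProductSpace ℝ E] [ProperSpace E]
    {T : ℝ} {u F : ℝ → E → ℝ}
    (hu : ContinuousOn (fun q : ℝ × E => u q.1 q.2) (Icc (0:ℝ) T ×ˢ (univ : Set E)))
    (hsup : ∀ φ : ℝ → E → ℝ,
      ContDiff ℝ ((⊤ : ℕ∞) : WithTop ℕ∞) (fun q : ℝ × E => φ q.1 q.2) →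
      ∀ t0 ∈ Ioo (0:ℝ) T, ∀ x0 : E,
        IsLocalMin (fun q : ℝ × E => u q.1 q.2 - φ q.1 q.2) (t0, x0) →
          deriv (fun s => φ s x0) t0 + F t0 x0 ≤ 0)
    {a b m r : ℝ} {x0 : E} (ha : 0 < a) (hab : a < b) (hb : b < T) (hr : 0 < r)
    (hF : ∀ t ∈ Ioo a b, ∀ x ∈ Metric.ball x0 r, 0 < m + F t x) :
    u b x0 - u a x0 ≤ m * (b - a) := by
  by_contra hcon
  push Not at hcon
  obtain ⟨η, hη⟩ : ∃ η, η = u b x0 - u a x0 - m * (b - a) := ⟨_, rfl⟩
  have hη0 : 0 < η := by rw [hη]; linarith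
  have hsub : ∀ ρ : ℝ, Icc a b ×ˢ Metric.closedBall x0 ρ ⊆ Icc (0:ℝ) T ×ˢ (univ : Set E) := by
    intro ρ q hq
    exact ⟨⟨by linarith [hq.1.1], by linarith [hq.1.2]⟩, mem_univ _⟩
  -- uniform continuity on a compact box
  have hKc : IsCompact (Icc a b ×ˢ Metric.closedBall x0 r) :=
    isCompact_Icc.prod (isCompact_closedBall x0 r)
  have huc := hKc.uniformContinuousOn_of_continuous (hu.mono (hsub r))
  rw [Metric.uniformContinuousOn_iff] at huc
  obtain ⟨δ, hδ, huc⟩ := huc (η / 4) (by linarith)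
  obtain ⟨ρ, hρ0, hρδ, hρr⟩ : ∃ ρ : ℝ, 0 < ρ ∧ ρ < δ ∧ ρ < r := by
    refine ⟨min δ r / 2, by positivity, ?_, ?_⟩
    · have := min_le_left δ r; have h0 : 0 < min δ r := lt_min hδ hr; linarith
    · have := min_le_right δ r; have h0 : 0 < min δ r := lt_min hδ hr; linarith
  have hosc : ∀ t ∈ Icc a b, ∀ x : E, ‖x - x0‖ ≤ ρ → |u t x - u t x0| < η / 4 := by
    intro t ht x hx
    have h1 : ((t, x) : ℝ × E) ∈ Icc a b ×ˢ Metric.closedBall x0 r :=
      ⟨ht, by rw [Metric.mem_closedBall, dist_eq_norm]; linarith⟩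
    have h2 : ((t, x0) : ℝ × E) ∈ Icc a b ×ˢ Metric.closedBall x0 r :=
      ⟨ht, Metric.mem_closedBall_self hr.le⟩
    have h3 := huc _ h1 _ h2 (by
      rw [Prod.dist_eq]
      simp only [dist_self]
      rw [dist_eq_norm]
      exact max_lt hδ (by linarith))
    rw [Real.dist_eq] at h3
    exact h3
  -- a time close to a
  obtain ⟨t', ht'a, ht'b, ht'⟩ : ∃ t', a < t' ∧ t' < b ∧
      |u t' x0 - u a x0 - m * (t' - a)| < η / 4 := by
    have hc : ContinuousOn (fun t => u t x0 - u a x0 - m * (t - a)) (Icc a b) := by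
      have h1 : ContinuousOn (fun t : ℝ => u t x0) (Icc a b) := by
        have h2 : ContinuousOn (fun t : ℝ => ((t, x0) : ℝ × E)) (Icc a b) := by fun_prop
        exact hu.comp h2 (fun t ht => ⟨⟨by linarith [ht.1], by linarith [ht.2]⟩, mem_univ _⟩)
      exact (h1.sub continuousOn_const).sub (by fun_prop)
    have hca := hc a ⟨le_refl _, hab.le⟩
    rw [Metric.continuousWithinAt_iff] at hca
    obtain ⟨δ', hδ', hca⟩ := hca (η / 4) (by linarith)
    refine ⟨a + min δ' (b - a) / 2, ?_, ?_, ?_⟩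
    · have h0 : 0 < min δ' (b - a) := lt_min hδ' (by linarith)
      linarith
    · have := min_le_right δ' (b - a); have h0 : 0 < min δ' (b - a) := lt_min hδ' (by linarith)
      linarith
    · have h0 : 0 < min δ' (b - a) := lt_min hδ' (by linarith)
      have h1 := min_le_right δ' (b - a)
      have h2 := min_le_left δ' (b - a)
      have := hca (x := a + min δ' (b - a) / 2) ⟨by linarith, by linarith⟩ (by
        rw [Real.dist_eq, add_sub_cancel_left, abs_of_pos (by linarith)]; linarith)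
      rw [Real.dist_eq] at this
      simpa using this
  obtain ⟨L, hL⟩ : ∃ L, L = 3 / (t' - a) := ⟨_, rfl⟩
  have hta : 0 < t' - a := by linarith
  have hL0 : 0 < L := by rw [hL]; positivity
  have hexp : Real.exp (-(L * (t' - a))) ≤ 1 / 4 := by
    have h1 : L * (t' - a) = 3 := by rw [hL]; field_simp
    rw [h1, Real.exp_neg, ← one_div]
    apply one_div_le_one_div_of_le (by norm_num)
    linarith [Real.add_one_le_exp (3:ℝ)]
  obtain ⟨M, hM⟩ : ∃ M, M = η / (2 * ρ ^ 2) := ⟨_, rfl⟩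
  have hMρ : M * ρ ^ 2 = η / 2 := by rw [hM]; field_simp
  have hM0 : 0 < M := by rw [hM]; positivity
  -- the test function
  let φ : ℝ → E → ℝ := fun t x =>
    u a x0 + m * (t - a) - η * Real.exp (-(L * (t - a))) - M * ‖x - x0‖ ^ 2
  have hφ : ContDiff ℝ ((⊤ : ℕ∞) : WithTop ℕ∞) (fun q : ℝ × E => φ q.1 q.2) := by
    have h1 : ContDiff ℝ ((⊤ : ℕ∞) : WithTop ℕ∞) (fun q : ℝ × E => ‖q.2 - x0‖ ^ 2) :=
      ContDiff.norm_sq ℝ (contDiff_snd.sub contDiff_const)
    have h2 : ContDiff ℝ ((⊤ : ℕ∞) : WithTop ℕ∞)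
        (fun q : ℝ × E => Real.exp (-(L * (q.1 - a)))) :=
      Real.contDiff_exp.comp ((contDiff_const.mul (contDiff_fst.sub contDiff_const)).neg)
    have h3 : ContDiff ℝ ((⊤ : ℕ∞) : WithTop ℕ∞)
        (fun q : ℝ × E => u a x0 + m * (q.1 - a)) :=
      contDiff_const.add (contDiff_const.mul (contDiff_fst.sub contDiff_const))
    exact (h3.sub (contDiff_const.mul h2)).sub (contDiff_const.mul h1)
  have hK'c : IsCompact (Icc a b ×ˢ Metric.closedBall x0 ρ) :=
    isCompact_Icc.prod (isCompact_closedBall x0 ρ)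
  have hΦc : ContinuousOn (fun q : ℝ × E => u q.1 q.2 - φ q.1 q.2)
      (Icc a b ×ˢ Metric.closedBall x0 ρ) :=
    (hu.mono (hsub ρ)).sub hφ.continuous.continuousOn
  obtain ⟨⟨ts, xs⟩, hmem, hmin⟩ := hK'c.exists_isMinOn
    ⟨(a, x0), ⟨⟨le_refl _, hab.le⟩, Metric.mem_closedBall_self hρ0.le⟩⟩ hΦc
  have hmin' : ∀ t ∈ Icc a b, ∀ x : E, ‖x - x0‖ ≤ ρ →
      u ts xs - φ ts xs ≤ u t x - φ t x := by
    intro t ht x hx
    exact hmin (show ((t, x) : ℝ × E) ∈ Icc a b ×ˢ Metric.closedBall x0 ρ from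
      ⟨ht, by rw [Metric.mem_closedBall, dist_eq_norm]; exact hx⟩)
  have hts : ts ∈ Icc a b := hmem.1
  have hxs : ‖xs - x0‖ ≤ ρ := by
    have := hmem.2
    rw [Metric.mem_closedBall, dist_eq_norm] at this
    exact this
  have hbound : u ts xs - φ ts xs ≤ η / 2 := by
    have h1 := hmin' t' ⟨ht'a.le, ht'b.le⟩ x0 (by simp [hρ0.le])
    have h2 : φ t' x0 = u a x0 + m * (t' - a) - η * Real.exp (-(L * (t' - a))) := by
      simp [φ]
    have h3 : η * Real.exp (-(L * (t' - a))) ≤ η * (1 / 4) :=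
      mul_le_mul_of_nonneg_left hexp hη0.le
    rw [h2] at h1
    have h4 := (abs_lt.mp ht').2
    linarith
  have hoscs := abs_lt.mp (hosc ts hts xs hxs)
  have hMn : 0 ≤ M * ‖xs - x0‖ ^ 2 := by positivity
  have hne_a : ts ≠ a := by
    intro h
    have h1 : φ ts xs = u a x0 - η - M * ‖xs - x0‖ ^ 2 := by
      simp [φ, h]
    rw [h1] at hbound
    rw [h] at hbound hoscs
    linarith [hoscs.1]
  have hne_b : ts ≠ b := by
    intro h
    have h1 : φ ts xs = u a x0 + m * (b - a) - η * Real.exp (-(L * (b - a)))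
        - M * ‖xs - x0‖ ^ 2 := by
      simp [φ, h]
    have h2 : 0 < η * Real.exp (-(L * (b - a))) := by positivity
    rw [h1] at hbound
    rw [h] at hbound hoscs
    linarith [hoscs.1]
  have hne_ρ : ‖xs - x0‖ ≠ ρ := by
    intro h
    have h1 := hmin' ts hts x0 (by simp [hρ0.le])
    have h2 : φ ts xs = φ ts x0 - M * ρ ^ 2 := by
      simp [φ, h]
    rw [h2, hMρ] at h1
    linarith [hoscs.1]
  have htsI : ts ∈ Ioo a b :=
    ⟨lt_of_le_of_ne hts.1 (Ne.symm hne_a), lt_of_le_of_ne hts.2 hne_b⟩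
  have hxsI : xs ∈ Metric.ball x0 ρ := by
    rw [Metric.mem_ball, dist_eq_norm]; exact lt_of_le_of_ne hxs hne_ρ
  have hloc : IsLocalMin (fun q : ℝ × E => u q.1 q.2 - φ q.1 q.2) (ts, xs) := by
    apply hmin.isLocalMin
    exact mem_of_superset ((isOpen_Ioo.prod Metric.isOpen_ball).mem_nhds ⟨htsI, hxsI⟩)
      (prod_mono Ioo_subset_Icc_self Metric.ball_subset_closedBall)
  have hkey := hsup φ hφ ts ⟨by linarith [htsI.1], by linarith [htsI.2]⟩ xs hloc
  have hder : HasDerivAt (fun s => φ s xs)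
      (m - η * (Real.exp (-(L * (ts - a))) * (-(L * 1)))) ts := by
    have h1 : HasDerivAt (fun s : ℝ => s - a) 1 ts := (hasDerivAt_id ts).sub_const a
    have h2 : HasDerivAt (fun s : ℝ => -(L * (s - a))) (-(L * 1)) ts := (h1.const_mul L).neg
    have h3 := (h2.exp).const_mul η
    have h4 := ((h1.const_mul m).const_add (u a x0)).sub h3
    have h5 := h4.sub_const (M * ‖xs - x0‖ ^ 2)
    simpa [φ] using h5
  rw [hder.deriv] at hkey
  have h6 := hF ts htsI xs (Metric.ball_subset_ball hρr.le hxsI)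
  have h7 : 0 < η * (Real.exp (-(L * (ts - a))) * (L * 1)) := by positivity
  nlinarith

open Set Filter Topology in
/-- A continuous viscosity solution of the equation `u_t + F(t, x) = 0`, with no spatial derivative, is
differentiable in time with derivative `- F`. -/
theorem hasDerivAt_of_visc {E : Type*} [NormedAddCommGroup E] [InnerProductSpace ℝ E]
    [ProperSpace E] {T : ℝ} {u F : ℝ → E → ℝ}
    (hu : ContinuousOn (fun q : ℝ × E => u q.1 q.2) (Icc (0:ℝ) T ×ˢ (univ : Set E)))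
    (hFc : ContinuousOn (fun q : ℝ × E => F q.1 q.2) (Icc (0:ℝ) T ×ˢ (univ : Set E)))
    (hvis : ∀ φ : ℝ → E → ℝ,
      ContDiff ℝ ((⊤ : ℕ∞) : WithTop ℕ∞) (fun q : ℝ × E => φ q.1 q.2) →
      ∀ t0 ∈ Ioo (0:ℝ) T, ∀ x0 : E,
        (IsLocalMin (fun q : ℝ × E => u q.1 q.2 - φ q.1 q.2) (t0, x0) →
          deriv (fun s => φ s x0) t0 + F t0 x0 ≤ 0) ∧
        (IsLocalMax (fun q : ℝ × E => u q.1 q.2 - φ q.1 q.2) (t0, x0) →
          0 ≤ deriv (fun s => φ s x0) t0 + F t0 x0))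
    (x0 : E) {t0 : ℝ} (ht0 : t0 ∈ Ioo (0:ℝ) T) :
    HasDerivAt (fun t => u t x0) (-(F t0 x0)) t0 := by
  -- the mirrored supersolution property
  have hneg : ContinuousOn (fun q : ℝ × E => (fun t x => -(u t x)) q.1 q.2)
      (Icc (0:ℝ) T ×ˢ (univ : Set E)) := hu.neg
  have hsupneg : ∀ φ : ℝ → E → ℝ,
      ContDiff ℝ ((⊤ : ℕ∞) : WithTop ℕ∞) (fun q : ℝ × E => φ q.1 q.2) →
      ∀ t0 ∈ Ioo (0:ℝ) T, ∀ x0 : E,
        IsLocalMin (fun q : ℝ × E => (fun t x => -(u t x)) q.1 q.2 - φ q.1 q.2) (t0, x0) →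
          deriv (fun s => φ s x0) t0 + (fun t x => -(F t x)) t0 x0 ≤ 0 := by
    intro φ hφ t1 ht1 x1 hmin
    have h1 := (hvis (fun t x => -(φ t x)) hφ.neg t1 ht1 x1).2 (by
      have h2 := hmin.neg
      refine h2.congr ?_
      filter_upwards with q
      ring)
    have h3 : deriv (fun s => -(φ s x1)) t1 = -deriv (fun s => φ s x1) t1 := deriv.fun_neg
    simp only [h3] at h1
    show deriv (fun s => φ s x1) t1 + -(F t1 x1) ≤ 0
    linarith
  rw [hasDerivAt_iff_isLittleO, Asymptotics.isLittleO_iff]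
  intro c hc
  -- continuity of F at (t0, x0)
  have hnhds : Icc (0:ℝ) T ×ˢ (univ : Set E) ∈ 𝓝 ((t0, x0) : ℝ × E) :=
    prod_mem_nhds (Icc_mem_nhds ht0.1 ht0.2) univ_mem
  have hFa : ContinuousAt (fun q : ℝ × E => F q.1 q.2) (t0, x0) := hFc.continuousAt hnhds
  rw [Metric.continuousAt_iff] at hFa
  obtain ⟨r, hr, hFa⟩ := hFa c hc
  have hFb : ∀ t : ℝ, |t - t0| < r → ∀ x ∈ Metric.ball x0 r,
      |F t x - F t0 x0| < c := by
    intro t ht x hx
    have := @hFa (t, x) (by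
      rw [Prod.dist_eq]
      exact max_lt (by rw [Real.dist_eq]; exact ht) hx)
    rw [Real.dist_eq] at this
    exact this
  -- two-sided estimate on short intervals
  have hest : ∀ a b : ℝ, 0 < a → a < b → b < T → |a - t0| < r → |b - t0| < r →
      |u b x0 - u a x0 + F t0 x0 * (b - a)| ≤ c * (b - a) := by
    intro a b ha hab hb har hbr
    have hin : ∀ t ∈ Ioo a b, |t - t0| < r := by
      intro t ht
      rw [abs_lt] at har hbr ⊢
      exact ⟨by linarith [ht.1, har.1], by linarith [ht.2, hbr.2]⟩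
    have h1 : u b x0 - u a x0 ≤ (c - F t0 x0) * (b - a) := by
      refine step_le (F := F) hu (fun φ hφ t1 ht1 x1 => (hvis φ hφ t1 ht1 x1).1) ha hab hb hr ?_
      intro t ht x hx
      have := (abs_lt.mp (hFb t (hin t ht) x hx)).1
      linarith
    have h2 : (fun t x => -(u t x)) b x0 - (fun t x => -(u t x)) a x0
        ≤ (c + F t0 x0) * (b - a) := by
      refine step_le (u := fun t x => -(u t x)) (F := fun t x => -(F t x)) hneg hsupneg ha hab hb hr ?_
      intro t ht x hx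
      have := (abs_lt.mp (hFb t (hin t ht) x hx)).2
      show 0 < c + F t0 x0 + -(F t x)
      linarith
    have h2' : -(u b x0) - -(u a x0) ≤ (c + F t0 x0) * (b - a) := h2
    rw [abs_le]
    constructor <;> nlinarith
  have hev1 : ∀ᶠ t in 𝓝 t0, |t - t0| < r := by
    have : Metric.ball t0 r ∈ 𝓝 t0 := Metric.ball_mem_nhds t0 hr
    filter_upwards [this] with t ht
    rw [Metric.mem_ball, Real.dist_eq] at ht
    exact ht
  have hev2 : ∀ᶠ t in 𝓝 t0, t ∈ Ioo (0:ℝ) T := Ioo_mem_nhds ht0.1 ht0.2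
  filter_upwards [hev1, hev2] with t h1 h2
  rw [Real.norm_eq_abs, Real.norm_eq_abs, smul_eq_mul]
  have h00 : |t0 - t0| < r := by simpa using hr
  rcases lt_trichotomy t t0 with h | h | h
  · have := hest t t0 h2.1 h ht0.2 h1 h00
    rw [abs_of_neg (show t - t0 < 0 by linarith)]
    have h3 : u t x0 - u t0 x0 - (t - t0) * -F t0 x0
        = -(u t0 x0 - u t x0 + F t0 x0 * (t0 - t)) := by ring
    rw [h3, abs_neg]
    linarith
  · subst h
    simp
  · have := hest t0 t ht0.1 h h2.2 h00 h1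
    rw [abs_of_pos (show 0 < t - t0 by linarith)]
    have h3 : u t x0 - u t0 x0 - (t - t0) * -F t0 x0
        = (u t x0 - u t0 x0 + F t0 x0 * (t - t0)) := by ring
    rw [h3]
    linarith

open Set Filter Topology in
/-- A solution of `v' = -2 (sqrt v - sqrt (-v))` on `[0,1]` that ends at a positive value starts
at a value at least `1`. -/
theorem ode_bound {v : ℝ → ℝ} (hv : ContinuousOn v (Icc (0:ℝ) 1)) (hv1 : 0 < v 1)
    (hd : ∀ t ∈ Ioo (0:ℝ) 1, HasDerivAt v (-(2 * (√(v t) - √(-(v t))))) t) :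
    1 ≤ v 0 := by
  -- v is positive on [0,1]
  have hpos : ∀ t ∈ Icc (0:ℝ) 1, 0 < v t := by
    by_contra hcon
    push Not at hcon
    obtain ⟨t1, ht1, hvt1⟩ := hcon
    -- the set of points with v ≤ 0 is compact
    have hcl : IsCompact (Icc (0:ℝ) 1 ∩ v ⁻¹' Iic 0) := by
      have := hv.preimage_isClosed_of_isClosed isClosed_Icc isClosed_Iic (t := Iic (0:ℝ))
      exact isCompact_Icc.of_isClosed_subset this inter_subset_left
    obtain ⟨s, hs, hsmax⟩ := hcl.exists_isMaxOn ⟨t1, ht1, hvt1⟩ continuousOn_id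
    have hs1 : s < 1 := by
      rcases lt_or_eq_of_le hs.1.2 with h | h
      · exact h
      · exfalso
        have := hs.2
        rw [h] at this
        simp only [mem_preimage, mem_Iic] at this
        linarith
    have hafter : ∀ t ∈ Ioc s 1, 0 < v t := by
      intro t ht
      by_contra hneg
      push Not at hneg
      have := hsmax (show t ∈ Icc (0:ℝ) 1 ∩ v ⁻¹' Iic 0 from
        ⟨⟨by linarith [hs.1.1, ht.1], ht.2⟩, hneg⟩)
      simp only [id] at this
      have h2 : t ≤ s := this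
      linarith [ht.1]
    have hanti : AntitoneOn v (Icc s 1) := by
      apply antitoneOn_of_deriv_nonpos (convex_Icc s 1)
        (hv.mono (Icc_subset_Icc_left hs.1.1))
      · intro t ht
        rw [interior_Icc] at ht
        exact (hd t ⟨by linarith [ht.1, hs.1.1], ht.2⟩).differentiableAt.differentiableWithinAt
      · intro t ht
        rw [interior_Icc] at ht
        rw [(hd t ⟨by linarith [ht.1, hs.1.1], ht.2⟩).deriv]
        have h1 := hafter t ⟨ht.1, ht.2.le⟩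
        have h2 : √(-(v t)) = 0 := Real.sqrt_eq_zero_of_nonpos (by linarith)
        rw [h2]
        have := Real.sqrt_nonneg (v t)
        linarith
    have := hanti ⟨le_refl s, hs1.le⟩ ⟨hs1.le, le_refl 1⟩ hs1.le
    have h3 : v s ≤ 0 := hs.2
    linarith
  have hsq : ContinuousOn (fun t => √(v t)) (Icc (0:ℝ) 1) := hv.sqrt
  obtain ⟨c, hc, hceq⟩ := exists_hasDerivAt_eq_slope (fun t => √(v t)) (fun _ => (-1:ℝ))
    (zero_lt_one) hsq (by
      intro t ht
      have h1 := hpos t ⟨ht.1.le, ht.2.le⟩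
      have h2 := (hd t ht).sqrt h1.ne'
      have h3 : √(-(v t)) = 0 := Real.sqrt_eq_zero_of_nonpos (by linarith)
      have h4 : 0 < √(v t) := Real.sqrt_pos.mpr h1
      convert h2 using 1
      rw [h3]
      field_simp
      ring)
  have h0 : 0 ≤ √(v 1) := Real.sqrt_nonneg _
  have h1 : 1 ≤ √(v 0) := by
    have : (-1 : ℝ) = (√(v 1) - √(v 0)) / (1 - 0) := hceq
    have h5 : (√(v 1) - √(v 0)) / (1 - 0) = √(v 1) - √(v 0) := by norm_num
    rw [h5] at this
    linarith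
  have h2 : 0 < v 0 := hpos 0 ⟨le_refl _, zero_le_one⟩
  nlinarith [Real.sq_sqrt h2.le]

/-- Continuity of the coordinate embedding of the line. -/
theorem cont_single : Continuous (fun s : ℝ => EuclideanSpace.single (0 : Fin 1) s) := by
  have h : Continuous (fun s : ℝ => (Pi.single (0 : Fin 1) s : Fin 1 → ℝ)) := by
    refine continuous_pi (fun i => ?_)
    have : i = 0 := Subsingleton.elim _ _
    subst this
    simp only [Pi.single_eq_same]
    exact continuous_id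
  exact (PiLp.continuous_toLp 2 (fun _ : Fin 1 => ℝ)).comp h

/-- The negation of the preceding statement: For all T>0, n,d≥1 and continuous b,σ,g,h with Lipschitz/bounded coefficients and growth bounds G1, G2, some u continuous on [0,T]×ℝⁿ with u(T,·)=h is a viscosity sub- and supersolution of ∂ₜu+Lu+g(t,x,u,σ*∇u)=0 on (0,T)×ℝⁿ. -/
theorem result :
    ¬ (∀ (T : ℝ), 0 < T → ∀ (n d : ℕ), 1 ≤ n → 1 ≤ d →
  ∀ (b : ℝ → EuclideanSpace ℝ (Fin n) → EuclideanSpace ℝ (Fin n))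
    (σ : ℝ → EuclideanSpace ℝ (Fin n) → Fin n → Fin d → ℝ)
    (g : ℝ → EuclideanSpace ℝ (Fin n) → ℝ → (Fin d → ℝ) → ℝ)
    (h : EuclideanSpace ℝ (Fin n) → ℝ)
    (K k α p : ℝ),
    ContinuousOn (fun q : ℝ × EuclideanSpace ℝ (Fin n) => b q.1 q.2)
      (Set.Icc (0:ℝ) T ×ˢ (Set.univ : Set (EuclideanSpace ℝ (Fin n)))) →
    ContinuousOn (fun q : ℝ × EuclideanSpace ℝ (Fin n) => σ q.1 q.2)
      (Set.Icc (0:ℝ) T ×ˢ (Set.univ : Set (EuclideanSpace ℝ (Fin n)))) →
    ContinuousOn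
      (fun q : ℝ × EuclideanSpace ℝ (Fin n) × ℝ × (Fin d → ℝ) => g q.1 q.2.1 q.2.2.1 q.2.2.2)
      (Set.Icc (0:ℝ) T ×ˢ (Set.univ : Set (EuclideanSpace ℝ (Fin n) × ℝ × (Fin d → ℝ)))) →
    Continuous h →
    0 < K → 0 ≤ k → 1 < α → α ≤ 2 → 1 ≤ p → p < α / (α - 1) →
    (∀ t ∈ Set.Icc (0:ℝ) T, ∀ x x' : EuclideanSpace ℝ (Fin n),
      ‖b t 0‖ + Real.sqrt (∑ i, ∑ j, (σ t x i j) ^ 2) ≤ K ∧
      ‖b t x - b t x'‖ + Real.sqrt (∑ i, ∑ j, (σ t x i j - σ t x' i j) ^ 2) ≤ K * ‖x - x'‖) →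
    (∀ t ∈ Set.Icc (0:ℝ) T, ∀ (x : EuclideanSpace ℝ (Fin n)) (y : ℝ) (z : Fin d → ℝ),
      Real.sign y * g t x y z
        ≤ k * (1 + ‖x‖ ^ p + |y| + (Real.sqrt (∑ j, z j ^ 2)) ^ α)) →
    (∀ t ∈ Set.Icc (0:ℝ) T, ∀ (x : EuclideanSpace ℝ (Fin n)) (y : ℝ) (z : Fin d → ℝ),
      |g t x y z| + |h x|
        ≤ k * (1 + ‖x‖ ^ p + Real.exp (k * |y| ^ (2 / (α / (α - 1)))) + ∑ j, z j ^ 2)) →
    ∃ u : ℝ → EuclideanSpace ℝ (Fin n) → ℝ,
      ContinuousOn (fun q : ℝ × EuclideanSpace ℝ (Fin n) => u q.1 q.2)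
        (Set.Icc (0:ℝ) T ×ˢ (Set.univ : Set (EuclideanSpace ℝ (Fin n)))) ∧
      (∀ x, u T x = h x) ∧
      ∀ φ : ℝ → EuclideanSpace ℝ (Fin n) → ℝ,
        ContDiff ℝ ((⊤ : ℕ∞) : WithTop ℕ∞)
          (fun q : ℝ × EuclideanSpace ℝ (Fin n) => φ q.1 q.2) →
        ∀ t0 ∈ Set.Ioo (0:ℝ) T, ∀ x0 : EuclideanSpace ℝ (Fin n),
          (IsLocalMin (fun q : ℝ × EuclideanSpace ℝ (Fin n) => u q.1 q.2 - φ q.1 q.2) (t0, x0) →
            deriv (fun s => φ s x0) t0 + fderiv ℝ (φ t0) x0 (b t0 x0)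
              + (1 / 2) * ∑ i, ∑ j, (∑ l, σ t0 x0 i l * σ t0 x0 j l)
                  * fderiv ℝ (fun y => fderiv ℝ (φ t0) y) x0
                      (EuclideanSpace.single i (1:ℝ)) (EuclideanSpace.single j (1:ℝ))
              + g t0 x0 (u t0 x0)
                  (fun j => ∑ i, σ t0 x0 i j * fderiv ℝ (φ t0) x0 (EuclideanSpace.single i (1:ℝ)))
              ≤ 0) ∧
          (IsLocalMax (fun q : ℝ × EuclideanSpace ℝ (Fin n) => u q.1 q.2 - φ q.1 q.2) (t0, x0) →
            0 ≤ deriv (fun s => φ s x0) t0 + fderiv ℝ (φ t0) x0 (b t0 x0)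
              + (1 / 2) * ∑ i, ∑ j, (∑ l, σ t0 x0 i l * σ t0 x0 j l)
                  * fderiv ℝ (fun y => fderiv ℝ (φ t0) y) x0
                      (EuclideanSpace.single i (1:ℝ)) (EuclideanSpace.single j (1:ℝ))
              + g t0 x0 (u t0 x0)
                  (fun j => ∑ i, σ t0 x0 i j * fderiv ℝ (φ t0) x0 (EuclideanSpace.single i (1:ℝ))))) := by
  intro hmain
  -- the data of the counterexample
  obtain ⟨u, hu, huT, hvis⟩ := hmain 1 one_pos 1 1 le_rfl le_rfl
    (fun _ _ => 0) (fun _ _ _ _ => 0) (fun _ _ y _ => 2 * (√y - √(-y))) (fun x => x 0)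
    1 1 2 1 continuousOn_const continuousOn_const
    (by
      apply Continuous.continuousOn
      fun_prop)
    (by fun_prop) one_pos zero_le_one (by norm_num) le_rfl le_rfl (by norm_num)
    (by
      intro t _ x x'
      constructor
      · simp
      · simp)
    (by
      intro t _ x y z
      have h1 : (0:ℝ) ≤ ‖x‖ ^ (1:ℝ) := by positivity
      have h2 : (0:ℝ) ≤ (Real.sqrt (∑ j, z j ^ 2)) ^ (2:ℝ) := by positivity
      have h3 : Real.sign y * (2 * (√y - √(-y))) ≤ 1 + |y| := by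
        rcases lt_trichotomy y 0 with h | h | h
        · rw [Real.sign_of_neg h, Real.sqrt_eq_zero_of_nonpos h.le, abs_of_neg h]
          nlinarith [Real.sq_sqrt (show 0 ≤ -y by linarith), sq_nonneg (√(-y) - 1)]
        · subst h; simp
        · rw [Real.sign_of_pos h, Real.sqrt_eq_zero_of_nonpos (show -y ≤ 0 by linarith),
            abs_of_pos h]
          nlinarith [Real.sq_sqrt h.le, sq_nonneg (√y - 1)]
      show Real.sign y * (2 * (√y - √(-y))) ≤ _
      linarith)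
    (by
      intro t _ x y z
      have h1 : |x 0| ≤ ‖x‖ ^ (1:ℝ) := by
        rw [Real.rpow_one]
        simpa using PiLp.norm_apply_le x 0
      have h2 : (0:ℝ) ≤ ∑ j, z j ^ 2 := Finset.sum_nonneg (fun j _ => sq_nonneg _)
      have h3 : |2 * (√y - √(-y))| ≤ 1 + |y| := by
        rcases le_total y 0 with h | h
        · rw [Real.sqrt_eq_zero_of_nonpos h, abs_of_nonpos h]
          rw [abs_of_nonpos (by nlinarith [Real.sqrt_nonneg (-y)])]
          nlinarith [Real.sq_sqrt (show 0 ≤ -y by linarith), sq_nonneg (√(-y) - 1)]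
        · rw [Real.sqrt_eq_zero_of_nonpos (show -y ≤ 0 by linarith), abs_of_nonneg h]
          rw [abs_of_nonneg (by nlinarith [Real.sqrt_nonneg y])]
          nlinarith [Real.sq_sqrt h, sq_nonneg (√y - 1)]
      have h4 : 1 + |y| ≤ Real.exp (1 * |y| ^ ((2:ℝ) / (2 / (2 - 1)))) := by
        have h5 : ((2:ℝ) / (2 / (2 - 1))) = 1 := by norm_num
        rw [h5, Real.rpow_one, one_mul]
        linarith [Real.add_one_le_exp |y|]
      linarith)
  -- reduce the viscosity property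
  have hvis' : ∀ φ : ℝ → EuclideanSpace ℝ (Fin 1) → ℝ,
      ContDiff ℝ ((⊤ : ℕ∞) : WithTop ℕ∞)
        (fun q : ℝ × EuclideanSpace ℝ (Fin 1) => φ q.1 q.2) →
      ∀ t0 ∈ Set.Ioo (0:ℝ) 1, ∀ x0 : EuclideanSpace ℝ (Fin 1),
        (IsLocalMin (fun q : ℝ × EuclideanSpace ℝ (Fin 1) => u q.1 q.2 - φ q.1 q.2) (t0, x0) →
          deriv (fun s => φ s x0) t0 + (fun t x => 2 * (√(u t x) - √(-(u t x)))) t0 x0 ≤ 0) ∧
        (IsLocalMax (fun q : ℝ × EuclideanSpace ℝ (Fin 1) => u q.1 q.2 - φ q.1 q.2) (t0, x0) →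
          0 ≤ deriv (fun s => φ s x0) t0
            + (fun t x => 2 * (√(u t x) - √(-(u t x)))) t0 x0) := by
    intro φ hφ t0 ht0 x0
    have h := hvis φ hφ t0 ht0 x0
    simpa using h
  have hFc : ContinuousOn (fun q : ℝ × EuclideanSpace ℝ (Fin 1) =>
      (fun t x => 2 * (√(u t x) - √(-(u t x)))) q.1 q.2)
      (Set.Icc (0:ℝ) 1 ×ˢ (Set.univ : Set (EuclideanSpace ℝ (Fin 1)))) :=
    continuousOn_const.mul (hu.sqrt.sub hu.neg.sqrt)
  have hder : ∀ x0 : EuclideanSpace ℝ (Fin 1), ∀ t0 ∈ Set.Ioo (0:ℝ) 1,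
      HasDerivAt (fun t => u t x0) (-(2 * (√(u t0 x0) - √(-(u t0 x0))))) t0 :=
    fun x0 t0 ht0 => hasDerivAt_of_visc hu hFc hvis' x0 ht0
  have hcont : ∀ x0 : EuclideanSpace ℝ (Fin 1),
      ContinuousOn (fun t => u t x0) (Set.Icc (0:ℝ) 1) := by
    intro x0
    have h2 : ContinuousOn (fun t : ℝ => ((t, x0) : ℝ × EuclideanSpace ℝ (Fin 1)))
      (Set.Icc (0:ℝ) 1) := by fun_prop
    exact hu.comp h2 (fun t ht => ⟨ht, Set.mem_univ _⟩)
  -- the section at time zero
  have hpos : ∀ s : ℝ, 0 < s → 1 ≤ u 0 (EuclideanSpace.single 0 s) := by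
    intro s hs
    refine ode_bound (v := fun t => u t (EuclideanSpace.single 0 s)) (hcont _) ?_ ?_
    · show 0 < u 1 (EuclideanSpace.single 0 s)
      rw [huT]
      simpa using hs
    · intro t ht
      exact hder _ t ht
  have hneg : ∀ s : ℝ, s < 0 → u 0 (EuclideanSpace.single 0 s) ≤ -1 := by
    intro s hs
    have : 1 ≤ (fun t => -(u t (EuclideanSpace.single 0 s))) 0 := by
      refine ode_bound (v := fun t => -(u t (EuclideanSpace.single 0 s))) (hcont _).neg ?_ ?_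
      · show 0 < -(u 1 (EuclideanSpace.single 0 s))
        rw [huT]
        simpa using hs
      · intro t ht
        have h1 := (hder (EuclideanSpace.single 0 s) t ht).neg
        have h2 : -(2 * (√(-(u t (EuclideanSpace.single 0 s)))
            - √(-(-(u t (EuclideanSpace.single 0 s))))))
          = -(-(2 * (√(u t (EuclideanSpace.single 0 s))
            - √(-(u t (EuclideanSpace.single 0 s)))))) := by
          rw [neg_neg (u t (EuclideanSpace.single 0 s))]; ring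
        show HasDerivAt (fun t => -(u t (EuclideanSpace.single 0 s)))
          (-(2 * (√(-(u t (EuclideanSpace.single 0 s)))
            - √(-(-(u t (EuclideanSpace.single 0 s))))))) t
        rw [h2]
        exact h1
    have h3 : 1 ≤ -(u 0 (EuclideanSpace.single 0 s)) := this
    linarith
  have hc0 : Continuous (fun s : ℝ => u 0 (EuclideanSpace.single (0 : Fin 1) s)) := by
    have h2 : Continuous (fun s : ℝ =>
        ((0, EuclideanSpace.single (0 : Fin 1) s) : ℝ × EuclideanSpace ℝ (Fin 1))) := by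
      exact continuous_const.prodMk cont_single
    rw [← continuousOn_univ]
    exact hu.comp h2.continuousOn
      (fun s _ => ⟨⟨le_refl _, zero_le_one⟩, Set.mem_univ _⟩)
  have ha : 1 ≤ u 0 (EuclideanSpace.single (0 : Fin 1) (0:ℝ)) := by
    have h1 : Filter.Tendsto (fun s : ℝ => u 0 (EuclideanSpace.single (0 : Fin 1) s))
        (nhdsWithin 0 (Set.Ioi 0)) (nhds (u 0 (EuclideanSpace.single (0 : Fin 1) (0:ℝ)))) :=
      (hc0.tendsto 0).mono_left nhdsWithin_le_nhds
    refine ge_of_tendsto h1 ?_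
    filter_upwards [self_mem_nhdsWithin] with s hs
    exact hpos s hs
  have hb : u 0 (EuclideanSpace.single (0 : Fin 1) (0:ℝ)) ≤ -1 := by
    have h1 : Filter.Tendsto (fun s : ℝ => u 0 (EuclideanSpace.single (0 : Fin 1) s))
        (nhdsWithin 0 (Set.Iio 0)) (nhds (u 0 (EuclideanSpace.single (0 : Fin 1) (0:ℝ)))) :=
      (hc0.tendsto 0).mono_left nhdsWithin_le_nhds
    refine le_of_tendsto h1 ?_
    filter_upwards [self_mem_nhdsWithin] with s hs
    exact hneg s hs
  linarith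

end Pool.Agent.S04204
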