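import Pool.Statements.S04484
import Pool.Agent.Lib_helper47.WSC.Final

set_option autoImplicit false
open Filter Topology
open Pool Pool.MP_4285bb_an

namespace Pool.Agent.S04484

open Pool.Agent.WSC in
/-- the quadratic polynomials on the space are weakly sequentially continuous -/
theorem poly_wsc (A : ContinuousMultilinearMap ℝ (fun _ : Fin 2 => XX) ℝ) (x : ℕ → XX) (x0 : XX)
    (hx : ∀ φ : XX →L[ℝ] ℝ, Tendsto (fun k => φ (x k)) atTop (𝓝 (φ x0))) :
    Tendsto (fun k => A (fun _ => x k)) atTop (𝓝 (A (fun _ => x0))) := by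
  let D : XX →L[ℝ] XX →L[ℝ] ℝ :=
    ((continuousMultilinearCurryFin1 ℝ XX ℝ).toContinuousLinearEquiv.toContinuousLinearMap).comp
      A.curryLeft
  have hD : ∀ y, D y y = A (fun _ => y) := by
    intro y
    have h1 : D y y = A (Fin.cons y (fun _ => y)) := rfl
    rw [h1]
    congr 1
    funext i
    refine Fin.cases ?_ ?_ i
    · rfl
    · intro j; rfl
  let S : XX →L[ℝ] XX →L[ℝ] ℝ := D + D.flip
  have hS : ∀ y z, S y z = D y z + D z y := fun y z => rfl
  have hsym : ∀ y z, S y z = S z y := fun y z => by rw [hS, hS, add_comm]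
  have hd : WNull (fun k => x k - x0) := by
    intro φ
    have := (hx φ).sub_const (φ x0)
    rw [sub_self] at this
    exact this.congr fun k => (map_sub φ _ _).symm
  obtain ⟨C, hC⟩ := hd.bounded
  have hxb : ∀ k, ‖x k‖ ≤ C + ‖x0‖ := by
    intro k
    calc ‖x k‖ = ‖(x k - x0) + x0‖ := by rw [sub_add_cancel]
      _ ≤ ‖x k - x0‖ + ‖x0‖ := norm_add_le _ _
      _ ≤ C + ‖x0‖ := by have := hC k; linarith
  have h1 := sym_wsc S hsym hd hxb
  have h2 := hd (S x0)
  have h3 : ∀ k, A (fun _ => x k) =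
      (1 / 2) * (S (x k - x0) (x k) + S x0 (x k - x0)) + A (fun _ => x0) := by
    intro k
    rw [← hD, ← hD]
    have h4 : S (x k - x0) (x k) + S x0 (x k - x0) = S (x k) (x k) - S x0 x0 := by
      rw [map_sub S, map_sub (S x0), ContinuousLinearMap.sub_apply]
      ring
    rw [h4, hS, hS]
    ring
  simp_rw [h3]
  have := ((h1.add h2).const_mul (1 / 2)).add_const (A (fun _ => x0))
  simpa using this

/-- The negation of the preceding statement: For real or complex Banach spaces X (reflexive) and Y, if every continuous n-homogeneous polynomial X→Y sends weakly convergent sequences to norm convergent ones, then so does every continuous n-linear map X^n→Y (coordinatewise weak convergence). -/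
theorem result :
    ¬ (∀ (𝕜 : Type) [RCLike 𝕜] (n : ℕ) (X Y : Type)
      [NormedAddCommGroup X] [NormedSpace 𝕜 X] [CompleteSpace X]
      [NormedAddCommGroup Y] [NormedSpace 𝕜 Y] [CompleteSpace Y],
      Function.Surjective (NormedSpace.inclusionInDoubleDual 𝕜 X) →
      (∀ A : ContinuousMultilinearMap 𝕜 (fun _ : Fin n => X) Y,
        ∀ (x : ℕ → X) (x0 : X),
          (∀ φ : X →L[𝕜] 𝕜, Tendsto (fun k => φ (x k)) atTop (𝓝 (φ x0))) →
          Tendsto (fun k => A (fun _ => x k)) atTop (𝓝 (A (fun _ => x0)))) →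
      ∀ A : ContinuousMultilinearMap 𝕜 (fun _ : Fin n => X) Y,
        ∀ (x : ℕ → Fin n → X) (x0 : Fin n → X),
          (∀ i : Fin n, ∀ φ : X →L[𝕜] 𝕜,
            Tendsto (fun k => φ (x k i)) atTop (𝓝 (φ (x0 i)))) →
          Tendsto (fun k => A (x k)) atTop (𝓝 (A x0))) := by
  intro h
  obtain ⟨T, hT⟩ := Pool.Agent.WSC.exists_form
  let A : ContinuousMultilinearMap ℝ (fun _ : Fin 2 => Pool.Agent.WSC.XX) ℝ :=
    (((continuousMultilinearCurryFin1 ℝ Pool.Agent.WSC.XX
      ℝ).symm.toContinuousLinearEquiv.toContinuousLinearMap).comp T).uncurryLeft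
  have hA : ∀ m, A m = T (m 0) (m 1) := fun m => rfl
  have h1 := h ℝ 2 Pool.Agent.WSC.XX ℝ Pool.Agent.WSC.reflexive poly_wsc A
    (fun k => ![Pool.Agent.WSC.io (Pool.Agent.WSC.e k false),
      Pool.Agent.WSC.io (Pool.Agent.WSC.e k true)]) (fun _ => 0) (by
      intro i φ
      rw [map_zero]
      fin_cases i
      · exact Pool.Agent.WSC.e_wnull false φ
      · exact Pool.Agent.WSC.e_wnull true φ)
  have h2 : ∀ k, A ![Pool.Agent.WSC.io (Pool.Agent.WSC.e k false),
      Pool.Agent.WSC.io (Pool.Agent.WSC.e k true)] = 1 := by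
    intro k
    rw [hA]
    show T (Pool.Agent.WSC.io (Pool.Agent.WSC.e k false))
      (Pool.Agent.WSC.io (Pool.Agent.WSC.e k true)) = 1
    rw [hT, Pool.Agent.WSC.om_e]
    simp
  simp_rw [h2] at h1
  have h3 : A (fun _ => 0) = 0 := by
    rw [hA]
    simp
  rw [h3] at h1
  have := tendsto_nhds_unique h1 tendsto_const_nhds
  norm_num at this

end Pool.Agent.S04484
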