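import Pool.Statements.S04784
import Pool.Agent.Lib_helper46.Schild.Final

set_option autoImplicit false
open Pool Pool.MP_5d03ee_an

namespace Pool.Agent.S04784

open Pool.Agent.Lib_helper46.Schild in
/-- `sInf` of the ratio over the starlike class is at most `0.616`. -/
lemma starlike_le (ρ : (ℂ → ℂ) → ℝ) (hρ : ρ = rho) :
    sInf {x : ℝ | ∃ f : ℂ → ℂ, DifferentiableOn ℂ f (Metric.ball (0:ℂ) 1) ∧
        Set.InjOn f (Metric.ball (0:ℂ) 1) ∧ f 0 = 0 ∧ deriv f 0 = 1 ∧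
        StarConvex ℝ (0:ℂ) (f '' Metric.ball (0:ℂ) 1) ∧ x = ρ f} ≤ 0.616 := by
  subst hρ
  refine le_trans (csInf_le ?_ ?_) rho_hA
  · refine ⟨0, ?_⟩
    rintro x ⟨f, -, -, -, -, -, rfl⟩
    exact rho_nonneg f
  · refine ⟨fh hA, good_hA.differentiableOn_fh, good_hA.injOn, fh_zero, ?_,
      good_hA.starConvex le_rfl, rfl⟩
    have h0 : (0:ℂ) ∈ Metric.ball (0:ℂ) 1 := by simp
    rw [(good_hA.hasDerivAt_fh h0).deriv]
    simp [ph, hA, qd]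

open Pool.Agent.Lib_helper46.Schild in
/-- `sInf` of the ratio over Suffridge's family is at least `exp (-0.484)`. -/
lemma le_family (ρ : (ℂ → ℂ) → ℝ) (hρ : ρ = rho) :
    Real.exp (-0.484) ≤ sInf {x : ℝ | ∃ b : ℝ, 0 ≤ b ∧ b ≤ 1 ∧ ∃ L M : ℂ → ℂ,
        ContinuousOn L (Metric.ball (0:ℂ) 1) ∧ ContinuousOn M (Metric.ball (0:ℂ) 1) ∧
        L 0 = 0 ∧ M 0 = 0 ∧
        (∀ z ∈ Metric.ball (0:ℂ) 1, Complex.exp (L z) =
          ((1 + 2 * (2 * (b:ℂ) ^ 2 - 1) * z + z ^ 2) ^ (1/2 : ℂ) / (1 - z)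
            + (b:ℂ) * ((1 + z) / (1 - z))) / (1 + (b:ℂ))) ∧
        (∀ z ∈ Metric.ball (0:ℂ) 1, Complex.exp (M z) =
          2 / ((1 + 2 * (2 * (b:ℂ) ^ 2 - 1) * z + z ^ 2) ^ (1/2 : ℂ) + 1 + z)) ∧
        x = ρ (fun z : ℂ => z * Complex.exp (2 * (b:ℂ) * L z + 2 * M z))} := by
  subst hρ
  apply le_csInf
  · refine ⟨_, 0, le_rfl, zero_le_one, fun _ => 0, fun _ => 0, continuousOn_const,
      continuousOn_const, rfl, rfl, ?_, ?_, rfl⟩
    · intro z hz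
      have h1 : (1 + 2 * (2 * ((0:ℝ):ℂ) ^ 2 - 1) * z + z ^ 2) ^ (1/2 : ℂ) = 1 - z := by
        have := sqrt_zero_case hz
        simpa [Rb] using this
      have h2 := one_sub_ne hz
      rw [h1]
      simp [h2]
    · intro z hz
      have h1 : (1 + 2 * (2 * ((0:ℝ):ℂ) ^ 2 - 1) * z + z ^ 2) ^ (1/2 : ℂ) = 1 - z := by
        have := sqrt_zero_case hz
        simpa [Rb] using this
      have h5 : (1 - z + 1 + z : ℂ) = 2 := by ring
      rw [h1, h5]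
      simp
  · rintro x ⟨b, hb0, hb1, L, M, cL, cM, L0, M0, eL, eM, rfl⟩
    exact family_bound (b := b) (L := L) (M := M) ⟨hb0, hb1, cL, cM, L0, M0, eL, eM⟩

/-- The negation of the preceding statement: Over normalized univalent starlike functions, the infimum of d*/d (d* = min modulus on the circle of convexity radius, d = distance to the nearest omitted value) equals the infimum of that ratio over Suffridge's functions g_a, a=2b²-1, b in [0,1]. -/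
theorem result :
    ¬ (∀ ρ : (ℂ → ℂ) → ℝ,
    (∀ f : ℂ → ℂ, ρ f =
      sInf ((fun w : ℂ => ‖w‖) '' frontier (f '' Metric.ball (0:ℂ)
        (sSup {r : ℝ | 0 < r ∧ r ≤ 1 ∧ Convex ℝ (f '' Metric.ball (0:ℂ) r)})))
      / Metric.infDist (0:ℂ) (f '' Metric.ball (0:ℂ) 1)ᶜ) →
    sInf {x : ℝ | ∃ f : ℂ → ℂ, DifferentiableOn ℂ f (Metric.ball (0:ℂ) 1) ∧
        Set.InjOn f (Metric.ball (0:ℂ) 1) ∧ f 0 = 0 ∧ deriv f 0 = 1 ∧
        StarConvex ℝ (0:ℂ) (f '' Metric.ball (0:ℂ) 1) ∧ x = ρ f}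
    = sInf {x : ℝ | ∃ b : ℝ, 0 ≤ b ∧ b ≤ 1 ∧ ∃ L M : ℂ → ℂ,
        ContinuousOn L (Metric.ball (0:ℂ) 1) ∧ ContinuousOn M (Metric.ball (0:ℂ) 1) ∧
        L 0 = 0 ∧ M 0 = 0 ∧
        (∀ z ∈ Metric.ball (0:ℂ) 1, Complex.exp (L z) =
          ((1 + 2 * (2 * (b:ℂ) ^ 2 - 1) * z + z ^ 2) ^ (1/2 : ℂ) / (1 - z)
            + (b:ℂ) * ((1 + z) / (1 - z))) / (1 + (b:ℂ))) ∧
        (∀ z ∈ Metric.ball (0:ℂ) 1, Complex.exp (M z) =
          2 / ((1 + 2 * (2 * (b:ℂ) ^ 2 - 1) * z + z ^ 2) ^ (1/2 : ℂ) + 1 + z)) ∧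
        x = ρ (fun z : ℂ => z * Complex.exp (2 * (b:ℂ) * L z + 2 * M z))}) := by
  intro hmain
  have h := hmain Pool.Agent.Lib_helper46.Schild.rho (fun f => rfl)
  have h1 := starlike_le Pool.Agent.Lib_helper46.Schild.rho rfl
  have h2 := le_family Pool.Agent.Lib_helper46.Schild.rho rfl
  rw [h] at h1
  have h3 := h2.trans h1
  have h4 := Pool.Agent.Lib_helper46.Schild.exp_neg_lam
  linarith

end Pool.Agent.S04784
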