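import Pool.Statements.S04823
import Pool.Agent.GC18.Assemble
import Pool.Agent.GC18.Bdd
import Pool.Agent.GC18.Closing
import Pool.Agent.GC18.Cluster
import Pool.Agent.GC18.Count
import Pool.Agent.GC18.E1
import Pool.Agent.GC18.E2
import Pool.Agent.GC18.E3
import Pool.Agent.GC18.Eps
import Pool.Agent.GC18.FinAlgCpt
import Pool.Agent.GC18.Hur
import Pool.Agent.GC18.LemL
import Pool.Agent.GC18.Lim
import Pool.Agent.GC18.P1
import Pool.Agent.GC18.Poly
import Pool.Agent.GC18.Rich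
import Pool.Agent.GC18.StEch
import Pool.Agent.GC18.StJ
import Pool.Agent.GC18.StYJ
import Pool.Agent.GC18.Start
import Pool.Agent.GC18.TheoremT
import Pool.Agent.GC18.Top

set_option autoImplicit false
open Pool Pool.MP_5fea31_an

namespace Pool.Agent.S04823

open Pool.Agent.GC18 in
theorem grass_all : ∀ (w : ℕ → ℝ → ℝ) (T : ℝ), Wt w T → ∀ (m k : ℕ), 1 ≤ m → 1 ≤ k → GProp w m k := by
  have hLim : S_Lim := Lim Cpt Hur LemL
  have hEps : S_Eps := Eps ExGood (E2 E1)
  have hStart : S_Start := Start (St.StJ St.StEch St.StYJ)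
  have hT : S_T := TheoremT hEps hStart FinAlg (Bdd Cpt) BR trick
  have hP1 : S_P1 := Pool.Agent.GC18.P1 Persist
  have hE : S_Exch := Exch hP1 FIN
  have hC : S_Close := Close hT hE hLim Rich
  exact GProp_all G0 (Open hLim) hC

/-- For n=k+m with k,m≥1, a smooth nonvanishing lift γ to ℝ^n on an interval J (closed curves are the case J=[0,1)): if each hyperplane meets γ on J with total multiplicity ≤ n−1, then each Grassmann hyperplane meets osc_k γ on J with total multiplicity ≤ k(n−k). -/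
theorem result :
  ∀ k m : ℕ, 1 ≤ k → 1 ≤ m →
  ∀ J : Set ℝ, ∀ γ : ℝ → (Fin (k + m) → ℝ),
    ContDiff ℝ (⊤ : ℕ∞) γ →
    J.OrdConnected →
    (∀ t ∈ J, γ t ≠ 0) →
    (∀ a : Fin (k + m) → ℝ, a ≠ 0 →
      ∀ (s : Finset ℝ) (μ : ℝ → ℕ),
        (∀ t ∈ s, t ∈ J ∧ ∀ j < μ t,
          iteratedDeriv j (fun u => ∑ i, a i * γ u i) t = 0) →
        ∑ t ∈ s, μ t ≤ k + m - 1) →
    ∀ ℓ : Fin m → (Fin (k + m) → ℝ), LinearIndependent ℝ ℓ →
      ∀ (s : Finset ℝ) (μ : ℝ → ℕ),
        (∀ t ∈ s, t ∈ J ∧ ∀ j < μ t,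
          iteratedDeriv j
            (fun u => (Matrix.of (fun i c =>
              Fin.append (fun a : Fin k => iteratedDeriv (a : ℕ) γ u) ℓ c i)).det) t = 0) →
        ∑ t ∈ s, μ t ≤ k * m := by
  exact Pool.Agent.GC18.Top Pool.Agent.GC18.Hur grass_all

end Pool.Agent.S04823
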