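-- The construction is in Pool/Agent/Lib_helper17/Heis*.lean.
import Pool.Statements.S04841
import Pool.Agent.Lib_helper17.HeisFinal

set_option autoImplicit false
open Pool Pool.MP_60e615_an

namespace Pool.Agent.S04841

open Pool.Agent.Lib_helper17.HeisShift

/-- There is a nonempty closed shift-invariant set X of finite-alphabet bi-infinite sequences and an injective homomorphism from the discrete Heisenberg group into the group of shift-commuting homeomorphisms of X. -/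
theorem result :
    ∃ (k : ℕ) (X : Set (ℤ → ℕ)), X.Nonempty ∧ IsClosed X ∧ (∀ x ∈ X, ∀ n : ℤ, x n < k) ∧
      (∀ x : ℤ → ℕ, x ∈ X ↔ (fun n : ℤ => x (n + 1)) ∈ X) ∧
      ∃ ρ : ℤ × ℤ × ℤ → Equiv.Perm X, Function.Injective ρ ∧
        (∀ a b c a' b' c' : ℤ,
          ρ (a + a', b + b', c + c' + a * b') = ρ (a, b, c) * ρ (a', b', c')) ∧
        (∀ g : ℤ × ℤ × ℤ, Continuous (ρ g)) ∧
        (∀ g : ℤ × ℤ × ℤ, ∀ p q : X,
          ((q : ℤ → ℕ) = fun n : ℤ => (p : ℤ → ℕ) (n + 1)) →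
            (((ρ g q : X) : ℤ → ℕ) = fun n : ℤ => ((ρ g p : X) : ℤ → ℕ) (n + 1))) := by
  obtain ⟨K, Φ, ⟨y₀, hy₀⟩, hfaith⟩ := exists_subshift
  have hK : 0 < K := (Nat.zero_le _).trans_lt (y₀ 0 1).2
  refine ⟨K, rowsX hgen Φ, ⟨fun t => (y₀ t 1 : ℕ), y₀, hy₀, fun _ => rfl⟩,
    rowsX_closed hgen Φ, ?_, rowsX_shift hgen Φ,
    fun g => rho hgen Φ hgen_closure ⟨g.1, g.2.1, g.2.2⟩, ?_, ?_, ?_, ?_⟩
  · rintro x ⟨y, _, hx⟩ n
    rw [hx n]
    exact (y n 1).2
  · rintro ⟨a, b, c⟩ ⟨a', b', c'⟩ h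
    have h1 := rho_injective hgen Φ hgen_closure hfaith h
    have h2 := congrArg Heis.a h1
    have h3 := congrArg Heis.b h1
    have h4 := congrArg Heis.c h1
    simp only [] at h2 h3 h4
    rw [h2, h3, h4]
  · intro a b c a' b' c'
    simp only []
    rw [← rho_mul]
    rfl
  · intro g
    exact act_continuous hgen Φ hgen_closure hK _
  · intro g p q h
    exact act_shift hgen Φ hgen_closure _ p q h

end Pool.Agent.S04841
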