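import Pool.Statements.S04852
import Pool.Agent.Lq.ZFinal
import Pool.Agent.Lq.POne

set_option autoImplicit false
open Pool Pool.MP_61eda3_an

namespace Pool.Agent.S04852

/-- The negation of the preceding statement: For any bounded convex open set in R^n and any α>0: if the α-th power of its positive Dirichlet eigenfunction is concave, then so is the α-th power of the unit ball's positive Dirichlet eigenfunction (the ball has the largest concavity exponent). -/
theorem result :
    ¬ (∀ (n : ℕ) (Ω : Set (EuclideanSpace ℝ (Fin n))) (u v : EuclideanSpace ℝ (Fin n) → ℝ)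
      (μ ν α : ℝ),
      IsOpen Ω → Convex ℝ Ω → Bornology.IsBounded Ω → Ω.Nonempty →
      ContinuousOn u (closure Ω) → ContDiffOn ℝ 2 u Ω →
      (∀ x ∈ Ω, 0 < u x) → (∀ x ∈ frontier Ω, u x = 0) →
      (∀ x ∈ Ω, (∑ i : Fin n, fderiv ℝ (fun y => fderiv ℝ u y (EuclideanSpace.single i (1 : ℝ))) x
          (EuclideanSpace.single i (1 : ℝ))) + μ * u x = 0) →
      ContinuousOn v (closure (Metric.ball (0 : EuclideanSpace ℝ (Fin n)) 1)) →
      ContDiffOn ℝ 2 v (Metric.ball (0 : EuclideanSpace ℝ (Fin n)) 1) →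
      (∀ x ∈ Metric.ball (0 : EuclideanSpace ℝ (Fin n)) 1, 0 < v x) →
      (∀ x ∈ frontier (Metric.ball (0 : EuclideanSpace ℝ (Fin n)) 1), v x = 0) →
      (∀ x ∈ Metric.ball (0 : EuclideanSpace ℝ (Fin n)) 1,
        (∑ i : Fin n, fderiv ℝ (fun y => fderiv ℝ v y (EuclideanSpace.single i (1 : ℝ))) x
          (EuclideanSpace.single i (1 : ℝ))) + ν * v x = 0) →
      0 < α →
      ConcaveOn ℝ Ω (fun x => u x ^ α) →
      ConcaveOn ℝ (Metric.ball (0 : EuclideanSpace ℝ (Fin n)) 1) (fun x => v x ^ α)) := by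
  exact Lq.final_of_one Lq.one_thm

end Pool.Agent.S04852
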