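import Pool.Statements.S05145
import Pool.Agent.Lib_h26.Assembly

set_option autoImplicit false
open MeasureTheory
open Pool Pool.MP_7c725c_an

namespace Pool.Agent.S05145

open Pool.Agent.NP in
/-- the eigenvalues of the statement are those of `Kst` -/
theorem isEig_iff {g : EuclideanSpace ℝ (Fin 3) → ℝ}
    {σ : Measure (EuclideanSpace ℝ (Fin 3))} (hσ : σ = surf g) (t : ℝ) :
    (∃ φ : EuclideanSpace ℝ (Fin 3) → ℝ,
            MemLp φ 2 σ ∧ ¬ Filter.EventuallyEq (ae σ) φ 0 ∧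
            ∀ᵐ x ∂σ, (1 / (4 * Real.pi)) *
                (∫ y, inner ℝ (x - y) (gradient g x) /
                    (‖gradient g x‖ * ‖x - y‖ ^ 3) * φ y ∂σ) = t * φ x) ↔ IsEig g t := by
  subst hσ
  unfold IsEig
  have key : ∀ (φ : EuclideanSpace ℝ (Fin 3) → ℝ) (x : EuclideanSpace ℝ (Fin 3)),
      (1 / (4 * Real.pi)) * (∫ y, inner ℝ (x - y) (gradient g x) /
          (‖gradient g x‖ * ‖x - y‖ ^ 3) * φ y ∂(surf g)) = Kst g φ x := by
    intro φ x
    unfold Kst
    rw [← integral_const_mul]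
    congr 1
    ext y
    unfold kNP nrm
    rw [inner_smul_right]
    rw [← mul_assoc]
    congr 1
    simp only [div_eq_mul_inv, mul_inv, one_mul]
    ring
  constructor
  · rintro ⟨φ, h1, h2, h3⟩
    refine ⟨φ, h1, h2, ?_⟩
    filter_upwards [h3] with x hx
    rw [← hx, key]
  · rintro ⟨φ, h1, h2, h3⟩
    refine ⟨φ, h1, h2, ?_⟩
    filter_upwards [h3] with x hx
    rw [← hx, key]

/-- For every smooth closed simply connected surface in R^3, the Neumann–Poincaré operator has an eigenvalue other than 1/2 that is at least 1/6, and all its eigenvalues other than 1/2 are at most 1/6 exactly when the surface is a round sphere. -/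
theorem result :
    ∀ g : EuclideanSpace ℝ (Fin 3) → ℝ,
      ContDiff ℝ ((⊤ : ℕ∞) : WithTop ℕ∞) g →
      (∀ x, g x = 0 → gradient g x ≠ 0) →
      (∃ R : ℝ, ∀ x, R ≤ ‖x‖ → 0 < g x) →
      Set.Nonempty {x | g x = 0} →
      SimplyConnectedSpace {x | g x = 0} →
      ∀ σ : Measure (EuclideanSpace ℝ (Fin 3)),
        σ = (ENNReal.ofReal (4 * Real.pi) /
              Measure.hausdorffMeasure 2 (Metric.sphere (0 : EuclideanSpace ℝ (Fin 3)) 1)) •
            (Measure.hausdorffMeasure 2).restrict {x | g x = 0} →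
      ∀ P : ℝ → Prop,
        (∀ t : ℝ, P t ↔ ∃ φ : EuclideanSpace ℝ (Fin 3) → ℝ,
            MemLp φ 2 σ ∧ ¬ Filter.EventuallyEq (ae σ) φ 0 ∧
            ∀ᵐ x ∂σ, (1 / (4 * Real.pi)) *
                (∫ y, inner ℝ (x - y) (gradient g x) /
                    (‖gradient g x‖ * ‖x - y‖ ^ 3) * φ y ∂σ) = t * φ x) →
        (∃ t : ℝ, P t ∧ t ≠ 1 / 2 ∧ 1 / 6 ≤ t) ∧
        ((∀ t : ℝ, P t → t ≠ 1 / 2 → t ≤ 1 / 6) ↔
          ∃ c : EuclideanSpace ℝ (Fin 3), ∃ r : ℝ, 0 < r ∧ {x | g x = 0} = Metric.sphere c r) := by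
  intro g hsm hgr hfar hne hsc σ hσ P hP
  have hg : Pool.Agent.NP.Dom g := ⟨hsm, hgr, hfar, hne⟩
  have hσ' : σ = Pool.Agent.NP.surf g := Pool.Agent.NP.surf_eq_of_statement g σ hσ
  have hS : IsPreconnected {x | g x = 0} := by
    have h1 : PathConnectedSpace {x | g x = 0} := inferInstance
    have h2 : PreconnectedSpace {x | g x = 0} := inferInstance
    exact isPreconnected_iff_preconnectedSpace.2 h2
  have hc : IsPreconnected (Pool.Agent.NP.Om g) := hg.isPreconnected_Om hS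
  have hPE : ∀ t : ℝ, P t ↔ Pool.Agent.NP.IsEig g t := fun t => (hP t).trans (isEig_iff hσ' t)
  constructor
  · by_contra hcon
    push Not at hcon
    have H : ∀ t : ℝ, Pool.Agent.NP.IsEig g t → t ≠ 1 / 2 → t ≤ 1 / 6 := fun t ht ht2 =>
      (hcon t ((hPE t).2 ht) ht2).le
    have h1 := (hg.key hc H).1
    have h2 := hcon (1 / 6) ((hPE _).2 h1) (by norm_num)
    exact lt_irrefl _ h2
  · constructor
    · intro h
      have H : ∀ t : ℝ, Pool.Agent.NP.IsEig g t → t ≠ 1 / 2 → t ≤ 1 / 6 := fun t ht ht2 =>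
        h t ((hPE t).2 ht) ht2
      obtain ⟨x0, hx0⟩ := hg.field_affine hc (EuclideanSpace.basisFun (Fin 3) ℝ) (hg.key hc H).2
      obtain ⟨r, hr, hS2⟩ := hg.sphere_of_field hx0
      exact ⟨x0, r, hr, hS2⟩
    · rintro ⟨c, r, hr, hS2⟩ t ht ht2
      obtain ⟨φ, h1, h2, h3⟩ := (hPE t).1 ht
      exact hg.sphere_eigenvalue_le hr hS2 h1 h2 h3 ht2

end Pool.Agent.S05145
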