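import Pool.Statements.S05651

set_option autoImplicit false
open MeasureTheory Filter
open Pool Pool.MP_a2ac39_an

namespace Pool.Agent.S05651

/-!
The example.  Let `r_k > 1` satisfy `r_k ^ (2 ^ (k + 1)) = 2 ^ (k + 1)`.  The measure `mu` gives mass
`2 ^ (-(k + 1))` to the set of the `2 ^ (k + 1)` points `r_k * ω ^ j`, where `ω` is a primitive root
of unity of order `2 ^ (k + 1)`, each point mass being replaced by a tiny translated copy of an
atomless measure `lam` that lives on a thin (polar) Cantor set.  The support of `mu` is the unit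
circle together with a polar set, so its capacity is `1` and its equilibrium measure is the
normalised arc length `nuc`.  Averaging over roots of unity shows that the integral of `‖P‖ ^ 2`
is at least `1` for every monic polynomial `P` of positive degree.
-/

section helpers
open scoped Topology ENNReal NNReal

/-- A set of complex numbers which is so thin that it carries no atomless measure of finite
logarithmic energy. -/
def Thin (C : Set ℂ) : Prop :=
  ∀ M : ℝ, ∃ (F : Finset ℂ) (d : ℝ), 0 < d ∧ 2 * d < 1 ∧ C ⊆ ⋃ a ∈ F, Metric.closedBall a d ∧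
    M * (F.card : ℝ) ^ 2 ≤ - Real.log (2 * d)

lemma prod_diag_null (ρ : Measure ℂ) [IsProbabilityMeasure ρ] [NullSingletonClass ρ] :
    (ρ.prod ρ) {p : ℂ × ℂ | p.1 = p.2} = 0 := by
  have hm : MeasurableSet {p : ℂ × ℂ | p.1 = p.2} :=
    (isClosed_eq continuous_fst continuous_snd).measurableSet
  rw [Measure.measure_prod_null hm]
  refine Filter.Eventually.of_forall fun x => ?_
  have : (Prod.mk x ⁻¹' {p : ℂ × ℂ | p.1 = p.2}) = {x} := by
    ext y; simp [eq_comm]
  simp [this]

lemma Thin.null {C : Set ℂ} (hC : Thin C) (ρ : Measure ℂ) [IsProbabilityMeasure ρ] [NullSingletonClass ρ]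
    (hint : Integrable (fun p : ℂ × ℂ => Real.log ‖p.1 - p.2‖) (ρ.prod ρ)) : ρ C = 0 := by
  by_contra hne
  have hm : 0 < ρ.real C := by
    rw [Measure.real, ENNReal.toReal_pos_iff]
    exact ⟨pos_iff_ne_zero.mpr hne, measure_lt_top _ _⟩
  set m := ρ.real C with hmdef
  set A := ∫ p, |Real.log ‖p.1 - p.2‖| ∂(ρ.prod ρ) with hA
  obtain ⟨F, d, hd, hd1, hcov, hM⟩ := hC ((A + 1) / m ^ 2)
  have hAnn : 0 ≤ A := integral_nonneg fun _ => abs_nonneg _
  have hFne : F.Nonempty := by
    rw [Finset.nonempty_iff_ne_empty]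
    rintro rfl
    simp at hcov
    rw [hcov] at hne
    simp at hne
  have hcard : (0 : ℝ) < F.card := by exact_mod_cast hFne.card_pos
  obtain ⟨a, haF, ha⟩ : ∃ a ∈ F, m / F.card ≤ ρ.real (Metric.closedBall a d) := by
    apply Finset.exists_le_of_sum_le hFne
    rw [Finset.sum_const, nsmul_eq_mul, mul_div_cancel₀ _ hcard.ne']
    exact (measureReal_mono hcov (measure_ne_top _ _)).trans (measureReal_biUnion_finset_le _ _)
  set B := Metric.closedBall a d with hB
  have hBm : MeasurableSet (B ×ˢ B) := measurableSet_closedBall.prod measurableSet_closedBall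
  have h1 : ∫ p in B ×ˢ B, |Real.log ‖p.1 - p.2‖| ∂(ρ.prod ρ) ≤ A :=
    setIntegral_le_integral hint.abs (Filter.Eventually.of_forall fun _ => abs_nonneg _)
  have h2 : ∫ p in B ×ˢ B, (- Real.log (2 * d)) ∂(ρ.prod ρ) ≤
      ∫ p in B ×ˢ B, |Real.log ‖p.1 - p.2‖| ∂(ρ.prod ρ) := by
    apply setIntegral_mono_on_ae (integrable_const _).integrableOn hint.abs.integrableOn hBm
    have hdiag : ∀ᵐ p ∂(ρ.prod ρ), ¬ (p.1 = p.2) := by
      rw [ae_iff]; simpa using prod_diag_null ρ
    filter_upwards [hdiag] with p hp hpB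
    have hpos : 0 < ‖p.1 - p.2‖ := norm_pos_iff.mpr (sub_ne_zero.mpr hp)
    have hle : ‖p.1 - p.2‖ ≤ 2 * d := by
      have := dist_triangle_right p.1 p.2 a
      rw [dist_eq_norm] at this
      have h1 := hpB.1
      have h2 := hpB.2
      rw [hB, Metric.mem_closedBall] at h1 h2
      linarith
    have := Real.log_le_log hpos hle
    have := neg_abs_le (Real.log ‖p.1 - p.2‖)
    linarith
  rw [setIntegral_const, smul_eq_mul, measureReal_prod_prod] at h2
  have h3 : (A + 1) ≤ ρ.real B * ρ.real B * (- Real.log (2 * d)) := by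
    have hL : 0 ≤ - Real.log (2 * d) := by
      have := Real.log_nonpos (by positivity) hd1.le
      linarith
    calc A + 1 = (m / F.card) * (m / F.card) * ((A + 1) / m ^ 2 * (F.card : ℝ) ^ 2) := by
          field_simp
      _ ≤ (m / F.card) * (m / F.card) * (- Real.log (2 * d)) := by gcongr
      _ ≤ ρ.real B * ρ.real B * (- Real.log (2 * d)) := by gcongr
  linarith

lemma sum_roots_lower {n N : ℕ} (hnN : n < N) {ω : ℂ} (hω : IsPrimitiveRoot ω N) (r : ℝ)
    (Q : Polynomial ℂ) (hQ : Q.Monic) (hdeg : Q.natDegree = n) (hr : 0 < r) :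
    (N : ℝ) * r ^ (2 * n) ≤ ∑ j ∈ Finset.range N, ‖Q.eval ((r : ℂ) * ω ^ j)‖ ^ 2 := by
  have hN : 0 < N := by omega
  have hω0 : ω ≠ 0 := hω.ne_zero hN.ne'
  have hωn : ‖ω‖ = 1 := hω.norm'_eq_one hN.ne'
  have hS : ∑ j ∈ Finset.range N, Q.eval ((r : ℂ) * ω ^ j) * (ω ^ n)⁻¹ ^ j = N * (r : ℂ) ^ n := by
    have : ∀ j, Q.eval ((r : ℂ) * ω ^ j) * (ω ^ n)⁻¹ ^ j =
        ∑ i ∈ Finset.range (n + 1), Q.coeff i * (r : ℂ) ^ i * (ω ^ i * (ω ^ n)⁻¹) ^ j := by
      intro j
      rw [Polynomial.eval_eq_sum_range, hdeg, Finset.sum_mul]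
      refine Finset.sum_congr rfl fun i _ => ?_
      rw [mul_pow, mul_pow, ← pow_mul, ← pow_mul]
      ring
    simp_rw [this]
    rw [Finset.sum_comm]
    simp_rw [← Finset.mul_sum]
    rw [Finset.sum_range_succ, Finset.sum_eq_zero]
    · have hc : Q.coeff n = 1 := by rw [← hdeg]; exact hQ
      rw [hc, mul_inv_cancel₀ (pow_ne_zero _ hω0)]
      simp [mul_comm]
    · intro i hi
      rw [Finset.mem_range] at hi
      have hne : ω ^ i * (ω ^ n)⁻¹ ≠ 1 := by
        intro h
        rw [mul_inv_eq_one₀ (pow_ne_zero _ hω0)] at h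
        have := hω.pow_inj (by omega) hnN h
        omega
      have hpow : (ω ^ i * (ω ^ n)⁻¹) ^ N = 1 := by
        rw [mul_pow, inv_pow, ← pow_mul, ← pow_mul, mul_comm i, mul_comm n, pow_mul, pow_mul,
          hω.pow_eq_one]
        simp
      rw [geom_sum_eq hne, hpow]
      simp
  have hnorm : (N : ℝ) * r ^ n ≤ ∑ j ∈ Finset.range N, ‖Q.eval ((r : ℂ) * ω ^ j)‖ := by
    calc (N : ℝ) * r ^ n = ‖(N : ℂ) * (r : ℂ) ^ n‖ := by
          rw [norm_mul, norm_pow, Complex.norm_natCast, Complex.norm_real, Real.norm_of_nonneg hr.le]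
      _ = ‖∑ j ∈ Finset.range N, Q.eval ((r : ℂ) * ω ^ j) * (ω ^ n)⁻¹ ^ j‖ := by rw [hS]
      _ ≤ ∑ j ∈ Finset.range N, ‖Q.eval ((r : ℂ) * ω ^ j) * (ω ^ n)⁻¹ ^ j‖ := norm_sum_le _ _
      _ = _ := by
          refine Finset.sum_congr rfl fun j _ => ?_
          simp [hωn]
  have hCS := sq_sum_le_card_mul_sum_sq (s := Finset.range N)
    (f := fun j => ‖Q.eval ((r : ℂ) * ω ^ j)‖)
  rw [Finset.card_range] at hCS
  have hNr : (0 : ℝ) < N := by exact_mod_cast hN
  have h0 : 0 ≤ (N : ℝ) * r ^ n := by positivity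
  have := mul_self_le_mul_self h0 hnorm
  have h2 : (N : ℝ) * (N * r ^ (2 * n)) ≤ N * ∑ j ∈ Finset.range N, ‖Q.eval ((r : ℂ) * ω ^ j)‖ ^ 2 := by
    calc (N : ℝ) * (N * r ^ (2 * n)) = (N * r ^ n) * (N * r ^ n) := by ring
      _ ≤ _ := this
      _ ≤ _ := by rw [← sq]; exact hCS
  exact le_of_mul_le_mul_left h2 hNr

/-- kernel with parameter r -/
lemma kernel_r_nonpos (ρ : Measure ℂ) [IsProbabilityMeasure ρ]
    (hρ : ρ (Metric.sphere (0:ℂ) 1)ᶜ = 0) {r : ℝ} (hr0 : 0 ≤ r) (hr1 : r < 1) :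
    ∫ p, Real.log ‖1 - (r : ℂ) * ((starRingEnd ℂ) p.1 * p.2)‖ ∂(ρ.prod ρ) ≤ 0 := by
  have hae : ∀ᵐ z ∂ρ, ‖z‖ = 1 := by
    rw [ae_iff]
    convert hρ using 2
    ext z; simp
  have hae1 : ∀ᵐ p ∂(ρ.prod ρ), ‖p.1‖ = 1 := Measure.quasiMeasurePreserving_fst.ae hae
  have hae2 : ∀ᵐ p ∂(ρ.prod ρ), ‖p.2‖ = 1 := Measure.quasiMeasurePreserving_snd.ae hae
  have hsum : HasSum (fun n : ℕ => ∫ p, ((r : ℂ) * ((starRingEnd ℂ) p.1 * p.2)) ^ n / n ∂(ρ.prod ρ))
      (∫ p, - Complex.log (1 - (r : ℂ) * ((starRingEnd ℂ) p.1 * p.2)) ∂(ρ.prod ρ)) := by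
    apply hasSum_integral_of_dominated_convergence (fun n _ => r ^ n)
    · intro n
      apply Measurable.aestronglyMeasurable
      fun_prop
    · intro n
      filter_upwards [hae1, hae2] with p h1 h2
      rw [norm_div, norm_pow, norm_mul, norm_mul, RCLike.norm_conj, h1, h2, Complex.norm_real,
        Real.norm_of_nonneg hr0, Complex.norm_natCast]
      simp only [mul_one]
      rcases Nat.eq_zero_or_pos n with rfl | hn
      · simp
      · apply div_le_self (by positivity)
        exact_mod_cast hn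
    · exact Filter.Eventually.of_forall fun _ => summable_geometric_of_lt_one hr0 hr1
    · exact integrable_const _
    · filter_upwards [hae1, hae2] with p h1 h2
      apply Complex.hasSum_taylorSeries_neg_log
      rw [norm_mul, norm_mul, RCLike.norm_conj, h1, h2, Complex.norm_real,
        Real.norm_of_nonneg hr0]
      simpa using hr1
  have hterm : ∀ n : ℕ, (∫ p, ((r : ℂ) * ((starRingEnd ℂ) p.1 * p.2)) ^ n / n ∂(ρ.prod ρ)) =
      (((r ^ n / n) * ‖∫ z, z ^ n ∂ρ‖ ^ 2 : ℝ) : ℂ) := by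
    intro n
    have : ∀ p : ℂ × ℂ, ((r : ℂ) * ((starRingEnd ℂ) p.1 * p.2)) ^ n / n =
        ((r : ℂ) ^ n / n) * (((starRingEnd ℂ) (p.1 ^ n)) * (p.2 ^ n)) := by
      intro p; rw [mul_pow, mul_pow, map_pow]; ring
    simp_rw [this]
    rw [integral_const_mul, integral_prod_mul (fun z => (starRingEnd ℂ) (z ^ n)) (fun z => z ^ n),
      integral_conj, Complex.conj_mul']
    push_cast
    ring
  simp_rw [hterm] at hsum
  have hre := Complex.hasSum_re hsum
  have hcb : Measurable (fun p : ℂ × ℂ => Complex.log (1 - (r : ℂ) * ((starRingEnd ℂ) p.1 * p.2))) := by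
    fun_prop
  have hbd : Integrable (fun p : ℂ × ℂ => Complex.log (1 - (r : ℂ) * ((starRingEnd ℂ) p.1 * p.2)))
      (ρ.prod ρ) := by
    refine Integrable.of_bound hcb.aestronglyMeasurable (1 - r)⁻¹ ?_
    filter_upwards [hae1, hae2] with p h1 h2
    have hx : ‖(r : ℂ) * ((starRingEnd ℂ) p.1 * p.2)‖ = r := by
      rw [norm_mul, norm_mul, RCLike.norm_conj, h1, h2, Complex.norm_real,
        Real.norm_of_nonneg hr0]
      simp
    have h := Complex.hasSum_taylorSeries_neg_log (z := (r : ℂ) * ((starRingEnd ℂ) p.1 * p.2))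
      (by rw [hx]; exact hr1)
    rw [← norm_neg, ← h.tsum_eq]
    apply tsum_of_norm_bounded (hasSum_geometric_of_lt_one hr0 hr1)
    intro n
    rw [norm_div, norm_pow, hx, Complex.norm_natCast]
    rcases Nat.eq_zero_or_pos n with rfl | hn
    · simp
    · apply div_le_self (by positivity)
      exact_mod_cast hn
  rw [integral_neg, Complex.neg_re, ← RCLike.re_eq_complex_re, ← integral_re hbd] at hre
  have hnn : 0 ≤ - ∫ p, RCLike.re (Complex.log (1 - (r : ℂ) * ((starRingEnd ℂ) p.1 * p.2))) ∂(ρ.prod ρ) := by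
    refine hre.nonneg fun n => ?_
    rw [RCLike.re_eq_complex_re, Complex.ofReal_re]
    positivity
  simp only [RCLike.re_eq_complex_re, Complex.log_re] at hnn
  linarith

lemma half_le {r : ℝ} (hr0 : 0 ≤ r) (hr1 : r < 1) {ζ : ℂ} (hζ : ‖ζ‖ = 1) :
    ‖1 - ζ‖ / 2 ≤ ‖1 - (r : ℂ) * ζ‖ := by
  have h1 : ‖1 - ζ‖ ≤ ‖1 - (r : ℂ) * ζ‖ + ‖(r : ℂ) * ζ - ζ‖ := by
    calc ‖1 - ζ‖ = ‖(1 - (r : ℂ) * ζ) + ((r : ℂ) * ζ - ζ)‖ := by ring_nf
      _ ≤ _ := norm_add_le _ _
  have h2 : ‖(r : ℂ) * ζ - ζ‖ = 1 - r := by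
    have : (r : ℂ) * ζ - ζ = ((r - 1 : ℝ) : ℂ) * ζ := by push_cast; ring
    rw [this, norm_mul, hζ, Complex.norm_real, Real.norm_eq_abs, abs_of_nonpos (by linarith)]
    ring
  have h3 : 1 - r ≤ ‖1 - (r : ℂ) * ζ‖ := by
    have := norm_sub_norm_le (1 : ℂ) ((r : ℂ) * ζ)
    rw [norm_mul, hζ, Complex.norm_real, Real.norm_of_nonneg hr0] at this
    simpa using this
  linarith

lemma circle_energy_nonpos (ρ : Measure ℂ) [IsProbabilityMeasure ρ] [NullSingletonClass ρ]
    (hρ : ρ (Metric.sphere (0:ℂ) 1)ᶜ = 0)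
    (hdiag : (ρ.prod ρ) {p : ℂ × ℂ | p.1 = p.2} = 0)
    (hint : Integrable (fun p : ℂ × ℂ => Real.log ‖p.1 - p.2‖) (ρ.prod ρ)) :
    ∫ p, Real.log ‖p.1 - p.2‖ ∂(ρ.prod ρ) ≤ 0 := by
  have hae : ∀ᵐ z ∂ρ, ‖z‖ = 1 := by
    rw [ae_iff]
    convert hρ using 2
    ext z; simp
  have hae1 : ∀ᵐ p ∂(ρ.prod ρ), ‖p.1‖ = 1 := Measure.quasiMeasurePreserving_fst.ae hae
  have hae2 : ∀ᵐ p ∂(ρ.prod ρ), ‖p.2‖ = 1 := Measure.quasiMeasurePreserving_snd.ae hae
  have hae3 : ∀ᵐ p ∂(ρ.prod ρ), ¬ p.1 = p.2 := by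
    rw [ae_iff]; simpa using hdiag
  have hkey : ∀ z w : ℂ, ‖z‖ = 1 → ‖1 - (starRingEnd ℂ) z * w‖ = ‖z - w‖ := by
    intro z w hz
    have h1 : z * (starRingEnd ℂ) z = 1 := by
      rw [RCLike.mul_conj, hz]; simp
    calc ‖1 - (starRingEnd ℂ) z * w‖ = ‖z‖ * ‖1 - (starRingEnd ℂ) z * w‖ := by rw [hz, one_mul]
      _ = ‖z * (1 - (starRingEnd ℂ) z * w)‖ := (norm_mul _ _).symm
      _ = ‖z - w‖ := by rw [mul_sub, ← mul_assoc, h1, mul_one, one_mul]
  set s : ℕ → ℝ := fun k => 1 - 1 / (k + 2 : ℝ) with hs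
  have hs0 : ∀ k, 0 ≤ s k := by
    intro k
    have : (1 : ℝ) / (k + 2 : ℝ) ≤ 1 := by
      rw [div_le_one (by positivity)]; linarith [Nat.cast_nonneg (α := ℝ) k]
    simp only [hs]; linarith
  have hs1 : ∀ k, s k < 1 := by
    intro k
    have : (0 : ℝ) < 1 / (k + 2 : ℝ) := by positivity
    simp only [hs]; linarith
  have hslim : Tendsto s atTop (𝓝 1) := by
    have h : Tendsto (fun k : ℕ => (1 : ℝ) / (k + 2 : ℝ)) atTop (𝓝 0) := by
      apply Tendsto.div_atTop tendsto_const_nhds
      exact tendsto_atTop_add_const_right _ _ tendsto_natCast_atTop_atTop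
    have h' := h.const_sub 1
    rw [sub_zero] at h'
    exact h'
  have hlim : Tendsto (fun k : ℕ => ∫ p, Real.log ‖1 - (s k : ℂ) * ((starRingEnd ℂ) p.1 * p.2)‖ ∂(ρ.prod ρ))
      atTop (𝓝 (∫ p, Real.log ‖p.1 - p.2‖ ∂(ρ.prod ρ))) := by
    apply tendsto_integral_of_dominated_convergence (fun p => |Real.log ‖p.1 - p.2‖| + Real.log 2)
    · intro k
      apply Measurable.aestronglyMeasurable
      fun_prop
    · exact hint.abs.add (integrable_const _)
    · intro k
      filter_upwards [hae1, hae2, hae3] with p h1 h2 h3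
      have hζ : ‖(starRingEnd ℂ) p.1 * p.2‖ = 1 := by rw [norm_mul, RCLike.norm_conj, h1, h2, one_mul]
      have hhalf := half_le (hs0 k) (hs1 k) hζ
      rw [hkey _ _ h1] at hhalf
      have hpos : 0 < ‖p.1 - p.2‖ := norm_pos_iff.mpr (sub_ne_zero.mpr h3)
      have hup : ‖1 - (s k : ℂ) * ((starRingEnd ℂ) p.1 * p.2)‖ ≤ 2 := by
        calc ‖1 - (s k : ℂ) * ((starRingEnd ℂ) p.1 * p.2)‖ ≤ ‖(1 : ℂ)‖ + ‖(s k : ℂ) * ((starRingEnd ℂ) p.1 * p.2)‖ := norm_sub_le _ _
          _ ≤ 1 + 1 := by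
              rw [norm_mul, hζ, Complex.norm_real, Real.norm_of_nonneg (hs0 k)]
              simp only [norm_one, mul_one]
              linarith [hs1 k]
          _ = 2 := by norm_num
      have hl1 := Real.log_le_log (by positivity) hhalf
      rw [Real.log_div hpos.ne' (by norm_num)] at hl1
      have hl2 := Real.log_le_log (by linarith) hup
      rw [Real.norm_eq_abs, abs_le]
      constructor
      · have := neg_abs_le (Real.log ‖p.1 - p.2‖)
        linarith
      · have := abs_nonneg (Real.log ‖p.1 - p.2‖)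
        linarith
    · filter_upwards [hae1, hae2, hae3] with p h1 h2 h3
      have hpos : 0 < ‖p.1 - p.2‖ := norm_pos_iff.mpr (sub_ne_zero.mpr h3)
      rw [← hkey _ _ h1]
      rw [← hkey _ _ h1] at hpos
      have : Tendsto (fun k => ‖1 - (s k : ℂ) * ((starRingEnd ℂ) p.1 * p.2)‖) atTop
          (𝓝 ‖1 - ((1 : ℝ) : ℂ) * ((starRingEnd ℂ) p.1 * p.2)‖) := by
        apply Tendsto.norm
        apply Tendsto.const_sub
        apply Tendsto.mul_const
        exact (Complex.continuous_ofReal.tendsto _).comp hslim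
      simp only [Complex.ofReal_one, one_mul] at this
      exact this.log hpos.ne'
  exact le_of_tendsto' hlim fun k => kernel_r_nonpos ρ hρ (hs0 k) (hs1 k)

/-- Normalised arc length on the unit circle. -/
noncomputable def nuc : Measure ℂ :=
  Measure.map (circleMap 0 1) (ENNReal.ofReal (2 * Real.pi)⁻¹ • volume.restrict (Set.Ioc 0 (2 * Real.pi)))

lemma meas_circleMap : Measurable (circleMap (0:ℂ) 1) := (continuous_circleMap 0 1).measurable

instance : IsProbabilityMeasure nuc := by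
  constructor
  rw [nuc, Measure.map_apply meas_circleMap MeasurableSet.univ, Set.preimage_univ,
    Measure.smul_apply, Measure.restrict_apply_univ, Real.volume_Ioc, smul_eq_mul,
    ← ENNReal.ofReal_mul (by positivity), sub_zero, inv_mul_cancel₀ (by positivity)]
  simp

lemma nuc_sphere_compl : nuc (Metric.sphere (0:ℂ) 1)ᶜ = 0 := by
  rw [nuc, Measure.map_apply meas_circleMap Metric.isClosed_sphere.measurableSet.compl]
  have : circleMap (0:ℂ) 1 ⁻¹' (Metric.sphere (0:ℂ) 1)ᶜ = ∅ := by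
    ext θ; simp
  simp [this]

instance : NullSingletonClass nuc := by
  constructor
  intro x
  rw [nuc, Measure.map_apply meas_circleMap (measurableSet_singleton x)]
  have hc : (circleMap (0:ℂ) 1 ⁻¹' {x}).Countable :=
    (Set.countable_singleton x).preimage_circleMap 0 one_ne_zero
  rw [Measure.smul_apply, hc.measure_zero]
  simp

lemma integral_nuc {f : ℂ → ℝ} (hf : Measurable f) : ∫ z, f z ∂nuc = Real.circleAverage f 0 1 := by
  rw [nuc, integral_map meas_circleMap.aemeasurable hf.aestronglyMeasurable, integral_smul_measure,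
    Real.circleAverage_def, intervalIntegral.integral_of_le (by positivity),
    ENNReal.toReal_ofReal (by positivity)]

lemma integrable_nuc {f : ℂ → ℝ} (hf : Measurable f) (h : CircleIntegrable f 0 1) :
    Integrable f nuc := by
  rw [nuc, integrable_map_measure hf.aestronglyMeasurable meas_circleMap.aemeasurable]
  apply Integrable.smul_measure _ ENNReal.ofReal_ne_top
  rw [circleIntegrable_def, intervalIntegrable_iff_integrableOn_Ioc_of_le (by positivity)] at h
  exact h

lemma integrable_log_nuc (z : ℂ) : Integrable (fun w => Real.log ‖z - w‖) nuc := by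
  have : (fun w : ℂ => Real.log ‖z - w‖) = (fun w => Real.log ‖w - z‖) := by
    ext w; rw [norm_sub_rev]
  rw [this]
  exact integrable_nuc (by fun_prop) (circleIntegrable_log_norm_sub_const 1)

lemma integral_log_nuc {z : ℂ} (hz : ‖z‖ = 1) : ∫ w, Real.log ‖z - w‖ ∂nuc = 0 := by
  have : (fun w : ℂ => Real.log ‖z - w‖) = (fun w => Real.log ‖w - z‖) := by
    ext w; rw [norm_sub_rev]
  rw [this, integral_nuc (by fun_prop), circleAverage_log_norm_sub_const_eq_posLog, hz]
  simp

lemma nuc_ae : ∀ᵐ z ∂nuc, ‖z‖ = 1 := by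
  rw [ae_iff]
  convert nuc_sphere_compl using 2
  ext z; simp

lemma integrable_energy_nuc :
    Integrable (fun p : ℂ × ℂ => Real.log ‖p.1 - p.2‖) (nuc.prod nuc) := by
  have hm : Measurable (fun p : ℂ × ℂ => Real.log ‖p.1 - p.2‖) := by fun_prop
  rw [integrable_prod_iff hm.aestronglyMeasurable]
  refine ⟨Filter.Eventually.of_forall fun z => integrable_log_nuc z, ?_⟩
  refine Integrable.of_bound ?_ (2 * Real.log 2) ?_
  · exact (hm.norm.stronglyMeasurable.integral_prod_right').aestronglyMeasurable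
  · filter_upwards [nuc_ae] with z hz
    rw [Real.norm_of_nonneg (integral_nonneg fun _ => norm_nonneg _)]
    calc ∫ w, ‖Real.log ‖z - w‖‖ ∂nuc ≤ ∫ w, (2 * Real.log 2 - Real.log ‖z - w‖) ∂nuc := by
          apply integral_mono_ae (integrable_log_nuc z).norm
            ((integrable_const _).sub (integrable_log_nuc z))
          filter_upwards [nuc_ae] with w hw
          have hle : ‖z - w‖ ≤ 2 := by
            calc ‖z - w‖ ≤ ‖z‖ + ‖w‖ := norm_sub_le _ _
              _ = 2 := by rw [hz, hw]; norm_num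
          have hlog2 : 0 ≤ Real.log 2 := Real.log_nonneg (by norm_num)
          have h2 : Real.log ‖z - w‖ ≤ Real.log 2 := by
            rcases eq_or_lt_of_le (norm_nonneg (z - w)) with h | h
            · rw [← h]; simpa using hlog2
            · exact Real.log_le_log h hle
          rw [Real.norm_eq_abs]
          simp only [Pi.sub_apply]
          rcases abs_cases (Real.log ‖z - w‖) with h | h <;> linarith
      _ = 2 * Real.log 2 := by
          rw [integral_sub (integrable_const _) (integrable_log_nuc z), integral_log_nuc hz]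
          simp

lemma energy_nuc : ∫ p, Real.log ‖p.1 - p.2‖ ∂(nuc.prod nuc) = 0 := by
  rw [integral_prod _ integrable_energy_nuc]
  apply integral_eq_zero_of_ae
  filter_upwards [nuc_ae] with z hz
  simpa using integral_log_nuc hz

/-- super-exponentially small scales -/
noncomputable def eps (k : ℕ) : ℝ := (1 / 2 : ℝ) ^ (8 ^ k)

lemma eps_pos (k : ℕ) : 0 < eps k := by unfold eps; positivity

lemma eps_le_half (k : ℕ) : eps k ≤ 1 / 2 := by
  unfold eps
  calc (1 / 2 : ℝ) ^ (8 ^ k) ≤ (1 / 2) ^ 1 :=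
        pow_le_pow_of_le_one (by norm_num) (by norm_num) (Nat.one_le_pow _ _ (by norm_num))
    _ = 1 / 2 := by norm_num

lemma eps_succ (k : ℕ) : eps (k + 1) ≤ eps k / 4 := by
  have h : eps (k + 1) = eps k * eps k ^ 7 := by
    unfold eps
    rw [← pow_mul, ← pow_add]
    congr 1
    rw [pow_succ]; ring
  rw [h]
  have h7 : eps k ^ 7 ≤ (1 / 2) ^ 7 := pow_le_pow_left₀ (eps_pos k).le (eps_le_half k) 7
  calc eps k * eps k ^ 7 ≤ eps k * (1 / 2) ^ 7 := by
        apply mul_le_mul_of_nonneg_left h7 (eps_pos k).le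
    _ ≤ eps k / 4 := by nlinarith [eps_pos k]

lemma eps_add (m j : ℕ) : eps (m + j) ≤ eps m * (1 / 4) ^ j := by
  induction j with
  | zero => simp
  | succ j ih =>
    calc eps (m + (j + 1)) = eps ((m + j) + 1) := by rw [add_assoc]
      _ ≤ eps (m + j) / 4 := eps_succ _
      _ ≤ (eps m * (1 / 4) ^ j) / 4 := by gcongr
      _ = eps m * (1 / 4) ^ (j + 1) := by rw [pow_succ]; ring

lemma summable_tail (m : ℕ) : Summable fun j => eps (m + j) := by
  refine Summable.of_nonneg_of_le (fun j => (eps_pos _).le) (fun j => eps_add m j) ?_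
  exact (summable_geometric_of_lt_one (by norm_num) (by norm_num)).mul_left _

lemma summable_eps : Summable eps := by
  simpa using summable_tail 0

lemma tsum_tail_le (m : ℕ) : ∑' j, eps (m + j) ≤ 4 / 3 * eps m := by
  have hg : Summable fun j : ℕ => eps m * (1 / 4 : ℝ) ^ j :=
    (summable_geometric_of_lt_one (by norm_num) (by norm_num)).mul_left _
  calc ∑' j, eps (m + j) ≤ ∑' j : ℕ, eps m * (1 / 4 : ℝ) ^ j :=
        Summable.tsum_le_tsum (fun j => eps_add m j) (summable_tail m) hg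
    _ = eps m * ∑' j : ℕ, (1 / 4 : ℝ) ^ j := tsum_mul_left
    _ = 4 / 3 * eps m := by
        rw [tsum_geometric_of_lt_one (by norm_num) (by norm_num)]; ring

noncomputable def dig (b : ℕ → Bool) (k : ℕ) : ℝ := if b k then eps k else 0

lemma dig_nonneg (b : ℕ → Bool) (k : ℕ) : 0 ≤ dig b k := by
  unfold dig; split_ifs; exact (eps_pos k).le; exact le_rfl

lemma dig_le (b : ℕ → Bool) (k : ℕ) : dig b k ≤ eps k := by
  unfold dig; split_ifs; exact le_rfl; exact (eps_pos k).le

lemma summable_dig (b : ℕ → Bool) : Summable (dig b) :=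
  Summable.of_nonneg_of_le (dig_nonneg b) (dig_le b) summable_eps

noncomputable def theta (b : ℕ → Bool) : ℝ := ∑' k, dig b k

lemma theta_ge (b : ℕ → Bool) (m : ℕ) : ∑ k ∈ Finset.range m, dig b k ≤ theta b :=
  (summable_dig b).sum_le_tsum _ (fun k _ => dig_nonneg b k)

lemma theta_le (b : ℕ → Bool) (m : ℕ) :
    theta b ≤ ∑ k ∈ Finset.range m, dig b k + 4 / 3 * eps m := by
  rw [theta, ← (summable_dig b).sum_add_tsum_nat_add m]
  gcongr
  refine le_trans ?_ (tsum_tail_le m)
  refine Summable.tsum_le_tsum (fun j => ?_) ((summable_nat_add_iff m).mpr (summable_dig b))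
    (summable_tail m)
  rw [add_comm j m]
  exact dig_le b _

lemma continuous_theta : Continuous theta := by
  unfold theta
  refine continuous_tsum (u := eps) (fun k => ?_) summable_eps (fun k b => ?_)
  · unfold dig
    have : Continuous fun x : Bool => if x then eps k else 0 := continuous_of_discreteTopology
    exact this.comp (continuous_apply k)
  · rw [Real.norm_of_nonneg (dig_nonneg b k)]
    exact dig_le b k

lemma theta_injective : Function.Injective theta := by
  have key : ∀ b b' : ℕ → Bool, ∀ m, (∀ k < m, b k = b' k) → b m = true → b' m = false →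
      theta b' < theta b := by
    intro b b' m hlt h1 h2
    have e1 : ∑ k ∈ Finset.range m, dig b k = ∑ k ∈ Finset.range m, dig b' k := by
      refine Finset.sum_congr rfl fun k hk => ?_
      rw [Finset.mem_range] at hk
      simp [dig, hlt k hk]
    have g1 := theta_ge b (m + 1)
    have g2 := theta_le b' (m + 1)
    rw [Finset.sum_range_succ] at g1 g2
    have d1 : dig b m = eps m := by simp [dig, h1]
    have d2 : dig b' m = 0 := by simp [dig, h2]
    rw [d1] at g1
    rw [d2] at g2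
    have := eps_succ m
    have := eps_pos m
    linarith
  intro b b' h
  by_contra hne
  have hex : ∃ k, b k ≠ b' k := by
    by_contra hcon
    push Not at hcon
    exact hne (funext hcon)
  classical
  set m := Nat.find hex with hm
  have hmne : b m ≠ b' m := Nat.find_spec hex
  have hlt : ∀ k < m, b k = b' k := fun k hk => by
    have := Nat.find_min hex hk
    simpa using this
  rcases hb : b m with _ | _
  · have hb' : b' m = true := by
      rcases hb' : b' m with _ | _
      · exact absurd (hb.trans hb'.symm) hmne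
      · rfl
    have := key b' b m (fun k hk => (hlt k hk).symm) hb' hb
    linarith
  · have hb' : b' m = false := by
      rcases hb' : b' m with _ | _
      · rfl
      · exact absurd (hb.trans hb'.symm) hmne
    have := key b b' m hlt hb hb'
    linarith

/-- the thin Cantor set -/
def Cset : Set ℂ := Set.range fun b : ℕ → Bool => (theta b : ℂ)

lemma isCompact_Cset : IsCompact Cset :=
  isCompact_range (Complex.continuous_ofReal.comp continuous_theta)

lemma norm_theta_le (b : ℕ → Bool) : ‖(theta b : ℂ)‖ ≤ 1 := by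
  rw [Complex.norm_real, Real.norm_of_nonneg]
  · have := theta_le b 0
    have h0 : eps 0 = 1 / 2 := by simp [eps]
    rw [h0] at this
    simp at this
    linarith
  · have := theta_ge b 0
    simpa using this

lemma log_eps (m : ℕ) : Real.log (eps m) = - (8 ^ m * Real.log 2) := by
  unfold eps
  rw [Real.log_pow, one_div, Real.log_inv]
  push_cast
  ring

lemma Cset_cover (m : ℕ) : ∃ F : Finset ℂ, F.card ≤ 2 ^ m ∧
    Cset ⊆ ⋃ a ∈ F, Metric.closedBall a (2 * eps m) := by
  classical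
  refine ⟨Finset.image (fun c : Fin m → Bool => ((∑ k : Fin m, if c k then eps k else 0 : ℝ) : ℂ))
    Finset.univ, ?_, ?_⟩
  · refine Finset.card_image_le.trans ?_
    simp
  · rintro _ ⟨b, rfl⟩
    simp only [Set.mem_iUnion, Finset.mem_image, Finset.mem_univ, true_and, exists_prop]
    refine ⟨_, ⟨fun k => b k, rfl⟩, ?_⟩
    have e : (∑ k : Fin m, if b k then eps k else 0 : ℝ) = ∑ k ∈ Finset.range m, dig b k := by
      rw [← Fin.sum_univ_eq_sum_range]
      rfl
    rw [e, Metric.mem_closedBall, dist_eq_norm, ← Complex.ofReal_sub, Complex.norm_real,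
      Real.norm_eq_abs, abs_le]
    have g1 := theta_ge b m
    have g2 := theta_le b m
    have := eps_pos m
    constructor <;> linarith

lemma thin_Cset : Thin Cset := by
  intro M
  have hl2 : 0 < Real.log 2 := Real.log_pos (by norm_num)
  obtain ⟨m, hm⟩ := pow_unbounded_of_one_lt ((max M 0 + 2 * Real.log 2) / Real.log 2) (one_lt_two)
  rw [div_lt_iff₀ hl2] at hm
  obtain ⟨F, hF, hcov⟩ := Cset_cover (m + 1)
  have he := eps_pos (m + 1)
  have hlog : - Real.log (2 * (2 * eps (m + 1))) = 8 ^ (m + 1) * Real.log 2 - 2 * Real.log 2 := by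
    rw [Real.log_mul (by norm_num) (by positivity), Real.log_mul (by norm_num) he.ne', log_eps]
    ring
  refine ⟨F, 2 * eps (m + 1), by positivity, ?_, hcov, ?_⟩
  · have := eps_succ m
    have h2 := eps_le_half m
    linarith
  · rw [hlog]
    have hFr : (F.card : ℝ) ≤ 2 ^ (m + 1) := by exact_mod_cast hF
    have h4 : (F.card : ℝ) ^ 2 ≤ 4 ^ (m + 1) := by
      calc (F.card : ℝ) ^ 2 ≤ (2 ^ (m + 1)) ^ 2 := by gcongr
        _ = 4 ^ (m + 1) := by rw [← pow_mul, mul_comm, pow_mul]; norm_num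
    have h8 : (8 : ℝ) ^ (m + 1) = 4 ^ (m + 1) * 2 ^ (m + 1) := by rw [← mul_pow]; norm_num
    have h2m : (2 : ℝ) ^ m ≤ 2 ^ (m + 1) := pow_le_pow_right₀ (by norm_num) (by omega)
    have h4one : (1 : ℝ) ≤ 4 ^ (m + 1) := one_le_pow₀ (by norm_num)
    calc M * (F.card : ℝ) ^ 2 ≤ max M 0 * (F.card : ℝ) ^ 2 := by
          gcongr; exact le_max_left _ _
      _ ≤ max M 0 * 4 ^ (m + 1) := by gcongr
      _ ≤ (2 ^ (m + 1) * Real.log 2 - 2 * Real.log 2) * 4 ^ (m + 1) := by
          gcongr
          nlinarith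
      _ ≤ 8 ^ (m + 1) * Real.log 2 - 2 * Real.log 2 := by
          rw [h8]; nlinarith

/-- fair coin -/
noncomputable def coin : Measure Bool :=
  (2 : ℝ≥0∞)⁻¹ • (Measure.dirac false + Measure.dirac true)

instance : IsProbabilityMeasure coin := by
  constructor
  simp [coin]
  exact ENNReal.inv_two_add_inv_two

lemma coin_singleton (b : Bool) : coin {b} = 2⁻¹ := by
  cases b <;> simp [coin]

noncomputable def beta : Measure (ℕ → Bool) := Measure.infinitePi fun _ => coin

instance : IsProbabilityMeasure beta := by unfold beta; infer_instance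

lemma beta_singleton (b : ℕ → Bool) : beta {b} = 0 := by
  have h : ∀ m : ℕ, beta {b} ≤ (2⁻¹ : ℝ≥0∞) ^ m := by
    intro m
    have h1 : ({b} : Set (ℕ → Bool)) ⊆ Set.pi (Finset.range m : Set ℕ) (fun k => {b k}) := by
      rintro x rfl
      intro k _
      simp
    calc beta {b} ≤ beta (Set.pi (Finset.range m : Set ℕ) (fun k => {b k})) := measure_mono h1
      _ = ∏ k ∈ Finset.range m, coin {b k} := by
          unfold beta
          exact Measure.infinitePi_pi _ (fun k _ => measurableSet_singleton _)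
      _ = (2⁻¹ : ℝ≥0∞) ^ m := by simp [coin_singleton]
  have hlim : Tendsto (fun m : ℕ => (2⁻¹ : ℝ≥0∞) ^ m) atTop (𝓝 0) :=
    ENNReal.tendsto_pow_atTop_nhds_zero_of_lt_one (by simp)
  exact le_antisymm (ge_of_tendsto' hlim h) zero_le

/-- atomless probability measure on the thin Cantor set -/
noncomputable def lam : Measure ℂ := beta.map fun b => (theta b : ℂ)

lemma meas_theta : Measurable fun b : ℕ → Bool => (theta b : ℂ) :=
  (Complex.continuous_ofReal.comp continuous_theta).measurable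

instance : IsProbabilityMeasure lam := Measure.isProbabilityMeasure_map meas_theta.aemeasurable

instance : NullSingletonClass lam := by
  constructor
  intro x
  rw [lam, Measure.map_apply meas_theta (measurableSet_singleton x)]
  rcases Set.eq_empty_or_nonempty ((fun b : ℕ → Bool => (theta b : ℂ)) ⁻¹' {x}) with h | ⟨b, hb⟩
  · rw [h]; simp
  · have : ((fun b : ℕ → Bool => (theta b : ℂ)) ⁻¹' {x}) ⊆ {b} := by
      intro b' hb'
      simp only [Set.mem_preimage, Set.mem_singleton_iff] at hb hb' ⊢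
      apply theta_injective
      exact_mod_cast hb'.trans hb.symm
    exact measure_mono_null this (beta_singleton b)

lemma lam_compl : lam Csetᶜ = 0 := by
  rw [lam, Measure.map_apply meas_theta isCompact_Cset.isClosed.measurableSet.compl]
  have : ((fun b : ℕ → Bool => (theta b : ℂ)) ⁻¹' Csetᶜ) = ∅ := by
    ext b
    simp [Cset]
  rw [this]; simp

lemma Thin.image {C : Set ℂ} (hC : Thin C) (p : ℂ) {δ : ℝ} (h0 : 0 ≤ δ) (h1 : δ ≤ 1) :
    Thin ((fun z : ℂ => p + δ * z) '' C) := by
  classical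
  intro M
  obtain ⟨F, d, hd, hd1, hcov, hM⟩ := hC (max M 0)
  refine ⟨F.image (fun z : ℂ => p + δ * z), d, hd, hd1, ?_, ?_⟩
  · rintro _ ⟨z, hz, rfl⟩
    have := hcov hz
    simp only [Set.mem_iUnion, Finset.mem_image, exists_prop] at this ⊢
    obtain ⟨a, ha, hza⟩ := this
    refine ⟨_, ⟨a, ha, rfl⟩, ?_⟩
    rw [Metric.mem_closedBall, dist_eq_norm] at hza ⊢
    have : p + (δ : ℂ) * z - (p + δ * a) = δ * (z - a) := by ring
    rw [this, norm_mul, Complex.norm_real, Real.norm_of_nonneg h0]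
    calc δ * ‖z - a‖ ≤ 1 * d := by gcongr
      _ = d := one_mul d
  · have hc : ((F.image (fun z : ℂ => p + δ * z)).card : ℝ) ≤ F.card := by
      exact_mod_cast Finset.card_image_le
    calc M * ((F.image (fun z : ℂ => p + δ * z)).card : ℝ) ^ 2
        ≤ max M 0 * ((F.image (fun z : ℂ => p + δ * z)).card : ℝ) ^ 2 := by
          gcongr; exact le_max_left _ _
      _ ≤ max M 0 * (F.card : ℝ) ^ 2 := by gcongr
      _ ≤ _ := hM

noncomputable def rad (k : ℕ) : ℝ := ((2 : ℝ) ^ (k + 1)) ^ ((1 : ℝ) / (2 : ℝ) ^ (k + 1))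

noncomputable def om (k : ℕ) : ℂ := Complex.exp (2 * Real.pi * Complex.I / ((2 ^ (k + 1) : ℕ) : ℂ))

noncomputable def del (k : ℕ) : ℝ := (rad k - 1) / 2

lemma rad_pow (k : ℕ) : rad k ^ (2 ^ (k + 1)) = 2 ^ (k + 1) := by
  unfold rad
  rw [← Real.rpow_natCast, ← Real.rpow_mul (by positivity)]
  push_cast
  rw [one_div, inv_mul_cancel₀ (by positivity), Real.rpow_one]

lemma one_lt_rad (k : ℕ) : 1 < rad k :=
  Real.one_lt_rpow (one_lt_pow₀ (by norm_num) (by omega)) (by positivity)

lemma rad_le_two (k : ℕ) : rad k ≤ 2 := by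
  have h : rad k ^ (2 ^ (k + 1)) ≤ 2 ^ (2 ^ (k + 1)) := by
    rw [rad_pow]
    exact pow_le_pow_right₀ (by norm_num) (Nat.lt_two_pow_self).le
  exact le_of_pow_le_pow_left₀ (by positivity) (by norm_num) h

lemma tendsto_rad : Tendsto rad atTop (𝓝 1) := by
  have h : Tendsto (fun k : ℕ => (2 : ℝ) ^ (k + 1)) atTop atTop :=
    (tendsto_pow_atTop_atTop_of_one_lt (by norm_num)).comp (tendsto_add_atTop_nat 1)
  exact tendsto_rpow_div.comp h

lemma del_pos (k : ℕ) : 0 < del k := by have := one_lt_rad k; unfold del; linarith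

lemma del_le (k : ℕ) : del k ≤ 1 := by have := rad_le_two k; unfold del; linarith

lemma om_prim (k : ℕ) : IsPrimitiveRoot (om k) (2 ^ (k + 1)) :=
  Complex.isPrimitiveRoot_exp _ (by positivity)

lemma norm_om (k : ℕ) : ‖om k‖ = 1 := (om_prim k).norm'_eq_one (by positivity)

noncomputable def aff (k j : ℕ) (z : ℂ) : ℂ := (rad k : ℂ) * om k ^ j + (del k : ℂ) * z

lemma continuous_aff (k j : ℕ) : Continuous (aff k j) := by unfold aff; fun_prop

lemma aff_injective (k j : ℕ) : Function.Injective (aff k j) := by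
  intro z w h
  unfold aff at h
  have hd : (del k : ℂ) ≠ 0 := by exact_mod_cast (del_pos k).ne'
  have := add_left_cancel h
  exact mul_left_cancel₀ hd this

noncomputable def muk (k : ℕ) : Measure ℂ :=
  ((2 ^ (k + 1) : ℕ) : ℝ≥0∞)⁻¹ • ∑ j ∈ Finset.range (2 ^ (k + 1)), lam.map (aff k j)

noncomputable def mu : Measure ℂ := Measure.sum fun k => (2⁻¹ : ℝ≥0∞) ^ (k + 1) • muk k

instance (k j : ℕ) : IsProbabilityMeasure (lam.map (aff k j)) :=
  Measure.isProbabilityMeasure_map (continuous_aff k j).aemeasurable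

instance (k : ℕ) : IsProbabilityMeasure (muk k) := by
  constructor
  unfold muk
  rw [Measure.smul_apply, Measure.finsetSum_apply]
  simp only [measure_univ, Finset.sum_const, Finset.card_range, nsmul_eq_mul, mul_one, smul_eq_mul]
  exact ENNReal.inv_mul_cancel (by positivity) (ENNReal.natCast_ne_top _)

instance : IsProbabilityMeasure mu := by
  constructor
  unfold mu
  rw [Measure.sum_apply _ MeasurableSet.univ]
  simp only [Measure.smul_apply, measure_univ, smul_eq_mul, mul_one]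
  rw [ENNReal.tsum_geometric_add_one, ENNReal.one_sub_inv_two, inv_inv]
  exact ENNReal.inv_mul_cancel (by simp) (by simp)

lemma mu_apply_eq_zero {U : Set ℂ} (hU : MeasurableSet U)
    (h : ∀ k, ∀ j < 2 ^ (k + 1), lam.map (aff k j) U = 0) : mu U = 0 := by
  unfold mu
  rw [Measure.sum_apply _ hU, ENNReal.tsum_eq_zero]
  intro k
  unfold muk
  rw [Measure.smul_apply, Measure.smul_apply, Measure.finsetSum_apply, Finset.sum_eq_zero]
  · simp
  · intro j hj
    exact h k j (Finset.mem_range.mp hj)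

instance : NullSingletonClass mu := by
  constructor
  intro x
  apply mu_apply_eq_zero (measurableSet_singleton x)
  intro k j _
  rw [Measure.map_apply (continuous_aff k j).measurable (measurableSet_singleton x)]
  have : (aff k j ⁻¹' {x}).Subsingleton := by
    intro z hz w hw
    exact aff_injective k j (hz.trans hw.symm)
  exact this.measure_zero lam

def Dset (k j : ℕ) : Set ℂ := aff k j '' Cset

lemma isCompact_Dset (k j : ℕ) : IsCompact (Dset k j) := isCompact_Cset.image (continuous_aff k j)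

lemma thin_Dset (k j : ℕ) : Thin (Dset k j) := thin_Cset.image _ (del_pos k).le (del_le k)

lemma map_aff_compl (k j : ℕ) : lam.map (aff k j) (Dset k j)ᶜ = 0 := by
  rw [Measure.map_apply (continuous_aff k j).measurable (isCompact_Dset k j).isClosed.measurableSet.compl]
  refine measure_mono_null ?_ lam_compl
  intro z hz hzC
  exact hz ⟨z, hzC, rfl⟩

lemma mu_null {U : Set ℂ} (hU : MeasurableSet U)
    (h : ∀ k, ∀ j < 2 ^ (k + 1), U ⊆ (Dset k j)ᶜ) : mu U = 0 :=
  mu_apply_eq_zero hU fun k j hj => measure_mono_null (h k j hj) (map_aff_compl k j)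

lemma norm_Dset {k j : ℕ} {z : ℂ} (hz : z ∈ Dset k j) :
    1 < ‖z‖ ∧ ‖z‖ - 1 ≤ 3 / 2 * (rad k - 1) := by
  obtain ⟨_, ⟨b, rfl⟩, rfl⟩ := hz
  have hr := one_lt_rad k
  have hd := del_pos k
  have h1 : ‖(rad k : ℂ) * om k ^ j‖ = rad k := by
    rw [norm_mul, norm_pow, norm_om, one_pow, mul_one, Complex.norm_real, Real.norm_of_nonneg (by linarith)]
  have h2 : ‖(del k : ℂ) * (theta b : ℂ)‖ ≤ del k := by
    rw [norm_mul, Complex.norm_real (del k), Real.norm_of_nonneg hd.le]
    calc del k * ‖(theta b : ℂ)‖ ≤ del k * 1 := by gcongr; exact norm_theta_le b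
      _ = del k := mul_one _
  have h3 : ‖aff k j (theta b : ℂ)‖ ≤ rad k + del k := by
    calc ‖aff k j (theta b : ℂ)‖ ≤ ‖(rad k : ℂ) * om k ^ j‖ + ‖(del k : ℂ) * (theta b : ℂ)‖ := norm_add_le _ _
      _ ≤ _ := by rw [h1]; linarith
  have h4 : rad k - del k ≤ ‖aff k j (theta b : ℂ)‖ := by
    have := norm_sub_le ((rad k : ℂ) * om k ^ j + (del k : ℂ) * (theta b : ℂ)) ((del k : ℂ) * (theta b : ℂ))
    rw [add_sub_cancel_right, h1] at this
    unfold aff
    linarith
  have hdd : del k = (rad k - 1) / 2 := rfl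
  constructor <;> linarith

lemma norm_Dset_le {k j : ℕ} {z : ℂ} (hz : z ∈ Dset k j) : ‖z‖ ≤ 3 := by
  have := (norm_Dset hz).2
  have := rad_le_two k
  linarith

lemma mu_closedBall : mu (Metric.closedBall 0 3)ᶜ = 0 := by
  apply mu_null Metric.isClosed_closedBall.measurableSet.compl
  intro k j _ z hz hzD
  apply hz
  rw [mem_closedBall_zero_iff]
  exact norm_Dset_le hzD

lemma mu_sphere : mu (Metric.sphere 0 1) = 0 := by
  apply mu_null Metric.isClosed_sphere.measurableSet
  intro k j _ z hz hzD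
  rw [mem_sphere_zero_iff_norm] at hz
  have := (norm_Dset hzD).1
  linarith

lemma support_subset : mu.support ⊆ Metric.sphere (0:ℂ) 1 ∪ ⋃ k, ⋃ j, Dset k j := by
  intro z hz
  by_contra hcon
  simp only [Set.mem_union, Set.mem_iUnion, not_or, not_exists] at hcon
  obtain ⟨h1, h2⟩ := hcon
  have hz1 : ‖z‖ ≠ 1 := by simpa using h1
  set e := |‖z‖ - 1| / 2 with he
  have hepos : 0 < e := by
    have : 0 < |‖z‖ - 1| := abs_pos.mpr (sub_ne_zero.mpr hz1)
    positivity
  have hev : ∀ᶠ k in atTop, 3 / 2 * (rad k - 1) < e := by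
    have : Tendsto (fun k => 3 / 2 * (rad k - 1)) atTop (𝓝 (3 / 2 * (1 - 1))) :=
      (tendsto_rad.sub_const 1).const_mul _
    rw [sub_self, mul_zero] at this
    exact this.eventually_lt_const hepos
  obtain ⟨k0, hk0⟩ := eventually_atTop.mp hev
  set U : Set ℂ := Metric.ball z e ∩ ⋂ k ∈ Finset.range k0, ⋂ j ∈ Finset.range (2 ^ (k + 1)), (Dset k j)ᶜ
    with hU
  have hUopen : IsOpen U := by
    apply Metric.isOpen_ball.inter
    apply isOpen_biInter_finset
    intro k _
    apply isOpen_biInter_finset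
    intro j _
    exact (isCompact_Dset k j).isClosed.isOpen_compl
  have hzU : z ∈ U := by
    refine ⟨Metric.mem_ball_self hepos, ?_⟩
    simp only [Set.mem_iInter]
    intro k _ j _
    exact h2 k j
  have hpos := (Measure.mem_support_iff_forall z).mp hz U (hUopen.mem_nhds hzU)
  have hzero : mu U = 0 := by
    apply mu_null hUopen.measurableSet
    intro k j hj w hw hwD
    rcases lt_or_ge k k0 with hk | hk
    · have := hw.2
      simp only [Set.mem_iInter] at this
      exact this k (Finset.mem_range.mpr hk) j (Finset.mem_range.mpr hj) hwD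
    · have hwn := norm_Dset hwD
      have hkk := hk0 k hk
      have hd := hw.1
      rw [Metric.mem_ball, dist_eq_norm] at hd
      have ha : |‖w‖ - ‖z‖| < e := (abs_norm_sub_norm_le w z).trans_lt hd
      rw [abs_lt] at ha
      rcases abs_cases (‖z‖ - 1) with h | h <;> linarith
  rw [hzero] at hpos
  exact lt_irrefl _ hpos


lemma exists_om_near {z : ℂ} (hz : ‖z‖ = 1) (k : ℕ) :
    ∃ j < 2 ^ (k + 1), ‖om k ^ j - z‖ ≤ 2 * Real.pi / 2 ^ (k + 1) := by
  obtain ⟨x, hx0, hx1, hxz⟩ : ∃ x : ℝ, 0 ≤ x ∧ x < 1 ∧ z = Complex.exp (Complex.I * ((2 * Real.pi * x : ℝ) : ℂ)) := by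
    have hz' : z = Complex.exp (Complex.I * ((Complex.arg z : ℝ) : ℂ)) := by
      have := Complex.norm_mul_exp_arg_mul_I z
      rw [hz, Complex.ofReal_one, one_mul, mul_comm] at this
      exact this.symm
    have hpi := Real.pi_pos
    rcases le_or_gt 0 (Complex.arg z) with h | h
    · refine ⟨Complex.arg z / (2 * Real.pi), by positivity, ?_, ?_⟩
      · rw [div_lt_one (by positivity)]
        have := Complex.arg_le_pi z
        linarith
      · rw [mul_div_cancel₀ _ (by positivity)]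
        exact hz'
    · refine ⟨Complex.arg z / (2 * Real.pi) + 1, ?_, ?_, ?_⟩
      · have h1 := Complex.neg_pi_lt_arg z
        have : -1 ≤ Complex.arg z / (2 * Real.pi) := by
          rw [le_div_iff₀ (by positivity)]
          linarith
        linarith
      · have : Complex.arg z / (2 * Real.pi) < 0 := div_neg_of_neg_of_pos h (by positivity)
        linarith
      · have e : 2 * Real.pi * (Complex.arg z / (2 * Real.pi) + 1) = Complex.arg z + 2 * Real.pi := by
          field_simp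
        rw [e]
        push_cast
        rw [mul_add, Complex.exp_add]
        have : Complex.exp (Complex.I * (2 * (Real.pi : ℂ))) = 1 := by
          rw [mul_comm]; exact Complex.exp_two_pi_mul_I
        rw [this, mul_one]
        exact hz'
  have hN : (0 : ℝ) < 2 ^ (k + 1) := by positivity
  set j := ⌊x * 2 ^ (k + 1)⌋₊ with hj
  have hj1 : (j : ℝ) ≤ x * 2 ^ (k + 1) := Nat.floor_le (by positivity)
  have hj2 : x * 2 ^ (k + 1) < j + 1 := Nat.lt_floor_add_one _
  refine ⟨j, ?_, ?_⟩
  · have : (j : ℝ) < 2 ^ (k + 1) := by nlinarith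
    exact_mod_cast this
  · have hom : om k ^ j = Complex.exp (Complex.I * ((2 * Real.pi * (j / 2 ^ (k + 1)) : ℝ) : ℂ)) := by
      unfold om
      rw [← Complex.exp_nat_mul]
      congr 1
      push_cast
      field_simp
    have hfac : om k ^ j - z = Complex.exp (Complex.I * ((2 * Real.pi * x : ℝ) : ℂ)) *
        (Complex.exp (Complex.I * ((2 * Real.pi * (j / 2 ^ (k + 1) - x) : ℝ) : ℂ)) - 1) := by
      rw [hom, hxz, mul_sub, ← Complex.exp_add, mul_one]
      congr 2
      push_cast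
      ring
    rw [hfac, norm_mul, Complex.norm_exp_I_mul_ofReal, one_mul]
    refine Real.norm_exp_I_mul_ofReal_sub_one_le.trans ?_
    rw [Real.norm_eq_abs, abs_mul, abs_of_pos (by positivity : (0:ℝ) < 2 * Real.pi), div_eq_mul_one_div (2 * Real.pi)]
    gcongr
    rw [abs_le]
    constructor
    · rw [neg_le_sub_iff_le_add, ← add_div, le_div_iff₀ hN]
      linarith
    · have : (j : ℝ) / 2 ^ (k + 1) ≤ x := by rw [div_le_iff₀ hN]; exact hj1
      have : (0:ℝ) < 1 / 2 ^ (k + 1) := by positivity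
      linarith

lemma sphere_subset : Metric.sphere (0:ℂ) 1 ⊆ mu.support := by
  intro z hz
  rw [mem_sphere_zero_iff_norm] at hz
  rw [Measure.mem_support_iff_forall]
  intro U hU
  obtain ⟨e, he, hball⟩ := Metric.mem_nhds_iff.mp hU
  have hev : ∀ᶠ k : ℕ in atTop, 3 / 2 * (rad k - 1) + 2 * Real.pi / 2 ^ (k + 1) < e := by
    have h1 : Tendsto (fun k => 3 / 2 * (rad k - 1)) atTop (𝓝 (3 / 2 * (1 - 1))) :=
      (tendsto_rad.sub_const 1).const_mul _
    have h2 : Tendsto (fun k : ℕ => 2 * Real.pi / (2:ℝ) ^ (k + 1)) atTop (𝓝 0) :=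
      Tendsto.div_atTop tendsto_const_nhds
        ((tendsto_pow_atTop_atTop_of_one_lt (by norm_num)).comp (tendsto_add_atTop_nat 1))
    have h3 := h1.add h2
    rw [sub_self, mul_zero, add_zero] at h3
    exact h3.eventually_lt_const he
  obtain ⟨k, hk⟩ := hev.exists
  obtain ⟨j, hj, hjz⟩ := exists_om_near hz k
  have hsub : Cset ⊆ aff k j ⁻¹' (Metric.ball z e) := by
    rintro _ ⟨b, rfl⟩
    have hr := one_lt_rad k
    have hd := del_pos k
    rw [Set.mem_preimage, Metric.mem_ball, dist_eq_norm]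
    have e1 : aff k j (theta b : ℂ) - z = ((rad k - 1 : ℝ) : ℂ) * om k ^ j + (om k ^ j - z) + (del k : ℂ) * (theta b : ℂ) := by
      unfold aff; push_cast; ring
    have h1 : ‖((rad k - 1 : ℝ) : ℂ) * om k ^ j‖ = rad k - 1 := by
      rw [norm_mul, norm_pow, norm_om, one_pow, mul_one, Complex.norm_real, Real.norm_of_nonneg (by linarith)]
    have h2 : ‖(del k : ℂ) * (theta b : ℂ)‖ ≤ del k := by
      rw [norm_mul, Complex.norm_real (del k), Real.norm_of_nonneg hd.le]
      calc del k * ‖(theta b : ℂ)‖ ≤ del k * 1 := by gcongr; exact norm_theta_le b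
        _ = del k := mul_one _
    have hdd : del k = (rad k - 1) / 2 := rfl
    calc ‖aff k j (theta b : ℂ) - z‖ ≤ ‖((rad k - 1 : ℝ) : ℂ) * om k ^ j‖ + ‖om k ^ j - z‖ + ‖(del k : ℂ) * (theta b : ℂ)‖ := by
          rw [e1]; exact norm_add₃_le
      _ ≤ (rad k - 1) + 2 * Real.pi / 2 ^ (k + 1) + del k := by rw [h1]; gcongr
      _ < e := by linarith
  have hlam : 1 ≤ lam.map (aff k j) (Metric.ball z e) := by
    rw [Measure.map_apply (continuous_aff k j).measurable Metric.isOpen_ball.measurableSet]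
    have h1 : lam Cset = 1 := by
      exact (prob_compl_eq_zero_iff isCompact_Cset.isClosed.measurableSet).mp lam_compl
    rw [← h1]
    exact measure_mono hsub
  have hmuk : 0 < muk k (Metric.ball z e) := by
    unfold muk
    rw [Measure.smul_apply, Measure.finsetSum_apply, smul_eq_mul]
    apply ENNReal.mul_pos
    · simp
    · have : (1 : ℝ≥0∞) ≤ ∑ i ∈ Finset.range (2 ^ (k + 1)), (lam.map (aff k i)) (Metric.ball z e) :=
        hlam.trans (Finset.single_le_sum (f := fun i => (lam.map (aff k i)) (Metric.ball z e))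
          (fun _ _ => zero_le) (Finset.mem_range.mpr hj))
      exact (lt_of_lt_of_le one_pos this).ne'
  have hmu : 0 < mu (Metric.ball z e) := by
    have hle := Measure.le_sum (fun k => (2⁻¹ : ℝ≥0∞) ^ (k + 1) • muk k) k (Metric.ball z e)
    refine lt_of_lt_of_le ?_ hle
    rw [Measure.smul_apply, smul_eq_mul]
    apply ENNReal.mul_pos _ hmuk.ne'
    apply pow_ne_zero
    simp
  exact lt_of_lt_of_le hmu (measure_mono hball)

lemma integrable_sq {κ : Measure ℂ} [IsFiniteMeasure κ] (hκ : κ (Metric.closedBall 0 3)ᶜ = 0)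
    {f : ℂ → ℝ} (hf : Continuous f) : Integrable f κ := by
  obtain ⟨B, hB⟩ := (isCompact_closedBall (0:ℂ) 3).exists_bound_of_continuousOn hf.continuousOn
  refine Integrable.of_bound hf.aestronglyMeasurable B ?_
  have : ∀ᵐ z ∂κ, z ∈ Metric.closedBall (0:ℂ) 3 := by
    rw [ae_iff]; exact hκ
  filter_upwards [this] with z hz
  exact hB z hz

lemma poly_lower {n : ℕ} (hn : 1 ≤ n) {P : Polynomial ℂ} (hP : P.Monic) (hdeg : P.natDegree = n) :
    1 ≤ ∫ z, ‖P.eval z‖ ^ 2 ∂mu := by
  set k := Nat.log 2 n with hk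
  have hk1 : 2 ^ k ≤ n := Nat.pow_log_le_self 2 (by omega)
  have hk2 : n < 2 ^ (k + 1) := Nat.lt_pow_succ_log_self (by norm_num) n
  have hcont : Continuous fun z : ℂ => ‖P.eval z‖ ^ 2 := by fun_prop
  have hmu : Integrable (fun z : ℂ => ‖P.eval z‖ ^ 2) mu := integrable_sq mu_closedBall hcont
  have hle : (2⁻¹ : ℝ≥0∞) ^ (k + 1) • muk k ≤ mu :=
    Measure.le_sum (fun k => (2⁻¹ : ℝ≥0∞) ^ (k + 1) • muk k) k
  have h1 : ∫ z, ‖P.eval z‖ ^ 2 ∂((2⁻¹ : ℝ≥0∞) ^ (k + 1) • muk k) ≤ ∫ z, ‖P.eval z‖ ^ 2 ∂mu :=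
    integral_mono_measure hle (Filter.Eventually.of_forall fun _ => by positivity) hmu
  have hmapint : ∀ j, Integrable (fun z : ℂ => ‖P.eval z‖ ^ 2) (lam.map (aff k j)) := by
    intro j
    apply integrable_sq _ hcont
    refine measure_mono_null ?_ (map_aff_compl k j)
    intro z hz hzD
    apply hz
    rw [mem_closedBall_zero_iff]
    exact norm_Dset_le hzD
  have hlamint : ∀ j, Integrable (fun z : ℂ => ‖P.eval (aff k j z)‖ ^ 2) lam := by
    intro j
    have := hmapint j
    rw [integrable_map_measure hcont.aestronglyMeasurable (continuous_aff k j).aemeasurable] at this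
    exact this
  have h2 : ∫ z, ‖P.eval z‖ ^ 2 ∂((2⁻¹ : ℝ≥0∞) ^ (k + 1) • muk k) =
      (2⁻¹ : ℝ) ^ (k + 1) * ((2 ^ (k + 1) : ℝ)⁻¹ *
        ∫ z, ∑ j ∈ Finset.range (2 ^ (k + 1)), ‖P.eval (aff k j z)‖ ^ 2 ∂lam) := by
    rw [integral_smul_measure]
    unfold muk
    rw [integral_smul_measure, integral_finsetSum_measure (fun j _ => hmapint j),
      integral_finsetSum _ (fun j _ => hlamint j)]
    simp only [smul_eq_mul]
    congr 1
    · simp
    · congr 1
      · simp
      · refine Finset.sum_congr rfl fun j _ => ?_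
        rw [integral_map (continuous_aff k j).aemeasurable hcont.aestronglyMeasurable]
  have hr := one_lt_rad k
  have h3 : ∀ z : ℂ, ((2 ^ (k + 1) : ℕ) : ℝ) * rad k ^ (2 * n) ≤
      ∑ j ∈ Finset.range (2 ^ (k + 1)), ‖P.eval (aff k j z)‖ ^ 2 := by
    intro z
    have hQm : (P.comp (Polynomial.X + Polynomial.C ((del k : ℂ) * z))).Monic := hP.comp_X_add_C _
    have hQd : (P.comp (Polynomial.X + Polynomial.C ((del k : ℂ) * z))).natDegree = n := by
      rw [Polynomial.natDegree_comp, Polynomial.natDegree_X_add_C, mul_one, hdeg]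
    have := sum_roots_lower hk2 (om_prim k) (rad k) _ hQm hQd (by linarith)
    refine this.trans (le_of_eq ?_)
    refine Finset.sum_congr rfl fun j _ => ?_
    rw [Polynomial.eval_comp]
    simp [aff]
  have h4 : ((2 ^ (k + 1) : ℕ) : ℝ) * rad k ^ (2 * n) ≤
      ∫ z, ∑ j ∈ Finset.range (2 ^ (k + 1)), ‖P.eval (aff k j z)‖ ^ 2 ∂lam := by
    calc ((2 ^ (k + 1) : ℕ) : ℝ) * rad k ^ (2 * n) = ∫ z, ((2 ^ (k + 1) : ℕ) : ℝ) * rad k ^ (2 * n) ∂lam := by
          simp
      _ ≤ _ := integral_mono (integrable_const _) (integrable_finsetSum _ fun j _ => hlamint j) h3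
  have h5 : (2 : ℝ) ^ (k + 1) ≤ rad k ^ (2 * n) := by
    calc (2 : ℝ) ^ (k + 1) = rad k ^ (2 ^ (k + 1)) := (rad_pow k).symm
      _ ≤ rad k ^ (2 * n) := pow_le_pow_right₀ hr.le (by rw [pow_succ]; omega)
  have h6 : (2 : ℝ) ^ (k + 1) * 2 ^ (k + 1) ≤
      ∫ z, ∑ j ∈ Finset.range (2 ^ (k + 1)), ‖P.eval (aff k j z)‖ ^ 2 ∂lam := by
    refine le_trans ?_ h4
    push_cast
    gcongr
  refine le_trans ?_ h1
  rw [h2]
  calc (1 : ℝ) = (2⁻¹ : ℝ) ^ (k + 1) * ((2 ^ (k + 1) : ℝ)⁻¹ * (2 ^ (k + 1) * 2 ^ (k + 1))) := by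
        rw [inv_mul_cancel_left₀ (by positivity), ← mul_pow]
        norm_num
    _ ≤ _ := by gcongr

end helpers

/-- There is an atomless compactly supported probability measure on ℂ, mutually singular with the equilibrium measure of its support, whose L² monic-polynomial Widom factors ‖P_n‖/cap^n stay eventually above a positive constant. -/
theorem result :
  ∃ (μ : Measure ℂ) (K : Set ℂ) (ν : Measure ℂ),
    IsProbabilityMeasure μ ∧ NoAtoms μ ∧
    IsCompact K ∧ μ Kᶜ = 0 ∧
    (∀ U : Set ℂ, IsOpen U → (U ∩ K).Nonempty → 0 < μ U) ∧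
    IsProbabilityMeasure ν ∧ ν Kᶜ = 0 ∧ NoAtoms ν ∧
    Integrable (fun p : ℂ × ℂ => Real.log ‖p.1 - p.2‖) (ν.prod ν) ∧
    (∀ ρ : Measure ℂ, IsProbabilityMeasure ρ → ρ Kᶜ = 0 → NoAtoms ρ →
      Integrable (fun p : ℂ × ℂ => Real.log ‖p.1 - p.2‖) (ρ.prod ρ) →
      ∫ p, Real.log ‖p.1 - p.2‖ ∂(ρ.prod ρ) ≤ ∫ p, Real.log ‖p.1 - p.2‖ ∂(ν.prod ν)) ∧
    μ.MutuallySingular ν ∧
    ∃ c : ℝ, 0 < c ∧ ∀ᶠ n : ℕ in atTop,
      c ≤ (⨅ P : {P : Polynomial ℂ // P.Monic ∧ P.natDegree = n},
            Real.sqrt (∫ z, ‖P.1.eval z‖ ^ 2 ∂μ)) /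
          Real.exp (∫ p, Real.log ‖p.1 - p.2‖ ∂(ν.prod ν)) ^ n := by
  refine ⟨mu, mu.support, nuc, inferInstance, (inferInstance : NullSingletonClass mu), ?_,
    Measure.measure_compl_support, ?_, inferInstance, ?_,
    (inferInstance : NullSingletonClass nuc), integrable_energy_nuc, ?_, ?_, 1, one_pos, ?_⟩
  · apply (isCompact_closedBall (0:ℂ) 3).of_isClosed_subset Measure.isClosed_support
    exact Measure.support_subset_of_isClosed Metric.isClosed_closedBall mu_closedBall
  · rintro U hU ⟨z, hzU, hz⟩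
    exact (Measure.mem_support_iff_forall z).mp hz U (hU.mem_nhds hzU)
  · exact measure_mono_null (Set.compl_subset_compl.mpr sphere_subset) nuc_sphere_compl
  · intro ρ hρ1 hρK hρa hρint
    have : NullSingletonClass ρ := hρa
    rw [energy_nuc]
    have hsph : ρ (Metric.sphere (0:ℂ) 1)ᶜ = 0 := by
      have hnull : ρ (mu.supportᶜ ∪ ⋃ k, ⋃ j, Dset k j) = 0 := by
        rw [measure_union_null_iff]
        refine ⟨hρK, ?_⟩
        rw [measure_iUnion_null_iff]
        intro k
        rw [measure_iUnion_null_iff]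
        intro j
        exact (thin_Dset k j).null ρ hρint
      refine measure_mono_null ?_ hnull
      intro z hz
      by_cases hzK : z ∈ mu.support
      · rcases support_subset hzK with h | h
        · exact absurd h hz
        · exact Or.inr h
      · exact Or.inl hzK
    exact circle_energy_nonpos ρ hsph (prod_diag_null ρ) hρint
  · exact ⟨Metric.sphere (0:ℂ) 1, Metric.isClosed_sphere.measurableSet, mu_sphere, nuc_sphere_compl⟩
  · filter_upwards [eventually_ge_atTop 1] with n hn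
    rw [energy_nuc, Real.exp_zero, one_pow, div_one]
    have : Nonempty {P : Polynomial ℂ // P.Monic ∧ P.natDegree = n} :=
      ⟨⟨Polynomial.X ^ n, Polynomial.monic_X_pow n, Polynomial.natDegree_X_pow n⟩⟩
    apply le_ciInf
    rintro ⟨P, hP, hdeg⟩
    rw [Real.one_le_sqrt]
    exact poly_lower hn hP hdeg

end Pool.Agent.S05651
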