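import Pool.Statements.S05668
import Pool.Agent.Lib52.SS.Glob3

/-!
Problem MP_a3030a_an: the growth constant of zero-free functions in the unit disc with `f' ≠ 1`
is strictly smaller than two.
-/

set_option autoImplicit false
open Real Filter Topology
open Pool Pool.MP_a3030a_an

namespace Pool.Agent.S05668

/-- The negation of the preceding statement: For every c < 2 there is a zero-free holomorphic f on the unit disk with f' never 1 whose T(r,f)/(-log(1-r)) stays bounded but exceeds c for r arbitrarily close to 1, i.e. the Shea–Sons bound 2 is sharp. -/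
theorem result :
    ¬ (∀ c : ℝ, c < 2 → ∃ f : ℂ → ℂ, DifferentiableOn ℂ f (Metric.ball (0:ℂ) 1) ∧
      (∀ z ∈ Metric.ball (0:ℂ) 1, f z ≠ 0 ∧ deriv f z ≠ 1) ∧
      (∃ M : ℝ, ∀ᶠ r in 𝓝[<] (1:ℝ),
        ((2 * π)⁻¹ * ∫ θ in (0:ℝ)..2 * π, max 0 (Real.log ‖f (circleMap 0 r θ)‖))
          / (-Real.log (1 - r)) ≤ M) ∧
      (∃ᶠ r in 𝓝[<] (1:ℝ), c <
        ((2 * π)⁻¹ * ∫ θ in (0:ℝ)..2 * π, max 0 (Real.log ‖f (circleMap 0 r θ)‖))
          / (-Real.log (1 - r)))) := by
  intro h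
  obtain ⟨η, hη0, hη1, hmain⟩ := Pool.Agent.SS.main
  obtain ⟨f, hd, hn, -, hfr⟩ := h (2 - η) (by linarith)
  have hf : Pool.Agent.SS.ClsD f := ⟨hd, fun z hz => (hn z hz).1, fun z hz => (hn z hz).2⟩
  obtain ⟨τ₀, hτ₀, hτ₁, hm⟩ := hmain f hf
  have hlt : Real.exp (-τ₀) < 1 := Real.exp_lt_one_iff.2 (by linarith)
  have hev : ∀ᶠ r in 𝓝[<] (1:ℝ), Real.exp (-τ₀) < r ∧ r < 1 := Ioo_mem_nhdsLT hlt
  obtain ⟨r, hr, hr1, hr2⟩ := (hfr.and_eventually hev).exists
  have hr0 : 0 < r := lt_trans (Real.exp_pos _) hr1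
  set τ : ℝ := -Real.log r with hτ
  have hτpos : 0 < τ := by
    have := Real.log_neg hr0 hr2
    linarith
  have hτlt : τ < τ₀ := by
    have := Real.log_lt_log (Real.exp_pos _) hr1
    rw [Real.log_exp] at this
    linarith
  have hexp : Real.exp (-τ) = r := by rw [hτ, neg_neg, Real.exp_log hr0]
  have h1 := hm τ hτpos hτlt
  have h2 : Pool.Agent.SS.mI (fun τ θ => max 0 (Real.log ‖f (Pool.Agent.SS.zz τ θ)‖)) τ =
      ∫ θ in (0:ℝ)..2 * π, max 0 (Real.log ‖f (circleMap 0 r θ)‖) := by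
    unfold Pool.Agent.SS.mI
    simp only [Pool.Agent.SSP.zz_eq_circleMap, hexp]
  rw [h2] at h1
  set T : ℝ := ∫ θ in (0:ℝ)..2 * π, max 0 (Real.log ‖f (circleMap 0 r θ)‖) with hT
  have h3 : 0 < -Real.log (1 - r) := by
    have := Real.log_neg (show 0 < 1 - r by linarith) (by linarith)
    linarith
  have h4 : -Real.log τ ≤ -Real.log (1 - r) := by
    have h5 : 1 - r ≤ τ := by
      have := Real.add_one_le_exp (-τ)
      rw [hexp] at this
      linarith
    have := Real.log_le_log (show 0 < 1 - r by linarith) h5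
    linarith
  rw [lt_div_iff₀ h3] at hr
  have hπ := Real.pi_pos
  have h6 : (2 * π)⁻¹ * T < (2 - η) * (-Real.log τ) := by
    rw [inv_mul_lt_iff₀ (by positivity)]
    linarith
  have h7 : (2 - η) * (-Real.log τ) ≤ (2 - η) * (-Real.log (1 - r)) :=
    mul_le_mul_of_nonneg_left h4 (by linarith)
  linarith

end Pool.Agent.S05668
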