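import Pool.Statements.S05883
import Pool.Agent.PB57.All

set_option autoImplicit false
open Pool Pool.MP_b57e2f_an

namespace Pool.Agent.S05883

/-- Every separable real Banach space whose finite-dimensional subspaces have unit balls with finitely many extreme points embeds isomorphically into some real Banach space whose dual is isometrically isomorphic to ℓ_1. -/
theorem result :
    ∀ (X : Type) [NormedAddCommGroup X] [NormedSpace ℝ X] [CompleteSpace X]
      [TopologicalSpace.SeparableSpace X],
      (∀ E : Submodule ℝ X, FiniteDimensional ℝ E →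
          (Set.extremePoints ℝ (Metric.closedBall (0 : E) 1)).Finite) →
      ∃ (Y : Type) (_ : NormedAddCommGroup Y) (_ : NormedSpace ℝ Y) (_ : CompleteSpace Y),
        Nonempty ((Y →L[ℝ] ℝ) ≃ₗᵢ[ℝ] lp (fun _ : ℕ => ℝ) 1) ∧
        ∃ (T : X →L[ℝ] Y) (c : ℝ), 0 < c ∧ ∀ x : X, c * ‖x‖ ≤ ‖T x‖ := by
  intro X _ _ _ _ hP
  exact PB.main X hP

end Pool.Agent.S05883
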