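import Pool.Statements.S06651
import Pool.Agent.Lib52.Jos8

set_option autoImplicit false
open Pool Pool.MP_f086f4_an

namespace Pool.Agent.S06651

/-- For ω>0, integer r≥1 and reals B, A: if some solution of φ' = −sin φ + B + A cos(ωt) has rotation number φ(t)/(ωt) → r, then B > (r−1)ω. -/
theorem result :
    ∀ ω : ℝ, 0 < ω → ∀ r : ℕ, 1 ≤ r → ∀ B A : ℝ, ∀ φ : ℝ → ℝ,
      (∀ t : ℝ, HasDerivAt φ (-Real.sin (φ t) + B + A * Real.cos (ω * t)) t) →
      Filter.Tendsto (fun t : ℝ => φ t / (ω * t)) Filter.atTop (nhds (r : ℝ)) →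
      ((r : ℝ) - 1) * ω < B := by
  intro ω hω r hr B A φ hφ hlim
  by_contra hcon
  push Not at hcon
  obtain ⟨m, rfl⟩ : ∃ m : ℕ, r = m + 1 := ⟨r - 1, by omega⟩
  have hB : B ≤ (m : ℝ) * ω := by
    have : ((m + 1 : ℕ) : ℝ) - 1 = (m : ℝ) := by push_cast; ring
    rwa [this] at hcon
  have hωne : ω ≠ 0 := hω.ne'
  -- the rescaled solution
  set ψ : ℝ → ℝ := fun τ => φ (τ / ω) with hψ
  have hψd : ∀ τ, HasDerivAt ψ ((-Real.sin (ψ τ) + B + A * Real.cos τ) * (1 / ω)) τ := by
    intro τ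
    have h1 : HasDerivAt (fun τ : ℝ => τ / ω) (1 / ω) τ := (hasDerivAt_id τ).div_const ω
    have h2 := (hφ (τ / ω)).comp τ h1
    refine h2.congr_deriv ?_
    rw [show ω * (τ / ω) = τ by field_simp]
  have hsub : ∀ τ, (-Real.sin (ψ τ) + B + A * Real.cos τ) * (1 / ω) ≤
      Lib52.Josephson.rhs (m : ℝ) (A / ω) (1 / ω) τ (ψ τ) := by
    intro τ
    unfold Lib52.Josephson.rhs
    have h1 : B * (1 / ω) ≤ m := by
      rw [mul_one_div, div_le_iff₀ hω]
      exact hB
    have h2 : (-Real.sin (ψ τ) + B + A * Real.cos τ) * (1 / ω) =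
        B * (1 / ω) + A / ω * Real.cos τ - 1 / ω * Real.sin (ψ τ) := by ring
    rw [h2]
    linarith
  have hbpos : 0 < 1 / ω := by positivity
  -- a symmetric orbit with nonpositive displacement
  have hex : ∃ s : ℝ, (s = 1 ∨ s = -1) ∧
      Lib52.Josephson.yy (m : ℝ) (A / ω) (1 / ω) s ≤ 0 := by
    by_contra hno
    push Not at hno
    exact Lib52.Josephson.main_lemma hbpos (hno 1 (Or.inl rfl)) (hno (-1) (Or.inr rfl))
  obtain ⟨s, hs, hys⟩ := hex
  set Ψ := Lib52.Josephson.orb (m : ℝ) (A / ω) (1 / ω) s with hΨ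
  have hΨsol : Lib52.Josephson.IsSol (m : ℝ) (A / ω) (1 / ω) Ψ :=
    Lib52.Josephson.orb_isSol _ _ _ _
  have hΨstep : Ψ Real.pi ≤ Ψ (-Real.pi) + 2 * Real.pi * m := by
    have h1 := Lib52.Josephson.orb_neg (m := (m : ℝ)) (a := A / ω) (b := 1 / ω) hs Real.pi
    unfold Lib52.Josephson.yy at hys
    rw [← hΨ] at h1 hys
    rw [h1]
    linarith
  -- initial comparison
  set N : ℤ := ⌈(ψ (-Real.pi) - Ψ (-Real.pi)) / (2 * Real.pi)⌉ with hN
  have hNle : ψ (-Real.pi) ≤ Ψ (-Real.pi) + 2 * Real.pi * N := by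
    have h1 := Int.le_ceil ((ψ (-Real.pi) - Ψ (-Real.pi)) / (2 * Real.pi))
    rw [← hN, div_le_iff₀ (by have := Real.pi_pos; positivity)] at h1
    linarith
  have hind : ∀ n : ℕ, ψ (-Real.pi + 2 * Real.pi * n) ≤
      Ψ (-Real.pi) + 2 * Real.pi * (m * n) + 2 * Real.pi * N := by
    intro n
    induction n with
    | zero => simpa using hNle
    | succ n ih =>
      have hsol : Lib52.Josephson.IsSol (m : ℝ) (A / ω) (1 / ω)
          (fun τ => Ψ (τ + ((-(n : ℤ) : ℤ) : ℝ) * (2 * Real.pi)) +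
            (((m : ℤ) * (n : ℤ) + N : ℤ) : ℝ) * (2 * Real.pi)) :=
        (hΨsol.shift (-(n : ℤ))).add_two_pi ((m : ℤ) * (n : ℤ) + N)
      have hcmp := Lib52.Josephson.comparison (t₀ := -Real.pi + 2 * Real.pi * n)
        (t₁ := Real.pi + 2 * Real.pi * n) hbpos.le (by linarith [Real.pi_pos]) hψd hsub hsol (by
          have e1 : -Real.pi + 2 * Real.pi * n + ((-(n : ℤ) : ℤ) : ℝ) * (2 * Real.pi) =
              -Real.pi := by push_cast; ring
          rw [e1]
          push_cast
          linarith)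
      have e2 : Real.pi + 2 * Real.pi * n + ((-(n : ℤ) : ℤ) : ℝ) * (2 * Real.pi) =
          Real.pi := by push_cast; ring
      rw [e2] at hcmp
      push_cast at hcmp
      have e3 : -Real.pi + 2 * Real.pi * ((n + 1 : ℕ) : ℝ) = Real.pi + 2 * Real.pi * n := by
        push_cast; ring
      rw [e3]
      push_cast
      linarith
  -- contradiction with the growth rate
  have hψlim : Filter.Tendsto (fun τ : ℝ => ψ τ / τ) Filter.atTop
      (nhds (((m + 1 : ℕ) : ℝ))) := by
    have h1 : Filter.Tendsto (fun τ : ℝ => τ / ω) Filter.atTop Filter.atTop :=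
      Filter.tendsto_id.atTop_div_const hω
    have h2 := hlim.comp h1
    refine h2.congr ?_
    intro τ
    simp only [Function.comp_apply, hψ]
    rw [show ω * (τ / ω) = τ by field_simp]
  have hτlim : Filter.Tendsto (fun n : ℕ => -Real.pi + 2 * Real.pi * (n : ℝ)) Filter.atTop
      Filter.atTop := by
    apply Filter.tendsto_atTop_add_const_left
    apply Filter.Tendsto.const_mul_atTop (by have := Real.pi_pos; positivity)
    exact tendsto_natCast_atTop_atTop
  have hL := hψlim.comp hτlim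
  set D : ℝ := Ψ (-Real.pi) + 2 * Real.pi * N + m * Real.pi with hD
  have hR : Filter.Tendsto (fun n : ℕ => D / (-Real.pi + 2 * Real.pi * (n : ℝ)) + m)
      Filter.atTop (nhds (0 + m)) := by
    apply Filter.Tendsto.add _ tendsto_const_nhds
    exact Filter.Tendsto.div_atTop tendsto_const_nhds hτlim
  have hle := le_of_tendsto_of_tendsto hL hR (by
    filter_upwards [hτlim.eventually_gt_atTop 0] with n hn
    simp only [Function.comp_apply]
    rw [div_le_iff₀ hn, add_mul, div_mul_cancel₀ _ hn.ne']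
    have := hind n
    rw [hD]
    linarith)
  push_cast at hle
  linarith

end Pool.Agent.S06651
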