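import Pool.Statements.S06673
import Pool.Agent.Lib_helper81.LongJames.Final

set_option autoImplicit false
open Filter Topology
open Pool Pool.MP_f24657_an

namespace Pool.Agent.S06673

/-- The long James space J(ω₁) of continuous functions on [0,ω₁] vanishing at ω₁ with finite square variation admits an equivalent norm having two-sided directional derivatives at every nonzero point in every direction. -/
theorem result :
    ∀ ω : Ordinal.{0}, ω = Cardinal.ord (Cardinal.aleph.{0} 1) →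
    ∀ V : ((↥(Set.Iic ω)) → ℝ) → Set ℝ,
      V = (fun f => {s : ℝ | ∃ n : ℕ, ∃ α : Fin (n + 1) → ↥(Set.Iic ω),
            StrictMono α ∧
            s = ∑ i : Fin n, (f (α i.succ) - f (α i.castSucc)) ^ 2}) →
    ∀ J : Set ((↥(Set.Iic ω)) → ℝ),
      J = {f | Continuous f ∧ f ⟨ω, Set.mem_Iic.mpr (le_refl ω)⟩ = 0 ∧ BddAbove (V f)} →
    ∃ p : ((↥(Set.Iic ω)) → ℝ) → ℝ,
      (∀ f g, f ∈ J → g ∈ J → p (f + g) ≤ p f + p g) ∧
      (∀ (a : ℝ) f, f ∈ J → p (a • f) = |a| * p f) ∧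
      (∃ c C : ℝ, 0 < c ∧ 0 < C ∧ ∀ f, f ∈ J →
          c * Real.sqrt (sSup (V f)) ≤ p f ∧ p f ≤ C * Real.sqrt (sSup (V f))) ∧
      (∀ f, f ∈ J → f ≠ 0 → ∀ h, h ∈ J → ∃ d : ℝ,
          Tendsto (fun t : ℝ => (p (f + t • h) - p f) / t) (𝓝[≠] 0) (𝓝 d)) := by
  intro ω _ V hV J hJ
  have : CompactSpace ↥(Set.Iic ω) := by
    rw [← isCompact_iff_compactSpace, ← Set.Icc_bot]
    exact isCompact_Icc
  let _ : OrderTop ↥(Set.Iic ω) :=
    { top := ⟨ω, Set.mem_Iic.mpr (le_refl ω)⟩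
      le_top := fun x => x.2 }
  let _ : SuccOrder ↥(Set.Iic ω) := SuccOrder.ofLinearWellFoundedLT _
  obtain ⟨p, h1, h2, h3, h4⟩ := Pool.Agent.LongJames.main_general ↥(Set.Iic ω)
  have hJ' : ∀ f, f ∈ J → Pool.Agent.LongJames.InJ f := by
    intro f hf
    rw [hJ, hV] at hf
    exact ⟨hf.1, hf.2.1, hf.2.2⟩
  refine ⟨p, fun f g hf hg => h1 f g (hJ' f hf) (hJ' g hg), fun a f hf => h2 a f (hJ' f hf),
    ⟨1, 3, one_pos, by norm_num, fun f hf => ?_⟩,
    fun f hf h0 h hh => h4 f (hJ' f hf) h0 h (hJ' h hh)⟩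
  have := h3 f (hJ' f hf)
  rw [one_mul, hV]
  exact this

end Pool.Agent.S06673
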