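import Pool.Statements.S07024
import Pool.Agent.Lib_n3.Main
-- import your own Pool.Agent.* helpers here

set_option autoImplicit false
open Pool Pool.MP_07e12a_co

namespace Pool.Agent.S07024

/-- The negation of the preceding statement: There is n > 10 and an (n_3) configuration with 3-connected Levi graph that can be realized exactly by points and pseudolines (graphs of continuous functions, pairwise crossing once) but not by points and straight lines. -/
theorem result :
    ¬ (∃ n : ℕ, 10 < n ∧ ∃ I : Fin n → Fin n → Prop,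
      (∀ p, {l | I p l}.ncard = 3) ∧
      (∀ l, {p | I p l}.ncard = 3) ∧
      (∀ p q, p ≠ q → {l | I p l ∧ I q l}.ncard ≤ 1) ∧
      (∀ S : Finset (Fin n ⊕ Fin n), S.card ≤ 2 →
        ((SimpleGraph.fromRel (fun u v : Fin n ⊕ Fin n =>
            ∃ p l, u = Sum.inl p ∧ v = Sum.inr l ∧ I p l)).induce
          {v : Fin n ⊕ Fin n | v ∉ S}).Connected) ∧
      (∃ f : Fin n → ℝ → ℝ, ∃ P : Fin n → ℝ × ℝ,
        (∀ j, Continuous (f j)) ∧
        (∀ j k, j ≠ k →
          ((∃ t : ℝ, ∀ x : ℝ, (x < t → f j x < f k x) ∧ (t < x → f k x < f j x)) ∨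
           (∃ t : ℝ, ∀ x : ℝ, (x < t → f k x < f j x) ∧ (t < x → f j x < f k x)))) ∧
        (∀ i j, I i j ↔ (P i).2 = f j (P i).1)) ∧
      ¬ (∃ a b : Fin n → ℝ, ∃ P : Fin n → ℝ × ℝ,
        ∀ i j, I i j ↔ (P i).2 = a j * (P i).1 + b j)) := by
  exact N3.frozen N3.main N3.affineS

end Pool.Agent.S07024
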