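import Pool.Statements.S07056
-- import your own Pool.Agent.* helpers here

set_option autoImplicit false
open Pool Pool.MP_0959cd_co

namespace Pool.Agent.S07056

/-!
Counterexample. Let `D` be the following digraph on 13 vertices: a root, 2 children of the root and
5 leaves below each child, with arcs root to child (weight 1/2), child to leaf below it (weight 1/5),
leaf to root (weight 1/4) and leaf to its parent (weight 3/4). Every vertex of `D` has total
out-weight 1 and every directed cycle of `D` has total weight 19/20. Let `D'` be the reverse of a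
disjoint copy of `D`. Then `D'` together with `D` and an arc of weight 1 from each vertex of `D'` to
its copy in `D` satisfies the degree conditions, while every directed cycle lies in `D` or in `D'`.
-/

/-- Vertices of `D`: `none` is the root, `some (i, none)` are the children of the root and
`some (i, some j)` are the leaves below the child `i`. -/
abbrev T : Type := Option (Fin 2 × Option (Fin 5))

/-- The weights of `D`. -/
noncomputable def w : T → T → ℝ
  | none, some (_, none) => 1 / 2
  | some (i, none), some (i', some _) => if i = i' then 1 / 5 else 0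
  | some (_, some _), none => 1 / 4
  | some (i, some _), some (i', none) => if i = i' then 3 / 4 else 0
  | _, _ => 0

/-- The weights of the counterexample. -/
noncomputable def P : Bool × T → Bool × T → ℝ
  | (true, u), (true, v) => w u v
  | (false, u), (false, v) => w v u
  | (false, u), (true, v) => if u = v then 1 else 0
  | (true, _), (false, _) => 0

theorem w_bounds (u v : T) : 0 ≤ w u v ∧ w u v ≤ 1 := by
  rcases u with _ | ⟨i, _ | j⟩ <;> rcases v with _ | ⟨i', _ | j'⟩ <;> simp only [w] <;>
    first
    | (split_ifs <;> norm_num)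
    | norm_num

theorem w_self (u : T) : w u u = 0 := by
  rcases u with _ | ⟨i, _ | j⟩ <;> simp [w]

theorem w_out (u : T) : ∑ v, w u v = 1 := by
  rcases u with _ | ⟨i, _ | j⟩
  · simp only [Fintype.sum_option, Fintype.sum_prod_type, w]
    simp
  · fin_cases i <;> simp [Fintype.sum_option, Fintype.sum_prod_type, w]
  · fin_cases i <;> norm_num [Fintype.sum_option, Fintype.sum_prod_type, w]

theorem eq_one_of_three (k : ℕ) (h : (1 + 1 + 1 : Fin (k + 2)) = 0) : k = 1 := by
  have h1 := congrArg Fin.val h
  simp only [Fin.val_add, Fin.val_one, Nat.mod_add_mod, Fin.val_zero] at h1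
  have h2 : k + 2 ∣ 3 := Nat.dvd_of_mod_eq_zero h1
  have h3 := (Nat.dvd_prime Nat.prime_three).1 h2
  omega

theorem eq_zero_of_two (k : ℕ) (h : (1 + 1 : Fin (k + 2)) = 0) : k = 0 := by
  have h1 := congrArg Fin.val h
  simp only [Fin.val_add, Fin.val_one, Fin.val_zero] at h1
  have h2 : k + 2 ∣ 2 := Nat.dvd_of_mod_eq_zero h1
  have h3 := Nat.le_of_dvd (by norm_num) h2
  omega

theorem const_of_mono (k : ℕ) (f : Fin (k + 2) → Bool) (h : ∀ i, f i ≤ f (i + 1)) (i j : Fin (k + 2)) :
    f i ≤ f j := by
  have hm : Monotone f := by
    rw [Fin.monotone_iff_le_succ]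
    intro i
    have := h i.castSucc
    rwa [Fin.coeSucc_eq_succ] at this
  have h1 : f i ≤ f (Fin.last _) := hm (Fin.le_last _)
  have h2 : f (Fin.last _) ≤ f 0 := by
    have := h (Fin.last _)
    rwa [Fin.last_add_one] at this
  exact h1.trans (h2.trans (hm (Fin.zero_le _)))

/-- Every directed cycle of `D` has total weight less than one. -/
theorem cycle_lt (k : ℕ) (c : Fin (k + 2) → T) (hc : Function.Injective c)
    (hadj : ∀ i, w (c i) (c (i + 1)) ≠ 0) : ∑ i, w (c i) (c (i + 1)) < 1 := by
  -- out-neighbours
  have hroot : ∀ a, c a = none → ∃ i, c (a + 1) = some (i, none) := by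
    intro a ha
    have h := hadj a
    rw [ha] at h
    rcases hv : c (a + 1) with _ | ⟨i', _ | j'⟩
    · rw [hv] at h; exact absurd rfl h
    · exact ⟨i', rfl⟩
    · rw [hv] at h; exact absurd rfl h
  have hchild : ∀ a i, c a = some (i, none) → ∃ j, c (a + 1) = some (i, some j) := by
    intro a i ha
    have h := hadj a
    rw [ha] at h
    rcases hv : c (a + 1) with _ | ⟨i', _ | j'⟩
    · rw [hv] at h; exact absurd rfl h
    · rw [hv] at h; exact absurd rfl h
    · rw [hv] at h
      by_cases hi : i = i'
      · exact ⟨j', by rw [hi]⟩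
      · simp [w, hi] at h
  have hleaf : ∀ a i j, c a = some (i, some j) → c (a + 1) = none ∨ c (a + 1) = some (i, none) := by
    intro a i j ha
    have h := hadj a
    rw [ha] at h
    rcases hv : c (a + 1) with _ | ⟨i', _ | j'⟩
    · exact Or.inl rfl
    · rw [hv] at h
      by_cases hi : i = i'
      · exact Or.inr (by rw [hi])
      · simp [w, hi] at h
    · rw [hv] at h; exact absurd rfl h
  by_cases hr : ∃ a, c a = none
  · -- the cycle passes through the root
    obtain ⟨a, ha⟩ := hr
    obtain ⟨i, h1⟩ := hroot a ha
    obtain ⟨j, h2⟩ := hchild _ i h1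
    rcases hleaf _ i j h2 with h3 | h3
    · have h30 : a + 1 + 1 + 1 = a := hc (h3.trans ha.symm)
      have h31 : (1 + 1 + 1 : Fin (k + 2)) = 0 := by
        have : a + (1 + 1 + 1) = a + 0 := by
          rw [add_zero, ← add_assoc, ← add_assoc]; exact h30
        exact add_left_cancel this
      have hk : k = 1 := eq_one_of_three k h31
      subst hk
      have key : ∑ i : Fin (1 + 2), w (c i) (c (i + 1)) =
          ∑ i : Fin (1 + 2), w (c (a + i)) (c (a + i + 1)) :=
        (Equiv.sum_comp (Equiv.addLeft a) (fun i => w (c i) (c (i + 1)))).symm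
      rw [key, Fin.sum_univ_three]
      have e0 : a + 0 = a := add_zero a
      have e2 : a + (2 : Fin (1 + 2)) = a + 1 + 1 := by rw [add_assoc]; rfl
      rw [e0, e2, ha, h1, h2, h3]
      simp only [w]
      norm_num
    · exfalso
      have h30 : a + 1 + 1 + 1 = a + 1 := hc (h3.trans h1.symm)
      have h31 : a + 1 + 1 = a := add_right_cancel h30
      rw [h31, ha] at h2
      exact absurd h2 (by simp)
  · push Not at hr
    have hex : ∃ a i, c a = some (i, none) := by
      rcases hv : c 0 with _ | ⟨i', _ | j'⟩
      · exact absurd hv (hr 0)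
      · exact ⟨0, i', hv⟩
      · rcases hleaf _ _ _ hv with h | h
        · exact absurd h (hr _)
        · exact ⟨_, i', h⟩
    obtain ⟨a, i, ha⟩ := hex
    obtain ⟨j, h1⟩ := hchild a i ha
    rcases hleaf _ _ _ h1 with h | h
    · exact absurd h (hr _)
    · have h30 : a + 1 + 1 = a := hc (h.trans ha.symm)
      have h31 : (1 + 1 : Fin (k + 2)) = 0 := by
        have : a + (1 + 1) = a + 0 := by
          rw [add_zero, ← add_assoc]; exact h30
        exact add_left_cancel this
      have hk : k = 0 := eq_zero_of_two k h31
      subst hk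
      have key : ∑ i : Fin (0 + 2), w (c i) (c (i + 1)) =
          ∑ i : Fin (0 + 2), w (c (a + i)) (c (a + i + 1)) :=
        (Equiv.sum_comp (Equiv.addLeft a) (fun i => w (c i) (c (i + 1)))).symm
      rw [key, Fin.sum_univ_two]
      have e0 : a + 0 = a := add_zero a
      rw [e0, ha, h1, h]
      simp only [w]
      norm_num

/-- The negation of the preceding statement: In every finite nonempty loopless digraph with arc weights in [0,1] where each vertex has total out-weight at least 1 and total in-weight at least 1, some directed cycle has total weight at least 1. -/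
theorem result :
    ¬ (∀ (V : Type) [Fintype V] [Nonempty V] (G : Digraph V) (p : V → V → ℝ),
      (∀ v, ¬ G.Adj v v) →
      (∀ u v, 0 ≤ p u v ∧ p u v ≤ 1) →
      (∀ u v, ¬ G.Adj u v → p u v = 0) →
      (∀ u, 1 ≤ ∑ v, p u v) →
      (∀ u, 1 ≤ ∑ v, p v u) →
      ∃ (k : ℕ) (c : Fin (k + 2) → V),
        Function.Injective c ∧
        (∀ i, G.Adj (c i) (c (i + 1))) ∧
        1 ≤ ∑ i, p (c i) (c (i + 1))) := by
  intro H
  obtain ⟨k, c, hc, hadj, hsum⟩ := H (Bool × T) ⟨fun u v => P u v ≠ 0⟩ P
    (by
      rintro ⟨b, u⟩ h
      cases b
      · exact h (w_self u)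
      · exact h (w_self u))
    (by
      rintro ⟨b, u⟩ ⟨b', v⟩
      cases b <;> cases b'
      · exact w_bounds v u
      · simp only [P]; split_ifs <;> norm_num
      · simp only [P]; norm_num
      · exact w_bounds u v)
    (by
      intro u v h
      by_contra h'
      exact h h')
    (by
      rintro ⟨b, u⟩
      rw [Fintype.sum_prod_type, Fintype.sum_bool]
      cases b
      · have h1 : ∑ y, P (false, u) (true, y) = 1 := by
          simp only [P]
          simp
        have h2 : 0 ≤ ∑ y, P (false, u) (false, y) :=
          Finset.sum_nonneg (fun y _ => (w_bounds y u).1)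
        linarith
      · have h1 : ∑ y, P (true, u) (true, y) = 1 := w_out u
        have h2 : ∑ y, P (true, u) (false, y) = 0 := by
          simp only [P]
          simp
        linarith)
    (by
      rintro ⟨b, u⟩
      rw [Fintype.sum_prod_type, Fintype.sum_bool]
      cases b
      · have h1 : ∑ y, P (false, y) (false, u) = 1 := w_out u
        have h2 : ∑ y, P (true, y) (false, u) = 0 := by
          simp only [P]
          simp
        linarith
      · have h1 : ∑ y, P (false, y) (true, u) = 1 := by
          simp only [P]
          simp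
        have h2 : 0 ≤ ∑ y, P (true, y) (true, u) :=
          Finset.sum_nonneg (fun y _ => (w_bounds y u).1)
        linarith)
  -- the cycle stays in one of the two halves
  have hmono : ∀ i, (c i).1 ≤ (c (i + 1)).1 := by
    intro i
    have h := hadj i
    rcases hu : c i with ⟨b, u⟩
    rcases hv : c (i + 1) with ⟨b', v⟩
    simp only [hu, hv] at h
    cases b
    · exact Bool.false_le _
    · cases b'
      · exact absurd rfl h
      · exact le_refl _
  have hconst : ∀ i j, (c i).1 ≤ (c j).1 := const_of_mono k (fun i => (c i).1) hmono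
  have hc1 : ∀ i, (c i).1 = (c 0).1 := fun i => le_antisymm (hconst _ _) (hconst _ _)
  have hci : ∀ i, c i = ((c 0).1, (c i).2) := fun i => Prod.ext (hc1 i) rfl
  rcases hb : (c 0).1 with _ | _
  · -- in the reversed copy
    rw [hb] at hci
    have hinj : Function.Injective (fun i : Fin (k + 2) => (c (-i)).2) := by
      intro i j hij
      have : c (-i) = c (-j) := by
        rw [hci (-i), hci (-j)]
        exact Prod.ext rfl hij
      exact neg_injective (hc this)
    have hstep : ∀ i : Fin (k + 2), w ((c (-i)).2) ((c (-(i + 1))).2) =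
        P (c (-(i + 1))) (c (-(i + 1) + 1)) := by
      intro i
      have e : -(i + 1) + 1 = -i := by rw [neg_add, neg_add_cancel_right]
      rw [e, hci (-(i + 1)), hci (-i)]
      rfl
    have h := cycle_lt k (fun i => (c (-i)).2) hinj (by
      intro i
      rw [hstep i]
      exact hadj _)
    have hs : ∑ i : Fin (k + 2), w ((c (-i)).2) ((c (-(i + 1))).2) =
        ∑ i : Fin (k + 2), P (c i) (c (i + 1)) := by
      rw [← Equiv.sum_comp ((Equiv.addRight (1 : Fin (k + 2))).trans (Equiv.neg _))
        (fun i => P (c i) (c (i + 1)))]
      exact Finset.sum_congr rfl (fun i _ => hstep i)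
    rw [hs] at h
    linarith
  · rw [hb] at hci
    have hinj : Function.Injective (fun i : Fin (k + 2) => (c i).2) := by
      intro i j hij
      have : c i = c j := by
        rw [hci i, hci j]
        exact Prod.ext rfl hij
      exact hc this
    have hstep : ∀ i : Fin (k + 2), w ((c i).2) ((c (i + 1)).2) = P (c i) (c (i + 1)) := by
      intro i
      rw [hci i, hci (i + 1)]
      rfl
    have h := cycle_lt k (fun i => (c i).2) hinj (by
      intro i
      rw [hstep i]
      exact hadj _)
    have hs : ∑ i : Fin (k + 2), w ((c i).2) ((c (i + 1)).2) =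
        ∑ i : Fin (k + 2), P (c i) (c (i + 1)) :=
      Finset.sum_congr rfl (fun i _ => hstep i)
    rw [hs] at h
    linarith

end Pool.Agent.S07056
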