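import Pool.Statements.S07321

set_option autoImplicit false
open Pool Pool.MP_155e99_co

namespace Pool.Agent.S07321

section Helpers

open Matrix

/-- A square integer matrix with M * Mᵀ = k • 1 also has Mᵀ * M = k • 1, for k ≠ 0. -/
theorem frame_comm {ι : Type*} [Fintype ι] [DecidableEq ι] (M : Matrix ι ι ℤ) (k : ℤ)
    (hk : k ≠ 0) (h : M * Mᵀ = k • (1 : Matrix ι ι ℤ)) : Mᵀ * M = k • (1 : Matrix ι ι ℤ) := by
  have hinj : Function.Injective (fun X : Matrix ι ι ℤ => X.map (Int.castRingHom ℚ)) := by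
    intro X Y hXY
    ext i j
    have := congrFun (congrFun hXY i) j
    simpa using this
  have hkq : (k : ℚ) ≠ 0 := by exact_mod_cast hk
  have h1 : M.map (Int.castRingHom ℚ) * (M.map (Int.castRingHom ℚ))ᵀ
      = (k : ℚ) • (1 : Matrix ι ι ℚ) := by
    have := congrArg (fun X : Matrix ι ι ℤ => X.map (Int.castRingHom ℚ)) h
    simp only [Matrix.map_mul] at this
    rw [← Matrix.transpose_map, this]
    ext i j
    simp only [Matrix.map_apply, Matrix.smul_apply, Matrix.one_apply]
    split_ifs <;> simp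
  have h2 : M.map (Int.castRingHom ℚ) * ((k : ℚ)⁻¹ • (M.map (Int.castRingHom ℚ))ᵀ) = 1 := by
    rw [Matrix.mul_smul, h1, smul_smul, inv_mul_cancel₀ hkq, one_smul]
  have h3 := mul_eq_one_comm.1 h2
  have h4 : (M.map (Int.castRingHom ℚ))ᵀ * M.map (Int.castRingHom ℚ)
      = (k : ℚ) • (1 : Matrix ι ι ℚ) := by
    rw [Matrix.smul_mul] at h3
    rw [← h3, smul_smul, mul_inv_cancel₀ hkq, one_smul]
  apply hinj
  simp only [Matrix.map_mul]
  rw [Matrix.transpose_map, h4]
  ext i j
  simp only [Matrix.map_apply, Matrix.smul_apply, Matrix.one_apply]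
  split_ifs <;> simp

/-- Weighing matrices of every weight in orders that are powers of two, together with a symmetric
Hadamard matrix with respect to which they are amicable. -/
theorem exists_W (t : ℕ) : ∃ (ι : Type) (_ : Fintype ι) (_ : DecidableEq ι) (H : Matrix ι ι ℤ),
    Nonempty ι ∧ Fintype.card ι = 2 ^ t ∧ Hᵀ = H ∧ H * H = ((2 ^ t : ℕ) : ℤ) • (1 : Matrix ι ι ℤ) ∧
    (∀ i j, H i j = 0 ∨ H i j = 1 ∨ H i j = -1) ∧
    ∀ k : ℕ, k ≤ 2 ^ t → ∃ P : Matrix ι ι ℤ, P * Pᵀ = (k : ℤ) • (1 : Matrix ι ι ℤ) ∧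
      P * H = H * Pᵀ ∧ ∀ i j, P i j = 0 ∨ P i j = 1 ∨ P i j = -1 := by
  induction t with
  | zero =>
    refine ⟨Unit, inferInstance, inferInstance, 1, inferInstance, by simp, by simp, by simp, ?_, ?_⟩
    · intro i j; simp
    · intro k hk
      have : k = 0 ∨ k = 1 := by
        rw [pow_zero] at hk; omega
      rcases this with rfl | rfl
      · exact ⟨0, by simp, by simp, by simp⟩
      · exact ⟨1, by simp, by simp, by intro i j; simp⟩
  | succ t ih =>
    obtain ⟨ι, _, _, H, hne, hcard, hsym, hHH, hent, hP⟩ := ih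
    refine ⟨ι ⊕ ι, inferInstance, inferInstance, fromBlocks H H H (-H), inferInstance, ?_, ?_, ?_,
      ?_, ?_⟩
    · rw [Fintype.card_sum, hcard, pow_succ]; ring
    · rw [fromBlocks_transpose, transpose_neg, hsym]
    · rw [fromBlocks_multiply, hHH, ← fromBlocks_one, fromBlocks_smul]
      congr 1
      · rw [← add_smul]; push_cast; ring_nf
      · rw [mul_neg, hHH, add_neg_cancel, smul_zero]
      · rw [neg_mul, hHH, add_neg_cancel, smul_zero]
      · rw [neg_mul, mul_neg, neg_neg, hHH, ← add_smul]; push_cast; ring_nf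
    · rintro (i | i) (j | j)
      · simpa using hent i j
      · simpa using hent i j
      · simpa using hent i j
      · rcases hent i j with h | h | h <;> simp [h]
    · intro k hk
      by_cases hk2 : k ≤ 2 ^ t
      · obtain ⟨P, hPP, hPH, hPe⟩ := hP k hk2
        refine ⟨fromBlocks P 0 0 P, ?_, ?_, ?_⟩
        · rw [fromBlocks_transpose, fromBlocks_multiply, ← fromBlocks_one, fromBlocks_smul]
          simp [hPP]
        · rw [fromBlocks_transpose, fromBlocks_multiply, fromBlocks_multiply]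
          simp [hPH]
        · rintro (i | i) (j | j)
          · simpa using hPe i j
          · simp
          · simp
          · simpa using hPe i j
      · obtain ⟨k', rfl⟩ : ∃ k', k = 2 ^ t + k' := ⟨k - 2 ^ t, by omega⟩
        have hk' : k' ≤ 2 ^ t := by rw [pow_succ] at hk; omega
        obtain ⟨P, hPP, hPH, hPe⟩ := hP k' hk'
        refine ⟨fromBlocks H P (-P) H, ?_, ?_, ?_⟩
        · rw [fromBlocks_transpose, fromBlocks_multiply, ← fromBlocks_one, fromBlocks_smul]
          congr 1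
          · rw [hsym, hHH, hPP, ← add_smul]; push_cast; ring_nf
          · rw [transpose_neg, mul_neg, hsym, hPH, neg_add_cancel, smul_zero]
          · rw [hsym, neg_mul, hPH, neg_add_cancel, smul_zero]
          · rw [transpose_neg, neg_mul, mul_neg, neg_neg, hsym, hHH, hPP, ← add_smul]
            push_cast; ring_nf
        · rw [fromBlocks_transpose, fromBlocks_multiply, fromBlocks_multiply]
          rw [hsym, transpose_neg]
          congr 1
          · rw [hPH]
          · rw [mul_neg, hPH, mul_neg, neg_add_eq_sub, sub_eq_add_neg]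
          · rw [neg_mul, hPH, neg_mul, neg_add_eq_sub, sub_eq_add_neg]
          · rw [neg_mul, hPH, mul_neg, mul_neg, neg_mul]
        · rintro (i | i) (j | j)
          · simpa using hent i j
          · simpa using hPe i j
          · rcases hPe i j with h | h | h <;> simp [h]
          · simpa using hent i j

/-- Frames of norm `k` in dimension `4 * q`. -/
theorem exists_frame_four (k : ℕ) (q : ℕ) : ∃ Q : Matrix (Fin 4 × Fin q) (Fin 4 × Fin q) ℤ,
    Q * Qᵀ = (k : ℤ) • (1 : Matrix (Fin 4 × Fin q) (Fin 4 × Fin q) ℤ) := by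
  obtain ⟨a, b, c, d, h⟩ := Nat.sum_four_squares k
  have h' : (a : ℤ) ^ 2 + b ^ 2 + c ^ 2 + d ^ 2 = k := by exact_mod_cast h
  refine ⟨blockDiagonal (fun _ : Fin q => !![(a : ℤ), b, c, d; -b, a, -d, c; -c, d, a, -b;
    -d, -c, b, a]), ?_⟩
  rw [blockDiagonal_transpose, ← blockDiagonal_mul, ← blockDiagonal_one, ← blockDiagonal_smul]
  congr 1
  funext i
  rw [← h']
  ext x y
  fin_cases x <;> fin_cases y <;>
    simp [Matrix.mul_apply, Fin.sum_univ_four] <;> ring

/-- Frames of norm `a ^ 2 + b ^ 2` in dimension `2 * q`. -/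
theorem exists_frame_two (a b : ℕ) (q : ℕ) : ∃ Q : Matrix (Fin 2 × Fin q) (Fin 2 × Fin q) ℤ,
    Q * Qᵀ = ((a ^ 2 + b ^ 2 : ℕ) : ℤ) • (1 : Matrix (Fin 2 × Fin q) (Fin 2 × Fin q) ℤ) := by
  refine ⟨blockDiagonal (fun _ : Fin q => !![(a : ℤ), b; -b, a]), ?_⟩
  rw [blockDiagonal_transpose, ← blockDiagonal_mul, ← blockDiagonal_one, ← blockDiagonal_smul]
  congr 1
  funext i
  push_cast
  ext x y
  fin_cases x <;> fin_cases y <;>
    simp [Matrix.mul_apply, Fin.sum_univ_two] <;> ring

/-- If `n = 2 * k` with `k` odd satisfies the Bruck-Ryser-Chowla condition then `k` is a sum of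
two squares. -/
theorem two_squares_of_brc (k : ℕ) (hk : Odd k)
    (h : ∃ x y z : ℤ, ¬ (x = 0 ∧ y = 0 ∧ z = 0) ∧
        x ^ 2 = ((2 * k : ℕ) : ℤ) * y ^ 2 + (-1 : ℤ) ^ (((2 * k) ^ 2 + 2 * k) / 2) * z ^ 2) :
    ∃ a b : ℕ, k = a ^ 2 + b ^ 2 := by
  obtain ⟨x, y, z, hne, h⟩ := h
  have hexp : ((2 * k) ^ 2 + 2 * k) / 2 = k * (2 * k + 1) := by
    have : (2 * k) ^ 2 + 2 * k = 2 * (k * (2 * k + 1)) := by ring
    rw [this]; simp
  have hodd : Odd (k * (2 * k + 1)) := hk.mul ⟨k, by ring⟩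
  rw [hexp, hodd.neg_one_pow] at h
  have h2 : ((2 * k : ℕ) : ℤ) * y ^ 2 = x ^ 2 + z ^ 2 := by linarith
  have hk0 : k ≠ 0 := by rintro rfl; simp at hk
  have hy : y ≠ 0 := by
    rintro rfl
    have hx : x ^ 2 + z ^ 2 = 0 := by rw [← h2]; ring
    have hx0 : x = 0 := by nlinarith [sq_nonneg x, sq_nonneg z]
    have hz0 : z = 0 := by nlinarith [sq_nonneg x, sq_nonneg z]
    exact hne ⟨hx0, rfl, hz0⟩
  have h3 : 2 * k * y.natAbs ^ 2 = x.natAbs ^ 2 + z.natAbs ^ 2 := by
    have : ((2 * k * y.natAbs ^ 2 : ℕ) : ℤ) = ((x.natAbs ^ 2 + z.natAbs ^ 2 : ℕ) : ℤ) := by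
      push_cast
      rw [sq_abs, sq_abs, sq_abs, ← h2]
      push_cast; ring
    exact_mod_cast this
  have hyn : y.natAbs ≠ 0 := Int.natAbs_ne_zero.mpr hy
  have h4 := (Nat.eq_sq_add_sq_iff).1 ⟨_, _, h3⟩
  apply (Nat.eq_sq_add_sq_iff).2
  intro q hq hq3
  have hqp : q.Prime := Nat.prime_of_mem_primeFactors hq
  have : Fact q.Prime := ⟨hqp⟩
  have hqk : q ∣ k := Nat.dvd_of_mem_primeFactors hq
  have hmem : q ∈ (2 * k * y.natAbs ^ 2).primeFactors := by
    rw [Nat.mem_primeFactors]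
    refine ⟨hqp, ?_, ?_⟩
    · exact Dvd.dvd.mul_right (Dvd.dvd.mul_left hqk 2) _
    · positivity
  have h5 := h4 q hmem hq3
  have hq2 : padicValNat q 2 = 0 := by
    apply padicValNat.eq_zero_of_not_dvd
    intro hd
    have := (Nat.prime_dvd_prime_iff_eq hqp Nat.prime_two).1 hd
    omega
  rw [padicValNat.mul (by positivity) (by positivity), padicValNat.mul (by norm_num) hk0,
    padicValNat.pow, hq2, zero_add] at h5
  rw [Nat.even_add] at h5
  exact h5.2 (even_two_mul _)

/-- From an integer matrix of order `2 * k` with `X * Xᵀ = k • 1` and a column with entries in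
`{0, 1, -1}`, build one of order `2 * k` with `H * Hᵀ = (2 * k) • 1` and an all-ones column. -/
theorem double_frame {α : Type} [Fintype α] [DecidableEq α] (k : ℕ) (hk : k ≠ 0)
    (hcard : Fintype.card α = 2 * k) (X : Matrix α α ℤ)
    (hX : X * Xᵀ = (k : ℤ) • (1 : Matrix α α ℤ)) (c : α)
    (hc : ∀ i, X i c = 0 ∨ X i c = 1 ∨ X i c = -1) :
    ∃ (H : Matrix (Fin k ⊕ Fin k) (Fin k ⊕ Fin k) ℤ) (c' : Fin k ⊕ Fin k),
      H * Hᵀ = ((2 * k : ℕ) : ℤ) • (1 : Matrix (Fin k ⊕ Fin k) (Fin k ⊕ Fin k) ℤ) ∧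
      ∀ i, H i c' = 1 := by
  classical
  have hXt := frame_comm X k (by exact_mod_cast hk) hX
  have hcc : ∑ i, X i c * X i c = (k : ℤ) := by
    have := congrFun (congrFun hXt c) c
    simpa [Matrix.mul_apply] using this
  have hcardR : Fintype.card {i // X i c ≠ 0} = k := by
    have h1 : ∑ i, X i c * X i c = ∑ i, (if X i c ≠ 0 then (1 : ℤ) else 0) := by
      apply Finset.sum_congr rfl
      intro i _
      rcases hc i with h | h | h <;> simp [h]
    rw [h1, Finset.sum_boole, ← Fintype.card_subtype] at hcc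
    exact_mod_cast hcc
  have hcardR' : Fintype.card {i // ¬ (X i c ≠ 0)} = k := by
    rw [Fintype.card_subtype_compl, hcard, hcardR]; omega
  let e : α ≃ Fin k ⊕ Fin k := (Equiv.sumCompl (fun i => X i c ≠ 0)).symm.trans
    (Equiv.sumCongr (Fintype.equivFinOfCardEq hcardR) (Fintype.equivFinOfCardEq hcardR'))
  let Y : Matrix (Fin k ⊕ Fin k) (Fin k ⊕ Fin k) ℤ := X.submatrix e.symm e.symm
  have hY : Y * Yᵀ = (k : ℤ) • (1 : Matrix (Fin k ⊕ Fin k) (Fin k ⊕ Fin k) ℤ) := by
    have : Y * Yᵀ = (X * Xᵀ).submatrix e.symm e.symm := by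
      rw [← Matrix.submatrix_mul_equiv X Xᵀ e.symm e.symm e.symm]
      rfl
    rw [this, hX]
    ext i j
    simp only [Matrix.submatrix_apply, Matrix.smul_apply, Matrix.one_apply,
      EmbeddingLike.apply_eq_iff_eq]
  have hl : ∀ a : Fin k, Y (Sum.inl a) (e c) * Y (Sum.inl a) (e c) = 1 := by
    intro a
    have h0 : X (e.symm (Sum.inl a)) c ≠ 0 := by
      have := ((Fintype.equivFinOfCardEq hcardR).symm a).2
      exact this
    have hYe : Y (Sum.inl a) (e c) = X (e.symm (Sum.inl a)) c := by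
      simp [Y]
    rw [hYe]
    rcases hc (e.symm (Sum.inl a)) with h | h | h
    · exact absurd h h0
    · rw [h]; norm_num
    · rw [h]; norm_num
  have hr : ∀ a : Fin k, Y (Sum.inr a) (e c) = 0 := by
    intro a
    have h0 : ¬ (X (e.symm (Sum.inr a)) c ≠ 0) := by
      have := ((Fintype.equivFinOfCardEq hcardR').symm a).2
      exact this
    have hYe : Y (Sum.inr a) (e c) = X (e.symm (Sum.inr a)) c := by
      simp [Y]
    rw [hYe]
    exact not_not.1 h0
  let D : Matrix (Fin k) (Fin k) ℤ := diagonal (fun a => Y (Sum.inl a) (e c))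
  have hDD : D * D = 1 := by
    rw [diagonal_mul_diagonal, ← diagonal_one]
    congr 1
    funext a
    exact hl a
  have hDt : Dᵀ = D := diagonal_transpose _
  let B : Matrix (Fin k ⊕ Fin k) (Fin k ⊕ Fin k) ℤ := fromBlocks D 1 D (-1)
  have hBB : B * Bᵀ = (2 : ℤ) • (1 : Matrix (Fin k ⊕ Fin k) (Fin k ⊕ Fin k) ℤ) := by
    change fromBlocks D 1 D (-1) * (fromBlocks D 1 D (-1))ᵀ = _
    rw [fromBlocks_transpose, fromBlocks_multiply, ← fromBlocks_one, fromBlocks_smul, hDt, hDD]
    simp [two_smul]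
  refine ⟨B * Y, e c, ?_, ?_⟩
  · rw [Matrix.transpose_mul, Matrix.mul_assoc, ← Matrix.mul_assoc Y, hY, Matrix.smul_mul,
      Matrix.one_mul, Matrix.mul_smul, hBB, smul_smul]
    push_cast
    rw [mul_comm]
  · rintro (a | a)
    · rw [Matrix.mul_apply, Fintype.sum_sum_type]
      simp only [B, fromBlocks_apply₁₁, fromBlocks_apply₁₂, D, diagonal_apply, Matrix.one_apply,
        hr, mul_zero, Finset.sum_const_zero, add_zero, ite_mul, zero_mul, Finset.sum_ite_eq,
        Finset.mem_univ, if_true, hl]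
    · rw [Matrix.mul_apply, Fintype.sum_sum_type]
      simp only [B, fromBlocks_apply₂₁, fromBlocks_apply₂₂, D, diagonal_apply,
        hr, mul_zero, Finset.sum_const_zero, add_zero, ite_mul, zero_mul, Finset.sum_ite_eq,
        Finset.mem_univ, if_true, hl]

/-- For every even `n` satisfying the Bruck-Ryser-Chowla condition there is an integer matrix
`H` of order `n` with `H * Hᵀ = n • 1` and an all-ones column. -/
theorem exists_H (k : ℕ) (hk : k ≠ 0)
    (h : ∃ x y z : ℤ, ¬ (x = 0 ∧ y = 0 ∧ z = 0) ∧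
        x ^ 2 = ((2 * k : ℕ) : ℤ) * y ^ 2 + (-1 : ℤ) ^ (((2 * k) ^ 2 + 2 * k) / 2) * z ^ 2) :
    ∃ (H : Matrix (Fin k ⊕ Fin k) (Fin k ⊕ Fin k) ℤ) (c' : Fin k ⊕ Fin k),
      H * Hᵀ = ((2 * k : ℕ) : ℤ) • (1 : Matrix (Fin k ⊕ Fin k) (Fin k ⊕ Fin k) ℤ) ∧
      ∀ i, H i c' = 1 := by
  obtain ⟨t, ht1, ht3⟩ : ∃ t, 2 ^ t ≤ 2 * k ∧ 2 * k < 2 ^ (t + 1) :=
    ⟨Nat.log 2 (2 * k), Nat.pow_log_le_self 2 (by omega),
      Nat.lt_pow_succ_log_self (by norm_num) (2 * k)⟩
  have ht2 : k ≤ 2 ^ t := by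
    rw [pow_succ] at ht3
    omega
  obtain ⟨ι, _, _, H0, hne, hcard, -, -, -, hP⟩ := exists_W t
  obtain ⟨P, hPP, -, hPe⟩ := hP k ht2
  obtain ⟨μ, _, _, Q, hQcard, hQ⟩ : ∃ (μ : Type) (_ : Fintype μ) (_ : DecidableEq μ)
      (Q : Matrix μ μ ℤ), Fintype.card μ = 2 * k - 2 ^ t ∧ Q * Qᵀ = (k : ℤ) • (1 : Matrix μ μ ℤ) := by
    rcases Nat.even_or_odd k with hev | hodd
    · -- the remaining dimension is divisible by 4
      obtain ⟨j, hj⟩ := hev
      have ht : 2 ≤ t := by
        by_contra hlt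
        have : t = 0 ∨ t = 1 := by omega
        rcases this with rfl | rfl
        · norm_num at ht3; omega
        · norm_num at ht3; omega
      obtain ⟨s, rfl⟩ : ∃ s, t = s + 2 := ⟨t - 2, by omega⟩
      obtain ⟨Q, hQ⟩ := exists_frame_four k (j - 2 ^ s)
      refine ⟨_, inferInstance, inferInstance, Q, ?_, hQ⟩
      rw [Fintype.card_prod, Fintype.card_fin, Fintype.card_fin]
      have : 2 ^ (s + 2) = 4 * 2 ^ s := by ring
      omega
    · obtain ⟨a, b, hab⟩ := two_squares_of_brc k hodd h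
      have ht : t ≠ 0 := by
        rintro rfl
        norm_num at ht3
        omega
      obtain ⟨s, rfl⟩ : ∃ s, t = s + 1 := ⟨t - 1, by omega⟩
      obtain ⟨Q, hQ⟩ := exists_frame_two a b (k - 2 ^ s)
      refine ⟨_, inferInstance, inferInstance, Q, ?_, ?_⟩
      · rw [Fintype.card_prod, Fintype.card_fin, Fintype.card_fin]
        have : 2 ^ (s + 1) = 2 * 2 ^ s := by ring
        omega
      · rw [← hab] at hQ
        exact hQ
  have hmain := double_frame k hk (α := ι ⊕ μ) (by rw [Fintype.card_sum, hcard, hQcard]; omega)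
    (fromBlocks P 0 0 Q) (by
      rw [fromBlocks_transpose, fromBlocks_multiply, ← fromBlocks_one, fromBlocks_smul]
      simp [hPP, hQ]) (Sum.inl hne.some) (by
      rintro (i | i)
      · simpa using hPe i _
      · simp)
  exact hmain

/-- The bordered matrix built from `n + 1` copies of `H`. -/
def bordered {κ : Type} [DecidableEq κ] (n : ℕ) (H : Matrix κ κ ℤ) (c : κ) :
    Matrix (Option (Fin (n + 1) × κ)) (Option (Fin (n + 1) × κ)) ℤ :=
  fun r s => match r, s with
    | none, none => 0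
    | some _, none => 1
    | none, some (_, j) => if j = c then 1 else 0
    | some (g, i), some (g', j) => if g = g' then H i j else 0

theorem bordered_mul {κ : Type} [Fintype κ] [DecidableEq κ] (n : ℕ) (H : Matrix κ κ ℤ) (c : κ)
    (hH : H * Hᵀ = (n : ℤ) • (1 : Matrix κ κ ℤ)) (hc : ∀ i, H i c = 1)
    (r s : Option (Fin (n + 1) × κ)) :
    (bordered n H c * (bordered n H c)ᵀ) r s = (if r = s then (n : ℤ) else 0) + 1 := by
  have hHe : ∀ i i', ∑ j, H i j * H i' j = if i = i' then (n : ℤ) else 0 := by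
    intro i i'
    have := congrFun (congrFun hH i) i'
    simpa [Matrix.mul_apply, Matrix.one_apply] using this
  rw [Matrix.mul_apply, Fintype.sum_option, Fintype.sum_prod_type]
  rcases r with _ | ⟨g, i⟩ <;> rcases s with _ | ⟨g', i'⟩
  · simp [bordered]
  · simp [bordered, hc]
  · simp [bordered, hc]
  · have h1 : ∀ x : Fin (n + 1), ∑ y, bordered n H c (some (g, i)) (some (x, y)) *
        (bordered n H c)ᵀ (some (x, y)) (some (g', i')) =
        if x = g then (if g = g' then (if i = i' then (n : ℤ) else 0) else 0) else 0 := by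
      intro x
      simp only [bordered, Matrix.transpose_apply]
      by_cases hx : x = g
      · subst hx
        by_cases hg : x = g'
        · subst hg
          simp only [if_true]
          exact hHe i i'
        · simp [hg, Ne.symm hg]
      · simp [hx, Ne.symm hx]
    rw [Finset.sum_congr rfl (fun x _ => h1 x)]
    rw [Finset.sum_ite_eq' Finset.univ g, if_pos (Finset.mem_univ _)]
    by_cases hg : g = g'
    · by_cases hi : i = i'
      · simp [bordered, hg, hi, add_comm]
      · simp [bordered, hg, hi]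
    · simp [bordered, hg]

end Helpers

/-- For every even n ≥ 2 with x² = n·y² + (−1)^((n²+n)/2)·z² nontrivially solvable, some integer (n²+n+1)-square matrix A has A·Aᵀ = nI+J, nonnegative column sums, one 0/1 column with a single zero, n+1 columns with n+1 ones and rest zeros, and all other columns summing to 0. -/
theorem result :
    ∀ n : ℕ, Even n → 2 ≤ n →
      (∃ x y z : ℤ, ¬ (x = 0 ∧ y = 0 ∧ z = 0) ∧
        x ^ 2 = (n : ℤ) * y ^ 2 + (-1 : ℤ) ^ ((n ^ 2 + n) / 2) * z ^ 2) →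
      ∃ A : Matrix (Fin (n ^ 2 + n + 1)) (Fin (n ^ 2 + n + 1)) ℤ,
        (∀ j, 0 ≤ ∑ i, A i j) ∧
        A * A.transpose =
          (n : ℤ) • (1 : Matrix (Fin (n ^ 2 + n + 1)) (Fin (n ^ 2 + n + 1)) ℤ)
            + Matrix.of (fun (_ : Fin (n ^ 2 + n + 1)) (_ : Fin (n ^ 2 + n + 1)) => (1 : ℤ)) ∧
        ∃ j₀ : Fin (n ^ 2 + n + 1), ∃ S : Finset (Fin (n ^ 2 + n + 1)),
          j₀ ∉ S ∧ S.card = n + 1 ∧
          (∀ i, A i j₀ = 0 ∨ A i j₀ = 1) ∧
          (Finset.univ.filter (fun i => A i j₀ = 0)).card = 1 ∧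
          (∀ j ∈ S, (∀ i, A i j = 0 ∨ A i j = 1) ∧
            (Finset.univ.filter (fun i => A i j = 1)).card = n + 1) ∧
          (∀ j, j ≠ j₀ → j ∉ S → ∑ i, A i j = 0) := by
  classical
  intro n hn hn2 h
  obtain ⟨k, rfl⟩ : ∃ k, n = 2 * k := by
    obtain ⟨k, hk⟩ := hn
    exact ⟨k, by omega⟩
  obtain ⟨H, c, hH, hc⟩ := exists_H k (by omega) h
  have hcardκ : Fintype.card (Fin k ⊕ Fin k) = 2 * k := by
    simp [two_mul]
  set n := 2 * k with hndef
  have hHt := frame_comm H (n : ℤ) (by positivity) hH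
  have hcol : ∀ j, j ≠ c → ∑ i, H i j = 0 := by
    intro j hj
    have := congrFun (congrFun hHt c) j
    simpa [Matrix.mul_apply, hc, Matrix.one_apply, Ne.symm hj] using this
  have hcard : Fintype.card (Option (Fin (n + 1) × (Fin k ⊕ Fin k))) = n ^ 2 + n + 1 := by
    rw [Fintype.card_option, Fintype.card_prod, hcardκ, Fintype.card_fin]; ring
  let e : Option (Fin (n + 1) × (Fin k ⊕ Fin k)) ≃ Fin (n ^ 2 + n + 1) :=
    Fintype.equivFinOfCardEq hcard
  let A0 := bordered n H c
  let A : Matrix (Fin (n ^ 2 + n + 1)) (Fin (n ^ 2 + n + 1)) ℤ := A0.submatrix e.symm e.symm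
  have hA : ∀ r s, A (e r) (e s) = A0 r s := by
    intro r s
    simp [A]
  have hsum : ∀ s, ∑ i, A i (e s) = ∑ r, A0 r s := by
    intro s
    rw [← Equiv.sum_comp e]
    exact Finset.sum_congr rfl (fun r _ => hA r s)
  have hcolnone : ∑ r, A0 r none = ((n * (n + 1) : ℕ) : ℤ) := by
    rw [Fintype.sum_option]
    simp [A0, bordered, hcardκ]
    ring
  have hcolsome : ∀ g j, ∑ r, A0 r (some (g, j)) = if j = c then ((n + 1 : ℕ) : ℤ) else 0 := by
    intro g j
    rw [Fintype.sum_option, Fintype.sum_prod_type]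
    simp only [A0, bordered]
    by_cases hj : j = c
    · subst hj
      simp [hc, Finset.sum_ite_irrel, hcardκ, hndef]
      ring
    · simp [hj, Finset.sum_ite_irrel, hcol j hj]
  refine ⟨A, ?_, ?_, e none, Finset.univ.image (fun g => e (some (g, c))), ?_, ?_, ?_, ?_, ?_, ?_⟩
  · intro j
    obtain ⟨s, rfl⟩ := e.surjective j
    rw [hsum]
    rcases s with _ | ⟨g, j⟩
    · rw [hcolnone]; positivity
    · rw [hcolsome]; split_ifs <;> positivity
  · ext i j
    obtain ⟨r, rfl⟩ := e.surjective i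
    obtain ⟨s, rfl⟩ := e.surjective j
    have h1 : (A * A.transpose) (e r) (e s) = (A0 * A0.transpose) r s := by
      rw [Matrix.mul_apply, Matrix.mul_apply, ← Equiv.sum_comp e]
      exact Finset.sum_congr rfl (fun t _ => by
        rw [Matrix.transpose_apply, Matrix.transpose_apply, hA, hA])
    rw [h1, bordered_mul n H c hH hc]
    simp only [Matrix.add_apply, Matrix.smul_apply, Matrix.one_apply, Matrix.of_apply,
      EmbeddingLike.apply_eq_iff_eq, smul_eq_mul, mul_ite, mul_one, mul_zero]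
  · simp
  · rw [Finset.card_image_of_injective, Finset.card_univ, Fintype.card_fin]
    intro g g' hg
    simpa using hg
  · intro i
    obtain ⟨r, rfl⟩ := e.surjective i
    rw [hA]
    rcases r with _ | ⟨g, i⟩
    · left; rfl
    · right; rfl
  · rw [Finset.card_eq_one]
    refine ⟨e none, ?_⟩
    ext i
    obtain ⟨r, rfl⟩ := e.surjective i
    simp only [Finset.mem_filter, Finset.mem_univ, true_and, hA, Finset.mem_singleton,
      EmbeddingLike.apply_eq_iff_eq]
    rcases r with _ | ⟨g, i⟩ <;> simp [A0, bordered]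
  · intro j hj
    obtain ⟨g, -, rfl⟩ := Finset.mem_image.1 hj
    have h01 : ∀ i, A i (e (some (g, c))) = 0 ∨ A i (e (some (g, c))) = 1 := by
      intro i
      obtain ⟨r, rfl⟩ := e.surjective i
      rw [hA]
      rcases r with _ | ⟨g', i⟩
      · right; simp [A0, bordered]
      · by_cases hg : g' = g
        · right; simp [A0, bordered, hg, hc]
        · left; simp [A0, bordered, hg]
    refine ⟨h01, ?_⟩
    have h2 : ∑ i, A i (e (some (g, c))) = ((n + 1 : ℕ) : ℤ) := by
      rw [hsum, hcolsome, if_pos rfl]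
    have h3 : ∑ i, A i (e (some (g, c))) = ∑ i, (if A i (e (some (g, c))) = 1 then (1 : ℤ) else 0) := by
      apply Finset.sum_congr rfl
      intro i _
      rcases h01 i with h | h <;> simp [h]
    rw [h3, Finset.sum_boole] at h2
    exact_mod_cast h2
  · intro j hj hjS
    obtain ⟨s, rfl⟩ := e.surjective j
    rw [hsum]
    rcases s with _ | ⟨g, j⟩
    · exact absurd rfl hj
    · rw [hcolsome, if_neg]
      rintro rfl
      exact hjS (Finset.mem_image.2 ⟨g, Finset.mem_univ _, rfl⟩)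

end Pool.Agent.S07321
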