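import Pool.Statements.S07520
import Pool.Agent.Lib_helper55.GCI.Top

set_option autoImplicit false
open Pool Pool.MP_1dface_co

namespace Pool.Agent.S07520

/-- The negation of the preceding statement: For every finite tree of maximum degree 4, there is some k ≤ 5 such that Alice, moving first in the proper edge-colouring game with k colours, has a strategy guaranteeing that every edge gets coloured. -/
theorem result :
    ¬ (∀ (V : Type) [Fintype V] [DecidableEq V] (G : SimpleGraph V) [DecidableRel G.Adj],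
    G.IsTree → G.maxDegree = 4 →
    ∃ k : ℕ, k ≤ 5 ∧ ∃ S : Set (Sym2 V → Option (Fin k)),
      (fun _ => none) ∈ S ∧
      ∀ c ∈ S,
        ((∀ e ∈ G.edgeSet, ∀ a : Fin k, c e = none →
            ¬ (∀ f ∈ G.edgeSet, f ≠ e → (∃ v, v ∈ e ∧ v ∈ f) → c f ≠ some a)) →
          ∀ e ∈ G.edgeSet, c e ≠ none) ∧
        (Even (Set.ncard {e | e ∈ G.edgeSet ∧ c e ≠ none}) →
          (∃ e ∈ G.edgeSet, ∃ a : Fin k, c e = none ∧
              (∀ f ∈ G.edgeSet, f ≠ e → (∃ v, v ∈ e ∧ v ∈ f) → c f ≠ some a)) →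
          ∃ e ∈ G.edgeSet, ∃ a : Fin k, c e = none ∧
              (∀ f ∈ G.edgeSet, f ≠ e → (∃ v, v ∈ e ∧ v ∈ f) → c f ≠ some a) ∧
              Function.update c e (some a) ∈ S) ∧
        (¬ Even (Set.ncard {e | e ∈ G.edgeSet ∧ c e ≠ none}) →
          ∀ e ∈ G.edgeSet, ∀ a : Fin k, c e = none →
              (∀ f ∈ G.edgeSet, f ≠ e → (∃ v, v ∈ e ∧ v ∈ f) → c f ≠ some a) →
              Function.update c e (some a) ∈ S)) :=
  Pool.Agent.GCI.main_of_fresh Pool.Agent.GCI.fresh5

end Pool.Agent.S07520
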