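import Pool.Statements.S08459
import Pool.Agent.Lib_helper62.OrthTower

set_option autoImplicit false
open Pool Pool.MP_456239_co

namespace Pool.Agent.S08459

open Matrix Pool.Agent.Lib_helper62

/-- For every finite simple graph G on n vertices there is a real symmetric matrix A, with (i,j) entry nonzero exactly for edges ij (i≠j, diagonal free), such that rank(A) ≤ n − δ(G); that is, maximum nullity is at least minimum degree. -/
theorem result :
    ∀ (n : ℕ) (G : SimpleGraph (Fin n)) [DecidableRel G.Adj],
      ∃ A : Matrix (Fin n) (Fin n) ℝ,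
        A.IsSymm ∧
        (∀ i j : Fin n, i ≠ j → (A i j ≠ 0 ↔ G.Adj i j)) ∧
        G.minDegree + A.rank ≤ n := by
  intro n G _
  rcases Nat.eq_zero_or_pos n with rfl | hn
  · refine ⟨0, Matrix.isSymm_zero, fun i => i.elim0, ?_⟩
    have h : G.minDegree = 0 := by simp [SimpleGraph.minDegree]
    rw [h, Matrix.rank_zero]
  · have : Nonempty (Fin n) := ⟨⟨0, hn⟩⟩
    have hδ : G.minDegree ≤ n := by
      have := G.minDegree_lt_card
      rw [Fintype.card_fin] at this
      omega
    obtain ⟨y, hy1, -⟩ := main (F := ℝ) G (d := n - G.minDegree) (by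
      rw [Fintype.card_fin]; omega)
    set U : Matrix (Fin n) (Fin (n - G.minDegree)) ℝ := Matrix.of y with hU
    have hA : ∀ i j, (U * Uᵀ) i j = y i ⬝ᵥ y j := by
      intro i j
      simp [hU, Matrix.mul_apply, dotProduct]
    refine ⟨U * Uᵀ, (by rw [Matrix.IsSymm, Matrix.transpose_mul, Matrix.transpose_transpose]), fun i j hij => ?_, ?_⟩
    · rw [hA]
      exact hy1 i j hij
    · have h1 : (U * Uᵀ).rank ≤ n - G.minDegree :=
        (Matrix.rank_mul_le_left U Uᵀ).trans (Matrix.rank_le_width U)
      omega

end Pool.Agent.S08459
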