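import Pool.Statements.S08577
import Pool.Agent.ST14.Final
import Pool.Agent.ST14.FinAll

set_option autoImplicit false
open Pool Pool.MP_49bc13_co

namespace Pool.Agent.S08577

/-- For every finite labeled poset (P,ω): the count of (P,ω)-partitions of each content is invariant under permuting values (K symmetric) iff P can be identified with the cells of a skew shape so that (P,ω)-partitions are exactly its semistandard fillings. -/
theorem result :
    ∀ (P : Type) [Fintype P] [PartialOrder P] (ω : P ≃ Fin (Fintype.card P)),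
      (∀ (α : ℕ → ℕ) (σ : Equiv.Perm ℕ),
        Nat.card {f : P → ℕ // (∀ s t : P, s < t → f s ≤ f t) ∧
            (∀ s t : P, s < t → ω t < ω s → f s < f t) ∧
            ∀ i : ℕ, Nat.card {x : P // f x = i} = α i}
          = Nat.card {f : P → ℕ // (∀ s t : P, s < t → f s ≤ f t) ∧
            (∀ s t : P, s < t → ω t < ω s → f s < f t) ∧
            ∀ i : ℕ, Nat.card {x : P // f x = i} = α (σ i)})
      ↔
      ∃ (lam mu : YoungDiagram) (e : P ≃ ↥(lam.cells \ mu.cells)), mu ≤ lam ∧
        ∀ f : P → ℕ,
          ((∀ s t : P, s < t → f s ≤ f t) ∧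
            (∀ s t : P, s < t → ω t < ω s → f s < f t)) ↔
          ((∀ s t : P, (e s).1.1 = (e t).1.1 → (e s).1.2 < (e t).1.2 → f s ≤ f t) ∧
            (∀ s t : P, (e s).1.2 = (e t).1.2 → (e s).1.1 < (e t).1.1 → f s < f t)) := by
  intro P _ _ ω
  exact Pool.Agent.ST14.final Pool.Agent.ST14.fa_main P ω

end Pool.Agent.S08577
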