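import Pool.Statements.S09439
import Pool.Agent.KF.Final

set_option autoImplicit false
open Pool Pool.MP_716236_co

namespace Pool.Agent.S09439

/-- For every k there are finitely many k-polytopes and some d > k such that every d-dimensional polytope has a k-dimensional face whose face lattice is isomorphic to that of one of them. -/
theorem result :
    ∀ k : ℕ, ∃ (m : ℕ) (Q : Fin m → Set (EuclideanSpace ℝ (Fin k))),
      (∀ i, (∃ S : Finset (EuclideanSpace ℝ (Fin k)),
              Q i = convexHull ℝ (S : Set (EuclideanSpace ℝ (Fin k)))) ∧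
            Module.finrank ℝ (vectorSpan ℝ (Q i)) = k) ∧
      ∃ d : ℕ, k < d ∧ ∀ P : Set (EuclideanSpace ℝ (Fin d)),
        (∃ S : Finset (EuclideanSpace ℝ (Fin d)),
            P = convexHull ℝ (S : Set (EuclideanSpace ℝ (Fin d)))) →
        Module.finrank ℝ (vectorSpan ℝ P) = d →
        ∃ F : Set (EuclideanSpace ℝ (Fin d)), IsExposed ℝ P F ∧ F.Nonempty ∧
          Module.finrank ℝ (vectorSpan ℝ F) = k ∧
          ∃ i : Fin m, Nonempty
            ({G : Set (EuclideanSpace ℝ (Fin d)) | IsExposed ℝ F G} ≃o
             {G : Set (EuclideanSpace ℝ (Fin k)) | IsExposed ℝ (Q i) G}) := by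
  exact Pool.Agent.KF.E.final Pool.Agent.KF.wu_all

end Pool.Agent.S09439
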