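/-
MP_8191b7_co: product structure preserving treewidth (frozen statement S09787, the positive answer).
Constants: k₀ = 239, c = 480.
-/
import Pool.Statements.S09787
import Pool.Agent.Lib_helper70.PS.Step
import Pool.Agent.Lib_helper70.PS.Tree
import Pool.Agent.Lib_helper22.PS.Final

set_option autoImplicit false
open Pool Pool.MP_8191b7_co

namespace Pool.Agent.S09787

/-- There are constants c, k0 such that every finite plane-drawable graph G embeds as a subgraph of H strong-product a path, where H has treewidth at most k0, and the product has treewidth at most c(tw(G)+1). -/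
theorem result :
    ∃ c k₀ : ℕ, ∀ (V : Type) [Fintype V] (G : SimpleGraph V),
      (∃ (f : V → ℂ) (γ : ∀ u v : V, G.Adj u v → Path (f u) (f v)),
        Function.Injective f ∧
        (∀ (u v : V) (h : G.Adj u v), Function.Injective ⇑(γ u v h)) ∧
        (∀ (u v : V) (h : G.Adj u v) (s : unitInterval) (w : V),
          γ u v h s = f w → w = u ∨ w = v) ∧
        (∀ (u v x y : V) (h : G.Adj u v) (h' : G.Adj x y) (s t : unitInterval),
          γ u v h s = γ x y h' t → s(u, v) ≠ s(x, y) →
            ∃ w : V, (w = u ∨ w = v) ∧ (w = x ∨ w = y) ∧ γ u v h s = f w)) →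
      ∃ (a b : ℕ) (H : SimpleGraph (Fin a)),
        (∃ (m : ℕ) (T : SimpleGraph (Fin m)) (B : Fin m → Finset (Fin a)),
          T.IsTree ∧ (∀ u v, H.Adj u v → ∃ t, u ∈ B t ∧ v ∈ B t) ∧
          (∀ v, (T.induce {t | v ∈ B t}).Connected) ∧ ∀ t, (B t).card ≤ k₀ + 1) ∧
        (∃ φ : G →g SimpleGraph.fromRel (fun p q : Fin a × Fin b =>
            (p.1 = q.1 ∨ H.Adj p.1 q.1) ∧
            (p.2 = q.2 ∨ (SimpleGraph.pathGraph b).Adj p.2 q.2)),
          Function.Injective φ) ∧
        ∀ k : ℕ,
          (∃ (m : ℕ) (T : SimpleGraph (Fin m)) (B : Fin m → Finset V),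
            T.IsTree ∧ (∀ u v, G.Adj u v → ∃ t, u ∈ B t ∧ v ∈ B t) ∧
            (∀ v, (T.induce {t | v ∈ B t}).Connected) ∧ ∀ t, (B t).card ≤ k + 1) →
          ∃ (m : ℕ) (T : SimpleGraph (Fin m)) (B : Fin m → Finset (Fin a × Fin b)),
            T.IsTree ∧
            (∀ u v, (SimpleGraph.fromRel (fun p q : Fin a × Fin b =>
                (p.1 = q.1 ∨ H.Adj p.1 q.1) ∧
                (p.2 = q.2 ∨ (SimpleGraph.pathGraph b).Adj p.2 q.2))).Adj u v →
              ∃ t, u ∈ B t ∧ v ∈ B t) ∧
            (∀ v, (T.induce {t | v ∈ B t}).Connected) ∧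
            ∀ t, (B t).card ≤ c * (k + 1) + 1 := by
  obtain ⟨c, k₀, h⟩ := PS.final (m := 48) (by norm_num)
    (fun hM F hF hG k hk => PS.cert_of_model hM F hF hG k hk)
    (fun G b m d hb hm h => PS.final_of_cert G b m d hb hm h)
  exact ⟨c, k₀, fun V _ G hd => h V G hd⟩

end Pool.Agent.S09787
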