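import Pool.Statements.S09833
import Pool.Agent.Lib_helper62.OrthTower

set_option autoImplicit false
open Pool Pool.MP_83e192_co

namespace Pool.Agent.S09833

open Matrix Pool.Agent.Lib_helper62

/-- Every finite graph G on n vertices has a real positive semidefinite matrix with G's off-diagonal nonzero pattern and the Strong Arnold Hypothesis, whose corank is at least G's minimum degree; that is, ν(G) ≥ δ(G). -/
theorem result :
    ∀ (n : ℕ) (G : SimpleGraph (Fin n)) [DecidableRel G.Adj],
      ∃ A : Matrix (Fin n) (Fin n) ℝ,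
        A.PosSemidef ∧
        (∀ i j : Fin n, i ≠ j → (A i j ≠ 0 ↔ G.Adj i j)) ∧
        (∀ X : Matrix (Fin n) (Fin n) ℝ, X.IsSymm →
          (∀ i j : Fin n, (i = j ∨ G.Adj i j) → X i j = 0) →
          A * X = 0 → X = 0) ∧
        G.minDegree ≤ n - A.rank := by
  intro n G _
  rcases Nat.eq_zero_or_pos n with rfl | hn
  · refine ⟨0, Matrix.PosSemidef.zero, fun i => i.elim0, fun X _ _ _ => ?_, ?_⟩
    · ext i; exact i.elim0
    · have h : G.minDegree = 0 := by simp [SimpleGraph.minDegree]
      rw [h]; exact Nat.zero_le _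
  · have : Nonempty (Fin n) := ⟨⟨0, hn⟩⟩
    have hδ : G.minDegree ≤ n := by
      have := G.minDegree_lt_card
      rw [Fintype.card_fin] at this
      omega
    obtain ⟨y, hy1, hy2⟩ := main (F := ℝ) G (d := n - G.minDegree) (by
      rw [Fintype.card_fin]; omega)
    set U : Matrix (Fin n) (Fin (n - G.minDegree)) ℝ := Matrix.of y with hU
    have hA : ∀ i j, (U * Uᴴ) i j = y i ⬝ᵥ y j := by
      intro i j
      simp [hU, Matrix.mul_apply, dotProduct]
    refine ⟨U * Uᴴ, Matrix.posSemidef_self_mul_conjTranspose U, fun i j hij => ?_,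
      fun X hX hX0 hAX => ?_, ?_⟩
    · rw [hA]
      exact hy1 i j hij
    · refine hy2 X hX hX0 fun w => ?_
      have h1 : Uᴴ * X = 0 := (Matrix.self_mul_conjTranspose_mul_eq_zero U X).mp hAX
      funext c
      have h2 := congrFun (congrFun h1 c) w
      simp only [Matrix.mul_apply, hU, Matrix.conjTranspose_apply, Matrix.of_apply, star_trivial,
        Matrix.zero_apply] at h2
      rw [Finset.sum_apply, Pi.zero_apply, ← h2]
      refine Finset.sum_congr rfl fun v _ => ?_
      rw [Pi.smul_apply, smul_eq_mul, mul_comm]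
    · have h1 : (U * Uᴴ).rank ≤ n - G.minDegree :=
        (Matrix.rank_mul_le_left U Uᴴ).trans (Matrix.rank_le_width U)
      omega

end Pool.Agent.S09833
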