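import Pool.Statements.S10161

set_option autoImplicit false
open Pool Pool.MP_9219e0_co

namespace Pool.Agent.S10161

open Finset

/-- The set of edges of `R` that point upwards for the injective labelling `g`. -/
noncomputable def pat {m n : ℕ} (R : Fin m → Fin n → Prop) (g : Fin m ⊕ Fin n → ℕ) :
    Finset {p : Fin m × Fin n // R p.1 p.2} := by
  classical
  exact Finset.univ.filter (fun p => g (Sum.inl p.1.1) < g (Sum.inr p.1.2))

lemma mem_pat {m n : ℕ} (R : Fin m → Fin n → Prop) (g : Fin m ⊕ Fin n → ℕ)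
    (p : {p : Fin m × Fin n // R p.1 p.2}) :
    p ∈ pat R g ↔ g (Sum.inl p.1.1) < g (Sum.inr p.1.2) := by
  classical
  simp [pat]

/-- All patterns that come from injective labellings. -/
noncomputable def pats {m n : ℕ} (R : Fin m → Fin n → Prop) :
    Finset (Finset {p : Fin m × Fin n // R p.1 p.2}) := by
  classical
  exact Finset.univ.filter (fun T => ∃ g : Fin m ⊕ Fin n → ℕ, Function.Injective g ∧ T = pat R g)

lemma mem_pats {m n : ℕ} (R : Fin m → Fin n → Prop)
    (T : Finset {p : Fin m × Fin n // R p.1 p.2}) :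
    T ∈ pats R ↔ ∃ g : Fin m ⊕ Fin n → ℕ, Function.Injective g ∧ T = pat R g := by
  classical
  simp [pats]

/-- A shattered set of edges is linearly independent in the cut space, so it has at most as many
edges as there are vertices. -/
lemma card_le_of_shatters {m n : ℕ} (R : Fin m → Fin n → Prop)
    [DecidableEq {p : Fin m × Fin n // R p.1 p.2}]
    (B : Finset {p : Fin m × Fin n // R p.1 p.2}) (hB : (pats R).Shatters B) :
    B.card ≤ m + n := by
  classical
  have hli : LinearIndependent ℚ (fun e : B =>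
      (Pi.single (Sum.inl e.1.1.1) (1 : ℚ) - Pi.single (Sum.inr e.1.1.2) (1 : ℚ) :
        Fin m ⊕ Fin n → ℚ)) := by
    rw [Fintype.linearIndependent_iff]
    intro c hc
    obtain ⟨u, hu, hBu⟩ := hB (t := B.filter (fun e => ∃ h : e ∈ B, 0 < c ⟨e, h⟩))
      (Finset.filter_subset _ _)
    obtain ⟨g, hg, rfl⟩ := (mem_pats R u).1 hu
    have key : ∀ e : B, (0 < c e ↔ g (Sum.inl e.1.1.1) < g (Sum.inr e.1.1.2)) := by
      intro e
      have h1 : e.1 ∈ B ∩ pat R g ↔ e.1 ∈ B.filter (fun e => ∃ h : e ∈ B, 0 < c ⟨e, h⟩) := by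
        rw [hBu]
      rw [Finset.mem_inter, Finset.mem_filter, mem_pat] at h1
      constructor
      · intro h
        exact (h1.2 ⟨e.2, e.2, h⟩).2
      · intro h
        obtain ⟨_, _, h3⟩ := h1.1 ⟨e.2, h⟩
        exact h3
    have hsum : ∑ e : B, c e * ((g (Sum.inl e.1.1.1) : ℚ) - (g (Sum.inr e.1.1.2) : ℚ)) = 0 := by
      have h2 := congrArg (fun w : Fin m ⊕ Fin n → ℚ => ∑ x, w x * (g x : ℚ)) hc
      simp only [Finset.sum_apply, Pi.smul_apply, smul_eq_mul, Pi.sub_apply, Pi.zero_apply,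
        zero_mul, Finset.sum_const_zero] at h2
      rw [← h2]
      simp_rw [Finset.sum_mul]
      rw [Finset.sum_comm]
      refine Finset.sum_congr rfl ?_
      intro e _
      simp_rw [mul_assoc]
      rw [← Finset.mul_sum]
      congr 1
      simp [sub_mul, Finset.sum_sub_distrib, Pi.single_apply]
    have hnonpos : ∀ e ∈ (Finset.univ : Finset B),
        c e * ((g (Sum.inl e.1.1.1) : ℚ) - (g (Sum.inr e.1.1.2) : ℚ)) ≤ 0 := by
      intro e _
      rcases lt_or_ge 0 (c e) with h | h
      · have h3 := (key e).1 h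
        have h4 : (g (Sum.inl e.1.1.1) : ℚ) < (g (Sum.inr e.1.1.2) : ℚ) := by exact_mod_cast h3
        nlinarith
      · have h3 : ¬ g (Sum.inl e.1.1.1) < g (Sum.inr e.1.1.2) := by
          rw [← key e]; exact not_lt.2 h
        have h4 : (g (Sum.inr e.1.1.2) : ℚ) ≤ (g (Sum.inl e.1.1.1) : ℚ) := by
          exact_mod_cast not_lt.1 h3
        nlinarith
    have hzero := (Finset.sum_eq_zero_iff_of_nonpos hnonpos).1 hsum
    intro e
    have h5 := hzero e (Finset.mem_univ e)
    rcases mul_eq_zero.1 h5 with h | h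
    · exact h
    · exfalso
      have h6 : (g (Sum.inl e.1.1.1) : ℚ) = (g (Sum.inr e.1.1.2) : ℚ) := sub_eq_zero.1 h
      have h7 : g (Sum.inl e.1.1.1) = g (Sum.inr e.1.1.2) := by exact_mod_cast h6
      exact absurd (hg h7) (by simp)
  have h := hli.fintype_card_le_finrank
  simpa using h

/-- The number of patterns is small (Sauer-Shelah). -/
lemma card_pats_le {m n : ℕ} (R : Fin m → Fin n → Prop)
    [Fintype {p : Fin m × Fin n // R p.1 p.2}] :
    (pats R).card ≤ ∑ k ∈ Finset.range (m + n + 1),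
      (Fintype.card {p : Fin m × Fin n // R p.1 p.2}).choose k := by
  classical
  have h1 := (Finset.card_le_card_shatterer (pats R)).trans
    (Finset.card_shatterer_le_sum_vcDim (𝒜 := pats R))
  refine h1.trans ?_
  have h2 : (pats R).vcDim ≤ m + n := by
    refine Finset.sup_le ?_
    intro s hs
    exact card_le_of_shatters R s (Finset.mem_shatterer.1 hs)
  refine Finset.sum_le_sum_of_subset ?_
  intro k hk
  rw [Finset.mem_Iic] at hk
  rw [Finset.mem_range]
  omega

/-- Truncated binomial sums: `x ^ N * ∑ k ≤ N, C(M, k) ≤ (1 + x) ^ M` for `0 < x ≤ 1`. -/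
lemma trunc_binom (M N : ℕ) (x : ℝ) (hx0 : 0 ≤ x) (hx1 : x ≤ 1) :
    x ^ N * ((∑ k ∈ Finset.range (N + 1), M.choose k : ℕ) : ℝ) ≤ (1 + x) ^ M := by
  have h1 : (1 + x) ^ M = ∑ k ∈ Finset.range (M + 1), x ^ k * (M.choose k : ℝ) := by
    rw [add_comm, add_pow]
    simp
  have h2 : (1 + x) ^ M = ∑ k ∈ Finset.range (M + 1 + (N + 1)), x ^ k * (M.choose k : ℝ) := by
    rw [h1, Finset.sum_range_add _ (M + 1) (N + 1)]
    have : ∑ k ∈ Finset.range (N + 1), x ^ (M + 1 + k) * (M.choose (M + 1 + k) : ℝ) = 0 := by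
      refine Finset.sum_eq_zero ?_
      intro k _
      rw [Nat.choose_eq_zero_of_lt (by omega)]
      simp
    rw [this, add_zero]
  rw [h2]
  push_cast
  rw [Finset.mul_sum]
  refine le_trans (b := ∑ k ∈ Finset.range (N + 1), x ^ k * (M.choose k : ℝ)) ?_ ?_
  · refine Finset.sum_le_sum ?_
    intro k hk
    rw [Finset.mem_range] at hk
    refine mul_le_mul_of_nonneg_right ?_ (by positivity)
    exact pow_le_pow_of_le_one hx0 hx1 (by omega)
  · refine Finset.sum_le_sum_of_subset_of_nonneg ?_ ?_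
    · intro k hk
      rw [Finset.mem_range] at *
      omega
    · intro k _ _
      positivity

/-- For every subgraph-closed class of bipartite graphs whose associated height-2 posets (lower side below adjacent upper vertices) all have dimension at most some d, there is D with every member having at most D times its vertex count edges. -/
theorem result :
    ∀ C : (m : ℕ) → (n : ℕ) → (Fin m → Fin n → Prop) → Prop,
      (∀ (m n : ℕ) (R : Fin m → Fin n → Prop) (m' n' : ℕ) (R' : Fin m' → Fin n' → Prop)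
          (e : Fin m' ↪ Fin m) (g : Fin n' ↪ Fin n),
          C m n R → (∀ a b, R' a b → R (e a) (g b)) → C m' n' R') →
      (∃ d : ℕ, ∀ (m n : ℕ) (R : Fin m → Fin n → Prop), C m n R →
          ∃ f : Fin d → (Fin m ⊕ Fin n) → ℕ,
            (∀ i, Function.Injective (f i)) ∧
            ∀ x y : Fin m ⊕ Fin n, x ≠ y →
              ((∃ a b, x = Sum.inl a ∧ y = Sum.inr b ∧ R a b) ↔ ∀ i, f i x < f i y)) →
      ∃ D : ℕ, ∀ (m n : ℕ) (R : Fin m → Fin n → Prop), C m n R →
        Set.ncard {p : Fin m × Fin n | R p.1 p.2} ≤ D * (m + n) := by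
  classical
  intro C hC hd
  obtain ⟨d, hd⟩ := hd
  obtain ⟨D, hD⟩ := pow_unbounded_of_one_lt (((2 * (d + 1) : ℕ) : ℝ) ^ d)
    (show (1 : ℝ) < 8 / 7 by norm_num)
  refine ⟨D, ?_⟩
  intro m n R hR
  set M := Fintype.card {p : Fin m × Fin n // R p.1 p.2} with hM
  have hcard : Set.ncard {p : Fin m × Fin n | R p.1 p.2} = M := by
    rw [hM, ← Nat.card_eq_fintype_card]
    rfl
  rw [hcard]
  -- every subset of the edge set is an intersection of `d` patterns
  have hsub : ∀ S : Finset {p : Fin m × Fin n // R p.1 p.2},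
      ∃ F : Fin d → Finset {p : Fin m × Fin n // R p.1 p.2},
        (∀ i, F i ∈ pats R) ∧ ∀ p, p ∈ S ↔ ∀ i, p ∈ F i := by
    intro S
    have hS : C m n (fun a b => ∃ h : R a b, (⟨(a, b), h⟩ : {p : Fin m × Fin n // R p.1 p.2}) ∈ S) :=
      hC m n R m n _ (Function.Embedding.refl _) (Function.Embedding.refl _) hR
        (fun a b h => h.1)
    obtain ⟨f, hf, hf2⟩ := hd m n _ hS
    refine ⟨fun i => pat R (f i), fun i => (mem_pats R _).2 ⟨f i, hf i, rfl⟩, ?_⟩
    intro p
    have h1 := hf2 (Sum.inl p.1.1) (Sum.inr p.1.2) (by simp)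
    simp only [mem_pat]
    rw [← h1]
    constructor
    · intro hp
      exact ⟨p.1.1, p.1.2, rfl, rfl, p.2, hp⟩
    · rintro ⟨a, b, ha, hb, hab, hmem⟩
      have ha' : p.1.1 = a := Sum.inl_injective ha
      have hb' : p.1.2 = b := Sum.inr_injective hb
      subst ha' hb'
      exact hmem
  choose F hF1 hF2 using hsub
  have hinj : Function.Injective
      (fun S : Finset {p : Fin m × Fin n // R p.1 p.2} =>
        (fun i : Fin d => (⟨F S i, hF1 S i⟩ : {T // T ∈ pats R}))) := by
    intro S S' h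
    ext p
    rw [hF2 S p, hF2 S' p]
    have h' : ∀ i, F S i = F S' i := by
      intro i
      have := congrFun h i
      simpa using this
    simp [h']
  have hle := Fintype.card_le_of_injective _ hinj
  rw [Fintype.card_finset, Fintype.card_fun, Fintype.card_fin, Fintype.card_coe, ← hM] at hle
  have hpats := card_pats_le R
  rw [← hM] at hpats
  set Q := ∑ k ∈ Finset.range (m + n + 1), M.choose k with hQ
  have hle2 : 2 ^ M ≤ Q ^ d := hle.trans (Nat.pow_le_pow_left hpats d)
  set s : ℝ := ((2 * (d + 1) : ℕ) : ℝ) with hs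
  have hs0 : 0 < s := by rw [hs]; positivity
  have hs1 : 1 ≤ s := by
    rw [hs]
    exact_mod_cast (by omega : 1 ≤ 2 * (d + 1))
  set N := m + n with hN
  have hbin := trunc_binom M N (1 / s) (by positivity) (by rw [div_le_one hs0]; exact hs1)
  rw [← hQ] at hbin
  have hQle : (Q : ℝ) ≤ s ^ N * (1 + 1 / s) ^ M := by
    have h3 : (1 / s) ^ N * (Q : ℝ) = (Q : ℝ) / s ^ N := by
      rw [one_div, inv_pow]; field_simp
    rw [h3, div_le_iff₀ (by positivity)] at hbin
    linarith
  -- `(1 + 1 / s) ^ d ≤ 7 / 4`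
  have hexp : (1 + 1 / s) ^ d ≤ 7 / 4 := by
    have h4 : (1 + 1 / s) ≤ Real.exp (1 / s) := by
      have := Real.add_one_le_exp (1 / s)
      linarith
    have h5 : (1 + 1 / s) ^ d ≤ Real.exp (1 / s) ^ d :=
      pow_le_pow_left₀ (by positivity) h4 d
    rw [← Real.exp_nat_mul] at h5
    have h6 : (d : ℝ) * (1 / s) ≤ 1 / 2 := by
      rw [hs]
      push_cast
      rw [mul_one_div, div_le_div_iff₀ (by positivity) (by norm_num)]
      linarith
    have h7 : Real.exp ((d : ℝ) * (1 / s)) ≤ Real.exp (1 / 2) := Real.exp_le_exp.2 h6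
    have h8 : Real.exp (1 / 2) ≤ 7 / 4 := by
      have h9 : Real.exp (1 / 2) ^ 2 = Real.exp 1 := by
        rw [← Real.exp_nat_mul]; norm_num
      have h10 := Real.exp_one_lt_d9
      by_contra hcon
      push Not at hcon
      nlinarith [Real.exp_pos (1 / 2 : ℝ)]
    linarith
  have hmain : (2 : ℝ) ^ M ≤ (s ^ d) ^ N * (7 / 4) ^ M := by
    have h11 : ((2 : ℝ)) ^ M ≤ (Q : ℝ) ^ d := by exact_mod_cast hle2
    refine h11.trans ?_
    refine (pow_le_pow_left₀ (by positivity) hQle d).trans ?_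
    rw [mul_pow, ← pow_mul, ← pow_mul, ← pow_mul, mul_comm N d]
    refine mul_le_mul_of_nonneg_left ?_ (by positivity)
    rw [mul_comm M d, pow_mul]
    exact pow_le_pow_left₀ (by positivity) hexp M
  have hmain2 : ((8 : ℝ) / 7) ^ M ≤ (s ^ d) ^ N := by
    have h12 : ((8 : ℝ) / 7) ^ M * (7 / 4) ^ M = 2 ^ M := by
      rw [← mul_pow]; norm_num
    have h13 : (0 : ℝ) < (7 / 4) ^ M := by positivity
    rw [← h12] at hmain
    exact le_of_mul_le_mul_right hmain h13
  by_contra hcon
  push Not at hcon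
  have h14 : (s ^ d) ^ N ≤ ((8 : ℝ) / 7) ^ (D * N) := by
    rw [pow_mul]
    exact pow_le_pow_left₀ (by positivity) hD.le N
  have h15 : ((8 : ℝ) / 7) ^ (D * N) < ((8 : ℝ) / 7) ^ M :=
    pow_lt_pow_right₀ (by norm_num) hcon
  linarith

end Pool.Agent.S10161
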