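import Pool.Statements.S10178
import Pool.Agent.Lib_helper63.AdamData

set_option autoImplicit false
open Pool Pool.MP_934e1a_co

namespace Pool.Agent.S10178

/-- The negation of the preceding statement: Every loopless digraph without multiple arcs that has a directed cycle has an arc whose reversal strictly lowers the number of directed cycles (cycles counted as arc sets; a reversal may create parallel arcs). -/
theorem result :
    ¬ (∀ (n : ℕ) (E : Finset (Fin n × Fin n)),
    (∀ a ∈ E, a.1 ≠ a.2) →
    (∃ S ⊆ E, S.Nonempty ∧
      ∀ x : Fin n, (S.filter (fun a => a.1 = x)).card = (S.filter (fun a => a.2 = x)).card) →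
    ∃ e ∈ E,
      {S : Finset (Fin n × Fin n) | S ⊆ E ∧ S.Nonempty ∧
        (∀ x : Fin n,
          (S.filter (fun a => (if a = e then a.swap else a).1 = x)).card =
          (S.filter (fun a => (if a = e then a.swap else a).2 = x)).card) ∧
        ∀ T ⊆ S, T.Nonempty →
          (∀ x : Fin n,
            (T.filter (fun a => (if a = e then a.swap else a).1 = x)).card =
            (T.filter (fun a => (if a = e then a.swap else a).2 = x)).card) → T = S}.ncard
      <
      {S : Finset (Fin n × Fin n) | S ⊆ E ∧ S.Nonempty ∧
        (∀ x : Fin n, (S.filter (fun a => a.1 = x)).card = (S.filter (fun a => a.2 = x)).card) ∧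
        ∀ T ⊆ S, T.Nonempty →
          (∀ x : Fin n, (T.filter (fun a => a.1 = x)).card = (T.filter (fun a => a.2 = x)).card) →
          T = S}.ncard) := by
  intro h
  have hloop : ∀ x : Fin 25, x ∉ Lib_helper63.AdamData.nb x := by decide +kernel
  have hnd : ∀ x : Fin 25, (Lib_helper63.AdamData.nb x).Nodup := by decide +kernel
  obtain ⟨e, he, hlt⟩ := h 25
    (Finset.univ.filter (fun a : Fin 25 × Fin 25 => a.2 ∈ Lib_helper63.AdamData.nb a.1))
    (by
      intro a ha hcon
      have h2 := (Finset.mem_filter.1 ha).2
      rw [← hcon] at h2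
      exact hloop a.1 h2)
    ⟨{(0, 1), (1, 2), (2, 3), (3, 4), (4, 0)}, by decide +kernel, by decide +kernel,
      by decide +kernel⟩
  obtain ⟨u, v⟩ := e
  have huv : v ∈ Lib_helper63.AdamData.nb u := (Finset.mem_filter.1 he).2
  have key := Lib_helper63.AdamCount.ncard_le Lib_helper63.AdamData.nb hnd hloop
    (Finset.univ.filter (fun a : Fin 25 × Fin 25 => a.2 ∈ Lib_helper63.AdamData.nb a.1))
    (by intro x y; simp) u v huv 25 (by simp) (Lib_helper63.AdamData.good_all u v huv)
  exact absurd hlt (not_lt.2 key)

end Pool.Agent.S10178
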