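import Pool.Statements.S10427
import Pool.Agent.Lib_helper28.PM.Main

set_option autoImplicit false
open Pool Pool.MP_9e4f68_co

namespace Pool.Agent.S10427

/-- For every s ≥ 2 and nonzero vectors v_1..v_{2^{s-1}} in F_2^s summing to zero, F_2^s can be split into 2^{s-1} disjoint pairs {a_i, b_i} covering everything, with a_i + b_i = v_i for each i. -/
theorem result :
    ∀ s : ℕ, 2 ≤ s →
      ∀ v : Fin (2 ^ (s - 1)) → (Fin s → ZMod 2),
        (∀ i, v i ≠ 0) → (∑ i, v i) = 0 →
          ∃ a b : Fin (2 ^ (s - 1)) → (Fin s → ZMod 2),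
            Function.Bijective (Sum.elim a b) ∧ ∀ i, a i + b i = v i := by
  intro s hs v hv hsum
  obtain ⟨k, rfl⟩ : ∃ k, s = k + 1 := ⟨s - 1, by omega⟩
  exact H28PM.main k (by omega) v hv hsum

end Pool.Agent.S10427
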