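import Pool.Statements.S10943
import Pool.Agent.JX.M1
import Pool.Agent.JX.CLTC
import Pool.Agent.JX.MinFinal
import Pool.Agent.JX.Int
import Pool.Agent.JX.M5a
import Pool.Agent.JX.M5b
import Pool.Agent.JX.Pell
import Pool.Agent.JX.Link
import Pool.Agent.JX.Final

set_option autoImplicit false
open Classical
open Pool Pool.MP_b57267_co

namespace Pool.Agent.S10943

/-- There is a graph F on at least 3 vertices and p in (0,1) such that, for every graph H on 3 or 4 vertices with no isolated vertex and every connected H on 5 vertices, the sum over embeddings of H into V(F) of the product over H-edges of (x_e − p) is 0. -/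
theorem result :
    ∃ (v : ℕ) (F : SimpleGraph (Fin v)) (p : ℝ),
      3 ≤ v ∧ 0 < p ∧ p < 1 ∧
      ∀ (k : ℕ) (H : SimpleGraph (Fin k)),
        (((k = 3 ∨ k = 4) ∧ (∀ w : Fin k, ∃ u : Fin k, H.Adj w u)) ∨
          (k = 5 ∧ H.Connected)) →
        (∑ φ : Fin k ↪ Fin v,
          ∏ i : Fin k, ∏ j : Fin k,
            (if i < j ∧ H.Adj i j then
              ((if F.Adj (φ i) (φ j) then (1 : ℝ) else 0) - p)
            else 1)) = 0 := by
  exact Pool.Agent.JX.final
    (Pool.Agent.JX.stmtHit (Pool.Agent.JX.clt Pool.Agent.JX.parseval Pool.Agent.JX.hyper)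
      Pool.Agent.JX.stmtMinor Pool.Agent.JX.int Pool.Agent.JX.stmtLin Pool.Agent.JX.stmtCard
      Pool.Agent.JX.stmtCoef)
    Pool.Agent.JX.stmtPell Pool.Agent.JX.link

end Pool.Agent.S10943
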