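import Pool.Statements.S11438
import Pool.Agent.Lib_helper77.ZhuCert.Main
import Pool.Agent.Lib_helper21.Zhu.Assemble

set_option autoImplicit false
open Pool Pool.MP_caab7c_co

namespace Pool.Agent.S11438

/-- The negation of the preceding statement: For every finite simple graph and every k, if Alice (moving first) has a winning strategy in the coloring game with colors 0..k-1, then she also has one with colors 0..k. -/
theorem result :
    ¬ (∀ (V : Type) [Fintype V] [DecidableEq V] (G : SimpleGraph V) (k : ℕ),
      (∃ W : Set (V → Option ℕ), (fun _ => none : V → Option ℕ) ∈ W ∧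
        ∀ f ∈ W,
          ((¬ ∃ v c, f v = none ∧ c < k ∧ ∀ w, G.Adj v w → f w ≠ some c) →
              ∀ v, f v ≠ none) ∧
          (Even (Finset.univ.filter (fun v => f v ≠ none)).card →
              (∃ v c, f v = none ∧ c < k ∧ ∀ w, G.Adj v w → f w ≠ some c) →
              ∃ v c, f v = none ∧ c < k ∧ (∀ w, G.Adj v w → f w ≠ some c) ∧
                Function.update f v (some c) ∈ W) ∧
          (¬ Even (Finset.univ.filter (fun v => f v ≠ none)).card →
              ∀ v c, f v = none → c < k → (∀ w, G.Adj v w → f w ≠ some c) →
                Function.update f v (some c) ∈ W)) →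
      (∃ W : Set (V → Option ℕ), (fun _ => none : V → Option ℕ) ∈ W ∧
        ∀ f ∈ W,
          ((¬ ∃ v c, f v = none ∧ c < k + 1 ∧ ∀ w, G.Adj v w → f w ≠ some c) →
              ∀ v, f v ≠ none) ∧
          (Even (Finset.univ.filter (fun v => f v ≠ none)).card →
              (∃ v c, f v = none ∧ c < k + 1 ∧ ∀ w, G.Adj v w → f w ≠ some c) →
              ∃ v c, f v = none ∧ c < k + 1 ∧ (∀ w, G.Adj v w → f w ≠ some c) ∧
                Function.update f v (some c) ∈ W) ∧
          (¬ Even (Finset.univ.filter (fun v => f v ≠ none)).card →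
              ∀ v c, f v = none → c < k + 1 → (∀ w, G.Adj v w → f w ≠ some c) →
                Function.update f v (some c) ∈ W))) := by
  exact Pool.Agent.Lib_helper21.Zhu.zhu Pool.Agent.Lib_helper77.ZhuCert.G 0 4 (by norm_num)
    (by rw [Fintype.card_fin]; decide) Pool.Agent.Lib_helper77.ZhuCert.hA
    Pool.Agent.Lib_helper77.ZhuCert.hB

end Pool.Agent.S11438
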