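import Pool.Statements.S12543
import Pool.Agent.Lib_helper28.Chrom.Final
import Pool.Agent.Lib_helper79.Chrom.ExtMove

set_option autoImplicit false
open Pool Pool.MP_fabb84_co

namespace Pool.Agent.S12543

/-- Every finite connected graph in which deleting any non-empty independent set S leaves at most ∣S∣ components has a chromatic polynomial (via the edge-subset expansion) that is nonzero at every real x with 1 < x < 2. -/
theorem result :
  ∀ (V : Type) [Fintype V] [DecidableEq V] (G : SimpleGraph V) [DecidableRel G.Adj],
    G.Connected →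
    (∀ S : Set V, S.Nonempty → S.Pairwise (fun u v => ¬ G.Adj u v) →
        Nat.card (G.induce Sᶜ).ConnectedComponent ≤ S.ncard) →
    ∀ x : ℝ, 1 < x → x < 2 →
      (∑ A ∈ G.edgeFinset.powerset,
        (-1 : ℝ) ^ A.card *
          x ^ Nat.card (SimpleGraph.fromEdgeSet (A : Set (Sym2 V))).ConnectedComponent) ≠ 0 :=
  Pool.Agent.Chrom.final_of Pool.Agent.Chrom.stmtExt

end Pool.Agent.S12543
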