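import Pool.Statements.S12609
import Pool.Agent.Lib_helper70.SparseDet7

set_option autoImplicit false
open Pool Pool.MP_fd57bd_co

namespace Pool.Agent.S12609

/-- For every n, every n-by-n matrix with entries 0 or 1 having at most 3n nonzero entries has determinant at most 24 raised to the power n/7. -/
theorem result :
    ∀ n : ℕ, ∀ A : Matrix (Fin n) (Fin n) ℤ,
      (∀ i j, A i j = 0 ∨ A i j = 1) →
      (Finset.univ.filter (fun p : Fin n × Fin n => A p.1 p.2 ≠ 0)).card ≤ 3 * n →
      ((A.det : ℤ) : ℝ) ≤ (24 : ℝ) ^ ((n : ℝ) / 7) := by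
  intro n A h01 hcard
  have h1 := Pool.Agent.Lib70.SparseDet.gen_bound n A h01
  have hcount : (∑ i, ∑ j, (A i j : ℝ))
      = ((Finset.univ.filter (fun p : Fin n × Fin n => A p.1 p.2 ≠ 0)).card : ℝ) := by
    rw [Finset.card_filter]
    push_cast
    rw [← Finset.univ_product_univ, Finset.sum_product]
    apply Finset.sum_congr rfl
    intro i _
    apply Finset.sum_congr rfl
    intro j _
    rcases h01 i j with h | h <;> simp [h]
  have hle : (∑ i, ∑ j, (A i j : ℝ)) ≤ 3 * n := by
    rw [hcount]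
    exact_mod_cast hcard
  have hexp : Pool.Agent.Lib70.SparseDet.expo A ≤ Real.log 24 * ((n : ℝ) / 7) := by
    unfold Pool.Agent.Lib70.SparseDet.expo
    rw [Pool.Agent.Lib70.SparseDet.log_24]
    have hb : 0 ≤ Pool.Agent.Lib70.SparseDet.bet := by
      unfold Pool.Agent.Lib70.SparseDet.bet; norm_num
    have := mul_le_mul_of_nonneg_left hle hb
    have e : (3 * Real.log 2 + Real.log 3) * ((n : ℝ) / 7)
        = Pool.Agent.Lib70.SparseDet.c0 * n := by
      unfold Pool.Agent.Lib70.SparseDet.c0; ring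
    rw [e]
    linarith
  calc ((A.det : ℤ) : ℝ) ≤ |((A.det : ℤ) : ℝ)| := le_abs_self _
    _ ≤ Real.exp (Pool.Agent.Lib70.SparseDet.expo A) := h1
    _ ≤ Real.exp (Real.log 24 * ((n : ℝ) / 7)) := Real.exp_le_exp.mpr hexp
    _ = (24 : ℝ) ^ ((n : ℝ) / 7) := by
      rw [Real.rpow_def_of_pos (by norm_num)]

end Pool.Agent.S12609
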