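import Pool.Statements.S12721
import Pool.Agent.Lib_helper71.BH.Main

set_option autoImplicit false
open Pool Pool.MP_09b571_gt

namespace Pool.Agent.S12721

/-- For every smooth immersed hypersurface patch in the unit sphere S^{m+1} whose mean curvature H satisfies the biharmonic equations (Laplacian and tangential parts), H is constant on the connected patch. -/
theorem result :
    ∀ (m : ℕ) (U : Set (Fin m → ℝ)) (f N : (Fin m → ℝ) → EuclideanSpace ℝ (Fin (m + 2))),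
      IsOpen U → IsConnected U →
      ContDiffOn ℝ ((⊤ : ℕ∞) : WithTop ℕ∞) f U → ContDiffOn ℝ ((⊤ : ℕ∞) : WithTop ℕ∞) N U →
      (∀ x ∈ U, ‖f x‖ = 1 ∧ ‖N x‖ = 1 ∧ inner ℝ (N x) (f x) = 0 ∧
        (∀ i : Fin m, inner ℝ (N x) (fderiv ℝ f x (Pi.single i (1 : ℝ))) = 0) ∧
        LinearIndependent ℝ (fun i : Fin m => fderiv ℝ f x (Pi.single i (1 : ℝ)))) →
      ∀ (g S : (Fin m → ℝ) → Matrix (Fin m) (Fin m) ℝ) (H : (Fin m → ℝ) → ℝ),
      (∀ x, g x = Matrix.of (fun i j : Fin m =>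
          inner ℝ (fderiv ℝ f x (Pi.single i (1 : ℝ))) (fderiv ℝ f x (Pi.single j (1 : ℝ))))) →
      (∀ x, S x = (g x)⁻¹ * Matrix.of (fun i j : Fin m =>
          inner ℝ (fderiv ℝ (fun y => fderiv ℝ f y (Pi.single i (1 : ℝ))) x (Pi.single j (1 : ℝ))) (N x))) →
      (∀ x, H x = Matrix.trace (S x) / (m : ℝ)) →
      (∀ x ∈ U,
        (1 / Real.sqrt (g x).det) *
            ∑ i : Fin m, fderiv ℝ (fun y => Real.sqrt (g y).det *
              ∑ j : Fin m, (g y)⁻¹ i j * fderiv ℝ H y (Pi.single j (1 : ℝ))) x (Pi.single i (1 : ℝ))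
          + ((m : ℝ) - Matrix.trace (S x * S x)) * H x = 0) →
      (∀ x ∈ U,
        (2 : ℝ) • (S x).mulVec ((g x)⁻¹.mulVec (fun j : Fin m => fderiv ℝ H x (Pi.single j (1 : ℝ))))
          + ((m : ℝ) * H x) • (g x)⁻¹.mulVec (fun j : Fin m => fderiv ℝ H x (Pi.single j (1 : ℝ)))
          = 0) →
      ∃ c : ℝ, ∀ x ∈ U, H x = c := by
  intro m U f N hU hUc hf hN hfr g S H hg hS hH heq1 heq2
  exact BH.main_const m U f N hU hUc hf hN hfr g S H hg hS hH heq1 heq2

end Pool.Agent.S12721
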