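import Pool.Statements.S13450

/-
A counterexample to the question of Marciszewski and Pelant: complete metrizability is not
preserved by u-equivalence of metrizable spaces.

Let `B` be the Baire space `ℕ → ℕ` and let `QQ` be the countable metrizable space of all finite
sequences of naturals, in which `τ` is close to `σ` when `τ = σ` or `τ` properly extends `σ` and its
next entry after `σ` is large (it has no isolated point, so it is a copy of the rationals).
We show that `C_p(ℕ × B)` and `C_p(QQ ⊕ (ℕ × B))` are uniformly homeomorphic.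

1. `C_p(QQ)` is uniformly homeomorphic to the space `DD` of all functions on finite sequences that
   tend to zero at each node (`equivDD`). The homeomorphism is triangular: the value at a node is
   decoupled from the value `a` at its parent by a homeomorphism of the line that moves `a` to `0`
   and is the identity on all points of absolute value at least `|a| / ρ_k`, where the product
   of the `ρ_k` over all levels `k` is positive.
2. Write `EN = C_p(B)^ℕ`. A lattice polynomial (the maximum over `i` of the minimum over `j` of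
   `z {i,j}`) gives a uniformly continuous map `TT : EN → DD` which is equivariant with respect
   to a linear embedding `iota : DD → EN`, so `EN` is uniformly homeomorphic to `DD × KK`
   (`equivEN`). Here the polynomial is small as soon as all variables `z {s,j}` with a fixed `s` are,
   while each single variable has to satisfy two of the infinitely many decay conditions only.
3. The Pelczynski decomposition trick gives that `EN` is uniformly homeomorphic to `DD × EN`.
-/

set_option autoImplicit false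
open TopologicalSpace
open Pool Pool.MP_7e4554_gt

namespace Pool.Agent.S13450

/-! ## The decoupling homeomorphisms of the line -/

/-- `y ↦ y + S(a, ρ|y|)`, where `S(a,t)` is soft thresholding of `a` at level `t`. -/
noncomputable def ti (ρ a y : ℝ) : ℝ := y + max (a - ρ * |y|) 0 + min (a + ρ * |y|) 0

/-- The inverse of `ti ρ a`. -/
noncomputable def th (ρ a b : ℝ) : ℝ :=
  if |a| ≤ ρ * |b| then b
  else if 0 < a then (if a ≤ b then (b - a) / (1 - ρ) else (b - a) / (1 + ρ))
  else (if b ≤ a then (b - a) / (1 - ρ) else (b - a) / (1 + ρ))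

theorem ti_eq_self {ρ a y : ℝ} (h : |a| ≤ ρ * |y|) : ti ρ a y = y := by
  unfold ti
  have h1 := abs_le.1 h
  rw [max_eq_right (by linarith), min_eq_right (by linarith)]
  ring

theorem ti_of_pos {ρ a y : ℝ} (hρ : 0 ≤ ρ) (ha : 0 ≤ a) : ti ρ a y = y + max (a - ρ * |y|) 0 := by
  unfold ti
  have : 0 ≤ ρ * |y| := mul_nonneg hρ (abs_nonneg y)
  rw [min_eq_right (a := a + ρ * |y|) (by linarith)]
  ring

theorem ti_of_neg {ρ a y : ℝ} (hρ : 0 ≤ ρ) (ha : a ≤ 0) : ti ρ a y = y + min (a + ρ * |y|) 0 := by
  unfold ti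
  have : 0 ≤ ρ * |y| := mul_nonneg hρ (abs_nonneg y)
  rw [max_eq_right (a := a - ρ * |y|) (by linarith)]
  ring

theorem ti_abs_le {ρ a y R : ℝ} (hρ : 0 ≤ ρ) (hρ1 : ρ < 1) (ha : |a| ≤ ρ * R) (hy : |y| ≤ R) :
    |ti ρ a y| ≤ R := by
  have h1 := abs_le.1 ha
  have h2 := abs_le.1 hy
  have h3 : 0 ≤ ρ * |y| := mul_nonneg hρ (abs_nonneg y)
  rcases le_total 0 a with h | h
  · rw [ti_of_pos hρ h]
    rcases le_total (a - ρ * |y|) 0 with h4 | h4
    · rw [max_eq_right h4]; simpa using hy
    · rw [max_eq_left h4, abs_le]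
      constructor
      · nlinarith [neg_abs_le y]
      · nlinarith [le_abs_self y]
  · rw [ti_of_neg hρ h]
    rcases le_total (a + ρ * |y|) 0 with h4 | h4
    · rw [min_eq_left h4, abs_le]
      constructor
      · nlinarith [neg_abs_le y]
      · nlinarith [le_abs_self y]
    · rw [min_eq_right h4]; simpa using hy

theorem abs_le_of_ti {ρ a y R : ℝ} (hρ : 0 ≤ ρ) (ha : |a| ≤ ρ * R) (hy : |ti ρ a y| ≤ R) :
    |y| ≤ R := by
  by_contra hcon
  push Not at hcon
  have : |a| ≤ ρ * |y| := le_trans ha (mul_le_mul_of_nonneg_left hcon.le hρ)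
  rw [ti_eq_self this] at hy
  linarith

theorem ti_sub_lower {ρ a y y' : ℝ} (hρ : 0 ≤ ρ) (h : y ≤ y') :
    (1 - ρ) * (y' - y) ≤ ti ρ a y' - ti ρ a y := by
  have hab : |(|y'| - |y|)| ≤ y' - y := by
    have := abs_abs_sub_abs_le_abs_sub y' y
    rwa [abs_of_nonneg (sub_nonneg.2 h)] at this
  have hab1 := abs_le.1 hab
  rcases le_total 0 a with ha | ha
  · rw [ti_of_pos hρ ha, ti_of_pos hρ ha]
    have h5 : max (a - ρ * |y|) 0 - ρ * (y' - y) ≤ max (a - ρ * |y'|) 0 := by
      rcases le_total (a - ρ * |y|) 0 with h4 | h4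
      · rw [max_eq_right h4]
        have : 0 ≤ ρ * (y' - y) := mul_nonneg hρ (by linarith)
        have := le_max_right (a - ρ * |y'|) 0
        linarith
      · rw [max_eq_left h4]
        have := le_max_left (a - ρ * |y'|) 0
        nlinarith
    linarith
  · rw [ti_of_neg hρ ha, ti_of_neg hρ ha]
    have h5 : min (a + ρ * |y|) 0 - ρ * (y' - y) ≤ min (a + ρ * |y'|) 0 := by
      apply le_min
      · have := min_le_left (a + ρ * |y|) 0
        nlinarith
      · have := min_le_right (a + ρ * |y|) 0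
        have : 0 ≤ ρ * (y' - y) := mul_nonneg hρ (by linarith)
        linarith
    linarith

theorem ti_abs_sub_lower {ρ a y y' : ℝ} (hρ : 0 ≤ ρ) :
    (1 - ρ) * |y - y'| ≤ |ti ρ a y - ti ρ a y'| := by
  rcases le_total y y' with h | h
  · have := ti_sub_lower (a := a) hρ h
    rw [abs_sub_comm, abs_of_nonneg (sub_nonneg.2 h), abs_sub_comm]
    exact le_trans this (le_abs_self _)
  · have := ti_sub_lower (a := a) hρ h
    rw [abs_of_nonneg (sub_nonneg.2 h)]
    exact le_trans this (le_abs_self _)

theorem ti_injective {ρ a : ℝ} (hρ : 0 ≤ ρ) (hρ1 : ρ < 1) : Function.Injective (ti ρ a) := by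
  intro y y' h
  have := ti_abs_sub_lower (a := a) (y := y) (y' := y') hρ
  rw [h, sub_self, abs_zero] at this
  have h2 : |y - y'| ≤ 0 := by
    by_contra hcon
    push Not at hcon
    have : 0 < (1 - ρ) * |y - y'| := mul_pos (by linarith) hcon
    linarith
  have h3 : |y - y'| = 0 := le_antisymm h2 (abs_nonneg _)
  exact sub_eq_zero.1 (abs_eq_zero.1 h3)

theorem ti_th {ρ a b : ℝ} (hρ : 0 ≤ ρ) (hρ1 : ρ < 1) : ti ρ a (th ρ a b) = b := by
  unfold th
  split_ifs with h1 h2 h3 h4
  · exact ti_eq_self h1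
  · push Not at h1
    rw [ti_of_pos hρ h2.le]
    have h5 : 0 ≤ (b - a) / (1 - ρ) := div_nonneg (by linarith) (by linarith)
    rw [abs_of_nonneg h5, max_eq_left]
    · have : (1 - ρ) ≠ 0 := by linarith
      field_simp
      ring
    · rw [abs_of_pos h2, abs_of_nonneg (by linarith)] at h1
      rw [sub_nonneg, ← mul_div_assoc, div_le_iff₀ (by linarith)]
      nlinarith
  · push Not at h1 h3
    rw [ti_of_pos hρ h2.le]
    have h5 : (b - a) / (1 + ρ) ≤ 0 := div_nonpos_of_nonpos_of_nonneg (by linarith) (by linarith)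
    rw [abs_of_nonpos h5, max_eq_left]
    · have : (1 + ρ) ≠ 0 := by linarith
      field_simp
      ring
    · rw [abs_of_pos h2] at h1
      have h6 := neg_abs_le b
      rw [sub_nonneg, ← neg_div, ← mul_div_assoc, div_le_iff₀ (by linarith)]
      nlinarith
  · push Not at h1 h2
    rw [ti_of_neg hρ h2]
    have h5 : (b - a) / (1 - ρ) ≤ 0 := div_nonpos_of_nonpos_of_nonneg (by linarith) (by linarith)
    rw [abs_of_nonpos h5, min_eq_left]
    · have : (1 - ρ) ≠ 0 := by linarith
      field_simp
      ring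
    · rw [abs_of_nonpos h2, abs_of_nonpos (by linarith)] at h1
      rw [← neg_div, ← mul_div_assoc]
      have : ρ * -(b - a) / (1 - ρ) ≤ -a := by
        rw [div_le_iff₀ (by linarith)]
        nlinarith
      linarith
  · push Not at h1 h2 h4
    rw [ti_of_neg hρ h2]
    have h5 : 0 ≤ (b - a) / (1 + ρ) := div_nonneg (by linarith) (by linarith)
    rw [abs_of_nonneg h5, min_eq_left]
    · have : (1 + ρ) ≠ 0 := by linarith
      field_simp
      ring
    · rw [abs_of_nonpos h2] at h1
      have h6 := le_abs_self b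
      rw [← mul_div_assoc]
      have : ρ * (b - a) / (1 + ρ) ≤ -a := by
        rw [div_le_iff₀ (by linarith)]
        nlinarith
      linarith

theorem th_ti {ρ a y : ℝ} (hρ : 0 ≤ ρ) (hρ1 : ρ < 1) : th ρ a (ti ρ a y) = y :=
  ti_injective (a := a) hρ hρ1 (ti_th hρ hρ1)

theorem ti_zero {ρ a : ℝ} : ti ρ a 0 = a := by
  unfold ti
  simp

theorem th_self {ρ a : ℝ} (hρ : 0 ≤ ρ) (hρ1 : ρ < 1) : th ρ a a = 0 := by
  have := th_ti (a := a) (y := 0) hρ hρ1
  rwa [ti_zero] at this

theorem th_abs_le {ρ a b R : ℝ} (hρ : 0 ≤ ρ) (hρ1 : ρ < 1) (ha : |a| ≤ ρ * R) (hb : |b| ≤ R) :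
    |th ρ a b| ≤ R := by
  apply abs_le_of_ti hρ ha
  rwa [ti_th hρ hρ1]

theorem ti_lip {ρ a y a' y' : ℝ} (hρ : 0 ≤ ρ) (hρ1 : ρ < 1) :
    |ti ρ a y - ti ρ a' y'| ≤ 2 * |a - a'| + 3 * |y - y'| := by
  have hab := abs_abs_sub_abs_le_abs_sub y y'
  have hab2 : |ρ * (|y|) - ρ * (|y'|)| ≤ |y - y'| := by
    rw [← mul_sub, abs_mul, abs_of_nonneg hρ]
    have := abs_nonneg (|y| - |y'|)
    nlinarith
  have h1 : |max (a - ρ * |y|) 0 - max (a' - ρ * |y'|) 0| ≤ |a - a'| + |y - y'| := by
    refine le_trans (abs_max_sub_max_le_abs _ _ _) ?_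
    have : a - ρ * |y| - (a' - ρ * |y'|) = (a - a') - (ρ * |y| - ρ * |y'|) := by ring
    rw [this]
    refine le_trans (abs_sub _ _) ?_
    linarith
  have h2 : |min (a + ρ * |y|) 0 - min (a' + ρ * |y'|) 0| ≤ |a - a'| + |y - y'| := by
    refine le_trans (abs_min_sub_min_le_max _ _ _ _) ?_
    rw [sub_self, abs_zero, max_eq_left (abs_nonneg _)]
    have : a + ρ * |y| - (a' + ρ * |y'|) = (a - a') + (ρ * |y| - ρ * |y'|) := by ring
    rw [this]
    refine le_trans (abs_add_le _ _) ?_
    linarith
  unfold ti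
  have : y + max (a - ρ * |y|) 0 + min (a + ρ * |y|) 0
      - (y' + max (a' - ρ * |y'|) 0 + min (a' + ρ * |y'|) 0)
      = (y - y') + (max (a - ρ * |y|) 0 - max (a' - ρ * |y'|) 0)
        + (min (a + ρ * |y|) 0 - min (a' + ρ * |y'|) 0) := by ring
  rw [this]
  refine le_trans (abs_add_three _ _ _) ?_
  linarith

theorem th_lip {ρ a b a' b' : ℝ} (hρ : 0 ≤ ρ) (hρ1 : ρ < 1) :
    (1 - ρ) * |th ρ a b - th ρ a' b'| ≤ 2 * |a - a'| + |b - b'| := by
  refine le_trans (ti_abs_sub_lower (a := a) hρ) ?_
  rw [ti_th hρ hρ1]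
  have h1 : |b - ti ρ a (th ρ a' b')| ≤ |b - b'| + |b' - ti ρ a (th ρ a' b')| :=
    abs_sub_le _ _ _
  have h2 : |b' - ti ρ a (th ρ a' b')| ≤ 2 * |a - a'| := by
    have h3 := ti_lip (a := a') (y := th ρ a' b') (a' := a) (y' := th ρ a' b') hρ hρ1
    rw [ti_th hρ hρ1, sub_self, abs_zero, mul_zero, add_zero] at h3
    rwa [abs_sub_comm a a']
  linarith

theorem ti_uc {ρ : ℝ} (hρ : 0 ≤ ρ) (hρ1 : ρ < 1) :
    UniformContinuous (fun p : ℝ × ℝ => ti ρ p.1 p.2) := by
  have : LipschitzWith (5 : NNReal) (fun p : ℝ × ℝ => ti ρ p.1 p.2) := by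
    apply LipschitzWith.of_dist_le_mul
    intro p q
    rw [Real.dist_eq, Prod.dist_eq, Real.dist_eq, Real.dist_eq]
    have h := ti_lip (a := p.1) (y := p.2) (a' := q.1) (y' := q.2) hρ hρ1
    have h1 := le_max_left |p.1 - q.1| |p.2 - q.2|
    have h2 := le_max_right |p.1 - q.1| |p.2 - q.2|
    push_cast
    linarith
  exact this.uniformContinuous

theorem th_uc {ρ : ℝ} (hρ : 0 ≤ ρ) (hρ1 : ρ < 1) :
    UniformContinuous (fun p : ℝ × ℝ => th ρ p.1 p.2) := by
  have hpos : 0 < 1 - ρ := by linarith
  have : LipschitzWith (Real.toNNReal (3 / (1 - ρ))) (fun p : ℝ × ℝ => th ρ p.1 p.2) := by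
    apply LipschitzWith.of_dist_le_mul
    intro p q
    rw [Real.dist_eq, Prod.dist_eq, Real.dist_eq, Real.dist_eq,
      Real.coe_toNNReal _ (div_nonneg (by norm_num) hpos.le), div_mul_eq_mul_div,
      le_div_iff₀ hpos]
    have h := th_lip (a := p.1) (b := p.2) (a' := q.1) (b' := q.2) hρ hρ1
    have h1 := le_max_left |p.1 - q.1| |p.2 - q.2|
    have h2 := le_max_right |p.1 - q.1| |p.2 - q.2|
    nlinarith
  exact this.uniformContinuous


/-! ## Radii -/

/-- Increasing radii between `1` and `2`. -/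
noncomputable def rad (k : ℕ) : ℝ := 2 - 1 / ((k : ℝ) + 1)

/-- Ratios of consecutive radii. -/
noncomputable def rho (k : ℕ) : ℝ := rad k / rad (k + 1)

theorem one_le_rad (k : ℕ) : 1 ≤ rad k := by
  unfold rad
  have : 1 / ((k : ℝ) + 1) ≤ 1 := by
    rw [div_le_one (by positivity)]
    have : (0 : ℝ) ≤ k := Nat.cast_nonneg k
    linarith
  linarith

theorem rad_le_two (k : ℕ) : rad k ≤ 2 := by
  unfold rad
  have : 0 ≤ 1 / ((k : ℝ) + 1) := by positivity
  linarith

theorem rad_lt (k : ℕ) : rad k < rad (k + 1) := by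
  unfold rad
  have : 1 / (((k + 1 : ℕ) : ℝ) + 1) < 1 / ((k : ℝ) + 1) := by
    apply one_div_lt_one_div_of_lt
    · positivity
    · push_cast; linarith
  linarith

theorem rad_mono {k l : ℕ} (h : k ≤ l) : rad k ≤ rad l :=
  monotone_nat_of_le_succ (fun n => (rad_lt n).le) h

theorem rho_nonneg (k : ℕ) : 0 ≤ rho k :=
  div_nonneg (by linarith [one_le_rad k]) (by linarith [one_le_rad (k + 1)])

theorem rho_lt_one (k : ℕ) : rho k < 1 := by
  unfold rho
  rw [div_lt_one (by linarith [one_le_rad (k + 1)])]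
  exact rad_lt k

theorem rho_mul (k : ℕ) : rho k * rad (k + 1) = rad k := by
  unfold rho
  have : rad (k + 1) ≠ 0 := by linarith [one_le_rad (k + 1)]
  field_simp

/-! ## The triangular homeomorphism -/

/-- From decoupled functions to functions. -/
noncomputable def Phi : List ℕ → ℕ → (List ℕ → ℝ) → ℝ
  | [], _, δ => δ []
  | (n :: τ), k, δ => ti (rho k) (δ []) (Phi τ (k + 1) (fun s => δ (n :: s)))

/-- From functions to decoupled functions. -/
noncomputable def Psi : List ℕ → ℕ → (List ℕ → ℝ) → ℝ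
  | [], _, f => f []
  | (n :: τ), k, f => Psi τ (k + 1) (fun s => th (rho k) (f []) (f (n :: s)))

theorem Psi_Phi (τ : List ℕ) : ∀ (k : ℕ) (δ : List ℕ → ℝ), Psi τ k (fun s => Phi s k δ) = δ τ := by
  induction τ with
  | nil => intro k δ; rfl
  | cons n τ ih =>
    intro k δ
    have : (fun s => th (rho k) (Phi [] k δ) (Phi (n :: s) k δ))
        = fun s => Phi s (k + 1) (fun s => δ (n :: s)) := by
      funext s
      exact th_ti (rho_nonneg k) (rho_lt_one k)
    change Psi τ (k + 1) (fun s => th (rho k) (Phi [] k δ) (Phi (n :: s) k δ)) = _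
    rw [this, ih]

theorem Phi_Psi (τ : List ℕ) : ∀ (k : ℕ) (f : List ℕ → ℝ), Phi τ k (fun s => Psi s k f) = f τ := by
  induction τ with
  | nil => intro k f; rfl
  | cons n τ ih =>
    intro k f
    change ti (rho k) (f []) (Phi τ (k + 1)
      (fun s => Psi s (k + 1) (fun s => th (rho k) (f []) (f (n :: s))))) = _
    rw [ih]
    exact ti_th (rho_nonneg k) (rho_lt_one k)

theorem Phi_uc (τ : List ℕ) : ∀ k : ℕ, UniformContinuous (fun δ : List ℕ → ℝ => Phi τ k δ) := by
  induction τ with
  | nil => intro k; exact Pi.uniformContinuous_proj (fun _ : List ℕ => ℝ) []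
  | cons n τ ih =>
    intro k
    have h1 : UniformContinuous (fun δ : List ℕ → ℝ => fun s : List ℕ => δ (n :: s)) :=
      uniformContinuous_pi.2 (fun s => Pi.uniformContinuous_proj (fun _ : List ℕ => ℝ) (n :: s))
    have h2 := (ih (k + 1)).comp h1
    exact (ti_uc (rho_nonneg k) (rho_lt_one k)).comp
      ((Pi.uniformContinuous_proj (fun _ : List ℕ => ℝ) []).prodMk h2)

theorem Psi_uc (τ : List ℕ) : ∀ k : ℕ, UniformContinuous (fun f : List ℕ → ℝ => Psi τ k f) := by
  induction τ with
  | nil => intro k; exact Pi.uniformContinuous_proj (fun _ : List ℕ => ℝ) []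
  | cons n τ ih =>
    intro k
    have h1 : UniformContinuous
        (fun f : List ℕ → ℝ => fun s : List ℕ => th (rho k) (f []) (f (n :: s))) :=
      uniformContinuous_pi.2 (fun s => (th_uc (rho_nonneg k) (rho_lt_one k)).comp
        ((Pi.uniformContinuous_proj (fun _ : List ℕ => ℝ) []).prodMk
          (Pi.uniformContinuous_proj (fun _ : List ℕ => ℝ) (n :: s))))
    exact (ih (k + 1)).comp h1

theorem Phi_bound (M : ℝ) (hM : 0 ≤ M) (τ : List ℕ) : ∀ (k : ℕ) (δ : List ℕ → ℝ),
    (∀ s, |δ s| ≤ M * rad (k + s.length)) → |Phi τ k δ| ≤ M * rad (k + τ.length) := by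
  induction τ with
  | nil => intro k δ h; exact h []
  | cons n τ ih =>
    intro k δ h
    have h1 : |Phi τ (k + 1) (fun s => δ (n :: s))| ≤ M * rad (k + 1 + τ.length) := by
      apply ih
      intro s
      have := h (n :: s)
      rwa [List.length_cons, ← add_assoc, add_right_comm] at this
    have h2 : k + (n :: τ).length = k + 1 + τ.length := by
      rw [List.length_cons]; ring
    rw [h2]
    refine ti_abs_le (rho_nonneg k) (rho_lt_one k) ?_ h1
    refine le_trans (h []) ?_
    have h3 : rad (k + 1) ≤ rad (k + 1 + τ.length) := rad_mono (by omega)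
    have h4 : M * rad k = rho k * (M * rad (k + 1)) := by rw [← rho_mul k]; ring
    simp only [List.length_nil, add_zero]
    rw [h4]
    exact mul_le_mul_of_nonneg_left (mul_le_mul_of_nonneg_left h3 hM) (rho_nonneg k)

theorem Psi_bound (M : ℝ) (hM : 0 ≤ M) (τ : List ℕ) : ∀ (k : ℕ) (f : List ℕ → ℝ),
    (∀ s, |f s| ≤ M * rad (k + s.length)) → |Psi τ k f| ≤ M * rad (k + τ.length) := by
  induction τ with
  | nil => intro k f h; exact h []
  | cons n τ ih =>
    intro k f h
    have h2 : k + (n :: τ).length = k + 1 + τ.length := by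
      rw [List.length_cons]; ring
    rw [h2]
    apply ih
    intro s
    have h1 : |f (n :: s)| ≤ M * rad (k + 1 + s.length) := by
      have := h (n :: s)
      rwa [List.length_cons, ← add_assoc, add_right_comm] at this
    refine th_abs_le (rho_nonneg k) (rho_lt_one k) ?_ h1
    refine le_trans (h []) ?_
    have h3 : rad (k + 1) ≤ rad (k + 1 + s.length) := rad_mono (by omega)
    have h4 : M * rad k = rho k * (M * rad (k + 1)) := by rw [← rho_mul k]; ring
    simp only [List.length_nil, add_zero]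
    rw [h4]
    exact mul_le_mul_of_nonneg_left (mul_le_mul_of_nonneg_left h3 hM) (rho_nonneg k)

theorem Phi_bound' {M : ℝ} (k : ℕ) {δ : List ℕ → ℝ} (h : ∀ s, |δ s| ≤ M) (τ : List ℕ) :
    |Phi τ k δ| ≤ 2 * M := by
  have hM : 0 ≤ M := le_trans (abs_nonneg _) (h [])
  have h1 := Phi_bound M hM τ k δ (fun s => by
    refine le_trans (h s) ?_
    nlinarith [one_le_rad (k + s.length)])
  refine le_trans h1 ?_
  nlinarith [rad_le_two (k + τ.length)]

theorem Psi_bound' {M : ℝ} (k : ℕ) {f : List ℕ → ℝ} (h : ∀ s, |f s| ≤ M) (τ : List ℕ) :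
    |Psi τ k f| ≤ 2 * M := by
  have hM : 0 ≤ M := le_trans (abs_nonneg _) (h [])
  have h1 := Psi_bound M hM τ k f (fun s => by
    refine le_trans (h s) ?_
    nlinarith [one_le_rad (k + s.length)])
  refine le_trans h1 ?_
  nlinarith [rad_le_two (k + τ.length)]

/-! ## Continuity and decay at a node -/

/-- `δ` tends to `0` at the node `σ`. -/
def ZeroAt (δ : List ℕ → ℝ) (σ : List ℕ) : Prop :=
  ∀ ε > 0, ∃ N : ℕ, ∀ n ≥ N, ∀ ρ : List ℕ, |δ (σ ++ n :: ρ)| ≤ ε

/-- `f` is continuous at the node `σ`. -/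
def ContAt (f : List ℕ → ℝ) (σ : List ℕ) : Prop :=
  ∀ ε > 0, ∃ N : ℕ, ∀ n ≥ N, ∀ ρ : List ℕ, |f (σ ++ n :: ρ) - f σ| ≤ ε

theorem contAt_comp {f : List ℕ → ℝ} {σ : List ℕ} {θ : ℝ → ℝ} (hθ : UniformContinuous θ)
    (h : ContAt f σ) : ContAt (fun s => θ (f s)) σ := by
  intro ε hε
  obtain ⟨d, hd, hd2⟩ := Metric.uniformContinuous_iff.1 hθ ε hε
  obtain ⟨N, hN⟩ := h (d / 2) (by linarith)
  refine ⟨N, fun n hn ρ => ?_⟩
  have := hd2 (a := f (σ ++ n :: ρ)) (b := f σ) (by
    rw [Real.dist_eq]; linarith [hN n hn ρ])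
  rw [Real.dist_eq] at this
  exact this.le

theorem Psi_zeroAt_iff (σ : List ℕ) : ∀ (k : ℕ) (f : List ℕ → ℝ),
    ContAt f σ ↔ ZeroAt (fun s => Psi s k f) σ := by
  induction σ with
  | nil =>
    intro k f
    constructor
    · intro h ε hε
      have hθ : UniformContinuous (fun b => th (rho k) (f []) b) :=
        (th_uc (rho_nonneg k) (rho_lt_one k)).comp
          ((uniformContinuous_const (b := f [])).prodMk uniformContinuous_id)
      obtain ⟨N, hN⟩ := contAt_comp hθ h (ε / 2) (by linarith)
      refine ⟨N, fun n hn ρ => ?_⟩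
      have h1 : ∀ s, |th (rho k) (f []) (f (n :: s))| ≤ ε / 2 := by
        intro s
        have := hN n hn s
        simp only [List.nil_append] at this
        rwa [th_self (rho_nonneg k) (rho_lt_one k), sub_zero] at this
      have h2 := Psi_bound' (k + 1) h1 ρ
      change |Psi ρ (k + 1) (fun s => th (rho k) (f []) (f (n :: s)))| ≤ ε
      linarith
    · intro h
      have hθ : UniformContinuous (fun b => ti (rho k) (f []) b) :=
        (ti_uc (rho_nonneg k) (rho_lt_one k)).comp
          ((uniformContinuous_const (b := f [])).prodMk uniformContinuous_id)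
      intro ε hε
      obtain ⟨d, hd, hd2⟩ := Metric.uniformContinuous_iff.1 hθ ε hε
      obtain ⟨N, hN⟩ := h (d / 3) (by linarith)
      refine ⟨N, fun n hn ρ => ?_⟩
      have h1 : ∀ s, |Psi s (k + 1) (fun s => th (rho k) (f []) (f (n :: s)))| ≤ d / 3 := by
        intro s
        exact hN n hn s
      have h2 := Phi_bound' (k + 1) h1 ρ
      rw [Phi_Psi] at h2
      have h3 := hd2 (a := th (rho k) (f []) (f (n :: ρ))) (b := 0) (by
        rw [Real.dist_eq, sub_zero]; linarith)
      rw [Real.dist_eq, ti_th (rho_nonneg k) (rho_lt_one k), ti_zero] at h3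
      exact h3.le
  | cons m σ ih =>
    intro k f
    have hθ : UniformContinuous (fun b => th (rho k) (f []) b) :=
      (th_uc (rho_nonneg k) (rho_lt_one k)).comp
        ((uniformContinuous_const (b := f [])).prodMk uniformContinuous_id)
    have hθ' : UniformContinuous (fun b => ti (rho k) (f []) b) :=
      (ti_uc (rho_nonneg k) (rho_lt_one k)).comp
        ((uniformContinuous_const (b := f [])).prodMk uniformContinuous_id)
    have h1 : ContAt f (m :: σ) ↔ ContAt (fun s => f (m :: s)) σ := Iff.rfl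
    have h2 : ContAt (fun s => f (m :: s)) σ ↔
        ContAt (fun s => th (rho k) (f []) (f (m :: s))) σ := by
      constructor
      · intro h
        exact contAt_comp hθ h
      · intro h
        have := contAt_comp hθ' h
        simp only [ti_th (rho_nonneg k) (rho_lt_one k)] at this
        exact this
    rw [h1, h2, ih (k + 1)]
    exact Iff.rfl

/-! ## The rational space -/

/-- Finite sequences of naturals; topologised below as a copy of the rationals. -/
structure QQ : Type where
  /-- The underlying list. -/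
  l : List ℕ

/-- Embedding into a countable power of the two point space. -/
def QQemb (σ : QQ) : List ℕ → Bool := fun ρ => decide (ρ <+: σ.l)

instance : TopologicalSpace QQ := TopologicalSpace.induced QQemb inferInstance

theorem QQemb_injective : Function.Injective QQemb := by
  intro σ τ h
  have h1 : QQemb σ σ.l = true := decide_eq_true (List.prefix_refl _)
  have h2 : QQemb τ τ.l = true := decide_eq_true (List.prefix_refl _)
  rw [h] at h1
  rw [← h] at h2
  have h3 : σ.l <+: τ.l := of_decide_eq_true h1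
  have h4 : τ.l <+: σ.l := of_decide_eq_true h2
  have h5 : σ.l = τ.l := h3.eq_of_length_le h4.length_le
  cases σ; cases τ
  simpa using h5

theorem QQemb_isEmbedding : Topology.IsEmbedding QQemb :=
  ⟨⟨rfl⟩, QQemb_injective⟩

instance : MetrizableSpace QQ := QQemb_isEmbedding.metrizableSpace

theorem prefix_append_cons_iff {σ p ρ : List ℕ} {n : ℕ} (h : p.getD σ.length 0 < n) :
    p <+: (σ ++ n :: ρ) ↔ p <+: σ := by
  constructor
  · intro hp
    rcases le_or_gt p.length σ.length with hl | hl
    · exact List.prefix_of_prefix_length_le hp (List.prefix_append _ _) hl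
    · exfalso
      obtain ⟨t, ht⟩ := hp
      have h1 : (p ++ t).getD σ.length 0 = p.getD σ.length 0 := by
        rw [List.getD_append _ _ _ _ hl]
      rw [ht] at h1
      rw [List.getD_append_right _ _ _ _ le_rfl] at h1
      rw [← h1] at h
      simp at h
  · intro hp
    exact hp.trans (List.prefix_append _ _)

theorem exists_mem_nhds_QQ {σ : List ℕ} {U : Set QQ} (hU : IsOpen U) (h : (⟨σ⟩ : QQ) ∈ U) :
    ∃ N : ℕ, ∀ n ≥ N, ∀ ρ : List ℕ, (⟨σ ++ n :: ρ⟩ : QQ) ∈ U := by
  obtain ⟨V, hV, hV2⟩ := isOpen_induced_iff.1 hU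
  have h2 : QQemb ⟨σ⟩ ∈ V := by
    have : (⟨σ⟩ : QQ) ∈ QQemb ⁻¹' V := by
      rw [hV2]
      exact h
    exact this
  obtain ⟨I, u, hI, hI2⟩ := isOpen_pi_iff.1 hV _ h2
  refine ⟨I.sup (fun p => p.getD σ.length 0) + 1, fun n hn ρ => ?_⟩
  have h3 : QQemb ⟨σ ++ n :: ρ⟩ ∈ V := by
    apply hI2
    intro p hp
    have h4 : p.getD σ.length 0 < n := by
      have := Finset.le_sup (f := fun p : List ℕ => p.getD σ.length 0) hp
      exact lt_of_le_of_lt this hn
    have h5 : QQemb ⟨σ ++ n :: ρ⟩ p = QQemb ⟨σ⟩ p := by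
      unfold QQemb
      exact decide_eq_decide.2 (prefix_append_cons_iff h4)
    rw [h5]
    exact (hI p hp).2
  rw [← hV2]
  exact h3

theorem continuous_QQ_iff (f : QQ → ℝ) :
    Continuous f ↔ ∀ σ : List ℕ, ContAt (fun s => f ⟨s⟩) σ := by
  constructor
  · intro hf σ ε hε
    have h1 : IsOpen (f ⁻¹' (Metric.ball (f ⟨σ⟩) ε)) := Metric.isOpen_ball.preimage hf
    obtain ⟨N, hN⟩ := exists_mem_nhds_QQ (σ := σ) h1 (Metric.mem_ball_self hε)
    refine ⟨N, fun n hn ρ => ?_⟩
    have h7 : dist (f ⟨σ ++ n :: ρ⟩) (f ⟨σ⟩) < ε := hN n hn ρ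
    rw [Real.dist_eq] at h7
    exact h7.le
  · intro h
    rw [continuous_iff_continuousAt]
    rintro ⟨σ⟩
    rw [Metric.continuousAt_iff']
    intro ε hε
    obtain ⟨N, hN⟩ := h σ (ε / 2) (by linarith)
    have h1 : {τ : QQ | (QQemb τ σ = true) ∧ ∀ n < N, QQemb τ (σ ++ [n]) = false}
        ∈ nhds (⟨σ⟩ : QQ) := by
      apply IsOpen.mem_nhds
      · have h2 : {τ : QQ | (QQemb τ σ = true) ∧ ∀ n < N, QQemb τ (σ ++ [n]) = false}
            = {τ : QQ | QQemb τ σ = true} ∩
              ⋂ n ∈ Finset.range N, {τ : QQ | QQemb τ (σ ++ [n]) = false} := by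
          ext τ
          simp
        rw [h2]
        apply IsOpen.inter
        · exact (isOpen_discrete {true}).preimage
            ((continuous_apply (σ : List ℕ)).comp QQemb_isEmbedding.continuous)
        · apply isOpen_biInter_finset
          intro n _
          exact (isOpen_discrete {false}).preimage
            ((continuous_apply (σ ++ [n])).comp QQemb_isEmbedding.continuous)
      · constructor
        · exact decide_eq_true (List.prefix_refl _)
        · intro n _
          apply decide_eq_false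
          intro hp
          have := hp.length_le
          simp at this
    filter_upwards [h1] with τ hτ
    obtain ⟨τ⟩ := τ
    obtain ⟨h2, h3⟩ := hτ
    have h2' : σ <+: τ := of_decide_eq_true h2
    obtain ⟨t, ht⟩ := h2'
    rw [Real.dist_eq]
    cases t with
    | nil =>
      rw [List.append_nil] at ht
      rw [← ht, sub_self, abs_zero]
      exact hε
    | cons n ρ =>
      have hn : N ≤ n := by
        by_contra hcon
        push Not at hcon
        have h4 := h3 n hcon
        have h5 : ¬ ((σ ++ [n]) <+: τ) := of_decide_eq_false h4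
        apply h5
        refine ⟨ρ, ?_⟩
        rw [← ht]
        simp
      have := hN n hn ρ
      rw [ht] at this
      linarith

/-! ## `QQ` is not completely metrizable -/

theorem QQ_not_complete : ¬ IsCompletelyMetrizableSpace QQ := by
  intro h
  have hc : Countable QQ := by
    have : Function.Injective QQ.l := by
      intro a b hab
      cases a; cases b
      simpa using hab
    exact this.countable
  have hne : Nonempty QQ := ⟨⟨[]⟩⟩
  have h1 : ∀ τ : QQ, IsOpen ({τ}ᶜ : Set QQ) := fun τ => isOpen_compl_singleton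
  have h2 : ∀ τ : QQ, Dense ({τ}ᶜ : Set QQ) := by
    intro τ
    rw [dense_compl_singleton_iff_not_open]
    intro hopen
    obtain ⟨σ⟩ := τ
    obtain ⟨N, hN⟩ := exists_mem_nhds_QQ (σ := σ) hopen rfl
    have h6 : (⟨σ ++ N :: []⟩ : QQ) ∈ ({⟨σ⟩} : Set QQ) := hN N le_rfl []
    have h7 : (⟨σ ++ N :: []⟩ : QQ) = ⟨σ⟩ := h6
    have h8 := congrArg (fun s : QQ => s.l.length) h7
    simp at h8
  have h3 : Dense (⋂ τ : QQ, ({τ}ᶜ : Set QQ)) := dense_iInter_of_isOpen h1 h2
  obtain ⟨x, hx⟩ := h3.nonempty
  have := Set.mem_iInter.1 hx x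
  exact this rfl

/-! ## The space of decaying functions -/

/-- Functions on finite sequences that tend to `0` at each node. -/
abbrev DD : Type := {δ : List ℕ → ℝ // ∀ σ, ZeroAt δ σ}

/-- `C_p(QQ)` is uniformly homeomorphic to the space of decaying functions. -/
noncomputable def equivDD : UniformEquiv DD {f : QQ → ℝ // Continuous f} where
  toFun δ := ⟨fun s => Phi s.l 0 δ.1, by
    rw [continuous_QQ_iff]
    intro σ
    rw [Psi_zeroAt_iff σ 0]
    simp only [Psi_Phi]
    exact δ.2 σ⟩
  invFun f := ⟨fun s => Psi s 0 (fun t => f.1 ⟨t⟩), fun σ => by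
    rw [← Psi_zeroAt_iff σ 0]
    exact (continuous_QQ_iff f.1).1 f.2 σ⟩
  left_inv δ := by
    apply Subtype.ext
    funext s
    exact Psi_Phi s 0 δ.1
  right_inv f := by
    apply Subtype.ext
    funext s
    exact Phi_Psi s.l 0 (fun t => f.1 ⟨t⟩)
  uniformContinuous_toFun := by
    apply UniformContinuous.subtype_mk
    rw [uniformContinuous_pi]
    intro s
    exact (Phi_uc s.l 0).comp uniformContinuous_subtype_val
  uniformContinuous_invFun := by
    apply UniformContinuous.subtype_mk
    rw [uniformContinuous_pi]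
    intro s
    have h1 : UniformContinuous
        (fun f : {f : QQ → ℝ // Continuous f} => fun t : List ℕ => f.1 (⟨t⟩ : QQ)) := by
      rw [uniformContinuous_pi]
      intro t
      exact (Pi.uniformContinuous_proj (fun _ : QQ => ℝ) (⟨t⟩ : QQ)).comp
        uniformContinuous_subtype_val
    exact (Psi_uc s 0).comp h1

/-! ## The lattice polynomial -/

theorem range_succ_ne (k : ℕ) : (Finset.range (k + 1)).Nonempty := ⟨0, by simp⟩

/-- The maximum over `i ≤ k` of the minimum over `j ≤ k` of `z {i,j}`. -/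
noncomputable def mm (k : ℕ) (z : ℕ → ℕ → ℝ) : ℝ :=
  (Finset.range (k + 1)).sup' (range_succ_ne k) (fun i =>
    (Finset.range (k + 1)).inf' (range_succ_ne k) (fun j => z (min i j) (max i j)))

theorem mm_le {k : ℕ} {z : ℕ → ℕ → ℝ} {b : ℝ} (h : ∀ i ≤ k, ∃ j ≤ k, z (min i j) (max i j) ≤ b) :
    mm k z ≤ b := by
  apply Finset.sup'_le
  intro i hi
  obtain ⟨j, hj, hj2⟩ := h i (by simpa [Nat.lt_succ_iff] using hi)
  exact le_trans (Finset.inf'_le _ (by simpa [Nat.lt_succ_iff] using hj)) hj2

theorem le_mm {k : ℕ} {z : ℕ → ℕ → ℝ} {b : ℝ} (h : ∃ i ≤ k, ∀ j ≤ k, b ≤ z (min i j) (max i j)) :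
    b ≤ mm k z := by
  obtain ⟨i, hi, hi2⟩ := h
  have h1 : b ≤ (Finset.range (k + 1)).inf' (range_succ_ne k)
      (fun j => z (min i j) (max i j)) := by
    apply Finset.le_inf'
    intro j hj
    exact hi2 j (by simpa [Nat.lt_succ_iff] using hj)
  refine le_trans h1 ?_
  exact Finset.le_sup' (fun i => (Finset.range (k + 1)).inf' (range_succ_ne k)
    (fun j => z (min i j) (max i j))) (by simpa [Nat.lt_succ_iff] using hi)

theorem mm_abs_le {k s : ℕ} {z : ℕ → ℕ → ℝ} {ε : ℝ} (hs : s ≤ k)
    (h : ∀ j ≤ k, |z (min s j) (max s j)| ≤ ε) : |mm k z| ≤ ε := by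
  rw [abs_le]
  constructor
  · apply le_mm
    refine ⟨s, hs, fun j hj => ?_⟩
    exact (abs_le.1 (h j hj)).1
  · apply mm_le
    intro i hi
    refine ⟨s, hs, ?_⟩
    rw [min_comm, max_comm]
    exact (abs_le.1 (h i hi)).2

theorem mm_mono {k : ℕ} {z z' : ℕ → ℕ → ℝ} {t : ℝ}
    (h : ∀ i j, i ≤ j → j ≤ k → z i j ≤ z' i j + t) : mm k z ≤ mm k z' + t := by
  apply Finset.sup'_le
  intro i hi
  rw [← sub_le_iff_le_add]
  apply le_mm
  refine ⟨i, by simpa [Nat.lt_succ_iff] using hi, fun j hj => ?_⟩
  rw [sub_le_iff_le_add]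
  refine le_trans (Finset.inf'_le _ (by simpa [Nat.lt_succ_iff] using hj)) ?_
  apply h
  · exact le_trans (min_le_left i j) (le_max_left i j)
  · exact max_le (by simpa [Nat.lt_succ_iff] using hi) hj

theorem mm_add {k : ℕ} {z z' : ℕ → ℕ → ℝ} {t : ℝ}
    (h : ∀ i j, i ≤ j → j ≤ k → z i j = z' i j + t) : mm k z = mm k z' + t := by
  apply le_antisymm
  · exact mm_mono (fun i j h1 h2 => (h i j h1 h2).le)
  · have := mm_mono (z := z') (z' := z) (t := -t) (k := k) (fun i j h1 h2 => by
      rw [h i j h1 h2]; linarith)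
    linarith

theorem mm_sub {k : ℕ} {z z' : ℕ → ℕ → ℝ} {t : ℝ}
    (h : ∀ i ≤ k, ∀ j ≤ k, |z i j - z' i j| ≤ t) : |mm k z - mm k z'| ≤ t := by
  rw [abs_le]
  constructor
  · have := mm_mono (z := z') (z' := z) (t := t) (k := k) (fun i j h1 h2 => by
      have := (abs_le.1 (h i (h1.trans h2) j h2)).1; linarith)
    linarith
  · have := mm_mono (z := z) (z' := z') (t := t) (k := k) (fun i j h1 h2 => by
      have := (abs_le.1 (h i (h1.trans h2) j h2)).2; linarith)
    linarith

theorem uc_real_iff {E : Type} [UniformSpace E] (f : E → ℝ) :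
    UniformContinuous f ↔ ∀ ε > 0, ∀ᶠ p in uniformity E, |f p.1 - f p.2| < ε :=
  Metric.uniformity_basis_dist.tendsto_right_iff

theorem mm_uc {E : Type} [UniformSpace E] (k : ℕ) (z : E → ℕ → ℕ → ℝ)
    (h : ∀ i j, UniformContinuous (fun x => z x i j)) :
    UniformContinuous (fun x => mm k (z x)) := by
  rw [uc_real_iff]
  intro ε hε
  have h1 : ∀ᶠ p : E × E in uniformity E, ∀ i ∈ Finset.range (k + 1),
      ∀ j ∈ Finset.range (k + 1), |z p.1 i j - z p.2 i j| < ε / 2 := by
    rw [Filter.eventually_all_finset]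
    intro i _
    rw [Filter.eventually_all_finset]
    intro j _
    exact (uc_real_iff _).1 (h i j) (ε / 2) (by linarith)
  filter_upwards [h1] with p hp
  have := mm_sub (k := k) (z := z p.1) (z' := z p.2) (t := ε / 2) (fun i hi j hj =>
    (hp i (by simpa [Nat.lt_succ_iff] using hi) j (by simpa [Nat.lt_succ_iff] using hj)).le)
  linarith

/-! ## Points of the Baire space -/

/-- The sequence with the single nonzero entry `c + 1` at place `n`. -/
def pt1 (n c : ℕ) : ℕ → ℕ := fun l => if l = n then c + 1 else 0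

/-- The sequence with the two nonzero entries `c + 1` at `n` and `d + 1` at `n + 1 + m`. -/
def pt2 (n c m d : ℕ) : ℕ → ℕ := fun l => if l = n then c + 1 else if l = n + 1 + m then d + 1 else 0

/-- `x` starts with `n` zeros, `c + 1`, `m` zeros, `d + 1`. -/
def Cyl (n c m d : ℕ) (x : ℕ → ℕ) : Prop :=
  (∀ l < n, x l = 0) ∧ x n = c + 1 ∧ (∀ l, n < l → l < n + 1 + m → x l = 0) ∧ x (n + 1 + m) = d + 1

theorem Cyl_unique {n c m d n' c' m' d' : ℕ} {x : ℕ → ℕ} (h : Cyl n c m d x)
    (h' : Cyl n' c' m' d' x) : n = n' ∧ c = c' ∧ m = m' ∧ d = d' := by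
  obtain ⟨h1, h2, h3, h4⟩ := h
  obtain ⟨h1', h2', h3', h4'⟩ := h'
  have hn : n = n' := by
    rcases lt_trichotomy n n' with hlt | heq | hgt
    · have := h1' n hlt; omega
    · exact heq
    · have := h1 n' hgt; omega
  subst hn
  have hm : m = m' := by
    rcases lt_trichotomy m m' with hlt | heq | hgt
    · have := h3' (n + 1 + m) (by omega) (by omega); omega
    · exact heq
    · have := h3 (n + 1 + m') (by omega) (by omega); omega
  subst hm
  exact ⟨rfl, by omega, rfl, by omega⟩

theorem Cyl_pt2 (n c m d : ℕ) : Cyl n c m d (pt2 n c m d) := by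
  refine ⟨fun l hl => ?_, ?_, fun l hl hl2 => ?_, ?_⟩
  · simp only [pt2]
    rw [if_neg (by omega), if_neg (by omega)]
  · simp [pt2]
  · simp only [pt2]
    rw [if_neg (by omega), if_neg (by omega)]
  · have h1 : n + 1 + m ≠ n := by omega
    simp [pt2, h1]

theorem not_Cyl_pt1 (n c : ℕ) {n' c' m' d' : ℕ} : ¬ Cyl n' c' m' d' (pt1 n c) := by
  rintro ⟨h1, h2, h3, h4⟩
  have hn : n' = n := by
    by_contra hne
    simp only [pt1, if_neg hne] at h2
    omega
  have hm : n' + 1 + m' = n := by
    by_contra hne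
    simp only [pt1, if_neg hne] at h4
    omega
  omega

/-- The sequence `x` codes the node `τ`, in the block with index `a`. -/
def Good (a : ℕ) (x : ℕ → ℕ) (τ : List ℕ) : Prop :=
  ∃ i j, i ≤ j ∧ j ≤ τ.length ∧ a = Encodable.encode (τ.take i) ∧
    Cyl (τ.getD i 0) (Encodable.encode (τ.take j)) (τ.getD j 0) (Encodable.encode τ) x

theorem Good_unique {a : ℕ} {x : ℕ → ℕ} {τ τ' : List ℕ} (h : Good a x τ) (h' : Good a x τ') :
    τ = τ' := by
  obtain ⟨i, j, _, _, _, h1⟩ := h
  obtain ⟨i', j', _, _, _, h2⟩ := h'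
  exact Encodable.encode_injective (Cyl_unique h1 h2).2.2.2

open Classical in
/-- The extension operator. -/
noncomputable def iota (δ : List ℕ → ℝ) (a : ℕ) (x : ℕ → ℕ) : ℝ :=
  if h : ∃ τ, Good a x τ then δ h.choose else 0

theorem iota_eq {δ : List ℕ → ℝ} {a : ℕ} {x : ℕ → ℕ} {τ : List ℕ} (h : Good a x τ) :
    iota δ a x = δ τ := by
  have h1 : ∃ τ, Good a x τ := ⟨τ, h⟩
  unfold iota
  rw [dif_pos h1, Good_unique h1.choose_spec h]

theorem iota_zero {δ : List ℕ → ℝ} {a : ℕ} {x : ℕ → ℕ} (h : ¬ ∃ τ, Good a x τ) :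
    iota δ a x = 0 := by
  unfold iota
  rw [dif_neg h]

theorem iota_congr {δ : List ℕ → ℝ} {a : ℕ} {x y : ℕ → ℕ} (h : ∀ τ, Good a x τ ↔ Good a y τ) :
    iota δ a x = iota δ a y := by
  by_cases h1 : ∃ τ, Good a x τ
  · obtain ⟨τ, hτ⟩ := h1
    rw [iota_eq hτ, iota_eq ((h τ).1 hτ)]
  · rw [iota_zero h1, iota_zero]
    rintro ⟨τ, hτ⟩
    exact h1 ⟨τ, (h τ).2 hτ⟩

theorem getD_split {τ : List ℕ} {i n : ℕ} (h : τ.getD i 0 = n) (hn : 0 < n) :
    ∃ ρ, τ = τ.take i ++ n :: ρ := by
  have hi : i < τ.length := by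
    by_contra hcon
    push Not at hcon
    rw [List.getD_eq_default _ _ hcon] at h
    omega
  refine ⟨τ.drop (i + 1), ?_⟩
  have h1 : τ.getD i 0 = τ[i] := List.getD_eq_getElem _ _ hi
  rw [← h, h1, ← List.drop_eq_getElem_cons hi, List.take_append_drop]

theorem nhds_cyl (x : ℕ → ℕ) (N : ℕ) : {y : ℕ → ℕ | ∀ l < N, y l = x l} ∈ nhds x := by
  apply IsOpen.mem_nhds
  · have : {y : ℕ → ℕ | ∀ l < N, y l = x l}
        = ⋂ l ∈ Finset.range N, {y : ℕ → ℕ | y l = x l} := by
      ext y; simp
    rw [this]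
    apply isOpen_biInter_finset
    intro l _
    exact (isOpen_discrete ({x l} : Set ℕ)).preimage
      (continuous_apply (A := fun _ : ℕ => ℕ) l)
  · intro l _
    rfl

theorem continuous_of_cyl {g : (ℕ → ℕ) → ℝ}
    (h : ∀ x, ∀ ε > 0, ∃ N : ℕ, ∀ y : ℕ → ℕ, (∀ l < N, y l = x l) → |g y - g x| ≤ ε) :
    Continuous g := by
  rw [continuous_iff_continuousAt]
  intro x
  rw [Metric.continuousAt_iff']
  intro ε hε
  obtain ⟨N, hN⟩ := h x (ε / 2) (by linarith)
  filter_upwards [nhds_cyl x N] with y hy
  rw [Real.dist_eq]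
  linarith [hN y hy]

theorem cyl_of_continuous {g : (ℕ → ℕ) → ℝ} (hg : Continuous g) (x : ℕ → ℕ) {ε : ℝ} (hε : 0 < ε) :
    ∃ N : ℕ, ∀ y : ℕ → ℕ, (∀ l < N, y l = x l) → |g y - g x| ≤ ε := by
  have h1 : IsOpen (g ⁻¹' (Metric.ball (g x) ε)) := Metric.isOpen_ball.preimage hg
  obtain ⟨I, u, hI, hI2⟩ := isOpen_pi_iff.1 h1 x (Metric.mem_ball_self hε)
  refine ⟨I.sup id + 1, fun y hy => ?_⟩
  have h2 : y ∈ g ⁻¹' (Metric.ball (g x) ε) := by
    apply hI2
    intro l hl
    have h3 : l < I.sup id + 1 := Nat.lt_succ_of_le (Finset.le_sup (f := id) hl)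
    rw [hy l h3]
    exact (hI l hl).2
  have h3 : dist (g y) (g x) < ε := h2
  rw [Real.dist_eq] at h3
  exact h3.le

theorem iota_continuous {δ : List ℕ → ℝ} (hδ : ∀ σ, ZeroAt δ σ) (a : ℕ) :
    Continuous (iota δ a) := by
  apply continuous_of_cyl
  intro x ε hε
  by_cases hx : ∃ n c m d, Cyl n c m d x
  · obtain ⟨n, c, m, d, hC⟩ := hx
    refine ⟨n + 1 + m + 1, fun y hy => ?_⟩
    have hCy : Cyl n c m d y := by
      obtain ⟨h1, h2, h3, h4⟩ := hC
      refine ⟨fun l hl => ?_, ?_, fun l hl hl2 => ?_, ?_⟩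
      · rw [hy l (by omega)]; exact h1 l hl
      · rw [hy n (by omega)]; exact h2
      · rw [hy l (by omega)]; exact h3 l hl hl2
      · rw [hy _ (by omega)]; exact h4
    have : iota δ a y = iota δ a x := by
      apply iota_congr
      intro τ
      constructor
      · rintro ⟨i, j, hij, hj, ha, h⟩
        obtain ⟨e1, e2, e3, e4⟩ := Cyl_unique h hCy
        exact ⟨i, j, hij, hj, ha, by rw [e1, e2, e3, e4]; exact hC⟩
      · rintro ⟨i, j, hij, hj, ha, h⟩
        obtain ⟨e1, e2, e3, e4⟩ := Cyl_unique h hC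
        exact ⟨i, j, hij, hj, ha, by rw [e1, e2, e3, e4]; exact hCy⟩
    rw [this, sub_self, abs_zero]
    exact hε.le
  · have hx0 : iota δ a x = 0 := by
      apply iota_zero
      rintro ⟨τ, i, j, _, _, _, h⟩
      exact hx ⟨_, _, _, _, h⟩
    rw [hx0]
    simp only [sub_zero]
    by_cases hz : ∀ l, x l = 0
    · obtain ⟨N, hN⟩ := hδ (Denumerable.ofNat (List ℕ) a) ε hε
      refine ⟨N + 1, fun y hy => ?_⟩
      by_cases hG : ∃ τ, Good a y τ
      · obtain ⟨τ, hτ⟩ := hG
        rw [iota_eq hτ]
        obtain ⟨i, j, hij, hj, ha, h1, h2, h3, h4⟩ := hτ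
        have h5 : N + 1 ≤ τ.getD i 0 := by
          by_contra hcon
          push Not at hcon
          rw [hy _ hcon, hz] at h2
          omega
        obtain ⟨ρ, hρ⟩ := getD_split (τ := τ) (i := i) rfl (by omega)
        have h6 : τ.take i = Denumerable.ofNat (List ℕ) a := by
          rw [ha, Denumerable.ofNat_encode]
        have h7 := hN (τ.getD i 0) (by omega) ρ
        rw [← h6, ← hρ] at h7
        exact h7
      · rw [iota_zero hG, abs_zero]
        exact hε.le
    · push Not at hz
      classical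
      set p := Nat.find hz with hp
      have hp1 : x p ≠ 0 := Nat.find_spec hz
      have hp2 : ∀ l < p, x l = 0 := by
        intro l hl
        by_contra hne
        exact Nat.find_min hz hl hne
      have hp3 : ∀ l, p < l → x l = 0 := by
        by_contra hcon
        push Not at hcon
        set q := Nat.find hcon with hq
        have hq1 : p < q ∧ x q ≠ 0 := Nat.find_spec hcon
        have hq2 : ∀ l < q, p < l → x l = 0 := by
          intro l hl hl2
          by_contra hne
          exact Nat.find_min hcon hl ⟨hl2, hne⟩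
        apply hx
        refine ⟨p, x p - 1, q - p - 1, x q - 1, hp2, by omega, fun l hl hl2 => ?_, ?_⟩
        · exact hq2 l (by omega) hl
        · have : p + 1 + (q - p - 1) = q := by omega
          rw [this]
          omega
      obtain ⟨N, hN⟩ := hδ (Denumerable.ofNat (List ℕ) (x p - 1)) ε hε
      refine ⟨p + 2 + N, fun y hy => ?_⟩
      by_cases hG : ∃ τ, Good a y τ
      · obtain ⟨τ, hτ⟩ := hG
        rw [iota_eq hτ]
        obtain ⟨i, j, hij, hj, ha, h1, h2, h3, h4⟩ := hτ
        have h5 : τ.getD i 0 = p := by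
          rcases lt_trichotomy (τ.getD i 0) p with hlt | heq | hgt
          · rw [hy _ (by omega), hp2 _ hlt] at h2
            omega
          · exact heq
          · have := h1 p hgt
            rw [hy _ (by omega)] at this
            exact absurd this hp1
        rw [h5] at h2 h4
        rw [hy _ (by omega)] at h2
        have h6 : p + 2 + N ≤ p + 1 + τ.getD j 0 := by
          by_contra hcon
          push Not at hcon
          rw [hy _ hcon, hp3 _ (by omega)] at h4
          omega
        obtain ⟨ρ, hρ⟩ := getD_split (τ := τ) (i := j) rfl (by omega)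
        have h7 : τ.take j = Denumerable.ofNat (List ℕ) (x p - 1) := by
          have : x p - 1 = Encodable.encode (τ.take j) := by omega
          rw [this, Denumerable.ofNat_encode]
        have h8 := hN (τ.getD j 0) (by omega) ρ
        rw [← h7, ← hρ] at h8
        exact h8
      · rw [iota_zero hG, abs_zero]
        exact hε.le

/-- Sequences of continuous functions on the Baire space. -/
abbrev EN : Type := {F : ℕ → (ℕ → ℕ) → ℝ // ∀ a, Continuous (F a)}

/-- The variables of the lattice polynomial. -/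
noncomputable def zz (F : ℕ → (ℕ → ℕ) → ℝ) (τ : List ℕ) (i j : ℕ) : ℝ :=
  F (Encodable.encode (τ.take i))
      (pt2 (τ.getD i 0) (Encodable.encode (τ.take j)) (τ.getD j 0) (Encodable.encode τ))
    - F (Encodable.encode (τ.take i)) (pt1 (τ.getD i 0) (Encodable.encode (τ.take j)))

/-- The projection. -/
noncomputable def TT (F : ℕ → (ℕ → ℕ) → ℝ) (τ : List ℕ) : ℝ := mm τ.length (zz F τ)

theorem take_append_of_lt {σ ρ : List ℕ} {i : ℕ} (h : i ≤ σ.length) :
    (σ ++ ρ).take i = σ.take i := by
  rw [List.take_append_of_le_length h]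

theorem TT_zeroAt (F : EN) (σ : List ℕ) : ZeroAt (TT F.1) σ := by
  intro ε hε
  obtain ⟨N1, hN1⟩ := cyl_of_continuous (F.2 (Encodable.encode σ)) (fun _ => 0)
    (ε := ε / 2) (by linarith)
  have hex : ∀ i : ℕ, ∃ N : ℕ, ∀ y : ℕ → ℕ,
      (∀ l < N, y l = pt1 (σ.getD i 0) (Encodable.encode σ) l) →
      |F.1 (Encodable.encode (σ.take i)) y
        - F.1 (Encodable.encode (σ.take i)) (pt1 (σ.getD i 0) (Encodable.encode σ))| ≤ ε :=
    fun i => cyl_of_continuous (F.2 (Encodable.encode (σ.take i))) _ hε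
  choose Nf hNf using hex
  refine ⟨max N1 ((Finset.range σ.length).sup Nf), fun n hn ρ => ?_⟩
  have hn1 : N1 ≤ n := le_trans (le_max_left _ _) hn
  have hn2 : ∀ i < σ.length, Nf i ≤ n := fun i hi =>
    le_trans (Finset.le_sup (f := Nf) (Finset.mem_range.2 hi)) (le_trans (le_max_right _ _) hn)
  set τ := σ ++ n :: ρ with hτ
  have hlen : σ.length ≤ τ.length := by rw [hτ]; simp
  have htake : τ.take σ.length = σ := by rw [hτ]; simp
  have hget : τ.getD σ.length 0 = n := by
    rw [hτ, List.getD_append_right _ _ _ _ le_rfl]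
    simp
  unfold TT
  apply mm_abs_le hlen
  intro j hj
  rcases le_or_gt σ.length j with h1 | h1
  · rw [min_eq_left h1, max_eq_right h1]
    unfold zz
    rw [htake, hget]
    have h2 := hN1 (pt2 n (Encodable.encode (τ.take j)) (τ.getD j 0) (Encodable.encode τ))
      (fun l hl => by
        simp only [pt2]
        rw [if_neg (by omega), if_neg (by omega)])
    have h3 := hN1 (pt1 n (Encodable.encode (τ.take j)))
      (fun l hl => by
        simp only [pt1]
        rw [if_neg (by omega)])
    rw [abs_le] at *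
    constructor <;> linarith
  · rw [min_eq_right h1.le, max_eq_left h1.le]
    unfold zz
    have e1 : τ.take j = σ.take j := by
      rw [hτ]; exact take_append_of_lt h1.le
    have e2 : τ.getD j 0 = σ.getD j 0 := by
      rw [hτ, List.getD_append _ _ _ _ h1]
    rw [htake, hget, e1, e2]
    apply hNf j
    intro l hl
    have := hn2 j h1
    simp only [pt1, pt2]
    by_cases hl2 : l = σ.getD j 0
    · rw [if_pos hl2, if_pos hl2]
    · rw [if_neg hl2, if_neg hl2, if_neg (by omega)]

theorem zz_add_iota (F : ℕ → (ℕ → ℕ) → ℝ) (δ : List ℕ → ℝ) (τ : List ℕ) (i j : ℕ)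
    (hij : i ≤ j) (hj : j ≤ τ.length) :
    zz (fun a x => F a x + iota δ a x) τ i j = zz F τ i j + δ τ := by
  unfold zz
  have h1 : Good (Encodable.encode (τ.take i))
      (pt2 (τ.getD i 0) (Encodable.encode (τ.take j)) (τ.getD j 0) (Encodable.encode τ)) τ :=
    ⟨i, j, hij, hj, rfl, Cyl_pt2 _ _ _ _⟩
  have h2 : ¬ ∃ τ', Good (Encodable.encode (τ.take i))
      (pt1 (τ.getD i 0) (Encodable.encode (τ.take j))) τ' := by
    rintro ⟨τ', i', j', _, _, _, h⟩
    exact not_Cyl_pt1 _ _ h
  beta_reduce
  rw [iota_eq h1, iota_zero h2]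
  ring

theorem TT_add_iota (F : ℕ → (ℕ → ℕ) → ℝ) (δ : List ℕ → ℝ) (τ : List ℕ) :
    TT (fun a x => F a x + iota δ a x) τ = TT F τ + δ τ :=
  mm_add (fun i j hij hj => zz_add_iota F δ τ i j hij hj)

theorem iota_neg (δ : List ℕ → ℝ) (a : ℕ) (x : ℕ → ℕ) :
    iota (fun τ => - δ τ) a x = - iota δ a x := by
  by_cases h : ∃ τ, Good a x τ
  · obtain ⟨τ, hτ⟩ := h
    rw [iota_eq hτ, iota_eq hτ]
  · rw [iota_zero h, iota_zero h, neg_zero]

theorem TT_sub_iota (F : ℕ → (ℕ → ℕ) → ℝ) (δ : List ℕ → ℝ) (τ : List ℕ) :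
    TT (fun a x => F a x - iota δ a x) τ = TT F τ - δ τ := by
  have h1 : (fun a x => F a x - iota δ a x) = fun a x => F a x + iota (fun τ => - δ τ) a x := by
    funext a x
    rw [iota_neg]
    ring
  rw [h1, TT_add_iota]
  ring

theorem eval_uc (a : ℕ) (x : ℕ → ℕ) : UniformContinuous (fun F : EN => F.1 a x) :=
  (Pi.uniformContinuous_proj (fun _ : ℕ → ℕ => ℝ) x).comp
    ((Pi.uniformContinuous_proj (fun _ : ℕ => (ℕ → ℕ) → ℝ) a).comp uniformContinuous_subtype_val)

theorem TT_uc (τ : List ℕ) : UniformContinuous (fun F : EN => TT F.1 τ) := by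
  apply mm_uc τ.length (fun F : EN => zz F.1 τ)
  intro i j
  exact (eval_uc _ _).sub (eval_uc _ _)

theorem iota_uc {E : Type} [UniformSpace E] {g : E → List ℕ → ℝ}
    (hg : ∀ τ, UniformContinuous (fun e => g e τ)) (a : ℕ) (x : ℕ → ℕ) :
    UniformContinuous (fun e => iota (g e) a x) := by
  by_cases h : ∃ τ, Good a x τ
  · obtain ⟨τ, hτ⟩ := h
    simp only [iota_eq hτ]
    exact hg τ
  · simp only [iota_zero h]
    exact uniformContinuous_const

/-- The complementary factor. -/
abbrev KK : Type := {F : EN // ∀ τ, TT F.1 τ = 0}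

/-- `EN` splits off the factor `DD`. -/
noncomputable def equivEN : UniformEquiv EN (DD × KK) where
  toFun F := (⟨TT F.1, TT_zeroAt F⟩,
    ⟨⟨fun a x => F.1 a x - iota (TT F.1) a x,
      fun a => (F.2 a).sub (iota_continuous (TT_zeroAt F) a)⟩,
      fun τ => by
        change TT (fun a x => F.1 a x - iota (TT F.1) a x) τ = 0
        rw [TT_sub_iota]
        ring⟩)
  invFun p := ⟨fun a x => p.2.1.1 a x + iota p.1.1 a x,
    fun a => (p.2.1.2 a).add (iota_continuous p.1.2 a)⟩
  left_inv F := by
    apply Subtype.ext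
    funext a x
    simp
  right_inv p := by
    obtain ⟨δ, K⟩ := p
    have h1 : TT (fun a x => K.1.1 a x + iota δ.1 a x) = δ.1 := by
      funext τ
      rw [TT_add_iota, K.2 τ, zero_add]
    apply Prod.ext
    · apply Subtype.ext
      exact h1
    · apply Subtype.ext
      apply Subtype.ext
      funext a x
      change K.1.1 a x + iota δ.1 a x - iota (TT (fun a x => K.1.1 a x + iota δ.1 a x)) a x
        = K.1.1 a x
      rw [h1]
      ring
  uniformContinuous_toFun := by
    apply UniformContinuous.prodMk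
    · apply UniformContinuous.subtype_mk
      rw [uniformContinuous_pi]
      exact TT_uc
    · apply UniformContinuous.subtype_mk
      apply UniformContinuous.subtype_mk
      rw [uniformContinuous_pi]
      intro a
      rw [uniformContinuous_pi]
      intro x
      exact (eval_uc a x).sub (iota_uc TT_uc a x)
  uniformContinuous_invFun := by
    apply UniformContinuous.subtype_mk
    rw [uniformContinuous_pi]
    intro a
    rw [uniformContinuous_pi]
    intro x
    apply UniformContinuous.add
    · exact (eval_uc a x).comp (uniformContinuous_subtype_val.comp uniformContinuous_snd)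
    · apply iota_uc
      intro τ
      exact (Pi.uniformContinuous_proj (fun _ : List ℕ => ℝ) τ).comp
        (uniformContinuous_subtype_val.comp uniformContinuous_fst)

/-! ## The decomposition argument -/

/-- `EN` is uniformly homeomorphic to its countable power. -/
noncomputable def equivPow : UniformEquiv EN (ℕ → EN) where
  toFun F := fun n => ⟨fun a => F.1 (Nat.pair n a), fun a => F.2 _⟩
  invFun G := ⟨fun a => (G (Nat.unpair a).1).1 (Nat.unpair a).2, fun a => (G _).2 _⟩
  left_inv F := by
    apply Subtype.ext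
    funext a
    simp
  right_inv G := by
    funext n
    apply Subtype.ext
    funext a
    simp
  uniformContinuous_toFun := by
    rw [uniformContinuous_pi]
    intro n
    apply UniformContinuous.subtype_mk
    rw [uniformContinuous_pi]
    intro a
    exact (Pi.uniformContinuous_proj (fun _ : ℕ => (ℕ → ℕ) → ℝ) (Nat.pair n a)).comp
      uniformContinuous_subtype_val
  uniformContinuous_invFun := by
    apply UniformContinuous.subtype_mk
    rw [uniformContinuous_pi]
    intro a
    exact (Pi.uniformContinuous_proj (fun _ : ℕ => (ℕ → ℕ) → ℝ) (Nat.unpair a).2).comp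
      (uniformContinuous_subtype_val.comp
        (Pi.uniformContinuous_proj (fun _ : ℕ => EN) (Nat.unpair a).1))

/-- Absorbing one more factor into a countable power. -/
def equivAbsorb (A K : Type) [UniformSpace A] [UniformSpace K] :
    UniformEquiv (ℕ → A × K) (A × (ℕ → A × K)) where
  toFun u := ((u 0).1, fun n => ((u (n + 1)).1, (u n).2))
  invFun p := fun n => (Nat.casesOn n p.1 (fun m => (p.2 m).1), (p.2 n).2)
  left_inv u := by
    funext n
    cases n <;> rfl
  right_inv p := by
    apply Prod.ext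
    · rfl
    · rfl
  uniformContinuous_toFun := by
    apply UniformContinuous.prodMk
    · exact uniformContinuous_fst.comp (Pi.uniformContinuous_proj (fun _ : ℕ => A × K) 0)
    · rw [uniformContinuous_pi]
      intro n
      exact (uniformContinuous_fst.comp
        (Pi.uniformContinuous_proj (fun _ : ℕ => A × K) (n + 1))).prodMk
        (uniformContinuous_snd.comp (Pi.uniformContinuous_proj (fun _ : ℕ => A × K) n))
  uniformContinuous_invFun := by
    rw [uniformContinuous_pi]
    intro n
    apply UniformContinuous.prodMk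
    · cases n with
      | zero => exact uniformContinuous_fst
      | succ m =>
        exact uniformContinuous_fst.comp
          ((Pi.uniformContinuous_proj (fun _ : ℕ => A × K) m).comp uniformContinuous_snd)
    · exact uniformContinuous_snd.comp
        ((Pi.uniformContinuous_proj (fun _ : ℕ => A × K) n).comp uniformContinuous_snd)

/-- `EN` absorbs the factor `DD`. -/
noncomputable def equivEN' : UniformEquiv EN (DD × EN) :=
  equivPow.trans <| (UniformEquiv.piCongrRight (fun _ : ℕ => equivEN)).trans <|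
    (equivAbsorb DD KK).trans <|
      (UniformEquiv.refl DD).prodCongr
        ((UniformEquiv.piCongrRight (fun _ : ℕ => equivEN)).symm.trans equivPow.symm)

/-- Continuous functions on a countable sum of Baire spaces. -/
def equivSum : UniformEquiv {f : ℕ × (ℕ → ℕ) → ℝ // Continuous f} EN where
  toFun f := ⟨fun a x => f.1 (a, x), fun a => f.2.comp (by fun_prop)⟩
  invFun F := ⟨fun p => F.1 p.1 p.2, by
    rw [continuous_iff_continuousAt]
    rintro ⟨a, x⟩
    have h1 : (fun p : ℕ × (ℕ → ℕ) => F.1 p.1 p.2) =ᶠ[nhds (a, x)] fun p => F.1 a p.2 := by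
      have : {p : ℕ × (ℕ → ℕ) | p.1 = a} ∈ nhds (a, x) := by
        apply IsOpen.mem_nhds
        · exact (isOpen_discrete {a}).preimage continuous_fst
        · rfl
      filter_upwards [this] with p hp
      rw [show p.1 = a from hp]
    refine ContinuousAt.congr ?_ h1.symm
    exact ((F.2 a).comp continuous_snd).continuousAt⟩
  left_inv f := rfl
  right_inv F := rfl
  uniformContinuous_toFun := by
    apply UniformContinuous.subtype_mk
    rw [uniformContinuous_pi]
    intro a
    rw [uniformContinuous_pi]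
    intro x
    exact (Pi.uniformContinuous_proj (fun _ : ℕ × (ℕ → ℕ) => ℝ) (a, x)).comp
      uniformContinuous_subtype_val
  uniformContinuous_invFun := by
    apply UniformContinuous.subtype_mk
    rw [uniformContinuous_pi]
    rintro ⟨a, x⟩
    exact eval_uc a x

/-- Continuous functions on a disjoint sum. -/
def equivDisj (X Y : Type) [TopologicalSpace X] [TopologicalSpace Y] :
    UniformEquiv ({f : X → ℝ // Continuous f} × {f : Y → ℝ // Continuous f})
      {f : X ⊕ Y → ℝ // Continuous f} where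
  toFun p := ⟨Sum.elim p.1.1 p.2.1, p.1.2.sumElim p.2.2⟩
  invFun f := (⟨fun x => f.1 (Sum.inl x), f.2.comp continuous_inl⟩,
    ⟨fun y => f.1 (Sum.inr y), f.2.comp continuous_inr⟩)
  left_inv p := rfl
  right_inv f := by
    apply Subtype.ext
    funext z
    cases z <;> rfl
  uniformContinuous_toFun := by
    apply UniformContinuous.subtype_mk
    rw [uniformContinuous_pi]
    rintro (x | y)
    · exact (Pi.uniformContinuous_proj (fun _ : X => ℝ) x).comp
        (uniformContinuous_subtype_val.comp uniformContinuous_fst)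
    · exact (Pi.uniformContinuous_proj (fun _ : Y => ℝ) y).comp
        (uniformContinuous_subtype_val.comp uniformContinuous_snd)
  uniformContinuous_invFun := by
    apply UniformContinuous.prodMk
    · apply UniformContinuous.subtype_mk
      rw [uniformContinuous_pi]
      intro x
      exact (Pi.uniformContinuous_proj (fun _ : X ⊕ Y => ℝ) (Sum.inl x)).comp
        uniformContinuous_subtype_val
    · apply UniformContinuous.subtype_mk
      rw [uniformContinuous_pi]
      intro y
      exact (Pi.uniformContinuous_proj (fun _ : X ⊕ Y => ℝ) (Sum.inr y)).comp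
        uniformContinuous_subtype_val

/-- The uniform homeomorphism. -/
noncomputable def mainEquiv : UniformEquiv {f : ℕ × (ℕ → ℕ) → ℝ // Continuous f}
    {g : QQ ⊕ (ℕ × (ℕ → ℕ)) → ℝ // Continuous g} :=
  equivSum.trans <| equivEN'.trans <| (equivDD.prodCongr equivSum.symm).trans <|
    equivDisj QQ (ℕ × (ℕ → ℕ))

theorem metrizable_sum (X Y : Type) [TopologicalSpace X] [MetrizableSpace X]
    [TopologicalSpace Y] [MetrizableSpace Y] : MetrizableSpace (X ⊕ Y) := by
  let := metrizableSpaceMetric X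
  let := metrizableSpaceMetric Y
  let : MetricSpace (X ⊕ Y) := Metric.metricSpaceSum
  infer_instance

/-- The negation of the preceding statement: For all metrizable X, Y (in Type), if C_p(X) and C_p(Y) (continuous real functions with the pointwise/product uniformity) are uniformly homeomorphic, then X is completely metrizable iff Y is. -/
theorem result :
    ¬ (∀ (X Y : Type) [TopologicalSpace X] [MetrizableSpace X]
      [TopologicalSpace Y] [MetrizableSpace Y],
      Nonempty (UniformEquiv {f : X → ℝ // Continuous f} {g : Y → ℝ // Continuous g}) →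
        (IsCompletelyMetrizableSpace X ↔ IsCompletelyMetrizableSpace Y)) := by
  intro h
  have hm : MetrizableSpace (QQ ⊕ (ℕ × (ℕ → ℕ))) := metrizable_sum QQ (ℕ × (ℕ → ℕ))
  have h1 := (h (ℕ × (ℕ → ℕ)) (QQ ⊕ (ℕ × (ℕ → ℕ))) ⟨mainEquiv⟩).1 inferInstance
  exact QQ_not_complete
    (Topology.IsClosedEmbedding.inl.IsCompletelyMetrizableSpace (Y := QQ ⊕ (ℕ × (ℕ → ℕ))))

end Pool.Agent.S13450
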