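import Pool.Statements.S13822
import Pool.Agent.Lib_helper76.Isocompact

set_option autoImplicit false
open Pool Pool.MP_ba0d78_gt

namespace Pool.Agent.S13822

/-- The negation of the preceding statement: For every Tychonoff space X, C_p(X) (continuous real functions with pointwise topology) has every closed countably compact subset compact iff the closure of every subset countably compact in C_p(X) is compact. -/
theorem result :
    ¬ (∀ (X : Type) [TopologicalSpace X] [T35Space X],
      ((∀ S : Set {f : X → ℝ // Continuous f}, IsClosed S →
          (∀ u : ℕ → {f : X → ℝ // Continuous f}, (∀ n, u n ∈ S) →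
            ∃ z ∈ S, MapClusterPt z Filter.atTop u) →
          IsCompact S) ↔
       (∀ A : Set {f : X → ℝ // Continuous f},
          (∀ u : ℕ → {f : X → ℝ // Continuous f}, (∀ n, u n ∈ A) →
            ∃ z, MapClusterPt z Filter.atTop u) →
          IsCompact (closure A)))) := by
  intro h
  refine Pool.Agent.Lib_helper76.Isocompact.A_not_compact ?_
  exact (h Pool.Agent.Lib_helper76.Isocompact.Xt).1
    Pool.Agent.Lib_helper76.Isocompact.isocompact _ Pool.Agent.Lib_helper76.Isocompact.A_cc

end Pool.Agent.S13822
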