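import Pool.Statements.S14003
import Pool.Agent.Lib_helper77.TubeAlg

set_option autoImplicit false
open Pool Pool.MP_d4ad8c_gt

namespace Pool.Agent.S14003

open Pool.Agent.Lib_helper77 MeasureTheory

theorem poly_of_alg {k m : ℕ} {f : Par k m → ℝ} (hf : f ∈ algSub (parEv (k := k) (m := m))) :
    ∃ F : MvPolynomial ((Fin k ⊕ Fin m) ⊕ Fin 2) ℝ, F ≠ 0 ∧
      ∀ p : Par k m, MvPolynomial.eval
        (Sum.elim (Sum.elim p.1.1 p.1.2.1) ![p.1.2.2, f p]) F = 0 := by
  obtain ⟨Φ, h0, h⟩ := mem_algSub_iff.mp hf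
  let θ : Option ((Fin k ⊕ Fin m) ⊕ Fin 1) → (Fin k ⊕ Fin m) ⊕ Fin 2 := fun o =>
    match o with
    | none => Sum.inr 1
    | some (Sum.inl x) => Sum.inl x
    | some (Sum.inr _) => Sum.inr 0
  have hθ : Function.Injective θ := by
    rintro (_ | (x | x)) (_ | (y | y)) hxy <;> simp [θ] at hxy ⊢
    · exact hxy
    · exact Subsingleton.elim _ _
  set G := (MvPolynomial.optionEquivLeft ℝ ((Fin k ⊕ Fin m) ⊕ Fin 1)).symm Φ with hG
  have hG0 : G ≠ 0 := by
    rw [hG]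
    intro h1
    apply h0
    simpa using h1
  refine ⟨MvPolynomial.rename θ G, ?_, ?_⟩
  · intro h1
    apply hG0
    apply MvPolynomial.rename_injective θ hθ
    rw [h1, map_zero]
  · intro p
    rw [MvPolynomial.eval_rename]
    have h2 := MvPolynomial.optionEquivLeft_elim_eval (R := ℝ) (s := parEv p) (y := f p) (f := G)
    have h3 : (Sum.elim (Sum.elim p.1.1 p.1.2.1) ![p.1.2.2, f p]) ∘ θ
        = fun x => Option.elim x (f p) (parEv p) := by
      ext x
      rcases x with (_ | ((x | x) | x)) <;> simp [θ, parEv]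
    rw [h3, h2, hG, AlgEquiv.apply_symm_apply, Polynomial.eval_map]
    exact h p

/-- For odd k, even m, 0<ε<1, a nonzero real polynomial F(ξ,t,V) exists with F(ξ,t,V)=0 whenever ξ≠0, where V is the volume of the part of the ε-neighbourhood of the unit (k−1)-sphere in ℝ^{k+m} lying in the half-space ⟨ξ,z⟩≤t. -/
theorem result :
    ∀ k m : ℕ, Odd k → Even m → ∀ ε : ℝ, 0 < ε → ε < 1 →
      ∃ F : MvPolynomial ((Fin k ⊕ Fin m) ⊕ Fin 2) ℝ, F ≠ 0 ∧
        ∀ (a : Fin k → ℝ) (b : Fin m → ℝ) (t : ℝ), (a, b) ≠ 0 →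
          MvPolynomial.eval
            (Sum.elim (Sum.elim a b)
              ![t, (MeasureTheory.volume
                {p : (Fin k → ℝ) × (Fin m → ℝ) |
                  (Real.sqrt (∑ i, p.1 i ^ 2) - 1) ^ 2 + ∑ j, p.2 j ^ 2 ≤ ε ^ 2 ∧
                  ∑ i, a i * p.1 i + ∑ j, b j * p.2 j ≤ t}).toReal]) F = 0 := by
  intro k m hk hm ε hε hε1
  obtain ⟨κ, rfl⟩ := hk
  obtain ⟨F, hF0, hF⟩ := poly_of_alg (tube_alg κ m hm hε hε1)
  refine ⟨(∑ i : Fin (2 * κ + 1), MvPolynomial.X (Sum.inl (Sum.inl i)) ^ 2) * F, ?_, ?_⟩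
  · apply mul_ne_zero _ hF0
    intro h
    have h1 := congrArg (MvPolynomial.eval (fun _ => (1 : ℝ))) h
    simp only [map_sum, map_pow, MvPolynomial.eval_X, one_pow, Finset.sum_const,
      Finset.card_univ, Fintype.card_fin, map_zero, nsmul_eq_mul, mul_one] at h1
    have : ((2 * κ + 1 : ℕ) : ℝ) ≠ 0 := by positivity
    exact this h1
  · intro a b t _
    rw [map_mul]
    by_cases ha : a = 0
    · have : MvPolynomial.eval
          (Sum.elim (Sum.elim a b)
              ![t, (MeasureTheory.volume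
                {p : (Fin (2 * κ + 1) → ℝ) × (Fin m → ℝ) |
                  (Real.sqrt (∑ i, p.1 i ^ 2) - 1) ^ 2 + ∑ j, p.2 j ^ 2 ≤ ε ^ 2 ∧
                  ∑ i, a i * p.1 i + ∑ j, b j * p.2 j ≤ t}).toReal])
          (∑ i : Fin (2 * κ + 1), MvPolynomial.X (Sum.inl (Sum.inl i)) ^ 2) = 0 := by
        simp [ha]
      rw [this, zero_mul]
    · have h := hF ⟨(a, b, t), ha⟩
      have h2 : MvPolynomial.eval
          (Sum.elim (Sum.elim a b)
              ![t, (MeasureTheory.volume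
                {p : (Fin (2 * κ + 1) → ℝ) × (Fin m → ℝ) |
                  (Real.sqrt (∑ i, p.1 i ^ 2) - 1) ^ 2 + ∑ j, p.2 j ^ 2 ≤ ε ^ 2 ∧
                  ∑ i, a i * p.1 i + ∑ j, b j * p.2 j ≤ t}).toReal]) F = 0 := h
      rw [h2, mul_zero]

end Pool.Agent.S14003
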