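import Pool.Statements.S14174
import Pool.Agent.Lib_helper78.BMUpper
import Pool.Agent.Lib_helper78.BMLower

set_option autoImplicit false
open Pool Pool.MP_ecb7d4_gt

namespace Pool.Agent.S14174

/-- The negation of the preceding statement: Take any full Bedford–McMullen carpet: n×m grid with 2≤m<n and every row containing a chosen rectangle. Its Hausdorff dimension is at most that of every quasisymmetric image of it in any metric space. -/
theorem result :
    ¬ (∀ (m n : ℕ), 2 ≤ m → m < n →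
    ∀ D : Finset (Fin n × Fin m), (∀ j : Fin m, ∃ i : Fin n, (i, j) ∈ D) →
    ∀ K : Set (ℝ × ℝ), IsCompact K → K.Nonempty →
    K = ⋃ d ∈ D, (fun p : ℝ × ℝ =>
          ((p.1 + ((d.1 : ℕ) : ℝ)) / (n : ℝ), (p.2 + ((d.2 : ℕ) : ℝ)) / (m : ℝ))) '' K →
    ∀ (Y : Type) [MetricSpace Y] (f : K → Y), Function.Injective f →
    (∃ η : ℝ → ℝ, η 0 = 0 ∧ ContinuousOn η (Set.Ici 0) ∧ StrictMonoOn η (Set.Ici 0) ∧
      ∀ x a b : K, ∀ t : ℝ, 0 ≤ t → dist x a ≤ t * dist x b →
        dist (f x) (f a) ≤ η t * dist (f x) (f b)) →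
    dimH (Set.univ : Set K) ≤ dimH (Set.range f)) := by
  intro H
  have h := H 4 16 (by norm_num) (by norm_num) BM.D BM.D_full BM.K BM.K_compact BM.K_nonempty
    BM.K_ifs BM.Y BM.toY BM.toY_inj
    ⟨BM.eta, BM.eta_zero, BM.eta_cont.continuousOn, BM.eta_mono,
      fun x a b t ht hd => BM.quasi x.2 a.2 b.2 ht hd⟩
  have h1 : dimH (Set.univ : Set BM.K) = dimH BM.K := by
    have := (isometry_subtype_coe (s := BM.K)).dimH_image Set.univ
    rw [← this]
    simp
  rw [h1] at h
  have h2 := (BM.dimH_lower.trans h).trans BM.dimH_upper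
  have h3 : (5/4 : NNReal) ≤ 6/5 := by exact_mod_cast h2
  have h4 : ((5/4 : NNReal) : ℝ) ≤ ((6/5 : NNReal) : ℝ) := by exact_mod_cast h3
  norm_num at h4

end Pool.Agent.S14174
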