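-- Proof of the frozen statement S14772 (the negation for MP_5f7953_lc): the problem of deciding
-- whether a word is a Schaeffer word on all groups is algorithmically unsolvable.
-- Reduction from the halting problem; the mathematics is in Pool/Agent/Lib_helper82/:
--   Base, Steinberg, Machine, MachineInst : stack machine words in a group with Steinberg relations
--   Goursat, PerfectTwoGen, Words, Clone  : from relators of a two-generator group to a single word
--   Ambient, Cycles, Model, Model2        : the two-generator perfect group
--   Assemble                              : the reduction
import Pool.Statements.S14772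
import Pool.Agent.Lib_helper82.Assemble

set_option autoImplicit false
open Pool Pool.MP_5f7953_lc

namespace Pool.Agent.S14772

/-- The negation of the preceding statement: There is an algorithm that, given a word B, decides whether in every group every word lies in the smallest word set containing the variables and B, closed under substitution and under replacement by words identically equal on that group. -/
theorem result :
    ¬ (ComputablePred (fun w : List (ℕ × Bool) =>
    ∀ (G : Type) [Group G], ∀ A : FreeGroup ℕ,
      ∀ S : Set (FreeGroup ℕ),
        (∀ i : ℕ, FreeGroup.of i ∈ S) →
        FreeGroup.mk w ∈ S →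
        (∀ C ∈ S, ∀ σ : ℕ → FreeGroup ℕ, (∀ i, σ i ∈ S) → FreeGroup.lift σ C ∈ S) →
        (∀ C ∈ S, ∀ C' : FreeGroup ℕ,
            (∀ f : ℕ → G, FreeGroup.lift f C = FreeGroup.lift f C') → C' ∈ S) →
        A ∈ S)) := by
  intro h
  apply Pool.Agent.Lib_helper82.undecidable_complete
  refine ComputablePred.of_eq h ?_
  intro w
  constructor
  · intro hw S hS hwS A
    refine hw (FreeGroup ℕ) A S hS.var hwS hS.sub ?_
    intro C hC C' hCC
    have h1 := hCC FreeGroup.of
    rw [FreeGroup.lift_of_apply, FreeGroup.lift_of_apply] at h1
    rwa [← h1]
  · intro hw G _ A S h1 h2 h3 _
    exact hw S ⟨h1, h3⟩ h2 A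

end Pool.Agent.S14772
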