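import Pool.Statements.S14971
import Pool.Agent.Lib_helper69.UH.Assemble
import Pool.Agent.Lib_helper48.UH.Reduction

set_option autoImplicit false
open Pool Pool.MP_8215f0_lc

namespace Pool.Agent.S14971

/-- There is a Polish space X with a continuous action of the unitary group of ℓ² (strong operator topology) such that every orbit relation of a continuous Polish group action on a Polish space Borel-reduces to its orbit relation. -/
theorem result :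
  ∃ (X : Type) (_ : TopologicalSpace X) (_ : PolishSpace X) (_ : MeasurableSpace X) (_ : BorelSpace X)
    (a : (lp (fun _ : ℕ => ℂ) 2 ≃ₗᵢ[ℂ] lp (fun _ : ℕ => ℂ) 2) → X → X),
    (∀ x, a (LinearIsometryEquiv.refl ℂ (lp (fun _ : ℕ => ℂ) 2)) x = x) ∧
    (∀ (U V : lp (fun _ : ℕ => ℂ) 2 ≃ₗᵢ[ℂ] lp (fun _ : ℕ => ℂ) 2) (x : X),
      a (U.trans V) x = a V (a U x)) ∧
    @Continuous ((lp (fun _ : ℕ => ℂ) 2 ≃ₗᵢ[ℂ] lp (fun _ : ℕ => ℂ) 2) × X) X
      (@instTopologicalSpaceProd (lp (fun _ : ℕ => ℂ) 2 ≃ₗᵢ[ℂ] lp (fun _ : ℕ => ℂ) 2) X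
        (TopologicalSpace.induced
          (fun U : (lp (fun _ : ℕ => ℂ) 2 ≃ₗᵢ[ℂ] lp (fun _ : ℕ => ℂ) 2) =>
            (⇑U : lp (fun _ : ℕ => ℂ) 2 → lp (fun _ : ℕ => ℂ) 2))
          inferInstance) _) _
      (fun p : (lp (fun _ : ℕ => ℂ) 2 ≃ₗᵢ[ℂ] lp (fun _ : ℕ => ℂ) 2) × X => a p.1 p.2) ∧
    ∀ (G : Type) [TopologicalSpace G] [Group G] [IsTopologicalGroup G] [PolishSpace G]
      (Y : Type) [TopologicalSpace Y] [PolishSpace Y] [MeasurableSpace Y] [BorelSpace Y]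
      [MulAction G Y] [ContinuousSMul G Y],
      ∃ f : Y → X, Measurable f ∧
        ∀ y y' : Y, (∃ g : G, g • y = y') ↔
          ∃ U : lp (fun _ : ℕ => ℂ) 2 ≃ₗᵢ[ℂ] lp (fun _ : ℕ => ℂ) 2, a U (f y) = f y' := by
  exact Pool.Agent.UH48.final (fun G => Pool.Agent.UHz.factor G)

end Pool.Agent.S14971
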