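import Pool.Statements.S15409
import Pool.Agent.Lib_helper93.RingDef.Undecidable
import Pool.Agent.Lib_helper93.Zab.NatDef

set_option autoImplicit false
open FirstOrder
open Pool Pool.MP_d409f8_lc

namespace Pool.Agent.S15409

/-- The set of Gödel numbers of ring-language sentences true in the ring of algebraic integers of the field generated over ℚ by all roots of unity (that is, ℤ^ab) is not computable; so Th(ℤ^ab) is undecidable. -/
theorem result :
    ∀ A : Subring ℂ,
      A = (integralClosure ℤ ℂ).toSubring ⊓
          (Subfield.closure {z : ℂ | ∃ n : ℕ, 0 < n ∧ z ^ n = 1}).toSubring →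
      ∀ e : (Σ i, FirstOrder.Language.ring.Functions i) → ℕ, Function.Injective e →
        ¬ ComputablePred (fun n : ℕ =>
          ∃ φ : FirstOrder.Language.ring.Sentence,
            Encodable.encode
                (φ.listEncode.map
                  (Sum.map
                    (fun t => (⟨t.1, t.2.listEncode.map (Sum.map id e)⟩ :
                      Σ k : ℕ, List ((Empty ⊕ Fin k) ⊕ ℕ)))
                    (Sum.map (fun r => r.1) id))) = n ∧
            @FirstOrder.Language.Sentence.Realize FirstOrder.Language.ring ↥A
              (FirstOrder.Ring.compatibleRingOfRing ↥A).toStructure φ) := by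
  intro A hA e he
  subst hA
  let _ : FirstOrder.Ring.CompatibleRing Pool.Agent.Zab.OO :=
    FirstOrder.Ring.compatibleRingOfRing Pool.Agent.Zab.OO
  exact Pool.Agent.RingDef.not_computablePred (R := Pool.Agent.Zab.OO)
    Pool.Agent.Zab.natDef_OO he

end Pool.Agent.S15409
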