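import Pool.Statements.S15746
import Pool.Agent.Lib_helper90.Final

set_option autoImplicit false
open MeasureTheory
open Pool Pool.MP_7b7407_mp

namespace Pool.Agent.S15746

/-- The negation of the preceding statement: For every limit-periodic real potential V on ℤ, the operator ψ(n+1)+ψ(n−1)+V(n)ψ(n) on ℓ²(ℤ) has pure spectral type: all spectral measures are absolutely continuous, or all pure point, or all singular continuous. -/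
theorem result :
    ¬ (∀ V : ℤ → ℝ,
    (∀ ε : ℝ, 0 < ε → ∃ p : ℕ, 0 < p ∧ ∃ W : ℤ → ℝ,
        (∀ n : ℤ, W (n + (p : ℤ)) = W n) ∧ ∀ n : ℤ, |V n - W n| < ε) →
    ∀ H : lp (fun _ : ℤ => ℂ) 2 →L[ℂ] lp (fun _ : ℤ => ℂ) 2,
      (∀ ψ : lp (fun _ : ℤ => ℂ) 2, ∀ n : ℤ,
          (H ψ) n = ψ (n + 1) + ψ (n - 1) + (V n : ℂ) * ψ n) →
      ((∀ ψ : lp (fun _ : ℤ => ℂ) 2, ∀ μ : Measure ℝ, IsFiniteMeasure μ →
          (∀ k : ℕ, Integrable (fun x : ℝ => x ^ k) μ) →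
          (∀ k : ℕ, ∫ x, (x : ℂ) ^ k ∂μ = inner ℂ ψ ((H ^ k) ψ)) →
          μ ≪ volume) ∨
       (∀ ψ : lp (fun _ : ℤ => ℂ) 2, ∀ μ : Measure ℝ, IsFiniteMeasure μ →
          (∀ k : ℕ, Integrable (fun x : ℝ => x ^ k) μ) →
          (∀ k : ℕ, ∫ x, (x : ℂ) ^ k ∂μ = inner ℂ ψ ((H ^ k) ψ)) →
          ∃ S : Set ℝ, S.Countable ∧ μ Sᶜ = 0) ∨
       (∀ ψ : lp (fun _ : ℤ => ℂ) 2, ∀ μ : Measure ℝ, IsFiniteMeasure μ →
          (∀ k : ℕ, Integrable (fun x : ℝ => x ^ k) μ) →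
          (∀ k : ℕ, ∫ x, (x : ℂ) ^ k ∂μ = inner ℂ ψ ((H ^ k) ψ)) →
          (μ ⟂ₘ volume ∧ ∀ x : ℝ, μ {x} = 0)))) := by
  intro hall
  have h := hall Pool.Agent.LP.VV Pool.Agent.LP.VV_limit_periodic Pool.Agent.LP.HH
    (fun ψ n => Pool.Agent.LP.opH_apply _ _ _ ψ n)
  obtain ⟨ψ₁, μ₁, a, hf₁, hi₁, hm₁, ha⟩ := Pool.Agent.LP.eigen_measure
  obtain ⟨ψ₂, μ₂, hf₂, hi₂, hm₂, hn⟩ := Pool.Agent.LP.delta_measure
  rcases h with h | h | h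
  · exact ha (h ψ₁ μ₁ hf₁ hi₁ hm₁ (by simp))
  · exact hn (h ψ₂ μ₂ hf₂ hi₂ hm₂)
  · exact ha ((h ψ₁ μ₁ hf₁ hi₁ hm₁).2 a)

end Pool.Agent.S15746
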