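import Pool.Statements.S16407
import Pool.Agent.Lib_helper91.Final

set_option autoImplicit false
open Pool Pool.MP_2bfcc9_nt

namespace Pool.Agent.S16407

/-- For every nonzero integer n there is C>0 such that the number of 3-element subsets of {1..N} where ab+n is a square for all distinct pairs is asymptotic to C·N·log N if n is a perfect square, and to C·N otherwise. -/
theorem result :
    ∀ n : ℤ, n ≠ 0 →
      ∃ C : ℝ, 0 < C ∧
        (IsSquare n →
          Asymptotics.IsEquivalent Filter.atTop
            (fun N : ℕ =>
              (({S : Finset ℕ | S ⊆ Finset.Icc 1 N ∧ S.card = 3 ∧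
                  ∀ a ∈ S, ∀ b ∈ S, a ≠ b → IsSquare ((a : ℤ) * (b : ℤ) + n)}.ncard : ℕ) : ℝ))
            (fun N : ℕ => C * (N : ℝ) * Real.log (N : ℝ))) ∧
        (¬ IsSquare n →
          Asymptotics.IsEquivalent Filter.atTop
            (fun N : ℕ =>
              (({S : Finset ℕ | S ⊆ Finset.Icc 1 N ∧ S.card = 3 ∧
                  ∀ a ∈ S, ∀ b ∈ S, a ≠ b → IsSquare ((a : ℤ) * (b : ℤ) + n)}.ncard : ℕ) : ℝ))
            (fun N : ℕ => C * (N : ℝ))) := by
  intro n hn
  by_cases hsq : IsSquare n
  · obtain ⟨C, hC, hlim⟩ := Pool.Agent.Lib_helper91.T3_square hn hsq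
    refine ⟨C, hC, fun _ => ?_, fun h => absurd hsq h⟩
    simp only [Pool.Agent.Lib_helper91.ncard_eq_T3]
    rw [Asymptotics.isEquivalent_iff_tendsto_one]
    · -- ratio tends to one
      have hlogtop : Filter.Tendsto (fun N : ℕ => Real.log (N : ℝ)) Filter.atTop Filter.atTop :=
        Real.tendsto_log_atTop.comp tendsto_natCast_atTop_atTop
      have h1 : Filter.Tendsto (fun N : ℕ => (1 + Real.log (N : ℝ)) / Real.log (N : ℝ))
          Filter.atTop (nhds 1) := by
        have h2 : Filter.Tendsto (fun N : ℕ => 1 / Real.log (N : ℝ) + 1) Filter.atTop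
            (nhds (0 + 1)) := (hlogtop.const_div_atTop 1).add_const 1
        rw [zero_add] at h2
        refine h2.congr' ?_
        filter_upwards [Filter.eventually_ge_atTop 2] with N hN
        have : 0 < Real.log (N : ℝ) := Real.log_pos (by exact_mod_cast hN)
        field_simp
      have h3 := (hlim.mul h1).div_const C
      rw [mul_one, div_self hC.ne'] at h3
      refine h3.congr' ?_
      filter_upwards [Filter.eventually_ge_atTop 2] with N hN
      have hN' : (0 : ℝ) < N := by
        have : 0 < N := by omega
        exact_mod_cast this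
      have hl : 0 < Real.log (N : ℝ) := Real.log_pos (by exact_mod_cast hN)
      simp only [Pi.div_apply]
      field_simp
    · filter_upwards [Filter.eventually_ge_atTop 2] with N hN
      have hN' : (0 : ℝ) < N := by
        have : 0 < N := by omega
        exact_mod_cast this
      have hl : 0 < Real.log (N : ℝ) := Real.log_pos (by exact_mod_cast hN)
      positivity
  · obtain ⟨C, hC, hlim⟩ := Pool.Agent.Lib_helper91.T3_nonsquare hn hsq
    refine ⟨C, hC, fun h => absurd h hsq, fun _ => ?_⟩
    simp only [Pool.Agent.Lib_helper91.ncard_eq_T3]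
    rw [Asymptotics.isEquivalent_iff_tendsto_one]
    · have h3 := hlim.div_const C
      rw [div_self hC.ne'] at h3
      refine h3.congr' ?_
      filter_upwards [Filter.eventually_ge_atTop 1] with N hN
      have hN' : (0 : ℝ) < N := by exact_mod_cast hN
      simp only [Pi.div_apply]
      field_simp
    · filter_upwards [Filter.eventually_ge_atTop 1] with N hN
      have hN' : (0 : ℝ) < N := by exact_mod_cast hN
      positivity

end Pool.Agent.S16407
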