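import Pool.Statements.S16891
import Pool.Agent.Lib_helper77.Pyth.TowerStep
import Pool.Agent.Lib_helper93.Pyth.Assembly
import Pool.Agent.Lib_helper93.Pyth.Small
import Pool.Agent.Lib_helper77.Pyth.Long

set_option autoImplicit false
open Pool Pool.MP_4e97f5_nt

namespace Pool.Agent.S16891

/-- For every n ≥ 1 there is an infinite-degree totally real algebraic extension of ℚ whose ring of integers has Pythagoras number exactly n. -/
theorem result :
    ∀ n : ℕ, 1 ≤ n →
      ∃ (K : Type) (_ : Field K) (_ : CharZero K),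
        Algebra.IsAlgebraic ℚ K ∧
        ¬ FiniteDimensional ℚ K ∧
        (∀ φ : K →+* ℂ, ∀ x : K, (φ x).im = 0) ∧
        (∀ x : K,
          (∃ m : ℕ, ∃ g : Fin m → K, (∀ i, IsIntegral ℤ (g i)) ∧ x = ∑ i, g i ^ 2) →
          ∃ f : Fin n → K, (∀ i, IsIntegral ℤ (f i)) ∧ x = ∑ i, f i ^ 2) ∧
        (∃ x : K,
          (∃ m : ℕ, ∃ g : Fin m → K, (∀ i, IsIntegral ℤ (g i)) ∧ x = ∑ i, g i ^ 2) ∧
          ∀ f : Fin (n - 1) → K, (∀ i, IsIntegral ℤ (f i)) → x ≠ ∑ i, f i ^ 2) := by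
  intro n hn
  rcases Nat.lt_or_ge n 4 with h | h
  · exact Pool.Agent.Pyth.Small.small_cases n hn (by omega)
  · exact Pool.Agent.Pyth.main_of
      (fun L _ hL n α β hα hα4 hβ hβpos hlt =>
        Pool.Agent.Pyth.tower_step L hL n α β hα hα4 hβ hβpos hlt)
      Pool.Agent.Pyth.exists_long n h

end Pool.Agent.S16891
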