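import Pool.Statements.S19248
-- import your own Pool.Agent.* helpers here
import Pool.Agent.Lib_helper98.LISMain

set_option autoImplicit false
open Filter Topology
open Pool Pool.MP_2ff427_pr

namespace Pool.Agent.S19248

open Pool.Agent.Lib_helper98.LIS in
/-- A sequence of lengths `ℓ_k → ∞`, with `ℓ_k ≥ (k+1)^3`, at which the expansion with width `k + 1`
is off by a factor. -/
lemma exists_seq (c₁ c₂ : ℝ) (hc₂ : 0 < c₂) :
    ∃ u : ℕ → ℝ, StrictMono u ∧ (∀ k : ℕ, ((k : ℝ) + 1) ^ 3 ≤ u k) ∧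
      ∀ k : ℕ, ¬ (c₂ / ((k : ℝ) + 1) ^ ((1 : ℝ) / 4) / 2 * Real.sqrt (u k) ≤
          G (Rect (u k) ((k : ℝ) + 1)) - (Real.sqrt 2 - c₁ / ((k : ℝ) + 1)) * u k ∧
        G (Rect (u k) ((k : ℝ) + 1)) - (Real.sqrt 2 - c₁ / ((k : ℝ) + 1)) * u k ≤
          3 * (c₂ / ((k : ℝ) + 1) ^ ((1 : ℝ) / 4)) / 2 * Real.sqrt (u k)) := by
  have hex : ∀ (k : ℕ) (M : ℝ), ∃ ℓ : ℝ, M ≤ ℓ ∧
      ¬ (c₂ / ((k : ℝ) + 1) ^ ((1 : ℝ) / 4) / 2 * Real.sqrt ℓ ≤
          G (Rect ℓ ((k : ℝ) + 1)) - (Real.sqrt 2 - c₁ / ((k : ℝ) + 1)) * ℓ ∧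
        G (Rect ℓ ((k : ℝ) + 1)) - (Real.sqrt 2 - c₁ / ((k : ℝ) + 1)) * ℓ ≤
          3 * (c₂ / ((k : ℝ) + 1) ^ ((1 : ℝ) / 4)) / 2 * Real.sqrt ℓ) := fun k M =>
    no_expansion _ _ _ (by positivity) (by positivity) M
  choose f hf1 hf2 using hex
  let u : ℕ → ℝ := fun k => Nat.rec (f 0 1)
    (fun k v => f (k + 1) (max (((k : ℝ) + 2) ^ 3) (v + 1))) k
  have hu0 : u 0 = f 0 1 := rfl
  have hus : ∀ k, u (k + 1) = f (k + 1) (max (((k : ℝ) + 2) ^ 3) (u k + 1)) := fun k => rfl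
  refine ⟨u, strictMono_nat_of_lt_succ fun k => ?_, fun k => ?_, fun k => ?_⟩
  · rw [hus]
    have := hf1 (k + 1) (max (((k : ℝ) + 2) ^ 3) (u k + 1))
    have h2 := le_max_right (((k : ℝ) + 2) ^ 3) (u k + 1)
    linarith
  · cases k with
    | zero =>
      rw [hu0]
      have := hf1 0 1
      norm_num
      exact this
    | succ k =>
      rw [hus]
      have := hf1 (k + 1) (max (((k : ℝ) + 2) ^ 3) (u k + 1))
      have h2 := le_max_left (((k : ℝ) + 2) ^ 3) (u k + 1)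
      push_cast
      have h3 : ((k : ℝ) + 1 + 1) = (k : ℝ) + 2 := by ring
      rw [h3]
      linarith
  · cases k with
    | zero =>
      rw [hu0]
      exact hf2 0 1
    | succ k =>
      rw [hus]
      exact hf2 (k + 1) (max (((k : ℝ) + 2) ^ 3) (u k + 1))

open Pool.Agent.Lib_helper98.LIS in
/-- The negation of the preceding statement: There are constants c1,c2>0 such that for every width w(l)→∞ with w/l^(2/3)→0, the expected longest increasing chain of a rate-1 Poisson process in a 45°-rotated l-by-w rectangle equals √2 l − c1 l/w + c2 l^(1/2) w^(-1/4)(1+o(1)). -/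
theorem result :
    ¬ (∃ c₁ c₂ : ℝ, 0 < c₁ ∧ 0 < c₂ ∧
      ∀ w : ℝ → ℝ, Tendsto w atTop atTop →
        Tendsto (fun ℓ : ℝ => w ℓ / ℓ ^ ((2 : ℝ) / 3)) atTop (𝓝 0) →
        Tendsto (fun ℓ : ℝ =>
          ((∑' n : ℕ, Real.exp (-(ℓ * w ℓ)) / (n.factorial : ℝ) *
              ∫ x in Set.univ.pi (fun _ : Fin n =>
                  {p : ℝ × ℝ | 0 ≤ p.1 + p.2 ∧ p.1 + p.2 ≤ Real.sqrt 2 * ℓ ∧
                    |p.1 - p.2| ≤ Real.sqrt 2 * w ℓ / 2}),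
                (((sSup {k : ℕ | ∃ s : Finset (Fin n), s.card = k ∧
                    ∀ i ∈ s, ∀ j ∈ s, i ≠ j →
                      (((x i).1 < (x j).1 ∧ (x i).2 < (x j).2) ∨
                       ((x j).1 < (x i).1 ∧ (x j).2 < (x i).2))}) : ℕ) : ℝ))
            - Real.sqrt 2 * ℓ + c₁ * ℓ / w ℓ)
          / (c₂ * ℓ ^ ((1 : ℝ) / 2) / (w ℓ) ^ ((1 : ℝ) / 4)))
          atTop (𝓝 1)) := by
  classical
  rintro ⟨c₁, c₂, hc₁, hc₂, H⟩
  obtain ⟨u, hu, hu3, hbad⟩ := exists_seq c₁ c₂ hc₂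
  have hupos : ∀ k, 0 < u k := fun k => lt_of_lt_of_le (by positivity) (hu3 k)
  have huge : ∀ k : ℕ, (k : ℝ) + 1 ≤ u k := by
    intro k
    refine le_trans ?_ (hu3 k)
    have h0 : (0 : ℝ) ≤ k := Nat.cast_nonneg k
    nlinarith [mul_nonneg h0 h0, mul_nonneg (mul_nonneg h0 h0) h0]
  have huT : Tendsto u atTop atTop := by
    refine tendsto_atTop_mono (fun k => ?_) tendsto_natCast_atTop_atTop
    linarith [huge k]
  -- the width function
  let w : ℝ → ℝ := fun ℓ => if h : ∃ k, u k = ℓ then (h.choose : ℝ) + 1 else ℓ ^ ((1 : ℝ) / 3)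
  have hwu : ∀ k, w (u k) = (k : ℝ) + 1 := by
    intro k
    have h : ∃ j, u j = u k := ⟨k, rfl⟩
    have h2 : h.choose = k := hu.injective h.choose_spec
    simp only [w]
    rw [dif_pos h, h2]
  have hwn : ∀ ℓ, (¬ ∃ k, u k = ℓ) → w ℓ = ℓ ^ ((1 : ℝ) / 3) := by
    intro ℓ h
    simp only [w]
    rw [dif_neg h]
  have hw1 : Tendsto w atTop atTop := by
    rw [tendsto_atTop]
    intro K
    obtain ⟨N, hN⟩ := exists_nat_ge K
    filter_upwards [eventually_ge_atTop (max (u N) ((N : ℝ) ^ 3))] with ℓ hℓ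
    by_cases h : ∃ k, u k = ℓ
    · obtain ⟨k, rfl⟩ := h
      rw [hwu]
      have hk : N ≤ k := hu.le_iff_le.1 ((le_max_left _ _).trans hℓ)
      have : (N : ℝ) ≤ k := by exact_mod_cast hk
      linarith
    · rw [hwn ℓ h]
      refine hN.trans ?_
      have h1 : ((N : ℝ) ^ 3) ^ ((1 : ℝ) / 3) ≤ ℓ ^ ((1 : ℝ) / 3) :=
        Real.rpow_le_rpow (by positivity) ((le_max_right _ _).trans hℓ) (by norm_num)
      have h2 : ((N : ℝ) ^ 3) ^ ((1 : ℝ) / 3) = N := by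
        rw [← Real.rpow_natCast, ← Real.rpow_mul (by positivity)]
        norm_num
      rwa [h2] at h1
  have hwle : ∀ ℓ : ℝ, 0 ≤ ℓ → w ℓ ≤ ℓ ^ ((1 : ℝ) / 3) := by
    intro ℓ hℓ
    by_cases h : ∃ k, u k = ℓ
    · obtain ⟨k, rfl⟩ := h
      rw [hwu]
      have h1 : (((k : ℝ) + 1) ^ 3) ^ ((1 : ℝ) / 3) ≤ (u k) ^ ((1 : ℝ) / 3) :=
        Real.rpow_le_rpow (by positivity) (hu3 k) (by norm_num)
      have h2 : (((k : ℝ) + 1) ^ 3) ^ ((1 : ℝ) / 3) = (k : ℝ) + 1 := by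
        rw [← Real.rpow_natCast, ← Real.rpow_mul (by positivity)]
        norm_num
      rwa [h2] at h1
    · rw [hwn ℓ h]
  have hw2 : Tendsto (fun ℓ : ℝ => w ℓ / ℓ ^ ((2 : ℝ) / 3)) atTop (𝓝 0) := by
    have hlim : Tendsto (fun ℓ : ℝ => ℓ ^ (-((1 : ℝ) / 3))) atTop (𝓝 0) :=
      tendsto_rpow_neg_atTop (by norm_num)
    refine squeeze_zero' ?_ ?_ hlim
    · filter_upwards [hw1.eventually_ge_atTop 0, eventually_ge_atTop (0 : ℝ)] with ℓ h1 h2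
      positivity
    · filter_upwards [eventually_gt_atTop (0 : ℝ)] with ℓ hℓ
      have h1 := hwle ℓ hℓ.le
      have h2 : 0 < ℓ ^ ((2 : ℝ) / 3) := Real.rpow_pos_of_pos hℓ _
      rw [div_le_iff₀ h2, ← Real.rpow_add hℓ]
      norm_num at h1 ⊢
      exact h1
  have hT := (H w hw1 hw2).comp huT
  have hev : ∀ᶠ k in atTop, ((fun ℓ : ℝ =>
          ((∑' n : ℕ, Real.exp (-(ℓ * w ℓ)) / (n.factorial : ℝ) *
              ∫ x in Set.univ.pi (fun _ : Fin n =>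
                  {p : ℝ × ℝ | 0 ≤ p.1 + p.2 ∧ p.1 + p.2 ≤ Real.sqrt 2 * ℓ ∧
                    |p.1 - p.2| ≤ Real.sqrt 2 * w ℓ / 2}),
                (((sSup {k : ℕ | ∃ s : Finset (Fin n), s.card = k ∧
                    ∀ i ∈ s, ∀ j ∈ s, i ≠ j →
                      (((x i).1 < (x j).1 ∧ (x i).2 < (x j).2) ∨
                       ((x j).1 < (x i).1 ∧ (x j).2 < (x i).2))}) : ℕ) : ℝ))
            - Real.sqrt 2 * ℓ + c₁ * ℓ / w ℓ)
          / (c₂ * ℓ ^ ((1 : ℝ) / 2) / (w ℓ) ^ ((1 : ℝ) / 4))) ∘ u) k ∈ Set.Icc (1 / 2 : ℝ) (3 / 2) :=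
    hT.eventually (Icc_mem_nhds (by norm_num) (by norm_num))
  obtain ⟨k, hk⟩ := hev.exists
  apply hbad k
  simp only [Function.comp_apply] at hk
  rw [frozen_eq_G (u k) (w (u k)) (hupos k).le (by rw [hwu]; positivity), hwu k] at hk
  have hden : 0 < c₂ * (u k) ^ ((1 : ℝ) / 2) / ((k : ℝ) + 1) ^ ((1 : ℝ) / 4) := by
    have := hupos k
    positivity
  obtain ⟨hk1, hk2⟩ := hk
  rw [le_div_iff₀ hden] at hk1
  rw [div_le_iff₀ hden] at hk2
  rw [← Real.sqrt_eq_rpow] at hk1 hk2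
  constructor
  · calc c₂ / ((k : ℝ) + 1) ^ ((1 : ℝ) / 4) / 2 * Real.sqrt (u k)
        = 1 / 2 * (c₂ * Real.sqrt (u k) / ((k : ℝ) + 1) ^ ((1 : ℝ) / 4)) := by ring
      _ ≤ _ := hk1
      _ = _ := by ring
  · calc G (Rect (u k) ((k : ℝ) + 1)) - (Real.sqrt 2 - c₁ / ((k : ℝ) + 1)) * u k
        = G (Rect (u k) ((k : ℝ) + 1)) - Real.sqrt 2 * u k + c₁ * u k / ((k : ℝ) + 1) := by ring
      _ ≤ _ := hk2
      _ = _ := by ring

end Pool.Agent.S19248
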