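import Pool.Statements.S19647
import Pool.Agent.Lib_helper99.Burnside.Mixing

set_option autoImplicit false
open Pool Pool.MP_ce44ee_pr

namespace Pool.Agent.S19647

open Pool.Agent.Lib_helper99.Burnside

section conv

open scoped Classical

variable {V : Type} [Fintype V]

lemma comap_iff (σ : Equiv.Perm V) (γ : SimpleGraph V) :
    SimpleGraph.comap (⇑σ) γ = γ ↔ Inv σ γ := by
  constructor
  · intro h x y
    have : (SimpleGraph.comap (⇑σ) γ).Adj x y ↔ γ.Adj x y := by rw [h]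
    exact this
  · intro h
    ext x y
    exact h x y

lemma ncard_stab (γ : SimpleGraph V) :
    (({τ : Equiv.Perm V | SimpleGraph.comap (⇑τ) γ = γ}).ncard : ℝ) =
      sz (Inv : Equiv.Perm V → SimpleGraph V → Prop) γ := by
  unfold sz
  congr 1
  rw [Set.ncard_eq_toFinset_card']
  congr 1
  ext τ
  simp [comap_iff]

lemma ncard_fix (σ : Equiv.Perm V) :
    (({δ : SimpleGraph V | SimpleGraph.comap (⇑σ) δ = δ}).ncard : ℝ) =
      fx (Inv : Equiv.Perm V → SimpleGraph V → Prop) σ := by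
  unfold fx
  congr 1
  rw [Set.ncard_eq_toFinset_card']
  congr 1
  ext τ
  simp [comap_iff]

lemma kernel_eq (γ β : SimpleGraph V) :
    (∑ᶠ σ ∈ {σ : Equiv.Perm V |
            SimpleGraph.comap (⇑σ) γ = γ ∧ SimpleGraph.comap (⇑σ) β = β},
          1 / ((({τ : Equiv.Perm V | SimpleGraph.comap (⇑τ) γ = γ}).ncard : ℝ) *
               (({δ : SimpleGraph V | SimpleGraph.comap (⇑σ) δ = δ}).ncard : ℝ))) =
      ker (Inv : Equiv.Perm V → SimpleGraph V → Prop) γ β := by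
  unfold ker
  rw [finsum_mem_def, finsum_eq_sum_of_fintype]
  refine Finset.sum_congr rfl fun σ _ => ?_
  rw [Set.indicator_apply, ncard_stab, ncard_fix]
  simp only [Set.mem_ofPred_eq, comap_iff]

theorem conv (C : ℕ) (hC : ∀ (V : Type) [Fintype V] (μ : ℕ → SimpleGraph V → ℝ), IsChain V μ →
    ∀ t : ℕ, C * (Fintype.card V + 1) ≤ t → dTV V μ t ≤ 1 / 4)
    (α : SimpleGraph V) (μ : ℕ → SimpleGraph V → ℝ)
    (h0 : μ 0 α = 1) (h1 : ∀ β : SimpleGraph V, β ≠ α → μ 0 β = 0)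
    (hrec : ∀ (t : ℕ) (β : SimpleGraph V),
      μ (t + 1) β = ∑ᶠ γ : SimpleGraph V, μ t γ *
        ∑ᶠ σ ∈ {σ : Equiv.Perm V |
            SimpleGraph.comap (⇑σ) γ = γ ∧ SimpleGraph.comap (⇑σ) β = β},
          1 / ((({τ : Equiv.Perm V | SimpleGraph.comap (⇑τ) γ = γ}).ncard : ℝ) *
               (({δ : SimpleGraph V | SimpleGraph.comap (⇑σ) δ = δ}).ncard : ℝ)))
    (t : ℕ) (ht : C * (Fintype.card V + 1) ≤ t) :
      (1 / 2 : ℝ) * ∑ᶠ β : SimpleGraph V,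
        |μ t β - (({τ : Equiv.Perm V | SimpleGraph.comap (⇑τ) β = β}).ncard : ℝ) /
          ∑ᶠ γ : SimpleGraph V,
            (({τ : Equiv.Perm V | SimpleGraph.comap (⇑τ) γ = γ}).ncard : ℝ)| ≤ 1 / 4 := by
  have hchain : IsChain V μ := by
    refine ⟨fun x => ?_, ?_, fun t y => ?_⟩
    · by_cases hx : x = α
      · rw [hx, h0]; norm_num
      · rw [h1 x hx]
    · rw [Finset.sum_eq_single α (fun b _ hb => h1 b hb) (fun h => absurd (Finset.mem_univ _) h), h0]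
    · rw [hrec, finsum_eq_sum_of_fintype]
      exact Finset.sum_congr rfl fun x _ => by rw [kernel_eq]
  have := hC V μ hchain t ht
  unfold dTV at this
  rw [finsum_eq_sum_of_fintype, finsum_eq_sum_of_fintype]
  simp only [ncard_stab]
  exact this

end conv

/-- ∃ C k : ℕ, ∀ n, ∀ start graph α on Fin n, the Burnside-process distribution μ_t from δ_α (kernel Σ_{σ∈Stab γ∩Stab β} 1/(∣Stab γ∣∣Fix σ∣)) satisfies TV(μ_t, π) ≤ 1/4 for all t ≥ C(n+1)^k, where π(β) ∝ ∣Stab β∣. -/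
theorem result :
  ∃ C k : ℕ, ∀ n : ℕ, ∀ α : SimpleGraph (Fin n), ∀ μ : ℕ → SimpleGraph (Fin n) → ℝ,
    μ 0 α = 1 → (∀ β : SimpleGraph (Fin n), β ≠ α → μ 0 β = 0) →
    (∀ (t : ℕ) (β : SimpleGraph (Fin n)),
      μ (t + 1) β = ∑ᶠ γ : SimpleGraph (Fin n), μ t γ *
        ∑ᶠ σ ∈ {σ : Equiv.Perm (Fin n) |
            SimpleGraph.comap (⇑σ) γ = γ ∧ SimpleGraph.comap (⇑σ) β = β},
          1 / ((({τ : Equiv.Perm (Fin n) | SimpleGraph.comap (⇑τ) γ = γ}).ncard : ℝ) *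
               (({δ : SimpleGraph (Fin n) | SimpleGraph.comap (⇑σ) δ = δ}).ncard : ℝ))) →
    ∀ t : ℕ, C * (n + 1) ^ k ≤ t →
      (1 / 2 : ℝ) * ∑ᶠ β : SimpleGraph (Fin n),
        |μ t β - (({τ : Equiv.Perm (Fin n) | SimpleGraph.comap (⇑τ) β = β}).ncard : ℝ) /
          ∑ᶠ γ : SimpleGraph (Fin n),
            (({τ : Equiv.Perm (Fin n) | SimpleGraph.comap (⇑τ) γ = γ}).ncard : ℝ)| ≤ 1 / 4 := by
  obtain ⟨C, hC⟩ := mixing
  refine ⟨C, 1, fun n α μ h0 h1 hrec t ht => ?_⟩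
  refine conv C hC α μ h0 h1 hrec t ?_
  rw [Fintype.card_fin]
  rw [pow_one] at ht
  exact ht

end Pool.Agent.S19647
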